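import Mathlib

set_option autoImplicit false

/-!
Row V2: virtual complements in finitely generated abelian groups.

`exists_virtual_compl`: by Zorn's lemma (`zorn_le₀` or `zorn_le_nonempty₀`; the union of a chain of
subgroups meeting `A` trivially meets `A` trivially; or use that finitely generated abelian groups
are noetherian) there is a maximal subgroup `N` with `N ⊓ A = ⊥`.  Claim: every `b : B` has a
positive power in `N ⊔ A`.  If not, `N' = N ⊔ ⟨b⟩` is larger than `N` (`b ∉ N`) and meets `A`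
trivially: if `n * b ^ k = a` then `b ^ k ∈ N ⊔ A`, so `k = 0` and `n = a = 1`.  Hence
`B ⧸ (N ⊔ A)` is a finitely generated torsion abelian group, hence finite (Mathlib:
`CommGroup.finite_of_fg_torsion`, `AddCommGroup.finite_of_fg_torsion`), so `N ⊔ A` has finite index
(`Subgroup.finiteIndex_of_finite_quotient`).

`exists_pow_index`: a finitely generated abelian group: the subgroup of `n`-th powers has finite
index (the quotient is finitely generated and torsion).

`exists_torsionFree_pow`: in a finitely generated abelian group there is `n > 0` such that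
`b ^ (n * k) = 1`, `k > 0` imply `b ^ n = 1` (the torsion subgroup is finitely generated, hence
finite, let `n` be its exponent/cardinality).
-/

namespace Pool.Agent.LR

universe u

private theorem V2_fi {B : Type u} [CommGroup B] (hB : Group.FG B) (C : Subgroup B)
    (h : ∀ b : B, ∃ n : ℕ, 0 < n ∧ b ^ n ∈ C) : C.FiniteIndex := by
  have h1 : Group.FG (B ⧸ C) := QuotientGroup.fg C
  have h2 : IsMulTorsion (B ⧸ C) := by
    intro x
    induction x using QuotientGroup.induction_on with
    | H b =>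
      obtain ⟨n, hn, hb⟩ := h b
      rw [isOfFinOrder_iff_pow_eq_one]
      refine ⟨n, hn, ?_⟩
      rw [← QuotientGroup.mk_pow]
      exact (QuotientGroup.eq_one_iff _).mpr hb
  have h3 : Finite (B ⧸ C) := CommGroup.finite_of_fg_isMulTorsion _ h2
  exact Subgroup.finiteIndex_of_finite_quotient

theorem exists_virtual_compl {B : Type u} [CommGroup B] (hB : Group.FG B) (A : Subgroup B) :
    ∃ N : Subgroup B, N ⊓ A = ⊥ ∧ (N ⊔ A).FiniteIndex := by
  obtain ⟨N, hN⟩ := zorn_le₀ {N : Subgroup B | N ⊓ A = ⊥} (by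
    intro c hc hch
    rcases c.eq_empty_or_nonempty with rfl | hne
    · exact ⟨⊥, by simp, by simp⟩
    · refine ⟨sSup c, ?_, fun z hz => le_sSup hz⟩
      show sSup c ⊓ A = ⊥
      rw [eq_bot_iff]
      rintro x ⟨hx, hxA⟩
      obtain ⟨s, hs, hxs⟩ := (Subgroup.mem_sSup_of_directedOn hne hch.directedOn).mp hx
      have h1 : x ∈ s ⊓ A := ⟨hxs, hxA⟩
      have h2 : s ⊓ A = ⊥ := hc hs
      rwa [h2] at h1)
  have hNA : N ⊓ A = ⊥ := hN.1
  refine ⟨N, hNA, V2_fi hB _ fun b => ?_⟩
  by_contra hcon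
  push Not at hcon
  have hz : ∀ k : ℤ, b ^ k ∈ N ⊔ A → k = 0 := by
    intro k hk
    by_contra hk0
    refine hcon k.natAbs (Int.natAbs_pos.mpr hk0) ?_
    rcases Int.natAbs_eq k with h | h
    · rw [h, zpow_natCast] at hk
      exact hk
    · rw [h, zpow_neg, zpow_natCast] at hk
      exact (Subgroup.inv_mem_iff _).mp hk
  have h1 : N ⊔ Subgroup.zpowers b ∈ {N : Subgroup B | N ⊓ A = ⊥} := by
    show (N ⊔ Subgroup.zpowers b) ⊓ A = ⊥
    rw [eq_bot_iff]
    rintro x ⟨hx, hxA⟩
    have hx' : x ∈ N ⊔ Subgroup.zpowers b := hx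
    rw [Subgroup.mem_sup] at hx'
    obtain ⟨n, hn, _, ⟨k, rfl⟩, rfl⟩ := hx'
    have hk : b ^ k ∈ N ⊔ A := by
      have h2 : b ^ k = n⁻¹ * (n * b ^ k) := by group
      rw [h2]
      exact Subgroup.mul_mem_sup (N.inv_mem hn) hxA
    have hk0 := hz k hk
    subst hk0
    have h3 : n ∈ N ⊓ A := ⟨hn, by simpa using hxA⟩
    rw [hNA, Subgroup.mem_bot] at h3
    simp [h3]
  have h2 := hN.2 h1 le_sup_left
  have h3 : b ∈ N := h2 (Subgroup.mem_sup_right (Subgroup.mem_zpowers b))
  exact hcon 1 one_pos (by rw [pow_one]; exact Subgroup.mem_sup_left h3)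

theorem pow_finiteIndex {B : Type u} [CommGroup B] (hB : Group.FG B) (n : ℕ) (hn : 0 < n) :
    (powMonoidHom n : B →* B).range.FiniteIndex :=
  V2_fi hB _ fun b => ⟨n, hn, b, rfl⟩

theorem exists_torsionFree_pow {B : Type u} [CommGroup B] (hB : Group.FG B) :
    ∃ n : ℕ, 0 < n ∧ ∀ (b : B) (k : ℕ), 0 < k → b ^ (n * k) = 1 → b ^ n = 1 := by
  set T := CommGroup.torsion B with hT
  have h1 : T.FG := by
    rw [Subgroup.fg_iff_add_fg]
    have h3 : AddGroup.FG (Additive B) := GroupFG.iff_add_fg.mp hB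
    have h4 : Module.Finite ℤ (Additive B) := Module.Finite.iff_addGroup_fg.mpr h3
    have h5 : IsNoetherian ℤ (Additive B) := isNoetherian_of_isNoetherianRing_of_finite ℤ _
    have h6 := h5.noetherian (AddSubgroup.toIntSubmodule (Subgroup.toAddSubgroup T))
    rw [Submodule.fg_iff_addSubgroup_fg] at h6
    exact h6
  have h2 : Group.FG T := (Group.fg_iff_subgroup_fg T).mpr h1
  have h3 : IsMulTorsion T := fun x => by
    have h : IsOfFinOrder (x : B) := x.2
    rw [isOfFinOrder_iff_pow_eq_one] at h ⊢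
    obtain ⟨n, hn, h⟩ := h
    exact ⟨n, hn, Subtype.ext (by simpa using h)⟩
  have h4 : Finite T := CommGroup.finite_of_fg_isMulTorsion _ h3
  have hc : 0 < Nat.card T := Nat.card_pos
  refine ⟨Nat.card T, hc, fun b k hk hb => ?_⟩
  have hbT : b ∈ T := by
    show IsOfFinOrder b
    rw [isOfFinOrder_iff_pow_eq_one]
    exact ⟨_, Nat.mul_pos hc hk, hb⟩
  have h5 : (⟨b, hbT⟩ : T) ^ Nat.card T = 1 := pow_card_eq_one'
  exact congrArg Subtype.val h5

end Pool.Agent.LR
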