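import Pool.Agent.Lib.MP_836f52_al_LR.AbCompl

set_option autoImplicit false

/-!
Row V3: averaging a retraction onto an abelian subgroup.

`avg`.  For `h ∈ H` let `ρ_h x = h ρ(h⁻¹ x h) h⁻¹`, a homomorphism `L → A`.  By `hP`, `ρ_{h p} = ρ_h`
for `p ∈ P`, so `F x = ∏ ρ_h x` over the finitely many cosets `h P` of `P` in `H` is well defined
(choose representatives with `Quotient.out` in `↥H ⧸ P.subgroupOf H`); it is a homomorphism
`L → A` (`A` is commutative) and `F (g x g⁻¹) = g F(x) g⁻¹` for `g ∈ H` (left multiplication by `g`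
permutes the cosets).  For `a ∈ A` one has `F a = a ^ n`, `n` the index of `P` in `H`.  Let
`M = ker F` (as a subgroup of the big group).  `M ⊓ A = ⊥` as `A` has no torsion.  The set of
`x ∈ L` with `F x` an `n`-th power in `A` has finite index in `L` (`pow_finiteIndex` for `A`) and is
contained in `M ⊔ A`: if `F x = a ^ n = F a` then `x a⁻¹ ∈ M`.
-/

namespace Pool.Agent.LR

universe u

theorem avg {G : Type u} [Group G] (H L A P : Subgroup G) (hAL : A ≤ L)
    (hHL : ∀ h ∈ H, ∀ x ∈ L, h * x * h⁻¹ ∈ L) (hHA : ∀ h ∈ H, ∀ a ∈ A, h * a * h⁻¹ ∈ A)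
    (hcomm : ∀ a ∈ A, ∀ b ∈ A, a * b = b * a) (hAfg : A.FG)
    (htf : ∀ a ∈ A, ∀ n : ℕ, 0 < n → a ^ n = 1 → a = 1)
    (ρ : L →* A) (hρ : ∀ (a : L) (ha : (a : G) ∈ A), ρ a = ⟨(a : G), ha⟩)
    (hPH : P ≤ H) (hPfi : (P.subgroupOf H).FiniteIndex)
    (hP : ∀ p ∈ P, ∀ x y : L, (y : G) = p * x * p⁻¹ → (ρ y : G) = p * ρ x * p⁻¹) :
    ∃ M : Subgroup G, M ≤ L ∧ (∀ h ∈ H, ∀ m ∈ M, h * m * h⁻¹ ∈ M) ∧ M ⊓ A = ⊥ ∧
      ((M ⊔ A).subgroupOf L).FiniteIndex := by
  classical
  let _ : CommGroup A := { (inferInstance : Group A) with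
    mul_comm := fun a b => Subtype.ext (hcomm a a.2 b b.2) }
  have hfin : Finite (↥H ⧸ P.subgroupOf H) := Subgroup.finite_quotient_of_finiteIndex
  have := Fintype.ofFinite (↥H ⧸ P.subgroupOf H)
  -- conjugation
  let cA : H → (A →* A) := fun h =>
    { toFun := fun z => ⟨h * z * (h : G)⁻¹, hHA h h.2 z z.2⟩
      map_one' := by ext; simp
      map_mul' := fun a b => by ext; simp [mul_assoc] }
  let cL : H → (L →* L) := fun h =>
    { toFun := fun z => ⟨h * z * (h : G)⁻¹, hHL h h.2 z z.2⟩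
      map_one' := by ext; simp
      map_mul' := fun a b => by ext; simp [mul_assoc] }
  have hcA : ∀ h (z : A), ((cA h z : A) : G) = h * z * (h : G)⁻¹ := fun h z => rfl
  have hcL : ∀ h (z : L), ((cL h z : L) : G) = h * z * (h : G)⁻¹ := fun h z => rfl
  let r : H → (L →* A) := fun h => (cA h).comp (ρ.comp (cL h⁻¹))
  have hr : ∀ h (x : L), ((r h x : A) : G) = h * (ρ (cL h⁻¹ x) : G) * (h : G)⁻¹ := fun h x => rfl
  have hrp : ∀ h h' : H, (h⁻¹ * h') ∈ P.subgroupOf H → r h' = r h := by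
    intro h h' hh
    rw [Subgroup.mem_subgroupOf] at hh
    ext x
    rw [hr, hr]
    have h1 := hP _ hh (cL h'⁻¹ x) (cL h⁻¹ x) (by
      rw [hcL, hcL]; push_cast; group)
    rw [h1]
    push_cast
    group
  let q : (↥H ⧸ P.subgroupOf H) → (L →* A) := fun c => r c.out
  have hq : ∀ h : H, q (h : ↥H ⧸ P.subgroupOf H) = r h := by
    intro h
    refine hrp _ _ ?_
    have h2 : (((h : ↥H ⧸ P.subgroupOf H).out : ↥H) : ↥H ⧸ P.subgroupOf H) = h :=
      QuotientGroup.out_eq' _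
    have h3 := (QuotientGroup.eq).mp h2.symm
    exact h3
  let F : L →* A := ∏ c, q c
  have hF : ∀ x, F x = ∏ c, q c x := fun x => by
    simp [F]
  set n := Fintype.card (↥H ⧸ P.subgroupOf H) with hn
  have hnpos : 0 < n := Fintype.card_pos_iff.mpr ⟨((1 : H) : ↥H ⧸ P.subgroupOf H)⟩
  have hrA : ∀ h (a : L) (ha : (a : G) ∈ A), r h a = ⟨(a : G), ha⟩ := by
    intro h a ha
    apply Subtype.ext
    rw [hr]
    have h1 : ((cL h⁻¹ a : L) : G) ∈ A := by
      rw [hcL]
      have := hHA _ (h⁻¹).2 _ ha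
      simpa using this
    rw [hρ _ h1]
    show (h : G) * ((cL h⁻¹ a : L) : G) * (h : G)⁻¹ = a
    rw [hcL]
    push_cast
    group
  have hFA : ∀ (a : L) (ha : (a : G) ∈ A), F a = (⟨(a : G), ha⟩ : A) ^ n := by
    intro a ha
    rw [hF, Finset.prod_congr rfl (fun c _ => hrA _ a ha), Finset.prod_const, Finset.card_univ]
  have hFeq : ∀ (g : H) (x : L), F (cL g x) = cA g (F x) := by
    intro g x
    rw [hF, hF, map_prod]
    refine (Fintype.prod_equiv (MulAction.toPerm g) _ _ (fun c => ?_)).symm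
    induction c using QuotientGroup.induction_on with
    | H h =>
      have h1 : MulAction.toPerm g (h : ↥H ⧸ P.subgroupOf H) = ((g * h : H) : ↥H ⧸ P.subgroupOf H) := rfl
      rw [h1, hq, hq]
      apply Subtype.ext
      rw [hcA, hr, hr]
      have h2 : cL (g * h)⁻¹ (cL g x) = cL h⁻¹ x := by
        apply Subtype.ext
        rw [hcL, hcL, hcL]
        push_cast
        group
      rw [h2]
      push_cast
      group
  have hfiA : (powMonoidHom n : A →* A).range.FiniteIndex :=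
    pow_finiteIndex ((Group.fg_iff_subgroup_fg A).mpr hAfg) n hnpos
  refine ⟨F.ker.map L.subtype, ?_, ?_, ?_, ?_⟩
  · rintro _ ⟨x, -, rfl⟩
    exact x.2
  · rintro h hh _ ⟨x, hx, rfl⟩
    refine ⟨cL ⟨h, hh⟩ x, ?_, rfl⟩
    have hx' : F x = 1 := hx
    show F _ = 1
    rw [hFeq, hx', map_one]
  · rw [eq_bot_iff]
    rintro _ ⟨⟨x, hx, rfl⟩, hxA⟩
    have hx' : F x = 1 := hx
    have hxA' : (x : G) ∈ A := hxA
    rw [hFA x hxA'] at hx'
    have h1 : (x : G) ^ n = 1 := by
      have := congrArg Subtype.val hx'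
      simpa using this
    exact htf _ hxA' n hnpos h1
  · have h1 : ((powMonoidHom n : A →* A).range.comap F).FiniteIndex := by
      constructor
      rw [Subgroup.index_comap]
      have : ((powMonoidHom n : A →* A).range.subgroupOf F.range).FiniteIndex := inferInstance
      exact this.index_ne_zero
    refine Subgroup.finiteIndex_of_le (H := (powMonoidHom n : A →* A).range.comap F) ?_
    rintro x ⟨a, ha⟩
    have ha' : a ^ n = F x := ha
    rw [Subgroup.mem_subgroupOf]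
    have h2 : F ⟨a, hAL a.2⟩ = a ^ n := hFA ⟨a, hAL a.2⟩ a.2
    have h3 : (x : G) = ((x * (⟨a, hAL a.2⟩ : L)⁻¹ : L) : G) * a := by
      push_cast; group
    rw [h3]
    refine Subgroup.mul_mem_sup ⟨x * (⟨a, hAL a.2⟩ : L)⁻¹, ?_, rfl⟩ a.2
    show F _ = 1
    rw [map_mul, map_inv, h2, ha', mul_inv_cancel]

end Pool.Agent.LR
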