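import Pool.Agent.Lib.MP_836f52_al_LR.Defs
import Pool.Agent.Lib.MP_836f52_al_H7.Tree
import Pool.Agent.Lib.MP_836f52_al_H7.VF.TreeLemmas

set_option autoImplicit false

/-!
Row S0: hyperbolic elements.

`tree_axis` of `Pool.Agent.Lib.MP_836f52_al_H7.VF.TreeLemmas` gives adjacent `x, y` with
`n ^ (k + 1) • x ∈ halfspace T x y` and `(n⁻¹) ^ k • x ∉ halfspace T x y`; its proof shows that
`n • h ⊆ h`, `h = halfspace T x y`, and that `y` is between `x` and `n • x`.  One needs: for every
`v`, `n ^ k • v ∈ h` for large `k` (and `(n⁻¹) ^ k • v ∉ h` for large `k`).  The sets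
`n ^ k • h` decrease; `n ^ k • x ∉ n ^ k • h` and `n ^ (k + 1) • x ∈ n ^ k • h`.  The geodesic from
`n ^ k • x` (`∈ n ^ (k - 1) • h`) to a point outside `h` crosses the `k` different edges
`n ^ i • (x, y)`, `i < k` (`tree_crossing`), so it has length `≥ k`; more simply prove
`dist z (n ^ k • x) ≥ k` for `z ∉ h` by induction on `k`: the geodesic from `n ^ (k + 1) • x` to
`z ∉ n ^ k • h` passes through `n ^ k • x`.  As `dist (n ^ k • v) (n ^ k • x) = dist v x`, for
`k > dist v x` the point `n ^ k • v` is in `h`.  The second claim: `(n⁻¹) ^ k • v ∈ h` means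
`v ∈ n ^ k • h`; then the geodesic from `v` to `x ∉ h` has length `≥ k`.
-/

namespace Pool.Agent.LR

open Pool.Agent.Lib.MP_836f52_al_H7

universe u v w

private theorem S0_sep {S : Type v} {T : SimpleGraph S} (hT : T.IsTree) {x y z w : S}
    (hxy : T.Adj x y) (hz : z ∉ halfspace T x y) (hw : w ∈ halfspace T x y) :
    T.dist z w = T.dist z x + T.dist x w := by
  simp only [halfspace, Set.mem_ofPred_eq] at hz hw
  have h1 : T.dist x y = 1 := SimpleGraph.dist_eq_one_iff_adj.2 hxy
  have h2 := tree_dist_adj hT hxy z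
  have c1 := T.dist_comm (u := y) (v := z)
  have c2 := T.dist_comm (u := x) (v := z)
  have c3 := T.dist_comm (u := y) (v := w)
  have c4 := T.dist_comm (u := x) (v := w)
  rcases tree_split hT w (a := z) (c := y) (z := x) (by omega) with h | h
  · omega
  · omega

theorem axis_escape {N : Type u} [Group N] {S : Type v} [MulAction N S] {T : SimpleGraph S}
    (hT : T.IsTree) (hact : ∀ (n : N) (x y : S), T.Adj x y → T.Adj (n • x) (n • y))
    (hinv : ∀ (n : N) (x y : S), T.Adj x y → n • x = y → n • y = x → False)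
    (n : N) (hfix : ∀ z : S, n • z ≠ z) :
    ∃ x y : S, T.Adj x y ∧ ∀ v : S, ∃ k0 : ℕ, ∀ k ≥ k0,
      n ^ k • v ∈ halfspace T x y ∧ (n⁻¹) ^ k • v ∉ halfspace T x y := by
  have hc := hT.1
  have hd := dist_smul (X := T) hc hact
  obtain ⟨x, y, hxy, h1, h2⟩ := VF.tree_axis hT hact n hfix
    (fun x y h e e' => hinv n x y h e e')
  have hmem : ∀ m : N, ∀ z, m • z ∈ halfspace T (m • x) (m • y) ↔ z ∈ halfspace T x y := by
    intro m z
    exact mem_halfspace_smul hc hact m x y z
  have hx : x ∉ halfspace T x y := by simpa using h2 0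
  have hnx : n • x ∈ halfspace T x y := by simpa using h1 0
  have hpos : ∀ z w, z ∉ halfspace T x y → w ∈ halfspace T x y → 1 ≤ T.dist z w := by
    intro z w hz hw
    rcases Nat.eq_zero_or_pos (T.dist z w) with h | h
    · exact absurd (hc.dist_eq_zero_iff.1 h ▸ hw) hz
    · exact h
  -- `n h ⊆ h`
  have hxn : x ∉ halfspace T (n • x) (n • y) := by
    intro h
    have h3 := h2 1
    rw [pow_one] at h3
    apply h3
    rw [← hmem n, smul_inv_smul]
    exact h
  have hsub : ∀ z, z ∈ halfspace T (n • x) (n • y) → z ∈ halfspace T x y := by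
    intro z hz
    by_contra hz'
    have e1 := S0_sep hT (hact n _ _ hxy) hxn hz
    have e2 := S0_sep hT hxy hz' hnx
    have e3 := hpos x (n • x) hx hnx
    have c1 := T.dist_comm (u := z) (v := n • x)
    have c2 := T.dist_comm (u := z) (v := x)
    omega
  have hA : ∀ k : ℕ, ∀ z, z ∉ halfspace T x y → k ≤ T.dist z (n ^ k • x) := by
    intro k
    induction k with
    | zero => intro z _; exact Nat.zero_le _
    | succ k ih =>
      intro z hz
      rcases Nat.eq_zero_or_pos k with hk | hk
      · subst hk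
        exact hpos z _ hz (h1 0)
      · have h3 : n ^ (k + 1) • x ∈ halfspace T (n • x) (n • y) := by
          rw [pow_succ', mul_smul, hmem]
          obtain ⟨j, rfl⟩ := Nat.exists_eq_succ_of_ne_zero hk.ne'
          exact h1 j
        have h4 := S0_sep hT (hact n _ _ hxy) (fun h => hz (hsub z h)) h3
        have h5 := hpos z (n • x) hz hnx
        have h6 : T.dist (n • x) (n ^ (k + 1) • x) = T.dist x (n ^ k • x) := by
          rw [pow_succ', mul_smul, hd]
        have h7 := ih x hx
        omega
  refine ⟨x, y, hxy, fun v => ⟨T.dist v x + 1, fun k hk => ⟨?_, ?_⟩⟩⟩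
  · by_contra h
    have h3 := hA k _ h
    rw [hd] at h3
    omega
  · intro h
    have h3 : x ∉ halfspace T (n ^ k • x) (n ^ k • y) := by
      intro h4
      apply h2 k
      rw [← hmem (n ^ k), inv_pow, smul_inv_smul]
      exact h4
    have h4 : v ∈ halfspace T (n ^ k • x) (n ^ k • y) := by
      rw [← hmem (n ^ k), inv_pow, smul_inv_smul] at h
      exact h
    have h5 := S0_sep hT (hact (n ^ k) _ _ hxy) h3 h4
    have h6 := hA k x hx
    have c1 := T.dist_comm (u := v) (v := x)
    omega

theorem crossing_ub' {N : Type u} [Group N] {S : Type v} [MulAction N S] {T : SimpleGraph S}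
    (hT : T.IsTree) (hact : ∀ (n : N) (x y : S), T.Adj x y → T.Adj (n • x) (n • y))
    (hfin : ∀ x y : S, T.Adj x y → {n : N | n • x = x ∧ n • y = y}.Finite) (a b : S) :
    VF.UB (fun e : VF.OE T => {n : N | ¬ (n • a ∈ halfspace T e.1.1 e.1.2 ↔
      n • b ∈ halfspace T e.1.1 e.1.2)}) := by
  obtain ⟨p⟩ := hT.1.preconnected a b
  induction p with
  | nil =>
    apply VF.UB.mono VF.UB.empty
    intro i n hn
    exact absurd Iff.rfl hn
  | cons h p ih =>
    rename_i a c b
    have h1 : VF.UB (fun e : VF.OE T => {n : N | ¬ (n • a ∈ halfspace T e.1.1 e.1.2 ↔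
        n • c ∈ halfspace T e.1.1 e.1.2)}) := by
      obtain ⟨K, hK⟩ : ∃ K : ℕ, {n : N | n • a = a ∧ n • c = c}.encard ≤ K :=
        ⟨_, (hfin a c h).encard_eq_coe_toFinset_card.le⟩
      have hsub : ∀ z z' : S, {n : N | n • a = z ∧ n • c = z'}.encard ≤ K := by
        intro z z'
        rcases Set.eq_empty_or_nonempty {n : N | n • a = z ∧ n • c = z'} with h0 | ⟨m, hm⟩
        · rw [h0]; simp
        · refine le_trans ?_ hK
          rw [← (mul_right_injective m⁻¹).encard_image]
          apply Set.encard_le_encard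
          rintro _ ⟨n, hn, rfl⟩
          simp only [Set.mem_ofPred_eq] at hm hn ⊢
          constructor
          · rw [mul_smul, inv_smul_eq_iff]
            exact hn.1.trans hm.1.symm
          · rw [mul_smul, inv_smul_eq_iff]
            exact hn.2.trans hm.2.symm
      have k1 : VF.UB (fun e : VF.OE T => {n : N | n • a = e.1.1 ∧ n • c = e.1.2}) :=
        ⟨K, fun e => hsub _ _⟩
      have k2 : VF.UB (fun e : VF.OE T => {n : N | n • a = e.1.2 ∧ n • c = e.1.1}) :=
        ⟨K, fun e => hsub _ _⟩
      apply VF.UB.mono (k1.union k2)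
      rintro ⟨⟨x, y⟩, hxy⟩ n hn
      simp only [Set.mem_ofPred_eq] at hn
      simp only at hxy
      by_cases h2 : n • a ∈ halfspace T x y
      · have h3 : n • c ∉ halfspace T x y := fun h3 => hn ⟨fun _ => h3, fun _ => h2⟩
        right
        have h4 := tree_crossing hT hxy (hact n _ _ h).symm h3 h2
        exact ⟨h4.2, h4.1⟩
      · have h3 : n • c ∈ halfspace T x y := by
          by_contra h3
          exact hn ⟨fun h4 => absurd h4 h2, fun h4 => absurd h4 h3⟩
        left
        exact tree_crossing hT hxy (hact n _ _ h) h2 h3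
    apply VF.UB.mono (h1.union ih)
    intro e n hn
    simp only [Set.mem_ofPred_eq, Set.mem_union] at hn ⊢
    tauto

end Pool.Agent.LR
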