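import Pool.Agent.Lib.MP_836f52_al_H7.Defs
import Pool.Agent.Lib.MP_836f52_al_H7.Graph

set_option autoImplicit false

/-!
# Project LR (MP_836f52_al): definitions

* `HasF G`: two homomorphisms from a finite group to `G` which are conjugate modulo every normal
  subgroup of finite index are conjugate.
* `Good K`: every finitely generated group with a subgroup of finite index that embeds in `K` has
  (LR) and `HasF`.
* `IsVR H`: kernel form of `IsVirtualRetract H`.
* `TreeAct G T`: `G` acts on the tree `T` without inversions and with finite edge stabilisers.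
* `Cocompact G T`: finitely many orbits of vertices and of edges.
-/

namespace Pool.Agent.LR

open Pool.Agent.Lib.MP_836f52_al_H7

universe u v w

/-- Homomorphisms from finite groups to `G` that are conjugate modulo every normal subgroup of
finite index are conjugate. -/
def HasF (G : Type u) [Group G] : Prop :=
  ∀ (D : Type u) [Group D] [Finite D] (α β : D →* G),
    (∀ M : Subgroup G, M.Normal → M.FiniteIndex →
      ∃ g : G, ∀ d : D, (g * α d * g⁻¹)⁻¹ * β d ∈ M) →
    ∃ g : G, ∀ d : D, β d = g * α d * g⁻¹

/-- Every finitely generated group with a subgroup of finite index that embeds in `K` has (LR) and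
`HasF`. -/
def Good (K : Type u) [Group K] : Prop :=
  ∀ (G : Type u) [Group G], Group.FG G → ∀ K' : Subgroup G, K'.FiniteIndex →
    ∀ f : K' →* K, Function.Injective f → HasLR G ∧ HasF G

/-- Kernel form of virtual retracts: there is a subgroup `N` normalised by `H` with `N ∩ H = 1` and
`N H` of finite index. -/
def IsVR {G : Type u} [Group G] (H : Subgroup G) : Prop :=
  ∃ N : Subgroup G, (∀ h ∈ H, ∀ n ∈ N, h * n * h⁻¹ ∈ N) ∧ N ⊓ H = ⊥ ∧ (N ⊔ H).FiniteIndex

/-- residual finiteness -/
def ResFin (G : Type u) [Group G] : Prop :=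
  ∀ g : G, g ≠ 1 → ∃ M : Subgroup G, M.Normal ∧ M.FiniteIndex ∧ g ∉ M

/-- `G` acts on the tree `T` without inversions, with finite edge stabilisers. -/
structure TreeAct (G : Type u) [Group G] {V : Type v} [MulAction G V] (T : SimpleGraph V) :
    Prop where
  tree : T.IsTree
  adj : ∀ (g : G) (x y : V), T.Adj x y → T.Adj (g • x) (g • y)
  noinv : ∀ (g : G) (x y : V), T.Adj x y → g • x = y → g • y = x → False
  fin : ∀ x y : V, T.Adj x y → {g : G | g • x = x ∧ g • y = y}.Finite

/-- finitely many orbits of vertices and of (oriented) edges -/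
structure Cocompact (G : Type u) [Group G] {V : Type v} [MulAction G V] (T : SimpleGraph V) :
    Prop where
  vert : ∃ B : Set V, B.Finite ∧ ∀ x : V, ∃ g : G, ∃ b ∈ B, g • b = x
  edge : ∃ B : Set (V × V), B.Finite ∧ ∀ x y : V, T.Adj x y →
    ∃ g : G, ∃ b ∈ B, g • b.1 = x ∧ g • b.2 = y

end Pool.Agent.LR
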