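import Pool.Agent.Lib.MP_836f52_al_LR.MarksDefs
import Pool.Agent.Lib.MP_836f52_al_LR.Defs

set_option autoImplicit false

/-!
Row BI: a retraction from a biset.

Let `L = {g : G | ∃ h : H, (g, h) • s = s}`, a subgroup of `G` containing `H`.  The `h` is unique
(if `(g, h) • s = s = (g, h') • s` then `(1, h'⁻¹ h) • s = s`), and `g ↦ h` is a homomorphism
`L →* H`, the identity on `H`.  `L` has finite index: the set of the orbits of `1 × H` in `Q` is finite
(`hfin`), `G` acts on it, and `L` is the stabiliser of the orbit of `s`: if `(g, 1) • s` and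
`(g', 1) • s` are in the same orbit of `1 × H` then `g⁻¹ g' ∈ L`.
-/

namespace Pool.Agent.LR

open Pool.Agent.Lib.MP_836f52_al_H7

universe u v

/-- the domain of the retraction -/
private def biL {G : Type u} [Group G] (H : Subgroup G) {Q : Type v} [MulAction (G × H) Q]
    (s : Q) : Subgroup G where
  carrier := {g | ∃ h : H, (g, h) • s = s}
  mul_mem' := by
    rintro a b ⟨h, hh⟩ ⟨k, hk⟩
    refine ⟨h * k, ?_⟩
    have : ((a * b, h * k) : G × H) = (a, h) * (b, k) := rfl
    rw [this, mul_smul, hk, hh]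
  one_mem' := ⟨1, one_smul (G × H) s⟩
  inv_mem' := by
    rintro a ⟨h, hh⟩
    refine ⟨h⁻¹, ?_⟩
    have : ((a⁻¹, h⁻¹) : G × H) = (a, h)⁻¹ := rfl
    rw [this, inv_smul_eq_iff, hh]

theorem vr_of_biset {G : Type u} [Group G] (H : Subgroup G) {Q : Type v} [MulAction (G × H) Q]
    (hfree : FreeOn (Subgroup.prod (⊥ : Subgroup G) (⊤ : Subgroup H)) (Set.univ : Set Q))
    (hfin : FinMod (Subgroup.prod (⊥ : Subgroup G) (⊤ : Subgroup H)) (Set.univ : Set Q)) (s : Q)
    (hs : ∀ h : H, ((h : G), h) • s = s) : IsVirtualRetract H := by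
  have huniq : ∀ (g : G) (h k : H), ((g, h) : G × H) • s = s → ((g, k) : G × H) • s = s →
      h = k := by
    intro g h k h1 h2
    have h3 : ((1, h⁻¹ * k) : G × H) • s = s := by
      have : ((1, h⁻¹ * k) : G × H) = (g, h)⁻¹ * (g, k) := by
        ext <;> simp
      rw [this, mul_smul, h2, inv_smul_eq_iff, h1]
    have h4 : ((1, h⁻¹ * k) : G × H) = 1 :=
      hfree _ (Subgroup.mem_prod.mpr ⟨Subgroup.mem_bot.mpr rfl, Subgroup.mem_top _⟩) s
        (Set.mem_univ _) h3
    have h5 : h⁻¹ * k = 1 := congrArg Prod.snd h4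
    exact (inv_mul_eq_one.mp h5)
  refine ⟨biL H s, ?_, fun h hh => ⟨⟨h, hh⟩, hs ⟨h, hh⟩⟩, ?_⟩
  · obtain ⟨B, hB, hBs⟩ := hfin
    have hch : ∀ g : G, ∃ b : B, ∃ k : H, ((1, k) : G × H) • (b : Q) = ((g, 1) : G × H) • s := by
      intro g
      obtain ⟨x, hx, b, hb, hxb⟩ := hBs (((g, 1) : G × H) • s) (Set.mem_univ _)
      refine ⟨⟨b, hb⟩, x.2, ?_⟩
      have h1 : x.1 = 1 := Subgroup.mem_bot.mp (Subgroup.mem_prod.mp hx).1
      have h2 : ((1, x.2) : G × H) = x := by
        ext
        · exact h1.symm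
        · rfl
      rw [h2]
      exact hxb
    choose b k hbk using hch
    have hfinB : Finite B := hB.to_subtype
    have hinj : Function.Injective (fun q : G ⧸ biL H s => b q.out) := by
      intro q q' hqq
      have hqq' : b q.out = b q'.out := hqq
      have e1 := hbk q.out
      have e2 := hbk q'.out
      rw [← hqq'] at e2
      have e3 : ((q.out⁻¹ * q'.out, k q.out * (k q'.out)⁻¹) : G × H) • s = s := by
        have h1 : ((q.out⁻¹ * q'.out, k q.out * (k q'.out)⁻¹) : G × H)
            = (q.out, 1)⁻¹ * ((1, k q.out) * ((1, k q'.out)⁻¹ * (q'.out, 1))) := by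
          ext <;> simp
        rw [h1, mul_smul, inv_smul_eq_iff, mul_smul, mul_smul, ← e1]
        congr 1
        rw [inv_smul_eq_iff, e2]
      have e4 : q.out⁻¹ * q'.out ∈ biL H s := ⟨_, e3⟩
      have e5 := QuotientGroup.eq.mpr e4
      rwa [QuotientGroup.out_eq', QuotientGroup.out_eq'] at e5
    have : Finite (G ⧸ biL H s) := Finite.of_injective _ hinj
    exact Subgroup.finiteIndex_of_finite_quotient
  · choose r hr using fun x : biL H s => (show ∃ h : H, ((x : G), h) • s = s from x.2)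
    refine ⟨⟨⟨r, ?_⟩, ?_⟩, ?_⟩
    · refine huniq 1 _ _ ?_ (one_smul (G × H) s)
      exact hr 1
    · intro x y
      refine huniq ((x * y : biL H s) : G) _ _ (hr (x * y)) ?_
      have : ((((x * y : biL H s) : G), r x * r y) : G × H) = ((x : G), r x) * ((y : G), r y) := rfl
      change ((((x * y : biL H s) : G), r x * r y) : G × H) • s = s
      rw [this, mul_smul, hr y, hr x]
    · intro x hx
      exact huniq (x : G) _ _ (hr x) (hs ⟨(x : G), hx⟩)

end Pool.Agent.LR
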