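import Pool.Agent.Lib.MP_836f52_al_LR.Marks

set_option autoImplicit false

/-!
Row M2: sets with equal marks are isomorphic (Burnside).

Induction on `marks H A ⊥` (the number of `H`-orbits in `A`), for all `A`, `B`.
If `A` is empty then `marks H B ⊥ = marks H A ⊥ = 0`, so `B` is empty (`marks_pos`) and any `φ` will do.
Otherwise consider the stabilisers `Λ_y = {g ∈ Λ | g • y = y}` for `y ∈ A ∪ B`; they meet `H`
trivially, so they inject into `Λ ⧸ H` and have at most `n = [Λ : H]` elements.  Let `y ∈ A ∪ B` have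
a stabiliser of the largest cardinality.  By symmetry (if `φ` is a bijection `B → A` commuting with `Λ`
take `Function.invFunOn φ B`) suppose `y ∈ A` and let `Δ = Λ_y`.  `Δ ⊓ H = ⊥` and
`marks H B Δ = marks H A Δ > 0` give `b ∈ B` fixed by `Δ`; by maximality `Λ_b = Δ`.  So
`g • y ↦ g • b` (`g ∈ Λ`) is a well defined bijection between `orb Λ y` and `orb Λ b`
commuting with `Λ`.  By `marks_union`, `marks_bijOn` (and `FinMod.mono`) the sets
`A \ orb Λ y` and `B \ orb Λ b` have equal marks, and `marks H (A \ orb Λ y) ⊥ < marks H A ⊥`.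
Glue the two bijections (`Set.piecewise`, `Set.BijOn.union`).
-/

namespace Pool.Agent.LR

universe u v w

/-- the stabiliser in `Λ` -/
private def m2_st {Γ : Type u} [Group Γ] {Y : Type v} [MulAction Γ Y] (Λ : Subgroup Γ) (y : Y) :
    Subgroup Γ := Λ ⊓ MulAction.stabilizer Γ y

private theorem m2_mem {Γ : Type u} [Group Γ] {Y : Type v} [MulAction Γ Y] {Λ : Subgroup Γ} {y : Y}
    {g : Γ} : g ∈ m2_st Λ y ↔ g ∈ Λ ∧ g • y = y := by
  unfold m2_st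
  rw [Subgroup.mem_inf, MulAction.mem_stabilizer_iff]

private theorem m2_inj {Γ : Type u} [Group Γ] {Y : Type v} [MulAction Γ Y] (Λ H : Subgroup Γ)
    {A : Set Y} (fA : FreeOn H A) {y : Y} (hy : y ∈ A) :
    Function.Injective (fun g : m2_st Λ y =>
      (QuotientGroup.mk (⟨g.1, (m2_mem.1 g.2).1⟩ : Λ) : Λ ⧸ H.subgroupOf Λ)) := by
  intro g g' h
  simp only at h
  rw [QuotientGroup.eq, Subgroup.mem_subgroupOf] at h
  have h1 : (g.1)⁻¹ * g'.1 ∈ H := h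
  have h2 : ((g.1)⁻¹ * g'.1) • y = y := by
    rw [mul_smul, (m2_mem.1 g'.2).2, inv_smul_eq_iff, (m2_mem.1 g.2).2]
  have h3 := fA _ h1 y hy h2
  exact Subtype.ext (inv_mul_eq_one.1 h3)

private theorem m2_bd {Γ : Type u} [Group Γ] {Y : Type v} [MulAction Γ Y] (Λ H : Subgroup Γ)
    (hfi : (H.subgroupOf Λ).FiniteIndex)
    {A : Set Y} (fA : FreeOn H A) {y : Y} (hy : y ∈ A) :
    Finite (m2_st Λ y) ∧ Nat.card (m2_st Λ y) ≤ Nat.card (Λ ⧸ H.subgroupOf Λ) := by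
  have hf : Finite (Λ ⧸ H.subgroupOf Λ) := Subgroup.finite_quotient_of_finiteIndex
  exact ⟨Finite.of_injective _ (m2_inj Λ H fA hy), Nat.card_le_card_of_injective _
    (m2_inj Λ H fA hy)⟩

private theorem m2_orb {Γ : Type u} [Group Γ] {Y : Type v} [MulAction Γ Y] (Λ : Subgroup Γ)
    (y b : Y) (hst : m2_st Λ y = m2_st Λ b) :
    ∃ ψ : Y → Y, Set.BijOn ψ (orb Λ y) (orb Λ b) ∧
      ∀ g ∈ Λ, ∀ z ∈ orb Λ y, ψ (g • z) = g • ψ z := by
  classical
  let ψ : Y → Y := fun z => if h : z ∈ orb Λ y then h.choose • b else z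
  have key : ∀ g ∈ Λ, ψ (g • y) = g • b := by
    intro g hg
    have h : g • y ∈ orb Λ y := ⟨g, hg, rfl⟩
    have h1 := h.choose_spec
    simp only [ψ, dif_pos h]
    have h2 : g⁻¹ * h.choose ∈ m2_st Λ y := by
      rw [m2_mem]
      refine ⟨Λ.mul_mem (Λ.inv_mem hg) h1.1, ?_⟩
      rw [mul_smul, h1.2, inv_smul_smul]
    rw [hst, m2_mem, mul_smul, inv_smul_eq_iff] at h2
    exact h2.2
  refine ⟨ψ, ⟨?_, ?_, ?_⟩, ?_⟩
  · rintro _ ⟨g, hg, rfl⟩
    rw [key g hg]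
    exact ⟨g, hg, rfl⟩
  · rintro _ ⟨g, hg, rfl⟩ _ ⟨g', hg', rfl⟩ h
    rw [key g hg, key g' hg'] at h
    have h2 : g⁻¹ * g' ∈ m2_st Λ b := by
      rw [m2_mem]
      refine ⟨Λ.mul_mem (Λ.inv_mem hg) hg', ?_⟩
      rw [mul_smul, ← h, inv_smul_smul]
    rw [← hst, m2_mem, mul_smul, inv_smul_eq_iff] at h2
    exact h2.2.symm
  · rintro _ ⟨g, hg, rfl⟩
    exact ⟨g • y, ⟨g, hg, rfl⟩, key g hg⟩
  · rintro g hg _ ⟨g', hg', rfl⟩
    rw [← mul_smul, key _ (Λ.mul_mem hg hg'), key _ hg', mul_smul]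

private theorem m2_main {Γ : Type u} [Group Γ] {Y : Type v} [MulAction Γ Y] (Λ H : Subgroup Γ)
    (hHΛ : H ≤ Λ) (hfi : (H.subgroupOf Λ).FiniteIndex) (n : ℕ) :
    ∀ (A B : Set Y), marks H A ⊥ = n → (∀ g ∈ Λ, ∀ y ∈ A, g • y ∈ A) →
    (∀ g ∈ Λ, ∀ y ∈ B, g • y ∈ B) → FreeOn H A → FreeOn H B → FinMod H A → FinMod H B →
    (∀ Δ : Subgroup Γ, Δ ≤ Λ → Δ ⊓ H = ⊥ → marks H A Δ = marks H B Δ) →
    ∃ φ : Y → Y, Set.BijOn φ A B ∧ ∀ g ∈ Λ, ∀ y ∈ A, φ (g • y) = g • φ y := by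
  classical
  induction n using Nat.strong_induction_on with
  | _ n ih =>
  -- the step with a maximal stabiliser in the first set
  have step : ∀ (A B : Set Y), marks H A ⊥ = n → (∀ g ∈ Λ, ∀ y ∈ A, g • y ∈ A) →
      (∀ g ∈ Λ, ∀ y ∈ B, g • y ∈ B) → FreeOn H A → FreeOn H B → FinMod H A → FinMod H B →
      (∀ Δ : Subgroup Γ, Δ ≤ Λ → Δ ⊓ H = ⊥ → marks H A Δ = marks H B Δ) →
      ∀ y ∈ A, (∀ z ∈ B, Nat.card (m2_st Λ z) ≤ Nat.card (m2_st Λ y)) →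
      ∃ φ : Y → Y, Set.BijOn φ A B ∧ ∀ g ∈ Λ, ∀ y ∈ A, φ (g • y) = g • φ y := by
    intro A B hn hA hB fA fB mA mB hmarks y hy hmax
    have hΔH : m2_st Λ y ⊓ H = ⊥ := by
      rw [eq_bot_iff]
      intro g hg
      rw [Subgroup.mem_inf, m2_mem] at hg
      exact Subgroup.mem_bot.2 (fA g hg.2 y hy hg.1.2)
    have hΔΛ : m2_st Λ y ≤ Λ := fun g hg => (m2_mem.1 hg).1
    have h1 : 0 < marks H B (m2_st Λ y) := by
      rw [← hmarks _ hΔΛ hΔH, marks_pos mA]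
      exact ⟨y, hy, fun d hd => (m2_mem.1 hd).2⟩
    rw [marks_pos mB] at h1
    obtain ⟨b, hb, hfix⟩ := h1
    have hfin := (m2_bd Λ H hfi fB hb).1
    have hst : m2_st Λ y = m2_st Λ b := by
      refine Subgroup.eq_of_le_of_card_ge (fun g hg => ?_) (hmax b hb)
      exact m2_mem.2 ⟨hΔΛ hg, hfix g hg⟩
    obtain ⟨ψ, hψ, hψΛ⟩ := m2_orb Λ y b hst
    have hoy : orb Λ y ⊆ A := by
      rintro _ ⟨g, hg, rfl⟩
      exact hA g hg y hy
    have hob : orb Λ b ⊆ B := by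
      rintro _ ⟨g, hg, rfl⟩
      exact hB g hg b hb
    have hinv : ∀ x : Y, ∀ g ∈ Λ, ∀ z ∈ orb Λ x, g • z ∈ orb Λ x := by
      rintro x g hg _ ⟨g', hg', rfl⟩
      exact ⟨g * g', Λ.mul_mem hg hg', mul_smul _ _ _⟩
    have hdinv : ∀ (C : Set Y) (x : Y), (∀ g ∈ Λ, ∀ z ∈ C, g • z ∈ C) →
        ∀ g ∈ Λ, ∀ z ∈ C \ orb Λ x, g • z ∈ C \ orb Λ x := by
      intro C x hC g hg z hz
      refine ⟨hC g hg z hz.1, fun h => hz.2 ?_⟩
      have := hinv x g⁻¹ (Λ.inv_mem hg) _ h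
      rwa [inv_smul_smul] at this
    have hsplit : ∀ (C : Set Y) (x : Y), FinMod H C → (∀ g ∈ Λ, ∀ z ∈ C, g • z ∈ C) →
        orb Λ x ⊆ C → ∀ Δ : Subgroup Γ,
        marks H C Δ = marks H (orb Λ x) Δ + marks H (C \ orb Λ x) Δ := by
      intro C x mC hC hx Δ
      rw [← marks_union (mC.mono hx) (mC.mono Set.sdiff_subset)
        (fun h hh z hz => hinv x h (hHΛ hh) z hz) Set.disjoint_sdiff_right Δ,
        Set.union_sdiff_cancel hx]
    have hm : ∀ Δ : Subgroup Γ, Δ ≤ Λ → marks H (orb Λ b) Δ = marks H (orb Λ y) Δ :=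
      fun Δ hΔ => marks_bijOn hHΛ hΔ (fun g hg z hz => hinv y g hg z hz) ψ hψ hψΛ
    have hlt : marks H (A \ orb Λ y) ⊥ < n := by
      have h2 := hsplit A y mA hA hoy ⊥
      have h3 : 0 < marks H (orb Λ y) ⊥ := by
        rw [marks_pos (mA.mono hoy)]
        refine ⟨y, ⟨1, Λ.one_mem, one_smul _ _⟩, fun d hd => ?_⟩
        rw [Subgroup.mem_bot.1 hd, one_smul]
      omega
    obtain ⟨φ', hφ', hφ'Λ⟩ := ih _ hlt (A \ orb Λ y) (B \ orb Λ b) rfl (hdinv A y hA)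
      (hdinv B b hB) (fun h hh z hz => fA h hh z hz.1) (fun h hh z hz => fB h hh z hz.1)
      (mA.mono Set.sdiff_subset) (mB.mono Set.sdiff_subset) (fun Δ hΔ hΔ' => by
        have h2 := hsplit A y mA hA hoy Δ
        have h3 := hsplit B b mB hB hob Δ
        have h4 := hmarks Δ hΔ hΔ'
        have h5 := hm Δ hΔ
        omega)
    refine ⟨fun z => if z ∈ orb Λ y then ψ z else φ' z, ⟨?_, ?_, ?_⟩, ?_⟩
    · intro z hz
      by_cases h : z ∈ orb Λ y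
      · simp only [if_pos h]
        exact hob (hψ.mapsTo h)
      · simp only [if_neg h]
        exact (hφ'.mapsTo ⟨hz, h⟩).1
    · intro z hz z' hz' he
      by_cases h : z ∈ orb Λ y <;> by_cases h' : z' ∈ orb Λ y
      · simp only [if_pos h, if_pos h'] at he
        exact hψ.injOn h h' he
      · simp only [if_pos h, if_neg h'] at he
        exact absurd (hψ.mapsTo h) (by rw [he]; exact (hφ'.mapsTo ⟨hz', h'⟩).2)
      · simp only [if_neg h, if_pos h'] at he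
        exact absurd (hψ.mapsTo h') (by rw [← he]; exact (hφ'.mapsTo ⟨hz, h⟩).2)
      · simp only [if_neg h, if_neg h'] at he
        exact hφ'.injOn ⟨hz, h⟩ ⟨hz', h'⟩ he
    · intro w hw
      by_cases h : w ∈ orb Λ b
      · obtain ⟨z, hz, rfl⟩ := hψ.surjOn h
        exact ⟨z, hoy hz, by simp only [if_pos hz]⟩
      · obtain ⟨z, hz, rfl⟩ := hφ'.surjOn ⟨hw, h⟩
        exact ⟨z, hz.1, by simp only [if_neg hz.2]⟩
    · intro g hg z hz
      by_cases h : z ∈ orb Λ y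
      · simp only [if_pos h, if_pos (hinv y g hg z h)]
        exact hψΛ g hg z h
      · simp only [if_neg h, if_neg (hdinv A y hA g hg z ⟨hz, h⟩).2]
        exact hφ'Λ g hg z ⟨hz, h⟩
  intro A B hn hA hB fA fB mA mB hmarks
  have hmb : marks H B ⊥ = n := by rw [← hn, hmarks ⊥ bot_le (bot_inf_eq H)]
  rcases Set.eq_empty_or_nonempty (A ∪ B) with he | hne
  · have hAe : A = ∅ := by
      rw [Set.union_empty_iff] at he
      exact he.1
    have hBe : B = ∅ := by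
      rw [Set.union_empty_iff] at he
      exact he.2
    subst hAe
    subst hBe
    exact ⟨id, Set.bijOn_empty _, fun _ _ _ h => h.elim⟩
  -- a point with the largest stabiliser
  have hbd : ∀ z ∈ A ∪ B, Nat.card (m2_st Λ z) ≤ Nat.card (Λ ⧸ H.subgroupOf Λ) := by
    rintro z (hz | hz)
    · exact (m2_bd Λ H hfi fA hz).2
    · exact (m2_bd Λ H hfi fB hz).2
  have hbdd : BddAbove ((fun z : Y => Nat.card (m2_st Λ z)) '' (A ∪ B)) := by
    refine ⟨Nat.card (Λ ⧸ H.subgroupOf Λ), ?_⟩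
    rintro _ ⟨z, hz, rfl⟩
    exact hbd z hz
  obtain ⟨y, hy, hymax⟩ := Nat.sSup_mem (hne.image _) hbdd
  have hmax : ∀ z ∈ A ∪ B, Nat.card (m2_st Λ z) ≤ Nat.card (m2_st Λ y) := by
    intro z hz
    have := le_csSup hbdd ⟨z, hz, rfl⟩
    rw [← hymax] at this
    exact this
  rcases hy with hy | hy
  · exact step A B hn hA hB fA fB mA mB hmarks y hy fun z hz => hmax z (Or.inr hz)
  · obtain ⟨φ, hφ, hφΛ⟩ := step B A hmb hB hA fB fA mB mA
      (fun Δ hΔ hΔ' => (hmarks Δ hΔ hΔ').symm) y hy fun z hz => hmax z (Or.inl hz)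
    have : Nonempty Y := ⟨y⟩
    refine ⟨Function.invFunOn φ B, hφ.invOn_invFunOn.symm.bijOn hφ.surjOn.mapsTo_invFunOn
      hφ.mapsTo, ?_⟩
    intro g hg z hz
    have h1 := Function.invFunOn_mem (hφ.surjOn hz)
    have h2 := Function.invFunOn_eq (hφ.surjOn hz)
    have h3 := Function.invFunOn_mem (hφ.surjOn (hA g hg z hz))
    have h4 := Function.invFunOn_eq (hφ.surjOn (hA g hg z hz))
    refine hφ.injOn h3 (hB g hg _ h1) ?_
    rw [h4, hφΛ g hg _ h1, h2]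

theorem burn {Γ : Type u} [Group Γ] {Y : Type v} [MulAction Γ Y] (Λ H : Subgroup Γ)
    (hHΛ : H ≤ Λ) (hnorm : ∀ g ∈ Λ, ∀ h ∈ H, g * h * g⁻¹ ∈ H)
    (hfi : (H.subgroupOf Λ).FiniteIndex) (A B : Set Y) (hA : ∀ g ∈ Λ, ∀ y ∈ A, g • y ∈ A)
    (hB : ∀ g ∈ Λ, ∀ y ∈ B, g • y ∈ B) (fA : FreeOn H A) (fB : FreeOn H B) (mA : FinMod H A)
    (mB : FinMod H B)
    (hmarks : ∀ Δ : Subgroup Γ, Δ ≤ Λ → Δ ⊓ H = ⊥ → marks H A Δ = marks H B Δ) :
    ∃ φ : Y → Y, Set.BijOn φ A B ∧ ∀ g ∈ Λ, ∀ y ∈ A, φ (g • y) = g • φ y :=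
  m2_main Λ H hHΛ hfi _ A B rfl hA hB fA fB mA mB hmarks

end Pool.Agent.LR
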