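import Mathlib

set_option autoImplicit false

/-!
Row V6: cocycles of a finite group with values in a torsion-free abelian normal subgroup.

`Z` is a commutative torsion-free subgroup normalised by the image of `α : D →* G`, `D` finite, and
`c : D → Z` satisfies `β d = c d * α d` for a homomorphism `β` (so `c (d e) = c d * ᵈc e`,
`ᵈz = α d * z * (α d)⁻¹`).  Suppose there is `z ∈ Z` such that all
`c d * (α d * z * (α d)⁻¹ * z⁻¹)` are `n`-th powers of elements of `Z`, `n = card D`.  Then `β` is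
conjugate to `α` by an element of `Z`.

Proof.  Write `c d * (α d z (α d)⁻¹ z⁻¹) = w d ^ n`.  The left hand side is a cocycle
(`c` times a coboundary), so `(w (d e)) ^ n = (w d * ᵈw e) ^ n` and, `Z` being torsion-free and
commutative, `w (d e) = w d * ᵈw e`.  Let `t = ∏ e, w e`.  Then `ᵈt = ∏ e, ᵈw e
= ∏ e, (w d)⁻¹ * w (d e) = (w d)⁻ⁿ t`, so `w d ^ n = t * (ᵈt)⁻¹`.  Hence
`c d = (z t) * ᵈ(z t)⁻¹`, i.e. `β d = c d α d = (z t) α d (z t)⁻¹`.
-/

namespace Pool.Agent.LR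

universe u v

private theorem V6_aux {G : Type u} [Group G] {D : Type v} [Group D] [Finite D] (Z : Subgroup G)
    (hcomm : ∀ a ∈ Z, ∀ b ∈ Z, a * b = b * a)
    (htf : ∀ a ∈ Z, ∀ n : ℕ, 0 < n → a ^ n = 1 → a = 1)
    (α β : D →* G) (hα : ∀ d, ∀ z ∈ Z, α d * z * (α d)⁻¹ ∈ Z)
    (w : D → G) (hwZ : ∀ d, w d ∈ Z) (hw : ∀ d, β d = w d ^ Nat.card D * α d) :
    ∃ t ∈ Z, ∀ d, β d = t * α d * t⁻¹ := by
  classical
  have := Fintype.ofFinite D
  let _ : CommGroup Z := { (inferInstance : Group Z) with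
    mul_comm := fun a b => Subtype.ext (hcomm a a.2 b b.2) }
  set n := Nat.card D with hn
  have hnpos : 0 < n := Nat.card_pos
  -- conjugation homomorphisms
  let c : D → (Z →* Z) := fun d =>
    { toFun := fun z => ⟨α d * z * (α d)⁻¹, hα d z z.2⟩
      map_one' := by ext; simp
      map_mul' := fun a b => by ext; simp [mul_assoc] }
  have hc : ∀ d (z : Z), ((c d z : Z) : G) = α d * z * (α d)⁻¹ := fun d z => rfl
  let W : D → Z := fun d => ⟨w d, hwZ d⟩
  have hW : ∀ d, β d = ((W d ^ n : Z) : G) * α d := fun d => by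
    rw [hw d]; simp [W]
  have htf' : ∀ a b : Z, a ^ n = b ^ n → a = b := by
    intro a b h
    have h1 : (a * b⁻¹) ^ n = 1 := by rw [mul_pow, inv_pow, h, mul_inv_cancel]
    have h2 : ((a * b⁻¹ : Z) : G) = 1 := htf _ (a * b⁻¹).2 n hnpos (by
      have := congrArg (Subtype.val) h1
      simpa using this)
    have h3 : a * b⁻¹ = 1 := Subtype.ext h2
    exact mul_inv_eq_one.mp h3
  have hcoc : ∀ d e, W (d * e) = W d * c d (W e) := by
    intro d e
    apply htf'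
    apply Subtype.ext
    have h1 := hW (d * e)
    rw [map_mul, map_mul, hW d, hW e] at h1
    have h2 : ((W (d * e) ^ n : Z) : G) = ((W d ^ n : Z) : G) * (α d * ((W e ^ n : Z) : G) * (α d)⁻¹) := by
      have h3 : ((W (d * e) ^ n : Z) : G) = (((W d ^ n : Z) : G) * α d * (((W e ^ n : Z) : G) * α e)) * (α d * α e)⁻¹ := by
        rw [h1]; group
      rw [h3]; group
    rw [h2, mul_pow, ← map_pow]
    rw [Subgroup.coe_mul, hc]
  let t : Z := ∏ e, W e
  have ht : ∀ d, c d t = (W d ^ n)⁻¹ * t := by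
    intro d
    have h1 : c d t = ∏ e, c d (W e) := map_prod _ _ _
    have h2 : ∀ e, c d (W e) = (W d)⁻¹ * W (d * e) := by
      intro e; rw [hcoc d e]; group
    rw [h1, Finset.prod_congr rfl (fun e _ => h2 e), Finset.prod_mul_distrib]
    rw [Finset.prod_const, Finset.card_univ, ← Nat.card_eq_fintype_card, inv_pow]
    congr 1
    exact Fintype.prod_equiv (Equiv.mulLeft d) _ _ (fun e => rfl)
  refine ⟨t, t.2, fun d => ?_⟩
  have h1 : W d ^ n = t * (c d t)⁻¹ := by rw [ht d]; group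
  rw [hW d, h1]
  rw [Subgroup.coe_mul, Subgroup.coe_inv, hc]
  group

theorem conj_of_cocycle {G : Type u} [Group G] {D : Type v} [Group D] [Finite D] (Z : Subgroup G)
    (hcomm : ∀ a ∈ Z, ∀ b ∈ Z, a * b = b * a)
    (htf : ∀ a ∈ Z, ∀ n : ℕ, 0 < n → a ^ n = 1 → a = 1)
    (α β : D →* G) (hα : ∀ d, ∀ z ∈ Z, α d * z * (α d)⁻¹ ∈ Z)
    (hc : ∀ d, β d * (α d)⁻¹ ∈ Z) (z : G) (hz : z ∈ Z)
    (hw : ∀ d, ∃ w ∈ Z, β d * (α d)⁻¹ * (α d * z * (α d)⁻¹ * z⁻¹) = w ^ Nat.card D) :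
    ∃ t ∈ Z, ∀ d, β d = t * α d * t⁻¹ := by
  choose w hwZ hw using hw
  let β' : D →* G := (MulAut.conj z⁻¹).toMonoidHom.comp β
  have hβ' : ∀ d, β' d = z⁻¹ * β d * z := fun d => by simp [β']
  obtain ⟨t, ht, h⟩ := V6_aux Z hcomm htf α β' hα w hwZ (fun d => by
    rw [hβ', ← hw d]
    have h1 := hcomm (β d * (α d)⁻¹ * (α d * z * (α d)⁻¹)) (Z.mul_mem (hc d) (hα d z hz)) z⁻¹
      (Z.inv_mem hz)
    have h2 : β d * (α d)⁻¹ * (α d * z * (α d)⁻¹ * z⁻¹) = z⁻¹ * (β d * (α d)⁻¹ * (α d * z * (α d)⁻¹)) := by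
      rw [← h1]; group
    rw [h2]; group)
  refine ⟨z * t, Z.mul_mem hz ht, fun d => ?_⟩
  have h1 := h d
  rw [hβ'] at h1
  have h2 : β d = z * (z⁻¹ * β d * z) * z⁻¹ := by group
  rw [h2, h1]; group

end Pool.Agent.LR
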