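import Pool.Agent.Lib.MP_836f52_al_LR.Avg

set_option autoImplicit false

/-!
Row V4: two applications of `avg`.

`Z` is a normal subgroup of `G`, contained in the normal subgroup `K₁` of finite index and
central in it, finitely generated and torsion-free (so `Z` is commutative).

`exists_compl_normal`.  Let `L = (N₁ ⊔ Z).normalCore ⊔ Z`: normal in `G`, of finite index,
`Z ≤ L ≤ N₁ ⊔ Z ≤ K₁` (the normal core is contained in `N₁ ⊔ Z`).  Every element of `N₁ ⊔ Z` is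
`n * z` for unique `n ∈ N₁`, `z ∈ Z` (`Z` is central in `K₁`, `N₁ ⊓ Z = ⊥`), and `n * z ↦ z` is a
homomorphism `ρ : L →* Z`.  Apply `avg` with `H = ⊤`, `A = Z`, `P = L`
(`ρ (p x p⁻¹) = ρ x = p (ρ x) p⁻¹` since `Z` is abelian and central in `K₁ ≥ L`).

`exists_compl_inv`.  `exists_virtual_compl` for the abelian group `Z` gives `N ≤ Z` with
`N ⊓ A = ⊥` and `N ⊔ A` of finite index in `Z`, say `z ^ m ∈ N ⊔ A` for all `z ∈ Z`, `m > 0`.  Let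
`L = A ⊔ {z ^ m | z ∈ Z}`, invariant under `H`, and `ρ : L →* A` the restriction of the projection
`N ⊔ A → A`.  Apply `avg` with `P = H ⊓ K₁` (which centralises `Z`).  `L` has finite index in `Z`
by `pow_finiteIndex`.
-/

namespace Pool.Agent.LR

universe u

/-- projection along a complement -/
private theorem V4_proj {G : Type u} [Group G] (L A N : Subgroup G)
    (hdec : ∀ x ∈ L, ∃ a ∈ A, x * a⁻¹ ∈ N) (hNA : N ⊓ A = ⊥)
    (hcA : ∀ a ∈ A, ∀ x ∈ L, a * x = x * a) (hAL : A ≤ L) :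
    ∃ ρ : L →* A, ∀ x : L, (x : G) * (ρ x : G)⁻¹ ∈ N := by
  have huniq : ∀ x a b : G, a ∈ A → b ∈ A → x * a⁻¹ ∈ N → x * b⁻¹ ∈ N → a = b := by
    intro x a b ha hb h1 h2
    have h3 : a * b⁻¹ ∈ N := by
      have h := N.mul_mem (N.inv_mem h1) h2
      have h' : (x * a⁻¹)⁻¹ * (x * b⁻¹) = a * b⁻¹ := by group
      rwa [h'] at h
    have h4 : a * b⁻¹ ∈ N ⊓ A := ⟨h3, A.mul_mem ha (A.inv_mem hb)⟩
    rw [hNA, Subgroup.mem_bot] at h4
    exact mul_inv_eq_one.mp h4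
  choose! f hfA hfN using hdec
  refine ⟨MonoidHom.mk' (fun x => ⟨f x, hfA x x.2⟩) ?_, fun x => hfN x x.2⟩
  intro x y
  apply Subtype.ext
  show f ((x : G) * y) = f x * f y
  refine huniq (x * y) _ _ (hfA _ (L.mul_mem x.2 y.2)) (A.mul_mem (hfA _ x.2) (hfA _ y.2))
    (hfN _ (L.mul_mem x.2 y.2)) ?_
  have h1 := N.mul_mem (hfN _ x.2) (hfN _ y.2)
  have h2 := hcA _ (A.inv_mem (hfA _ x.2)) ((y : G) * (f y)⁻¹) (L.mul_mem y.2 (L.inv_mem (hAL (hfA _ y.2))))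
  have h3 : (x : G) * (f x)⁻¹ * (y * (f y)⁻¹) = x * y * (f x * f y)⁻¹ := by
    rw [mul_assoc, h2]; group
  rwa [h3] at h1

theorem exists_compl_normal {G : Type u} [Group G] (Z K₁ : Subgroup G) (hZn : Z.Normal)
    (hKn : K₁.Normal) (hKf : K₁.FiniteIndex) (hZK : Z ≤ K₁)
    (hcent : ∀ z ∈ Z, ∀ k ∈ K₁, z * k = k * z) (hfg : Z.FG)
    (htf : ∀ a ∈ Z, ∀ n : ℕ, 0 < n → a ^ n = 1 → a = 1)
    (N₁ : Subgroup G) (hN₁ : N₁ ≤ K₁) (h1 : N₁ ⊓ Z = ⊥) (h2 : (N₁ ⊔ Z).FiniteIndex) :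
    ∃ M : Subgroup G, M.Normal ∧ M ≤ K₁ ∧ M ⊓ Z = ⊥ ∧ (M ⊔ Z).FiniteIndex := by
  set L : Subgroup G := (N₁ ⊔ Z).normalCore ⊔ Z with hL
  have hLn : L.Normal := Subgroup.sup_normal _ _
  have hLN : L ≤ N₁ ⊔ Z := sup_le (Subgroup.normalCore_le _) le_sup_right
  have hLK : L ≤ K₁ := hLN.trans (sup_le hN₁ hZK)
  have hZL : Z ≤ L := le_sup_right
  have hLf : L.FiniteIndex :=
    Subgroup.finiteIndex_of_le (H := (N₁ ⊔ Z).normalCore) le_sup_left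
  obtain ⟨ρ, hρ⟩ := V4_proj L Z N₁ (by
    intro x hx
    have h3 : x ∈ N₁ ⊔ Z := hLN hx
    rw [Subgroup.mem_sup_of_normal_right] at h3
    obtain ⟨n, hn, z, hz, rfl⟩ := h3
    refine ⟨z, hz, ?_⟩
    rw [mul_inv_cancel_right]
    exact hn) h1 (fun z hz x hx => hcent z hz x (hLK hx)) hZL
  have hρZ : ∀ (a : L) (ha : (a : G) ∈ Z), ρ a = ⟨(a : G), ha⟩ := by
    intro a ha
    have h3 : (a : G) * (ρ a : G)⁻¹ ∈ N₁ ⊓ Z := ⟨hρ a, Z.mul_mem ha (Z.inv_mem (ρ a).2)⟩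
    rw [h1, Subgroup.mem_bot] at h3
    exact Subtype.ext (mul_inv_eq_one.mp h3).symm
  obtain ⟨M, hML, hMn, hMZ, hMf⟩ := avg ⊤ L Z L hZL
    (fun h _ x hx => hLn.conj_mem x hx h) (fun h _ x hx => hZn.conj_mem x hx h)
    (fun a ha b hb => hcent a ha b (hZK hb)) hfg htf ρ hρZ le_top inferInstance (by
      intro p hp x y hxy
      have h3 : y = ⟨p, hp⟩ * x * ⟨p, hp⟩⁻¹ := Subtype.ext hxy
      have h4 : (ρ y : G) = (ρ ⟨p, hp⟩ : G) * (ρ x : G) * (ρ ⟨p, hp⟩ : G)⁻¹ := by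
        rw [h3, map_mul, map_mul, map_inv]; push_cast; rfl
      have h5 := hcent (ρ x) (ρ x).2 (ρ ⟨p, hp⟩ : G) (hZK (ρ ⟨p, hp⟩).2)
      have h6 := hcent (ρ x) (ρ x).2 p (hLK hp)
      rw [h4, ← h5, ← h6]
      group)
  refine ⟨M, ⟨fun m hm g => hMn g (Subgroup.mem_top g) m hm⟩, hML.trans hLK, hMZ, ?_⟩
  have h3 : (M ⊔ Z).relIndex L ≠ 0 := hMf.index_ne_zero
  constructor
  rw [← Subgroup.relIndex_mul_index (sup_le hML hZL)]
  exact Nat.mul_ne_zero h3 hLf.index_ne_zero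

theorem exists_compl_inv {G : Type u} [Group G] (Z K₁ H A : Subgroup G) (hZn : Z.Normal)
    (hKn : K₁.Normal) (hKf : K₁.FiniteIndex) (hZK : Z ≤ K₁)
    (hcent : ∀ z ∈ Z, ∀ k ∈ K₁, z * k = k * z) (hfg : Z.FG)
    (htf : ∀ a ∈ Z, ∀ n : ℕ, 0 < n → a ^ n = 1 → a = 1)
    (hAZ : A ≤ Z) (hHA : ∀ h ∈ H, ∀ a ∈ A, h * a * h⁻¹ ∈ A) :
    ∃ B : Subgroup G, B ≤ Z ∧ (∀ h ∈ H, ∀ b ∈ B, h * b * h⁻¹ ∈ B) ∧ B ⊓ A = ⊥ ∧
      ((B ⊔ A).subgroupOf Z).FiniteIndex := by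
  classical
  let _ : CommGroup Z := { (inferInstance : Group Z) with
    mul_comm := fun a b => Subtype.ext (hcent a a.2 b (hZK b.2)) }
  have hZfg : Group.FG Z := (Group.fg_iff_subgroup_fg Z).mpr hfg
  have hcomm : ∀ a ∈ Z, ∀ b ∈ Z, a * b = b * a := fun a ha b hb => hcent a ha b (hZK hb)
  obtain ⟨N, hNA, hNf⟩ := exists_virtual_compl hZfg (A.subgroupOf Z)
  set A' : Subgroup Z := A.subgroupOf Z with hA'
  have hmemA' : ∀ x : Z, x ∈ A' ↔ (x : G) ∈ A := fun x => Subgroup.mem_subgroupOf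
  -- `A` is finitely generated
  have hAfg : A.FG := by
    have h1 : A'.FG := by
      rw [Subgroup.fg_iff_add_fg]
      have h3 : AddGroup.FG (Additive Z) := GroupFG.iff_add_fg.mp hZfg
      have h4 : Module.Finite ℤ (Additive Z) := Module.Finite.iff_addGroup_fg.mpr h3
      have h5 : IsNoetherian ℤ (Additive Z) := isNoetherian_of_isNoetherianRing_of_finite ℤ _
      have h6 := h5.noetherian (AddSubgroup.toIntSubmodule (Subgroup.toAddSubgroup A'))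
      rw [Submodule.fg_iff_addSubgroup_fg] at h6
      exact h6
    have h2 : Group.FG A' := (Group.fg_iff_subgroup_fg A').mpr h1
    have e : A' ≃* A := Subgroup.subgroupOfEquivOfLe hAZ
    have h3 : Group.FG A := Group.fg_of_surjective (f := e.toMonoidHom) e.surjective
    exact (Group.fg_iff_subgroup_fg A).mp h3
  set m := (N ⊔ A').index with hm
  have hmpos : 0 < m := Nat.pos_of_ne_zero hNf.index_ne_zero
  have hpow : ∀ z : Z, z ^ m ∈ N ⊔ A' := fun z => Subgroup.pow_index_mem _ z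
  set R : Subgroup Z := (powMonoidHom m : Z →* Z).range with hR
  have hRf : R.FiniteIndex := pow_finiteIndex hZfg m hmpos
  set L : Subgroup G := (A' ⊔ R).map Z.subtype with hL
  have hLmem : ∀ x : Z, (x : G) ∈ L ↔ x ∈ A' ⊔ R := fun x =>
    Subgroup.mem_map_iff_mem (Subgroup.subtype_injective Z)
  have hLZ : L ≤ Z := by rintro _ ⟨x, -, rfl⟩; exact x.2
  have hAL : A ≤ L := fun a ha =>
    ⟨⟨a, hAZ ha⟩, Subgroup.mem_sup_left ((hmemA' _).mpr ha), rfl⟩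
  have hLN : ∀ x : Z, x ∈ A' ⊔ R → x ∈ N ⊔ A' := by
    have h1 : A' ⊔ R ≤ N ⊔ A' := by
      refine sup_le le_sup_right ?_
      rintro _ ⟨z, rfl⟩
      exact hpow z
    exact fun x hx => h1 hx
  have hNA2 : (N.map Z.subtype) ⊓ A = ⊥ := by
    rw [eq_bot_iff]
    rintro _ ⟨⟨x, hx, rfl⟩, hxA⟩
    have h1 : x ∈ N ⊓ A' := ⟨hx, (hmemA' x).mpr hxA⟩
    rw [hNA, Subgroup.mem_bot] at h1
    rw [Subgroup.mem_bot, h1, map_one]
  obtain ⟨ρ, hρ⟩ := V4_proj L A (N.map Z.subtype) (by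
    rintro _ ⟨x, hx, rfl⟩
    have h1 := hLN x hx
    rw [Subgroup.mem_sup] at h1
    obtain ⟨n, hn, a, ha, rfl⟩ := h1
    refine ⟨a, (hmemA' a).mp ha, n, hn, ?_⟩
    simp) hNA2 (fun a ha x hx => hcomm a (hAZ ha) x (hLZ hx)) hAL
  have hρA : ∀ (a : L) (ha : (a : G) ∈ A), ρ a = ⟨(a : G), ha⟩ := by
    intro a ha
    have h3 : (a : G) * (ρ a : G)⁻¹ ∈ (N.map Z.subtype) ⊓ A :=
      ⟨hρ a, A.mul_mem ha (A.inv_mem (ρ a).2)⟩
    rw [hNA2, Subgroup.mem_bot] at h3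
    exact Subtype.ext (mul_inv_eq_one.mp h3).symm
  have hHL : ∀ h ∈ H, ∀ x ∈ L, h * x * h⁻¹ ∈ L := by
    rintro h hh _ ⟨x, hx, rfl⟩
    have hx' : x ∈ A' ⊔ R := hx
    rw [Subgroup.mem_sup] at hx'
    obtain ⟨a, ha, _, ⟨z, rfl⟩, rfl⟩ := hx'
    have ha' := hHA h hh _ ((hmemA' a).mp ha)
    refine ⟨⟨h * a * h⁻¹, hAZ ha'⟩ * (⟨h * z * h⁻¹, hZn.conj_mem z z.2 h⟩ : Z) ^ m,
      Subgroup.mul_mem_sup ((hmemA' _).mpr ha') ⟨_, rfl⟩, ?_⟩
    show h * a * h⁻¹ * (h * z * h⁻¹) ^ m = h * (a * (z : G) ^ m) * h⁻¹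
    rw [conj_pow]; group
  obtain ⟨M, hML, hMn, hMA, hMf⟩ := avg H L A (H ⊓ K₁) hAL hHL hHA
    (fun a ha b hb => hcomm a (hAZ ha) b (hAZ hb)) hAfg (fun a ha => htf a (hAZ ha)) ρ hρA
    inf_le_left (by rw [Subgroup.inf_subgroupOf_left]; infer_instance) (by
      intro p hp x y hxy
      have h1 : (y : G) = x := by
        rw [hxy, ← hcent x (hLZ x.2) p hp.2, mul_inv_cancel_right]
      have h2 : y = x := Subtype.ext h1
      rw [h2, ← hcent (ρ x) (hAZ (ρ x).2) p hp.2, mul_inv_cancel_right])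
  refine ⟨M, hML.trans hLZ, hMn, hMA, ?_⟩
  have h3 : (M ⊔ A).relIndex L ≠ 0 := hMf.index_ne_zero
  have h4 : L.relIndex Z ≠ 0 := by
    have h5 : (L.subgroupOf Z).FiniteIndex := by
      refine Subgroup.finiteIndex_of_le (H := R) (fun x hx => ?_)
      rw [Subgroup.mem_subgroupOf]
      exact (hLmem x).mpr (Subgroup.mem_sup_right hx)
    exact h5.index_ne_zero
  constructor
  show (M ⊔ A).relIndex Z ≠ 0
  rw [← Subgroup.relIndex_mul_relIndex _ _ _ (sup_le hML hAL) hLZ]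
  exact Nat.mul_ne_zero h3 h4

end Pool.Agent.LR
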