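import Pool.Agent.Lib.MP_836f52_al_LR.Pigeon
import Pool.Agent.Lib.MP_836f52_al_LR.Cocyc
import Pool.Agent.Lib.MP_836f52_al_LR.Compl

set_option autoImplicit false

/-!
Row V8: `HasF` passes from `G ⧸ Z` to `G`.

Let `G₀ = M ⊔ Z`, normal of finite index, its elements are `m * z` uniquely, `M` and `Z` commute.
Let `α, β : D →* G` be conjugate modulo every normal subgroup of finite index.  By `conj_mod_sub`
(replacing `α` by a conjugate) for every such `M'` there is `g ∈ G₀` with `(g α g⁻¹)⁻¹ β ∈ M'`.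
With `M' = G₀`: `(α d)⁻¹ β d ∈ G₀`.
Step 1: in `Q = G ⧸ Z` with `Q₀` the image of `G₀` (= the image of `M`): `conj_in_sub` (for a normal
subgroup of finite index of `Q` use its preimage) gives `m ∈ M` with `β d ∈ m α d m⁻¹ Z`.
Let `α' d = m α d m⁻¹`; `(α d)⁻¹ α' d ∈ M` as `M` is normal.
Step 2: let `n = Nat.card D`, `Zⁿ = {z ^ n | z ∈ Z}` and `M'' = M ⊔ Zⁿ`, normal of finite index
(`pow_finiteIndex`).  There are `m₁ ∈ M`, `z₁ ∈ Z` with `(m₁ z₁ α d z₁⁻¹ m₁⁻¹)⁻¹ β d ∈ M''`, hence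
`β d ∈ z₁ α' d z₁⁻¹ M''` (calculate modulo the normal subgroup `M`).  So
`c d = β d (α' d)⁻¹ ∈ Z` satisfies `c d * (α' d z₁ (α' d)⁻¹ z₁⁻¹) ∈ Z ⊓ M'' = Zⁿ` (`M ⊓ Z = ⊥`).
Apply `conj_of_cocycle`.
-/

namespace Pool.Agent.LR

open Pool.Agent.Lib.MP_836f52_al_H7

universe u

private lemma cenF_comap_fi {A B : Type u} [Group A] [Group B] (f : A →* B)
    (H : Subgroup B) (h : H.FiniteIndex) : (H.comap f).FiniteIndex := by
  constructor
  rw [Subgroup.index_comap]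
  have : (H.subgroupOf f.range).FiniteIndex := by infer_instance
  exact this.index_ne_zero

/-- the subgroup of `n`-th powers of an abelian normal subgroup -/
private lemma cenF_pow {G : Type u} [Group G] (Z : Subgroup G) (hZn : Z.Normal)
    (hcomm : ∀ a ∈ Z, ∀ b ∈ Z, a * b = b * a) (hfg : Z.FG) (n : ℕ) (hn : 0 < n) :
    ∃ Y : Subgroup G, Y.Normal ∧ (∀ y ∈ Y, ∃ z ∈ Z, y = z ^ n) ∧ Y.relIndex Z ≠ 0 := by
  let Y : Subgroup G :=
    { carrier := {y | ∃ z ∈ Z, y = z ^ n}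
      one_mem' := ⟨1, Z.one_mem, by simp⟩
      mul_mem' := by
        rintro _ _ ⟨a, ha, rfl⟩ ⟨b, hb, rfl⟩
        refine ⟨a * b, Z.mul_mem ha hb, ?_⟩
        have hab : Commute a b := hcomm a ha b hb
        exact (hab.mul_pow n).symm
      inv_mem' := by
        rintro _ ⟨a, ha, rfl⟩
        exact ⟨a⁻¹, Z.inv_mem ha, by simp⟩ }
  refine ⟨Y, ⟨?_⟩, fun y hy => hy, ?_⟩
  · rintro _ ⟨a, ha, rfl⟩ g
    exact ⟨g * a * g⁻¹, hZn.conj_mem a ha g, by simp⟩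
  · let _ : CommGroup Z :=
      { (inferInstance : Group Z) with
        mul_comm := fun a b => Subtype.ext (hcomm a a.2 b b.2) }
    have hZ : Group.FG Z := (Group.fg_iff_subgroup_fg Z).2 hfg
    have h1 := pow_finiteIndex (B := Z) hZ n hn
    have h2 : (powMonoidHom n : Z →* Z).range ≤ Y.subgroupOf Z := by
      rintro _ ⟨x, rfl⟩
      rw [Subgroup.mem_subgroupOf]
      exact ⟨x, x.2, by simp [powMonoidHom]⟩
    have h3 := Subgroup.finiteIndex_of_le h2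
    exact h3.index_ne_zero

theorem cen_f {G : Type u} [Group G] (Z K₁ M : Subgroup G) [hZn : Z.Normal]
    (hKn : K₁.Normal) (hKf : K₁.FiniteIndex) (hMn : M.Normal) (hZK : Z ≤ K₁) (hMK : M ≤ K₁)
    (hcent : ∀ z ∈ Z, ∀ k ∈ K₁, z * k = k * z) (hfg : Z.FG)
    (htf : ∀ a ∈ Z, ∀ n : ℕ, 0 < n → a ^ n = 1 → a = 1)
    (hMZ : M ⊓ Z = ⊥) (hfi : (M ⊔ Z).FiniteIndex) (hG : Group.FG G) (hQ : Good (G ⧸ Z)) :
    HasF G := by
  classical
  have hcomm : ∀ a ∈ Z, ∀ b ∈ Z, a * b = b * a := fun a ha b hb => hcent a ha b (hZK hb)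
  intro D _ _ α₀ β h0
  have hG₀n : (M ⊔ Z).Normal := Subgroup.sup_normal M Z
  obtain ⟨g₀, hg₀⟩ := conj_mod_sub (M ⊔ Z) hG₀n hfi α₀ β h0
  -- replace `α₀` by its conjugate
  obtain ⟨α, hα⟩ : ∃ α : D →* G, ∀ d, α d = g₀ * α₀ d * g₀⁻¹ :=
    ⟨(MulAut.conj g₀).toMonoidHom.comp α₀, fun d => rfl⟩
  simp only [← hα] at hg₀
  suffices hmain : ∃ g : G, ∀ d, β d = g * α d * g⁻¹ by
    obtain ⟨g, hg⟩ := hmain
    refine ⟨g * g₀, fun d => ?_⟩
    rw [hg, hα]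
    group
  have hαβ : ∀ d, (α d)⁻¹ * β d ∈ M ⊔ Z := by
    obtain ⟨g, hg, hgd⟩ := hg₀ (M ⊔ Z) hG₀n hfi
    intro d
    have h1 := hgd d
    have h2 : (α d)⁻¹ * g * α d ∈ M ⊔ Z := by
      have := hG₀n.conj_mem g hg (α d)⁻¹
      simpa using this
    have h3 := (M ⊔ Z).mul_mem h2 ((M ⊔ Z).mul_mem ((M ⊔ Z).inv_mem hg) h1)
    have h4 : (α d)⁻¹ * g * α d * (g⁻¹ * ((g * α d * g⁻¹)⁻¹ * β d)) =
        (α d)⁻¹ * β d := by group
    rwa [h4] at h3
  -- Step 1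
  have hπs : Function.Surjective (QuotientGroup.mk' Z) := QuotientGroup.mk'_surjective Z
  obtain ⟨q, hq, hqd⟩ := conj_in_sub hQ (by
      have := hG
      exact Group.fg_of_surjective hπs) ((M ⊔ Z).map (QuotientGroup.mk' Z))
    (hG₀n.map _ hπs) (by
      constructor
      intro hcon
      have := Subgroup.index_map_dvd (M ⊔ Z) hπs
      rw [hcon, zero_dvd_iff] at this
      exact hfi.index_ne_zero this)
    ((QuotientGroup.mk' Z).comp α) ((QuotientGroup.mk' Z).comp β)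
    (by
      intro d
      have := Subgroup.mem_map_of_mem (QuotientGroup.mk' Z) (hαβ d)
      rwa [map_mul, map_inv] at this)
    (by
      intro N hNn hNf
      obtain ⟨g, hg, hgd⟩ := hg₀ (N.comap (QuotientGroup.mk' Z)) (hNn.comap _)
        (cenF_comap_fi _ _ hNf)
      refine ⟨QuotientGroup.mk' Z g, Subgroup.mem_map_of_mem _ hg, fun d => ?_⟩
      have := hgd d
      rw [Subgroup.mem_comap, map_mul, map_inv, map_mul, map_mul, map_inv] at this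
      exact this)
  obtain ⟨g, hg, rfl⟩ := Subgroup.mem_map.1 hq
  obtain ⟨m, hm, z, hz, rfl⟩ := Subgroup.mem_sup_of_normal_right.1 hg
  have hmz : (QuotientGroup.mk' Z (m * z) : G ⧸ Z) = QuotientGroup.mk' Z m := by
    rw [map_mul]
    have : QuotientGroup.mk' Z z = 1 := by
      rw [← MonoidHom.mem_ker, QuotientGroup.ker_mk']
      exact hz
    rw [this, mul_one]
  rw [hmz] at hqd
  obtain ⟨α', hα'⟩ : ∃ α' : D →* G, ∀ d, α' d = m * α d * m⁻¹ :=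
    ⟨(MulAut.conj m).toMonoidHom.comp α, fun d => rfl⟩
  have hc : ∀ d, β d * (α' d)⁻¹ ∈ Z := by
    intro d
    rw [← QuotientGroup.ker_mk' Z, MonoidHom.mem_ker, map_mul, map_inv, hα', map_mul, map_mul,
      map_inv]
    have := hqd d
    rw [MonoidHom.comp_apply, MonoidHom.comp_apply] at this
    rw [this]
    group
  -- Step 2
  obtain ⟨Y, hYn, hY, hYi⟩ := cenF_pow Z hZn hcomm hfg (Nat.card D) Nat.card_pos
  have hMYn : (M ⊔ Y).Normal := Subgroup.sup_normal M Y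
  have hMYf : (M ⊔ Y).FiniteIndex := by
    constructor
    have h1 : (M ⊔ Y).relIndex Z ≠ 0 := by
      intro hcon
      have := Subgroup.relIndex_dvd_of_le_left Z (le_sup_right : Y ≤ M ⊔ Y)
      rw [hcon, zero_dvd_iff] at this
      exact hYi this
    have h2 : (M ⊔ Y).relIndex (M ⊔ Y ⊔ Z) ≠ 0 := by
      rw [Subgroup.relIndex_sup_left]
      exact h1
    have h3 : (M ⊔ Y ⊔ Z).index ≠ 0 := by
      intro hcon
      have h4 : M ⊔ Z ≤ M ⊔ Y ⊔ Z := sup_le_sup_right le_sup_left Z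
      have := Subgroup.index_dvd_of_le h4
      rw [hcon, zero_dvd_iff] at this
      exact hfi.index_ne_zero this
    have h5 := Subgroup.relIndex_mul_index (le_sup_left : M ⊔ Y ≤ M ⊔ Y ⊔ Z)
    rw [← h5]
    exact mul_ne_zero h2 h3
  obtain ⟨g₁, hg₁, hg₁d⟩ := hg₀ (M ⊔ Y) hMYn hMYf
  obtain ⟨m₁, hm₁, z₁, hz₁, rfl⟩ := Subgroup.mem_sup_of_normal_right.1 hg₁
  have hkey : ∀ d, β d * (z₁ * α' d * z₁⁻¹)⁻¹ ∈ M ⊔ Y := by
    intro d
    have hm1 : QuotientGroup.mk' (M ⊔ Y) m = 1 := by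
      rw [← MonoidHom.mem_ker, QuotientGroup.ker_mk']
      exact (le_sup_left : M ≤ M ⊔ Y) hm
    have hm2 : QuotientGroup.mk' (M ⊔ Y) m₁ = 1 := by
      rw [← MonoidHom.mem_ker, QuotientGroup.ker_mk']
      exact (le_sup_left : M ≤ M ⊔ Y) hm₁
    have h1 : QuotientGroup.mk' (M ⊔ Y) ((m₁ * z₁ * α d * (m₁ * z₁)⁻¹)⁻¹ * β d) = 1 := by
      rw [← MonoidHom.mem_ker, QuotientGroup.ker_mk']
      exact hg₁d d
    rw [← QuotientGroup.ker_mk' (M ⊔ Y), MonoidHom.mem_ker]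
    simp only [hα', map_mul, map_inv, hm1, hm2, one_mul, inv_one, mul_one] at h1 ⊢
    have h2 := eq_inv_of_mul_eq_one_right h1
    rw [inv_inv] at h2
    rw [h2]
    group
  obtain ⟨t, ht, htd⟩ := conj_of_cocycle Z hcomm htf α' β
    (fun d z hz => hZn.conj_mem z hz (α' d)) hc z₁ hz₁ (by
      intro d
      have h1 := hkey d
      have h2 : β d * (α' d)⁻¹ * (α' d * z₁ * (α' d)⁻¹ * z₁⁻¹) =
          β d * (z₁ * α' d * z₁⁻¹)⁻¹ := by group
      have h3 : β d * (α' d)⁻¹ * (α' d * z₁ * (α' d)⁻¹ * z₁⁻¹) ∈ Z :=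
        Z.mul_mem (hc d) (Z.mul_mem (hZn.conj_mem z₁ hz₁ (α' d)) (Z.inv_mem hz₁))
      obtain ⟨m₂, hm₂, y, hy, hmy⟩ := Subgroup.mem_sup_of_normal_right.1 h1
      obtain ⟨w, hw, rfl⟩ := hY y hy
      have h4 : m₂ = 1 := by
        rw [← Subgroup.mem_bot, ← hMZ]
        refine Subgroup.mem_inf.2 ⟨hm₂, ?_⟩
        have h5 : m₂ = β d * (z₁ * α' d * z₁⁻¹)⁻¹ * (w ^ Nat.card D)⁻¹ := by
          rw [← hmy]
          group
        rw [h5, ← h2]
        exact Z.mul_mem h3 (Z.inv_mem (Z.pow_mem hw _))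
      refine ⟨w, hw, ?_⟩
      rw [h2, ← hmy, h4, one_mul])
  refine ⟨t * m, fun d => ?_⟩
  rw [htd, hα']
  group

end Pool.Agent.LR
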