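import Pool.Agent.Lib.MP_836f52_al_LR.Defs

set_option autoImplicit false

/-!
Row V1: virtual retracts.

* `isVR_iff`: (→) `ρ : L →* H`; `N` is the kernel of `ρ` as a subgroup of `G`; `N ⊔ H = L` because
  `x = (x (ρ x)⁻¹) (ρ x)`.  (←) `L = N ⊔ H`; as `H` normalises `N`, every element of `L` is `n * h`
  uniquely (`Subgroup.mem_sup` needs normality of one factor; prove `∀ x ∈ N ⊔ H, ∃ n ∈ N, ∃ h ∈ H,
  x = n * h` with `Subgroup.closure_induction` or by checking that the set of the `n * h` is a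
  subgroup), and `n * h ↦ h` is the retraction.
* `isVR_of_sup`: transitivity.  Let `M` be normalised by `N ⊔ H`, `M ⊓ (N ⊔ H) = ⊥`, and
  `M ⊔ (N ⊔ H)` of finite index.  Take `M ⊔ N` for `H`: an element of `M ⊔ N` is `m * n`; if it is in
  `H` then `m ∈ N ⊔ H`, so `m = 1`, and `n ∈ N ⊓ H`.
* `hasLR_iff`, `hasLR_of_injective` (the image of a finitely generated subgroup is finitely
  generated; pull back the subgroup `N`), `hasLR_of_mulEquiv`.
* `resFin_of_hasLR`: let `g ≠ 1` and let `ρ : L →* ⟨g⟩` be a virtual retraction onto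
  `Subgroup.zpowers g` (finitely generated).  If `⟨g⟩` is finite take the kernel of `ρ` (finite
  index in `L`), if not take the preimage of `⟨g ^ 2⟩`; it does not contain `g`.  Pass to the
  normal core.
-/

namespace Pool.Agent.LR

open Pool.Agent.Lib.MP_836f52_al_H7

universe u v w

private theorem V1_sup {G : Type u} [Group G] {H N : Subgroup G}
    (hN : ∀ h ∈ H, ∀ n ∈ N, h * n * h⁻¹ ∈ N) {x : G} (hx : x ∈ N ⊔ H) :
    ∃ n ∈ N, ∃ h ∈ H, x = n * h := by
  let S : Subgroup G :=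
    { carrier := {x | ∃ n ∈ N, ∃ h ∈ H, x = n * h}
      one_mem' := ⟨1, N.one_mem, 1, H.one_mem, by rw [mul_one]⟩
      mul_mem' := by
        rintro _ _ ⟨n, hn, h, hh, rfl⟩ ⟨n', hn', h', hh', rfl⟩
        exact ⟨n * (h * n' * h⁻¹), N.mul_mem hn (hN h hh n' hn'), h * h', H.mul_mem hh hh',
          by group⟩
      inv_mem' := by
        rintro _ ⟨n, hn, h, hh, rfl⟩
        have h1 := hN h⁻¹ (H.inv_mem hh) n⁻¹ (N.inv_mem hn)
        exact ⟨h⁻¹ * n⁻¹ * h⁻¹⁻¹, h1, h⁻¹, H.inv_mem hh, by group⟩ }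
  have h1 : N ⊔ H ≤ S := sup_le (fun n hn => ⟨n, hn, 1, H.one_mem, by rw [mul_one]⟩)
    (fun h hh => ⟨1, N.one_mem, h, hh, by rw [one_mul]⟩)
  exact h1 hx

private theorem V1_uniq {G : Type u} [Group G] {H N : Subgroup G} (hNH : N ⊓ H = ⊥)
    {n n' h h' : G} (hn : n ∈ N) (hn' : n' ∈ N) (hh : h ∈ H) (hh' : h' ∈ H)
    (he : n * h = n' * h') : h = h' := by
  have h1 : n'⁻¹ * n = h' * h⁻¹ := by
    rw [eq_mul_inv_iff_mul_eq, mul_assoc, he, inv_mul_cancel_left]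
  have h2 : h' * h⁻¹ ∈ N ⊓ H :=
    ⟨by rw [← h1]; exact N.mul_mem (N.inv_mem hn') hn, H.mul_mem hh' (H.inv_mem hh)⟩
  rw [hNH, Subgroup.mem_bot, mul_inv_eq_one] at h2
  exact h2.symm

private theorem V1_comap {G : Type u} [Group G] {G' : Type v} [Group G'] (f : G →* G')
    {K : Subgroup G'} (hK : K.FiniteIndex) : (K.comap f).FiniteIndex :=
  ⟨by rw [Subgroup.index_comap]; exact (K.subgroupOf f.range).index_ne_zero_of_finite⟩

private theorem V1_fg_map {G : Type u} [Group G] {G' : Type v} [Group G'] (f : G →* G')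
    {K : Subgroup G} (hK : K.FG) : (K.map f).FG := by
  classical
  obtain ⟨S, hS⟩ := hK
  exact ⟨S.image f, by rw [Finset.coe_image, ← MonoidHom.map_closure, hS]⟩

private theorem V1_cyc {G : Type u} [Group G] {g : G} (hg : g ≠ 1) :
    ∃ Q : Subgroup (Subgroup.zpowers g), Q.FiniteIndex ∧
      (⟨g, Subgroup.mem_zpowers g⟩ : Subgroup.zpowers g) ∉ Q := by
  by_cases hfin : IsOfFinOrder g
  · have hf : Finite (Subgroup.zpowers g) := finite_zpowers.2 hfin
    refine ⟨⊥, inferInstance, fun h => hg ?_⟩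
    rw [Subgroup.mem_bot] at h
    exact congrArg Subtype.val h
  · have hinj := injective_zpow_iff_not_isOfFinOrder.2 hfin
    refine ⟨(Subgroup.zpowers (g ^ (2 : ℤ))).subgroupOf (Subgroup.zpowers g), ?_, ?_⟩
    · have hfq : Finite (Subgroup.zpowers g ⧸
          (Subgroup.zpowers (g ^ (2 : ℤ))).subgroupOf (Subgroup.zpowers g)) := by
        let φ : Bool → Subgroup.zpowers g ⧸
            (Subgroup.zpowers (g ^ (2 : ℤ))).subgroupOf (Subgroup.zpowers g) := fun b =>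
          if b then QuotientGroup.mk ⟨g, Subgroup.mem_zpowers g⟩ else QuotientGroup.mk 1
        apply Finite.of_surjective φ
        intro q
        obtain ⟨⟨x, hx⟩, rfl⟩ := QuotientGroup.mk_surjective q
        obtain ⟨k, rfl⟩ := Subgroup.mem_zpowers_iff.1 hx
        obtain ⟨j, hj | hj⟩ := Int.even_or_odd' k
        · refine ⟨false, ?_⟩
          show (QuotientGroup.mk 1 : _ ⧸ _) = QuotientGroup.mk _
          rw [QuotientGroup.eq, Subgroup.mem_subgroupOf]
          refine Subgroup.mem_zpowers_iff.2 ⟨j, ?_⟩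
          rw [← zpow_mul, ← hj]
          simp
        · refine ⟨true, ?_⟩
          show (QuotientGroup.mk _ : _ ⧸ _) = QuotientGroup.mk _
          rw [QuotientGroup.eq, Subgroup.mem_subgroupOf]
          refine Subgroup.mem_zpowers_iff.2 ⟨j, ?_⟩
          rw [← zpow_mul]
          show g ^ (2 * j) = g⁻¹ * g ^ k
          rw [hj, add_comm, zpow_add, zpow_one, inv_mul_cancel_left]
      exact Subgroup.finiteIndex_of_finite_quotient
    · intro h
      rw [Subgroup.mem_subgroupOf] at h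
      obtain ⟨j, hj⟩ := Subgroup.mem_zpowers_iff.1 h
      rw [← zpow_mul] at hj
      have h1 : g ^ (2 * j) = g ^ (1 : ℤ) := by rw [hj, zpow_one]
      have h2 := hinj h1
      omega

theorem isVR_iff {G : Type u} [Group G] (H : Subgroup G) : IsVirtualRetract H ↔ IsVR H := by
  constructor
  · rintro ⟨K, hK, hHK, ρ, hρ⟩
    refine ⟨ρ.ker.map K.subtype, ?_, ?_, ?_⟩
    · rintro h hh _ ⟨k, hk, rfl⟩
      have h1 : (⟨h, hHK hh⟩ : K) * k * (⟨h, hHK hh⟩ : K)⁻¹ ∈ ρ.ker :=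
        (inferInstance : ρ.ker.Normal).conj_mem k hk ⟨h, hHK hh⟩
      exact ⟨_, h1, rfl⟩
    · rw [eq_bot_iff]
      rintro _ ⟨⟨k, hk, rfl⟩, hkH⟩
      have h1 := hρ k hkH
      have h2 : ρ k = 1 := hk
      rw [h2] at h1
      have h3 := congrArg Subtype.val h1
      rw [Subgroup.mem_bot]
      exact h3.symm
    · apply Subgroup.finiteIndex_of_le (H := K)
      intro x hx
      have hm : ((ρ ⟨x, hx⟩ : H) : G) ∈ K := hHK (ρ ⟨x, hx⟩).2
      have h1 : (⟨x, hx⟩ : K) * (⟨(ρ ⟨x, hx⟩ : H), hm⟩ : K)⁻¹ ∈ ρ.ker := by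
        rw [MonoidHom.mem_ker, map_mul, map_inv, hρ ⟨(ρ ⟨x, hx⟩ : H), hm⟩ (ρ ⟨x, hx⟩).2,
          mul_inv_eq_one]
      have h2 : x = (x * ((ρ ⟨x, hx⟩ : H) : G)⁻¹) * ((ρ ⟨x, hx⟩ : H) : G) := by group
      rw [h2]
      apply Subgroup.mul_mem
      · exact Subgroup.mem_sup_left ⟨_, h1, rfl⟩
      · exact Subgroup.mem_sup_right (ρ ⟨x, hx⟩).2
  · rintro ⟨N, hN, hNH, hfi⟩
    have hex : ∀ x : ↥(N ⊔ H), ∃ h : H, ∃ n ∈ N, (x : G) = n * h := by
      intro x
      obtain ⟨n, hn, h, hh, e⟩ := V1_sup hN x.2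
      exact ⟨⟨h, hh⟩, n, hn, e⟩
    choose f hf using hex
    refine ⟨N ⊔ H, hfi, le_sup_right, MonoidHom.mk' f ?_, ?_⟩
    · intro a b
      obtain ⟨n, hn, e1⟩ := hf a
      obtain ⟨n', hn', e2⟩ := hf b
      obtain ⟨n'', hn'', e3⟩ := hf (a * b)
      apply Subtype.ext
      refine V1_uniq hNH hn'' (N.mul_mem hn (hN (f a) (f a).2 n' hn')) (f (a * b)).2
        (f a * f b).2 ?_
      rw [← e3, Subgroup.coe_mul, e1, e2, Subgroup.coe_mul]
      group
    · intro k hk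
      obtain ⟨n, hn, e1⟩ := hf k
      apply Subtype.ext
      refine V1_uniq hNH hn N.one_mem (f k).2 hk ?_
      show n * ((f k : H) : G) = 1 * (k : G)
      rw [← e1, one_mul]

theorem isVR_of_sup {G : Type u} [Group G] (H N : Subgroup G)
    (hN : ∀ h ∈ H, ∀ n ∈ N, h * n * h⁻¹ ∈ N) (hNH : N ⊓ H = ⊥) (h : IsVR (N ⊔ H)) : IsVR H := by
  obtain ⟨M, hM, hMN, hfi⟩ := h
  have hM' : ∀ n ∈ N, ∀ m ∈ M, n * m * n⁻¹ ∈ M := fun n hn m hm =>
    hM n (Subgroup.mem_sup_left hn) m hm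
  refine ⟨M ⊔ N, ?_, ?_, ?_⟩
  · intro h hh x hx
    obtain ⟨m, hm, n, hn, rfl⟩ := V1_sup hM' hx
    have e : h * (m * n) * h⁻¹ = (h * m * h⁻¹) * (h * n * h⁻¹) := by group
    rw [e]
    exact Subgroup.mul_mem _ (Subgroup.mem_sup_left (hM h (Subgroup.mem_sup_right hh) m hm))
      (Subgroup.mem_sup_right (hN h hh n hn))
  · rw [eq_bot_iff]
    rintro x ⟨hx1, hx2⟩
    obtain ⟨m, hm, n, hn, rfl⟩ := V1_sup hM' hx1
    have h1 : m ∈ M ⊓ (N ⊔ H) := by
      refine ⟨hm, ?_⟩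
      have e : m = (m * n) * n⁻¹ := by group
      rw [e]
      exact Subgroup.mul_mem _ (Subgroup.mem_sup_right hx2)
        (Subgroup.mem_sup_left (N.inv_mem hn))
    rw [hMN, Subgroup.mem_bot] at h1
    subst h1
    rw [one_mul] at hx2 ⊢
    rw [← hNH]
    exact ⟨hn, hx2⟩
  · rw [sup_assoc]
    exact hfi

theorem hasLR_iff {G : Type u} [Group G] :
    HasLR G ↔ ∀ H : Subgroup G, H.FG → IsVR H := by
  exact forall₂_congr fun H _ => isVR_iff H

theorem hasLR_of_injective {G : Type u} [Group G] {G' : Type v} [Group G'] (f : G →* G')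
    (hf : Function.Injective f) (h : HasLR G') : HasLR G := by
  rw [hasLR_iff] at h ⊢
  intro H hH
  obtain ⟨N, hN, hNH, hfi⟩ := h (H.map f) (V1_fg_map f hH)
  refine ⟨N.comap f, ?_, ?_, ?_⟩
  · intro x hx n hn
    show f (x * n * x⁻¹) ∈ N
    rw [map_mul, map_mul, map_inv]
    exact hN (f x) ⟨x, hx, rfl⟩ (f n) hn
  · rw [eq_bot_iff]
    rintro x ⟨hx1, hx2⟩
    have h1 : f x ∈ N ⊓ H.map f := ⟨hx1, x, hx2, rfl⟩
    rw [hNH, Subgroup.mem_bot] at h1
    rw [Subgroup.mem_bot]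
    exact hf (by rw [h1, map_one])
  · have := V1_comap f hfi
    refine Subgroup.finiteIndex_of_le (H := (N ⊔ H.map f).comap f) ?_
    intro x hx
    obtain ⟨n, hn, _, ⟨y, hy, rfl⟩, e⟩ := V1_sup hN (Subgroup.mem_comap.1 hx)
    have e1 : x = (x * y⁻¹) * y := by group
    rw [e1]
    refine Subgroup.mul_mem _ (Subgroup.mem_sup_left ?_) (Subgroup.mem_sup_right hy)
    show f (x * y⁻¹) ∈ N
    rw [map_mul, map_inv, e, mul_inv_cancel_right]
    exact hn

theorem resFin_of_hasLR {G : Type u} [Group G] (h : HasLR G) : ResFin G := by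
  intro g hg
  obtain ⟨L, hL, hgL, ρ, hρ⟩ := h (Subgroup.zpowers g)
    ⟨{g}, by rw [Finset.coe_singleton, Subgroup.zpowers_eq_closure]⟩
  obtain ⟨Q, hQ, hgQ⟩ := V1_cyc hg
  have h1 := V1_comap ρ hQ
  have h2 : ((Q.comap ρ).map L.subtype).FiniteIndex :=
    ⟨by
      rw [Subgroup.index_map_subtype]
      exact Nat.mul_ne_zero h1.index_ne_zero hL.index_ne_zero⟩
  refine ⟨((Q.comap ρ).map L.subtype).normalCore, inferInstance, inferInstance, fun hg' => ?_⟩
  obtain ⟨k, hk, e⟩ := Subgroup.normalCore_le _ hg'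
  have hkg : (k : G) = g := e
  have h3 : (k : G) ∈ Subgroup.zpowers g := by rw [hkg]; exact Subgroup.mem_zpowers g
  have h4 : ρ k ∈ Q := hk
  rw [hρ k h3] at h4
  apply hgQ
  have e2 : (⟨g, Subgroup.mem_zpowers g⟩ : Subgroup.zpowers g) = ⟨(k : G), h3⟩ :=
    Subtype.ext hkg.symm
  rw [e2]
  exact h4

end Pool.Agent.LR
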