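import Pool.Agent.Lib.MP_836f52_al_LR.Compl
import Pool.Agent.Lib.MP_836f52_al_LR.VR

set_option autoImplicit false

/-!
Row V5: (LR) passes from `G ⧸ Z` to `G`.

Let `H ≤ G` be finitely generated and `π : G → G ⧸ Z`.  By (LR) for `G ⧸ Z` and `isVR_iff` there is
`N₁ ≤ G ⧸ Z` normalised by `π H`, `N₁ ⊓ π H = ⊥`, `N₁ ⊔ π H` of finite index.  Let
`N₂ = {m ∈ M | π m ∈ N₁}`; it is normalised by `H` (`M` is normal in `G`).  By
`exists_compl_inv` with `A = H ⊓ Z` there is `B ≤ Z` normalised by `H` with `B ⊓ (H ⊓ Z) = ⊥` and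
`B ⊔ (H ⊓ Z)` of finite index in `Z`.  Let `N = B ⊔ N₂` (`B ≤ Z` and `N₂ ≤ K₁` commute, so its
elements are the `b * n`).  `N` is normalised by `H`.  `N ⊓ H = ⊥`: if `b * n = h` then
`π n = π h ∈ N₁ ⊓ π H = ⊥`, so `n ∈ M ⊓ Z = ⊥`, so `h = b ∈ B ⊓ (H ⊓ Z) = ⊥`.
`N ⊔ H` has finite index: it contains `B ⊔ (H ⊓ Z)`, of finite index in `Z`, hence has finite index
in `N ⊔ H ⊔ Z = N₂ ⊔ H ⊔ Z`; and the latter is the preimage under `π` of `π N₂ ⊔ π H`, where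
`π N₂ = N₁ ⊓ π M` has finite index in `N₁` (`π M` has finite index in `G ⧸ Z` as `M ⊔ Z` has finite
index in `G`), so that `π N₂ ⊔ π H` has finite index in `N₁ ⊔ π H`.
-/

namespace Pool.Agent.LR

open Pool.Agent.Lib.MP_836f52_al_H7

universe u

private theorem v5_mem_sup {G : Type u} [Group G] {N H : Subgroup G}
    (hN : ∀ h ∈ H, ∀ n ∈ N, h * n * h⁻¹ ∈ N) {x : G} (hx : x ∈ N ⊔ H) :
    ∃ n ∈ N, ∃ h ∈ H, x = n * h := by
  let P : Subgroup G :=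
    { carrier := {x | ∃ n ∈ N, ∃ h ∈ H, x = n * h}
      one_mem' := ⟨1, N.one_mem, 1, H.one_mem, by simp⟩
      mul_mem' := by
        rintro _ _ ⟨n, hn, h, hh, rfl⟩ ⟨n', hn', h', hh', rfl⟩
        exact ⟨n * (h * n' * h⁻¹), N.mul_mem hn (hN h hh n' hn'), h * h', H.mul_mem hh hh', by group⟩
      inv_mem' := by
        rintro _ ⟨n, hn, h, hh, rfl⟩
        refine ⟨h⁻¹ * n⁻¹ * h, ?_, h⁻¹, H.inv_mem hh, by group⟩
        have := hN h⁻¹ (H.inv_mem hh) n⁻¹ (N.inv_mem hn)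
        rwa [inv_inv] at this }
  have h1 : N ⊔ H ≤ P :=
    sup_le (fun n hn => ⟨n, hn, 1, H.one_mem, by simp⟩) (fun h hh => ⟨1, N.one_mem, h, hh, by simp⟩)
  exact h1 hx

private theorem v5_reps {G : Type u} [Group G] (X Y : Subgroup G)
    (h : (X.subgroupOf Y).FiniteIndex) :
    ∃ F : Set G, F.Finite ∧ (∀ f ∈ F, f ∈ Y) ∧ ∀ y ∈ Y, ∃ f ∈ F, f⁻¹ * y ∈ X := by
  have hfin : Finite (Y ⧸ X.subgroupOf Y) := Subgroup.finite_quotient_of_finiteIndex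
  refine ⟨Set.range fun q : Y ⧸ X.subgroupOf Y => ((q.out : Y) : G), Set.finite_range _, ?_, ?_⟩
  · rintro _ ⟨q, rfl⟩
    exact (q.out : Y).2
  · intro y hy
    refine ⟨_, ⟨(QuotientGroup.mk (⟨y, hy⟩ : Y)), rfl⟩, ?_⟩
    have h1 : (QuotientGroup.mk ((QuotientGroup.mk (⟨y, hy⟩ : Y) : Y ⧸ X.subgroupOf Y).out) :
        Y ⧸ X.subgroupOf Y) = QuotientGroup.mk (⟨y, hy⟩ : Y) := QuotientGroup.out_eq' _
    rw [QuotientGroup.eq, Subgroup.mem_subgroupOf] at h1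
    exact h1

private theorem v5_fg_map {G G' : Type u} [Group G] [Group G'] (f : G →* G') {H : Subgroup G}
    (hH : H.FG) : (H.map f).FG := by
  classical
  obtain ⟨S, hS⟩ := hH
  refine ⟨S.image f, ?_⟩
  rw [← hS, MonoidHom.map_closure, Finset.coe_image]

private theorem v5_finiteIndex {G : Type u} [Group G] (X : Subgroup G) (F : Set G)
    (hF : F.Finite) (h : ∀ g, ∃ f ∈ F, f⁻¹ * g ∈ X) : X.FiniteIndex := by
  have : Finite F := hF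
  have hs : Function.Surjective (fun f : F => (QuotientGroup.mk (f : G) : G ⧸ X)) := by
    intro q
    obtain ⟨g, rfl⟩ := QuotientGroup.mk_surjective q
    obtain ⟨f, hf, hfg⟩ := h g
    exact ⟨⟨f, hf⟩, QuotientGroup.eq.2 hfg⟩
  have : Finite (G ⧸ X) := Finite.of_surjective _ hs
  exact Subgroup.finiteIndex_of_finite_quotient

theorem cen_lr {G : Type u} [Group G] (Z K₁ M : Subgroup G) [hZn : Z.Normal]
    (hKn : K₁.Normal) (hKf : K₁.FiniteIndex) (hMn : M.Normal) (hZK : Z ≤ K₁) (hMK : M ≤ K₁)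
    (hcent : ∀ z ∈ Z, ∀ k ∈ K₁, z * k = k * z) (hfg : Z.FG)
    (htf : ∀ a ∈ Z, ∀ n : ℕ, 0 < n → a ^ n = 1 → a = 1)
    (hMZ : M ⊓ Z = ⊥) (hfi : (M ⊔ Z).FiniteIndex) (hQ : HasLR (G ⧸ Z)) : HasLR G := by
  rw [hasLR_iff]
  intro H hH
  set π : G →* G ⧸ Z := QuotientGroup.mk' Z with hπ
  have hπ1 : ∀ g : G, π g = 1 ↔ g ∈ Z := fun g => QuotientGroup.eq_one_iff g
  have hπs : Function.Surjective π := QuotientGroup.mk'_surjective Z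
  obtain ⟨N₁, hN₁, hN₁H, hN₁f⟩ := hasLR_iff.1 hQ (H.map π) (v5_fg_map π hH)
  obtain ⟨B, hBZ, hHB, hB1, hB2⟩ := exists_compl_inv Z K₁ H (H ⊓ Z) hZn hKn hKf hZK hcent hfg htf
    inf_le_right (fun h hh a ha => ⟨H.mul_mem (H.mul_mem hh ha.1) (H.inv_mem hh),
      hZn.conj_mem a ha.2 h⟩)
  set N₂ : Subgroup G := M ⊓ N₁.comap π with hN₂
  have hHN₂ : ∀ h ∈ H, ∀ n ∈ N₂, h * n * h⁻¹ ∈ N₂ := by
    intro h hh n hn
    refine ⟨hMn.conj_mem n hn.1 h, ?_⟩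
    show π (h * n * h⁻¹) ∈ N₁
    rw [map_mul, map_mul, map_inv]
    exact hN₁ (π h) ⟨h, hh, rfl⟩ (π n) hn.2
  have hcomm : ∀ n ∈ N₂, ∀ b ∈ B, n * b * n⁻¹ ∈ B := by
    intro n hn b hb
    rw [← hcent b (hBZ hb) n (hMK hn.1), mul_inv_cancel_right]
    exact hb
  refine ⟨B ⊔ N₂, ?_, ?_, ?_⟩
  · intro h hh n hn
    obtain ⟨b, hb, n₂, hn₂, rfl⟩ := v5_mem_sup hcomm hn
    have : h * (b * n₂) * h⁻¹ = (h * b * h⁻¹) * (h * n₂ * h⁻¹) := by group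
    rw [this]
    exact Subgroup.mul_mem_sup (hHB h hh b hb) (hHN₂ h hh n₂ hn₂)
  · rw [eq_bot_iff]
    intro x hx
    obtain ⟨b, hb, n, hn, hxb⟩ := v5_mem_sup hcomm hx.1
    have hxH : x ∈ H := hx.2
    have h1 : π n = π x := by
      rw [hxb, map_mul, (hπ1 b).2 (hBZ hb), one_mul]
    have h2 : π n ∈ N₁ ⊓ H.map π := ⟨hn.2, by rw [h1]; exact ⟨x, hxH, rfl⟩⟩
    rw [hN₁H, Subgroup.mem_bot, hπ1] at h2
    have h3 : n ∈ M ⊓ Z := ⟨hn.1, h2⟩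
    rw [hMZ, Subgroup.mem_bot] at h3
    rw [h3, mul_one] at hxb
    have h4 : x ∈ B ⊓ (H ⊓ Z) := ⟨by rw [hxb]; exact hb, hxH, by rw [hxb]; exact hBZ hb⟩
    rw [hB1] at h4
    exact h4
  · -- representatives
    obtain ⟨F₁, hF₁, -, hF₁'⟩ := v5_reps (N₁ ⊔ H.map π) ⊤
      (by
        have := hN₁f
        infer_instance)
    obtain ⟨F₃, hF₃, hF₃Y, hF₃'⟩ := v5_reps (M ⊔ Z) (N₁.comap π)
      (by
        have := hfi
        infer_instance)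
    obtain ⟨F₄, hF₄, hF₄Y, hF₄'⟩ := v5_reps (B ⊔ (H ⊓ Z)) Z hB2
    let lift : G ⧸ Z → G := fun q => q.out
    have hlift : ∀ q, π (lift q) = q := fun q => QuotientGroup.out_eq' q
    refine v5_finiteIndex _ (Set.image2 (fun a b => a * b)
      (Set.image2 (fun a b => a * b) (lift '' F₁) F₃) F₄)
      (((hF₁.image _).image2 _ hF₃).image2 _ hF₄) ?_
    intro g
    obtain ⟨q, hq, hq'⟩ := hF₁' (π g) (Subgroup.mem_top _)
    obtain ⟨n', hn', h', hh', hqe⟩ := v5_mem_sup hN₁ hq'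
    obtain ⟨h, hh, rfl⟩ := hh'
    obtain ⟨n, rfl⟩ := hπs n'
    obtain ⟨f₃, hf₃, hf₃'⟩ := hF₃' n hn'
    obtain ⟨m, hm, z, hz, hmz⟩ := v5_mem_sup (fun z _ m hm => hMn.conj_mem m hm z) hf₃'
    have hm₂ : m ∈ N₂ := by
      refine ⟨hm, ?_⟩
      show π m ∈ N₁
      have e1 : π m = (π f₃)⁻¹ * π n := by
        have := congrArg π hmz
        rw [map_mul, map_mul, map_inv, (hπ1 z).2 hz, mul_one] at this
        exact this.symm
      rw [e1]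
      exact N₁.mul_mem (N₁.inv_mem (hF₃Y f₃ hf₃)) hn'
    -- `(lift q)⁻¹ * g = n * h * z'`
    have hz' : (n * h)⁻¹ * ((lift q)⁻¹ * g) ∈ Z := by
      rw [← hπ1, map_mul, map_inv, map_mul, map_mul, map_inv, hlift, hqe]
      exact inv_mul_cancel _
    set z' := (n * h)⁻¹ * ((lift q)⁻¹ * g) with hz'd
    -- `g = lift q * f₃ * z'' * (m * h)`
    have hz'' : (f₃ * (m * h))⁻¹ * (n * h) ∈ Z := by
      have e1 : (f₃ * (m * h))⁻¹ * (n * h) = h⁻¹ * (m⁻¹ * (f₃⁻¹ * n)) * h := by group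
      rw [e1, hmz]
      have e2 : h⁻¹ * (m⁻¹ * (m * z)) * h = h⁻¹ * z * (h⁻¹)⁻¹ := by group
      rw [e2]
      exact hZn.conj_mem z hz h⁻¹
    have hw : (m * h) * ((f₃ * (m * h))⁻¹ * (n * h) * z') * (m * h)⁻¹ ∈ Z :=
      hZn.conj_mem _ (Z.mul_mem hz'' hz') (m * h)
    obtain ⟨f₄, hf₄, hf₄'⟩ := hF₄' _ hw
    refine ⟨lift q * f₃ * f₄, ⟨lift q * f₃, ⟨lift q, ⟨q, hq, rfl⟩, f₃, hf₃, rfl⟩, f₄, hf₄, rfl⟩, ?_⟩
    have e3 : (lift q * f₃ * f₄)⁻¹ * g =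
        (f₄⁻¹ * ((m * h) * ((f₃ * (m * h))⁻¹ * (n * h) * z') * (m * h)⁻¹)) * (m * h) := by
      rw [hz'd]
      group
    rw [e3]
    have hle1 : B ⊔ (H ⊓ Z) ≤ B ⊔ N₂ ⊔ H :=
      sup_le (le_sup_left.trans le_sup_left) (inf_le_left.trans le_sup_right)
    exact Subgroup.mul_mem _ (hle1 hf₄') (Subgroup.mul_mem _
      (Subgroup.mem_sup_left (Subgroup.mem_sup_right hm₂)) (Subgroup.mem_sup_right hh))

end Pool.Agent.LR
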