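import Pool.Agent.Lib.MP_836f52_al_LR.Compl
import Pool.Agent.Lib.MP_836f52_al_LR.VR

set_option autoImplicit false

/-!
Row V9: the central subgroup.

`j = (j₁, j₂) : K₁ →* K × ℤ` is injective, `K₁` normal of finite index in the finitely generated
group `G`.  Let `C = ker j₁`, a subgroup of `K₁` which is central in `K₁` (`j C ≤ 1 × ℤ` is central in
`K × ℤ`) and cyclic without torsion (`j₂` is injective on it).  Let `Z₁` be the normal closure of `C`
in `G`.  The centre of `K₁` is normal in `G`, so `Z₁` is central in `K₁`; it is generated by the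
`g C g⁻¹` with `g` in a finite set of representatives of `G ⧸ K₁` (`K₁` centralises `C`), so it is a
finitely generated abelian group.  Let `n` be as in `exists_torsionFree_pow` for `Z₁`, and let
`Z = {z ^ n | z ∈ Z₁}`.  It is normal in `G`, finitely generated, torsion-free, and `c ^ n ∈ Z` for
`c ∈ C`.

`K₂ = j₁ K₁ ≤ K` is finitely generated (`K₁` is, as a subgroup of finite index of `G`), so it has
(LR); apply it to the finitely generated subgroup `j₁ Z` of the centre of `K₂`: there are a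
subgroup `L` of finite index of `K₂` containing `j₁ Z` and a retraction `ρ : L →* j₁ Z`.  Let
`K₁' = {x ∈ K₁ | j₁ x ∈ L}` (finite index in `G`) and `θ x = (ρ (j₁ x), j₂ x)`, a homomorphism from
`K₁'` to the finitely generated abelian group `B = j₁ Z × ℤ`, injective on `Z` (there it is `j`).
`exists_virtual_compl` for `θ Z ≤ B` gives `N_B` with `N_B ⊓ θ Z = ⊥` and `N_B ⊔ θ Z` of finite
index.  Let `N₁ = θ⁻¹ N_B ≤ K₁'` (as a subgroup of `G`).  `N₁ ⊓ Z = ⊥`, and `N₁ ⊔ Z` is the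
preimage of `N_B ⊔ θ Z` (if `θ x = n θ z` then `x z⁻¹ ∈ N₁`), of finite index.  If `x ∈ N₁` and
`j₁ x = 1` then `x ∈ C`, `x ^ n ∈ Z ⊓ N₁ = ⊥`, so `x = 1` (`C` is torsion-free).

(It may be convenient to work with `CommGroup` structures on subtypes, or to give `exists_virtual_compl`
a version for commutative subgroups of `G`.)
-/

namespace Pool.Agent.LR

open Pool.Agent.Lib.MP_836f52_al_H7

universe u

private theorem V9_conj_finite {G : Type u} [Group G] (K₁ : Subgroup G) (hKf : K₁.FiniteIndex)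
    (c : G) (hc : ∀ k ∈ K₁, c * k = k * c) : (Group.conjugatesOfSet ({c} : Set G)).Finite := by
  have hfin : Finite (G ⧸ K₁) := Subgroup.finiteIndex_iff_finite_quotient.1 hKf
  apply (Set.finite_range (fun q : G ⧸ K₁ => q.out * c * (q.out)⁻¹)).subset
  intro x hx
  rw [Group.mem_conjugatesOfSet_iff] at hx
  obtain ⟨a, ha, hx⟩ := hx
  rw [Set.mem_singleton_iff] at ha
  subst ha
  rw [isConj_iff] at hx
  obtain ⟨g, rfl⟩ := hx
  refine ⟨(g : G ⧸ K₁), ?_⟩
  obtain ⟨k, hk⟩ := QuotientGroup.mk_out_eq_mul K₁ g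
  change (Quotient.out (g : G ⧸ K₁)) * a * (Quotient.out (g : G ⧸ K₁))⁻¹ = g * a * g⁻¹
  rw [hk, mul_inv_rev, mul_assoc g (k : G) a, ← hc k k.2]
  group

/-- A finitely generated commutative subgroup: the torsion-free subgroup of `n`-th powers. -/
private theorem V9_powers {G : Type u} [Group G] (Z₁ : Subgroup G)
    (hcomm : ∀ a ∈ Z₁, ∀ b ∈ Z₁, a * b = b * a) (hfg : Z₁.FG) :
    ∃ n : ℕ, 0 < n ∧ ∃ Z : Subgroup G, (∀ x, x ∈ Z ↔ ∃ z ∈ Z₁, z ^ n = x) ∧ Z.FG ∧
      (∀ a ∈ Z, ∀ m : ℕ, 0 < m → a ^ m = 1 → a = 1) := by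
  let inst : CommGroup Z₁ :=
    { (inferInstance : Group Z₁) with
      mul_comm := fun a b => Subtype.ext (hcomm a a.2 b b.2) }
  have hB : Group.FG Z₁ := (Group.fg_iff_subgroup_fg Z₁).2 hfg
  obtain ⟨n, hn, hn1⟩ := exists_torsionFree_pow hB
  let f : Z₁ →* G := Z₁.subtype.comp (powMonoidHom n)
  have hf : ∀ z : Z₁, f z = (z : G) ^ n := fun z => rfl
  refine ⟨n, hn, f.range, ?_, ?_, ?_⟩
  · intro x
    constructor
    · rintro ⟨z, rfl⟩
      exact ⟨z, z.2, rfl⟩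
    · rintro ⟨z, hz, rfl⟩
      exact ⟨⟨z, hz⟩, rfl⟩
  · exact (Group.fg_iff_subgroup_fg _).1 inferInstance
  · rintro _ ⟨z, rfl⟩ m hm h
    rw [hf, ← pow_mul] at h
    have h1 : z ^ (n * m) = 1 := Subtype.ext h
    have h2 := hn1 z m hm h1
    rw [hf]
    exact congrArg Subtype.val h2

private theorem V9_compl {B : Type u} [Group B] (hcomm : ∀ a b : B, a * b = b * a)
    (hfg : Group.FG B) (A : Subgroup B) :
    ∃ N : Subgroup B, N ⊓ A = ⊥ ∧ (N ⊔ A).FiniteIndex ∧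
      ∀ b ∈ N ⊔ A, ∃ x ∈ N, ∃ y ∈ A, x * y = b := by
  let inst : CommGroup B := { (inferInstance : Group B) with mul_comm := hcomm }
  obtain ⟨N, h1, h2⟩ := exists_virtual_compl hfg A
  exact ⟨N, h1, h2, fun b hb => Subgroup.mem_sup.1 hb⟩

theorem exists_central {G K : Type u} [Group G] [Group K] (hG : Group.FG G) (K₁ : Subgroup G)
    (hKn : K₁.Normal) (hKf : K₁.FiniteIndex) (j : K₁ →* K × Multiplicative ℤ)
    (hj : Function.Injective j) (hK : ∀ L : Subgroup K, L.FG → HasLR L) :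
    ∃ Z : Subgroup G, Z.Normal ∧ Z ≤ K₁ ∧ (∀ z ∈ Z, ∀ k ∈ K₁, z * k = k * z) ∧ Z.FG ∧
      (∀ a ∈ Z, ∀ n : ℕ, 0 < n → a ^ n = 1 → a = 1) ∧
      ∃ N₁ : Subgroup G, N₁ ≤ K₁ ∧ N₁ ⊓ Z = ⊥ ∧ (N₁ ⊔ Z).FiniteIndex ∧
        ∀ x : K₁, (x : G) ∈ N₁ → (j x).1 = 1 → x = 1 := by
  classical
  set j₁ : K₁ →* K := (MonoidHom.fst K (Multiplicative ℤ)).comp j with hj₁
  set j₂ : K₁ →* Multiplicative ℤ := (MonoidHom.snd K (Multiplicative ℤ)).comp j with hj₂
  have hj' : ∀ x : K₁, j₁ x = 1 → j₂ x = 1 → x = 1 := by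
    intro x h1 h2
    apply hj
    rw [map_one]
    exact Prod.ext h1 h2
  -- the kernel of `j₁` is cyclic and central
  have hcyc : IsCyclic j₁.ker := by
    refine isCyclic_of_injective (j₂.comp j₁.ker.subtype) ?_
    rw [injective_iff_map_eq_one]
    intro x hx
    exact Subtype.ext (hj' x x.2 hx)
  obtain ⟨c, hc⟩ := hcyc.exists_generator
  have hkercomm : ∀ x : K₁, j₁ x = 1 → ∀ k : K₁, x * k = k * x := by
    intro x hx k
    apply hj
    rw [map_mul, map_mul]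
    refine Prod.ext ?_ ?_
    · change j₁ x * j₁ k = j₁ k * j₁ x
      rw [hx, one_mul, mul_one]
    · exact mul_comm _ _
  have hccomm : ∀ k ∈ K₁, ((c : K₁) : G) * k = k * ((c : K₁) : G) := fun k hk =>
    congrArg Subtype.val (hkercomm c c.2 ⟨k, hk⟩)
  -- its normal closure
  set Z₁ : Subgroup G := Subgroup.normalClosure ({((c : K₁) : G)} : Set G) with hZ₁
  have hZ₁fg : Z₁.FG :=
    (Subgroup.fg_iff _).2 ⟨_, rfl, V9_conj_finite K₁ hKf _ hccomm⟩
  have hZ₁le : Z₁ ≤ K₁ ⊓ Subgroup.centralizer (K₁ : Set G) := by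
    apply Subgroup.normalClosure_le_normal
    rw [Set.singleton_subset_iff]
    refine ⟨(c : K₁).2, ?_⟩
    refine Subgroup.mem_centralizer_iff.2 fun k hk => ?_
    exact (hccomm k hk).symm
  have hZ₁K : Z₁ ≤ K₁ := fun x hx => (hZ₁le hx).1
  have hZ₁c : ∀ z ∈ Z₁, ∀ k ∈ K₁, z * k = k * z := fun z hz k hk =>
    ((Subgroup.mem_centralizer_iff.1 (hZ₁le hz).2) k hk).symm
  obtain ⟨n, hn, Z, hZmem, hZfg, hZtf⟩ := V9_powers Z₁
    (fun a ha b hb => hZ₁c a ha b (hZ₁K hb)) hZ₁fg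
  have hZn : Z.Normal := by
    refine ⟨fun x hx g => ?_⟩
    obtain ⟨z, hz, rfl⟩ := (hZmem x).1 hx
    refine (hZmem _).2 ⟨g * z * g⁻¹, ?_, ?_⟩
    · exact (Subgroup.normalClosure_normal).conj_mem z hz g
    · rw [conj_pow]
  have hZK : Z ≤ K₁ := by
    intro x hx
    obtain ⟨z, hz, rfl⟩ := (hZmem x).1 hx
    exact pow_mem (hZ₁K hz) n
  have hZc : ∀ z ∈ Z, ∀ k ∈ K₁, z * k = k * z := by
    intro x hx k hk
    obtain ⟨z, hz, rfl⟩ := (hZmem x).1 hx
    exact ((show Commute z k from hZ₁c z hz k hk).pow_left n).eq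
  have hkerpow : ∀ x : K₁, j₁ x = 1 → ((x : G)) ^ n ∈ Z := by
    intro x hx
    refine (hZmem _).2 ⟨x, ?_, rfl⟩
    obtain ⟨m, hm⟩ := Subgroup.mem_zpowers_iff.1 (hc ⟨x, hx⟩)
    have h1 : ((c : K₁) : G) ^ m = (x : G) := by
      have := congrArg (fun y : j₁.ker => ((y : K₁) : G)) hm
      simpa using this
    rw [← h1]
    exact zpow_mem (Subgroup.subset_normalClosure (Set.mem_singleton _)) m
  refine ⟨Z, hZn, hZK, hZc, hZfg, hZtf, ?_⟩
  -- the image of `j₁`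
  have hK₁fg : Group.FG K₁ := by
    have := hKf
    exact Subgroup.fg_of_index_ne_zero K₁
  have hK₂fg : j₁.range.FG := (Group.fg_iff_subgroup_fg _).1 inferInstance
  have hLR := hK _ hK₂fg
  set i₁ : Z →* K₁ := Subgroup.inclusion hZK with hi₁
  have hZFG : Group.FG Z := (Group.fg_iff_subgroup_fg Z).2 hZfg
  set Z' : Subgroup j₁.range := (j₁.rangeRestrict.comp i₁).range with hZ'
  have hZ'fg : Z'.FG := (Group.fg_iff_subgroup_fg _).1 inferInstance
  obtain ⟨L, hLf, hZL, ρ, hρ⟩ := hLR Z' hZ'fg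
  set K' : Subgroup K₁ := L.comap j₁.rangeRestrict with hK'
  have hK'f : K'.index ≠ 0 := by
    rw [hK', Subgroup.index_comap_of_surjective _ j₁.rangeRestrict_surjective]
    exact hLf.index_ne_zero
  have hZ'comm : ∀ a b : Z', a * b = b * a := by
    rintro ⟨_, z, rfl⟩ ⟨_, w, rfl⟩
    apply Subtype.ext
    change (j₁.rangeRestrict.comp i₁) z * (j₁.rangeRestrict.comp i₁) w =
      (j₁.rangeRestrict.comp i₁) w * (j₁.rangeRestrict.comp i₁) z
    have hzw : z * w = w * z := Subtype.ext (hZc z z.2 w (hZK w.2))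
    rw [← map_mul, ← map_mul, hzw]
  let θ₁ : K' →* Z' := ρ.comp ((j₁.rangeRestrict.comp K'.subtype).codRestrict L fun x => x.2)
  let θ : K' →* Z' × Multiplicative ℤ := θ₁.prod (j₂.comp K'.subtype)
  let i : K' →* G := K₁.subtype.comp K'.subtype
  have hi : Function.Injective i :=
    K₁.subtype_injective.comp K'.subtype_injective
  let Zp : Subgroup K' := Z.comap i
  have hmemZ' : ∀ y : K', y ∈ Zp → j₁.rangeRestrict (y : K₁) ∈ Z' := by
    intro y hy
    exact ⟨⟨i y, hy⟩, rfl⟩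
  have hZi : ∀ z ∈ Z, ∃ y : K', i y = z := by
    intro z hz
    refine ⟨⟨⟨z, hZK hz⟩, ?_⟩, rfl⟩
    apply hZL
    exact ⟨⟨z, hz⟩, rfl⟩
  have hθinj : ∀ y : K', y ∈ Zp → θ y = 1 → y = 1 := by
    intro y hy h
    have h1 : θ₁ y = 1 := congrArg Prod.fst h
    have h2 : j₂ (y : K₁) = 1 := congrArg Prod.snd h
    have h3 : j₁.rangeRestrict (y : K₁) = 1 := by
      have h4 := hρ ⟨j₁.rangeRestrict (y : K₁), y.2⟩ (hmemZ' y hy)
      have h5 : θ₁ y = ⟨j₁.rangeRestrict (y : K₁), hmemZ' y hy⟩ := h4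
      rw [h1] at h5
      exact (congrArg Subtype.val h5).symm
    have h6 : j₁ (y : K₁) = 1 := congrArg Subtype.val h3
    exact Subtype.ext (hj' _ h6 h2)
  obtain ⟨NB, hNB1, hNB2, hNB3⟩ := V9_compl (B := Z' × Multiplicative ℤ)
    (fun a b => Prod.ext (hZ'comm _ _) (mul_comm _ _)) inferInstance (Zp.map θ)
  have hbot : ∀ x : G, x ∈ (NB.comap θ).map i → x ∈ Z → x = 1 := by
    rintro _ ⟨y, hy, rfl⟩ hx
    have h1 : θ y ∈ NB ⊓ Zp.map θ := ⟨hy, ⟨y, hx, rfl⟩⟩
    rw [hNB1, Subgroup.mem_bot] at h1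
    rw [hθinj y hx h1, map_one]
  refine ⟨(NB.comap θ).map i, ?_, ?_, ?_, ?_⟩
  · rintro _ ⟨y, _, rfl⟩
    exact (y : K₁).2
  · rw [eq_bot_iff]
    intro x hx
    exact Subgroup.mem_bot.2 (hbot x hx.1 hx.2)
  · have h1 : (NB ⊔ Zp.map θ).comap θ ≤ NB.comap θ ⊔ Zp := by
      intro y hy
      obtain ⟨a, ha, b, ⟨z, hz, rfl⟩, hab⟩ := hNB3 _ hy
      have h2 : y * z⁻¹ ∈ NB.comap θ := by
        rw [Subgroup.mem_comap, map_mul, map_inv, ← hab, mul_inv_cancel_right]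
        exact ha
      have h3 := Subgroup.mul_mem_sup h2 hz
      rwa [inv_mul_cancel_right] at h3
    have h2 : ((NB ⊔ Zp.map θ).comap θ).FiniteIndex := by
      have := hNB2
      rw [Subgroup.finiteIndex_iff, Subgroup.index_comap]
      exact Subgroup.FiniteIndex.index_ne_zero
    have h3 : i.range = K'.map K₁.subtype := by
      ext x
      constructor
      · rintro ⟨y, rfl⟩
        exact ⟨y, y.2, rfl⟩
      · rintro ⟨y, hy, rfl⟩
        exact ⟨⟨y, hy⟩, rfl⟩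
    have h4 : (((NB ⊔ Zp.map θ).comap θ).map i).FiniteIndex := by
      rw [Subgroup.finiteIndex_iff, Subgroup.index_map_of_injective _ hi, h3,
        Subgroup.index_map_subtype]
      exact mul_ne_zero h2.index_ne_zero (mul_ne_zero hK'f hKf.index_ne_zero)
    refine @Subgroup.finiteIndex_of_le _ _ _ _ h4 ?_
    rintro _ ⟨y, hy, rfl⟩
    have h5 : i y ∈ (NB.comap θ ⊔ Zp).map i := ⟨y, h1 hy, rfl⟩
    rw [Subgroup.map_sup] at h5
    have h6 : Zp.map i ≤ Z := by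
      rintro _ ⟨z, hz, rfl⟩
      exact hz
    exact (sup_le_sup_left h6 _ : (NB.comap θ).map i ⊔ Zp.map i ≤ (NB.comap θ).map i ⊔ Z) h5
  · intro x hx h
    have h1 : ((x : G)) ^ n = 1 := hbot _ (pow_mem hx n) (hkerpow x h)
    have h2 : x ^ n = 1 := Subtype.ext h1
    apply hj' x h
    have h3 : (j₂ x) ^ n = 1 := by rw [← map_pow, h2, map_one]
    exact (pow_eq_one_iff_left hn.ne').1 h3

end Pool.Agent.LR
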