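import Pool.Agent.Lib.MP_836f52_al_LR.RaagGood

set_option autoImplicit false

/-!
# Project LR: the class of groups of the main theorem
-/

namespace Pool.Agent.LR

open Pool.Agent.Lib.MP_836f52_al_H7

universe u

/-- The smallest class of groups that contains the finite groups and the right-angled Artin groups
of finite graphs with property (LR), and is closed under subgroups, under overgroups of finite
index, under direct products with an infinite cyclic group, and under actions on trees: if `K` acts
on a tree without inversions, with finite edge stabilisers and vertex stabilisers in the class, then
`K` is in the class. -/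
inductive InClass : (K : Type u) → [Group K] → Prop
  | finite (K : Type u) [Group K] [Finite K] : InClass K
  | raag (X : Type u) [Finite X] (Γ : SimpleGraph X) (h : HasLR (RAAG Γ)) : InClass (RAAG Γ)
  | sub (K L : Type u) [Group K] [Group L] (h : InClass K) (f : L →* K)
      (hf : Function.Injective f) : InClass L
  | overgroup (K : Type u) [Group K] (L : Subgroup K) (hL : L.FiniteIndex) (h : InClass L) :
      InClass K
  | prodInt (K : Type u) [Group K] (h : InClass K) : InClass (K × Multiplicative ℤ)
  | tree (K V : Type u) [Group K] [MulAction K V] (T : SimpleGraph V) (hT : TreeAct K T)
      (h : ∀ x : V, InClass (MulAction.stabilizer K x)) : InClass K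

theorem InClass.good {K : Type u} [Group K] (h : InClass K) : Good K := by
  induction h with
  | finite K => exact good_of_finite
  | raag X Γ h => exact raag_good_of_lr Γ h
  | sub K L _ f hf ih => exact ih.of_injective f hf
  | overgroup K L hL _ ih => exact Good.of_fi L hL ih
  | prodInt K _ ih => exact good_prod_int ih
  | tree K V T hT _ ih => exact good_tree hT ih

end Pool.Agent.LR
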