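import Pool.Agent.Lib.MP_836f52_al_LR.Defs

set_option autoImplicit false

/-!
Row H1: the tree of a free product.
-/

namespace Pool.Agent.LR

open Pool.Agent.Lib.MP_836f52_al_H7

universe u

section H1

variable {ι : Type u} {A : ι → Type u} [∀ i, Group (A i)]

open Classical in
/-- the index of the first letter -/
private noncomputable def H1fst (g : Monoid.CoprodI A) : Option ι :=
  (Monoid.CoprodI.Word.equiv g).fstIdx

private lemma H1_fst_prod (w : Monoid.CoprodI.Word A) : H1fst w.prod = w.fstIdx := by
  classical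
  unfold H1fst
  have h := Monoid.CoprodI.Word.equiv.apply_symm_apply w
  have h2 : (Monoid.CoprodI.Word.equiv.symm w : Monoid.CoprodI A) = w.prod := rfl
  rw [h2] at h
  rw [h]

private lemma H1_exists (g : Monoid.CoprodI A) : ∃ w : Monoid.CoprodI.Word A, w.prod = g := by
  classical
  exact ⟨Monoid.CoprodI.Word.equiv g, Monoid.CoprodI.Word.equiv.symm_apply_apply g⟩

private lemma H1_fst_one : H1fst (1 : Monoid.CoprodI A) = none := by
  have h := H1_fst_prod (Monoid.CoprodI.Word.empty : Monoid.CoprodI.Word A)
  rw [Monoid.CoprodI.Word.prod_empty] at h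
  rw [h]
  rfl

private lemma H1_fst_mul {i : ι} {m : A i} (hm : m ≠ 1) {x : Monoid.CoprodI A}
    (hx : H1fst x ≠ some i) : H1fst (Monoid.CoprodI.of m * x) = some i := by
  obtain ⟨w, rfl⟩ := H1_exists x
  rw [H1_fst_prod] at hx
  rw [← Monoid.CoprodI.Word.prod_cons i m w hm hx, H1_fst_prod,
    Monoid.CoprodI.Word.fstIdx_cons]

private lemma H1_fst_of {i : ι} {m : A i} (hm : m ≠ 1) :
    H1fst (Monoid.CoprodI.of m : Monoid.CoprodI A) = some i := by
  have h := H1_fst_mul hm (x := 1) (by rw [H1_fst_one]; exact nofun)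
  rwa [mul_one] at h

private lemma H1_key_word (w : Monoid.CoprodI.Word A) : ∀ (i : ι), w.fstIdx = some i →
    ∀ (j : ι) (b : A j), H1fst (w.prod * Monoid.CoprodI.of b) = some i ∨
      (i = j ∧ w.prod * Monoid.CoprodI.of b = 1) := by
  classical
  induction w using Monoid.CoprodI.Word.consRecOn with
  | empty =>
    intro i h
    have h' : (none : Option ι) = some i := h
    exact absurd h' nofun
  | cons i' m w' h1 h2 ih =>
    intro i h j b
    rw [Monoid.CoprodI.Word.fstIdx_cons] at h
    have hi : i' = i := Option.some_injective _ h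
    subst hi
    rw [Monoid.CoprodI.Word.prod_cons, mul_assoc]
    by_cases h3 : H1fst (w'.prod * Monoid.CoprodI.of b) = some i'
    · cases hw : w'.fstIdx with
      | none =>
        have hw' : w' = Monoid.CoprodI.Word.empty := by
          apply Monoid.CoprodI.Word.ext
          unfold Monoid.CoprodI.Word.fstIdx at hw
          rw [Option.map_eq_none_iff, List.head?_eq_none_iff] at hw
          rw [hw]
          rfl
        subst hw'
        rw [Monoid.CoprodI.Word.prod_empty, one_mul] at h3 ⊢
        by_cases hb : b = 1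
        · rw [hb, map_one, H1_fst_one] at h3
          exact absurd h3 nofun
        · rw [H1_fst_of hb] at h3
          have hj : j = i' := Option.some_injective _ h3
          subst hj
          rw [← map_mul]
          by_cases hmb : m * b = 1
          · right
            exact ⟨rfl, by rw [hmb, map_one]⟩
          · left
            exact H1_fst_of hmb
      | some i'' =>
        exfalso
        rcases ih i'' hw j b with h4 | ⟨_, h4⟩
        · rw [h4] at h3
          exact h1 (by rw [hw, h3])
        · rw [h4, H1_fst_one] at h3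
          exact absurd h3 nofun
    · left
      exact H1_fst_mul h2 h3

private lemma H1_key {a : Monoid.CoprodI A} {i j : ι} (h : H1fst a = some i) (b : A j) :
    H1fst (a * Monoid.CoprodI.of b) = some i ∨ (i = j ∧ a * Monoid.CoprodI.of b = 1) := by
  obtain ⟨w, rfl⟩ := H1_exists a
  rw [H1_fst_prod] at h
  exact H1_key_word w i h j b

variable (A) in
/-- the vertex groups -/
private def H1A (i : ι) : Subgroup (Monoid.CoprodI A) :=
  (Monoid.CoprodI.of : A i →* Monoid.CoprodI A).range

variable (A) in
/-- the vertices -/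
private abbrev H1V : Type u := Monoid.CoprodI A ⊕ (Σ i, Monoid.CoprodI A ⧸ H1A A i)

variable (A) in
/-- the adjacency relation -/
private def H1adj : H1V A → H1V A → Prop
  | .inl g, .inr x => x.2 = (g : Monoid.CoprodI A ⧸ H1A A x.1)
  | .inr x, .inl g => x.2 = (g : Monoid.CoprodI A ⧸ H1A A x.1)
  | _, _ => False

variable (A) in
/-- the tree -/
private def H1T : SimpleGraph (H1V A) where
  Adj := H1adj A
  symm := ⟨by
    rintro (g | x) (h | y) h1
    · exact h1
    · exact h1
    · exact h1
    · exact h1⟩
  loopless := ⟨by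
    rintro (g | x) h1
    · exact h1
    · exact h1⟩

private lemma H1_reach (h g : Monoid.CoprodI A) :
    (H1T A).Reachable (.inl h) (.inl (h * g)) := by
  induction g using Monoid.CoprodI.induction_on generalizing h with
  | one => rw [mul_one]
  | of i m =>
    have h1 : (H1T A).Adj (.inl h) (.inr ⟨i, (h : Monoid.CoprodI A ⧸ H1A A i)⟩) := rfl
    have h2 : (H1T A).Adj (.inl (h * Monoid.CoprodI.of m))
        (.inr ⟨i, (h : Monoid.CoprodI A ⧸ H1A A i)⟩) := by
      show (h : Monoid.CoprodI A ⧸ H1A A i) = ((h * Monoid.CoprodI.of m : Monoid.CoprodI A) :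
        Monoid.CoprodI A ⧸ H1A A i)
      rw [QuotientGroup.eq, inv_mul_cancel_left]
      exact ⟨m, rfl⟩
    exact h1.reachable.trans h2.symm.reachable
  | mul x y hx hy =>
    rw [← mul_assoc]
    exact (hx h).trans (hy (h * x))

private lemma H1_preconnected : (H1T A).Preconnected := by
  have key : ∀ x : H1V A, (H1T A).Reachable (.inl 1) x := by
    rintro (g | ⟨i, q⟩)
    · have := H1_reach (A := A) 1 g
      rwa [one_mul] at this
    · obtain ⟨g, rfl⟩ := QuotientGroup.mk_surjective q
      have h1 : (H1T A).Adj (.inl g) (.inr ⟨i, (g : Monoid.CoprodI A ⧸ H1A A i)⟩) := rfl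
      have := H1_reach (A := A) 1 g
      rw [one_mul] at this
      exact this.trans h1.reachable
  intro x y
  exact (key x).symm.trans (key y)

/-- one side of an edge -/
private def H1side (g : Monoid.CoprodI A) (i : ι) : H1V A → Prop
  | .inl h => H1fst (g⁻¹ * h) = some i
  | .inr x => x = ⟨i, (g : Monoid.CoprodI A ⧸ H1A A i)⟩ ∨
      ∃ a : Monoid.CoprodI A, H1fst (g⁻¹ * a) = some i ∧ x.2 = (a : Monoid.CoprodI A ⧸ H1A A x.1)

private lemma H1_cross (g : Monoid.CoprodI A) (i : ι) (h : Monoid.CoprodI A)
    (x : Σ i, Monoid.CoprodI A ⧸ H1A A i) (hadj : x.2 = (h : Monoid.CoprodI A ⧸ H1A A x.1)) :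
    (H1side g i (.inl h) ↔ H1side g i (.inr x)) ∨
      (h = g ∧ x = ⟨i, (g : Monoid.CoprodI A ⧸ H1A A i)⟩) := by
  obtain ⟨j, q⟩ := x
  simp only at hadj
  subst hadj
  by_cases h1 : H1side g i (.inl h)
  · left
    refine ⟨fun _ => Or.inr ⟨h, h1, rfl⟩, fun _ => h1⟩
  · by_cases h2 : H1side g i (.inr ⟨j, (h : Monoid.CoprodI A ⧸ H1A A j)⟩)
    · right
      have h1' : H1fst (g⁻¹ * h) ≠ some i := h1
      rcases h2 with h2 | ⟨a, ha, h2⟩
      · have hji : j = i := congrArg Sigma.fst h2
        subst hji
        have h3 : (h : Monoid.CoprodI A ⧸ H1A A j) = (g : Monoid.CoprodI A ⧸ H1A A j) :=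
          eq_of_heq (Sigma.mk.inj h2).2
        have h4 : g⁻¹ * h ∈ H1A A j := by
          rw [← QuotientGroup.eq]
          exact h3.symm
        obtain ⟨b, hb⟩ := h4
        have h5 : b = 1 := by
          by_contra hne
          apply h1'
          rw [← hb]
          exact H1_fst_of hne
        rw [h5, map_one] at hb
        have h6 : h = g := by
          have := congrArg (g * ·) hb
          simpa using this.symm
        exact ⟨h6, by rw [h6]⟩
      · simp only at h2
        have h4 : a⁻¹ * h ∈ H1A A j := by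
          rw [← QuotientGroup.eq]
          exact h2.symm
        obtain ⟨b, hb⟩ := h4
        have h5 : g⁻¹ * h = g⁻¹ * a * Monoid.CoprodI.of b := by
          rw [hb]
          group
        rcases H1_key ha b with h6 | ⟨h6, h7⟩
        · rw [← h5] at h6
          exact absurd h6 h1'
        · rw [← h5] at h7
          have h8 : h = g := by
            have := congrArg (g * ·) h7
            simpa using this
          subst h6
          exact ⟨h8, by rw [h8]⟩
    · left
      exact ⟨fun h => absurd h h1, fun h => absurd h h2⟩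

private lemma H1_closed {V : Type u} {T : SimpleGraph V} {X : V → Prop}
    (h : ∀ x y, T.Adj x y → (X x ↔ X y)) {x y : V} (hxy : T.Reachable x y) : X x ↔ X y := by
  obtain ⟨p⟩ := hxy
  induction p with
  | nil => exact Iff.rfl
  | cons hadj _ ih => exact (h _ _ hadj).trans ih

private lemma H1_bridge (g : Monoid.CoprodI A) (i : ι) :
    (H1T A).IsBridge s(.inl g, .inr ⟨i, (g : Monoid.CoprodI A ⧸ H1A A i)⟩) := by
  rw [SimpleGraph.isBridge_iff]
  intro hr
  have hcl := H1_closed (X := H1side g i) ?_ hr
  · have h1 : ¬ H1side g i (.inl g) := by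
      show ¬ H1fst (g⁻¹ * g) = some i
      rw [inv_mul_cancel, H1_fst_one]
      exact nofun
    exact h1 (hcl.mpr (Or.inl rfl))
  · intro x y hadj
    rw [SimpleGraph.deleteEdges_adj] at hadj
    obtain ⟨h1, h2⟩ := hadj
    rcases x with h | x <;> rcases y with h' | y
    · exact absurd h1 id
    · rcases H1_cross g i h y h1 with h3 | ⟨rfl, rfl⟩
      · exact h3
      · exact absurd rfl h2
    · rcases H1_cross g i h' x h1 with h3 | ⟨rfl, rfl⟩
      · exact h3.symm
      · exact absurd (Set.mem_singleton_iff.mpr Sym2.eq_swap) h2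
    · exact absurd h1 id

private lemma H1_tree : (H1T A).IsTree := by
  haveI : Nonempty (H1V A) := ⟨.inl 1⟩
  refine ⟨⟨H1_preconnected⟩, ?_⟩
  rw [SimpleGraph.isAcyclic_iff_forall_adj_isBridge]
  rintro (g | x) (h | y) hadj
  · exact absurd hadj id
  · obtain ⟨i, q⟩ := y
    have h1 : q = (g : Monoid.CoprodI A ⧸ H1A A i) := hadj
    subst h1
    exact H1_bridge g i
  · obtain ⟨i, q⟩ := x
    have h1 : q = (h : Monoid.CoprodI A ⧸ H1A A i) := hadj
    subst h1
    rw [Sym2.eq_swap]
    exact H1_bridge h i
  · exact absurd hadj id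

/-- the action -/
private def H1smul (k : Monoid.CoprodI A) : H1V A → H1V A
  | .inl g => .inl (k * g)
  | .inr x => .inr ⟨x.1, k • x.2⟩

@[instance_reducible]
private def H1act : MulAction (Monoid.CoprodI A) (H1V A) where
  smul := H1smul
  one_smul := by
    rintro (g | ⟨i, q⟩)
    · show (Sum.inl (1 * g) : H1V A) = Sum.inl g
      rw [one_mul]
    · show (Sum.inr ⟨i, (1 : Monoid.CoprodI A) • q⟩ : H1V A) = Sum.inr ⟨i, q⟩
      rw [one_smul]
  mul_smul := by
    rintro k l (g | ⟨i, q⟩)
    · show (Sum.inl (k * l * g) : H1V A) = Sum.inl (k * (l * g))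
      rw [mul_assoc]
    · show (Sum.inr ⟨i, (k * l) • q⟩ : H1V A) = Sum.inr ⟨i, k • l • q⟩
      rw [mul_smul]

end H1

theorem exists_coprod_tree {ι : Type u} (A : ι → Type u) [∀ i, Group (A i)] :
    ∃ (V : Type u) (T : SimpleGraph V) (_ : MulAction (Monoid.CoprodI A) V),
      TreeAct (Monoid.CoprodI A) T ∧
      ∀ x : V, (∀ g : Monoid.CoprodI A, g • x = x → g = 1) ∨
        ∃ (i : ι) (f : MulAction.stabilizer (Monoid.CoprodI A) x →* A i),
          Function.Injective f := by
  letI := H1act (A := A)
  have free : ∀ (h k : Monoid.CoprodI A), k • (Sum.inl h : H1V A) = Sum.inl h → k = 1 := by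
    intro h k hk
    have h1 : (Sum.inl (k * h) : H1V A) = Sum.inl h := hk
    have h2 := Sum.inl_injective h1
    exact mul_eq_right.mp h2
  refine ⟨H1V A, H1T A, H1act, ⟨H1_tree, ?_, ?_, ?_⟩, ?_⟩
  · rintro k (g | x) (h | y) hadj
    · exact absurd hadj id
    · have h1 : y.2 = (g : Monoid.CoprodI A ⧸ H1A A y.1) := hadj
      show k • y.2 = ((k * g : Monoid.CoprodI A) : Monoid.CoprodI A ⧸ H1A A y.1)
      rw [h1]
      rfl
    · have h1 : x.2 = (h : Monoid.CoprodI A ⧸ H1A A x.1) := hadj
      show k • x.2 = ((k * h : Monoid.CoprodI A) : Monoid.CoprodI A ⧸ H1A A x.1)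
      rw [h1]
      rfl
    · exact absurd hadj id
  · rintro k (g | x) (h | y) hadj h1 h2
    · exact hadj
    · exact absurd (show (Sum.inl (k * g) : H1V A) = Sum.inr y from h1) nofun
    · exact absurd (show (Sum.inl (k * h) : H1V A) = Sum.inr x from h2) nofun
    · exact hadj
  · rintro (g | x) (h | y) hadj
    · exact absurd hadj id
    · refine (Set.finite_singleton 1).subset ?_
      rintro k ⟨hk, _⟩
      exact free g k hk
    · refine (Set.finite_singleton 1).subset ?_
      rintro k ⟨_, hk⟩
      exact free h k hk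
    · exact absurd hadj id
  · rintro (g | ⟨i, q⟩)
    · left
      intro k hk
      exact free g k hk
    · right
      obtain ⟨h, rfl⟩ := QuotientGroup.mk_surjective q
      have hst : ∀ k : MulAction.stabilizer (Monoid.CoprodI A)
          (Sum.inr ⟨i, (h : Monoid.CoprodI A ⧸ H1A A i)⟩ : H1V A),
          h⁻¹ * (k : Monoid.CoprodI A) * h ∈ H1A A i := by
        rintro ⟨k, hk⟩
        have h1 : (Sum.inr ⟨i, k • (h : Monoid.CoprodI A ⧸ H1A A i)⟩ : H1V A)
            = Sum.inr ⟨i, (h : Monoid.CoprodI A ⧸ H1A A i)⟩ := hk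
        have h2 := eq_of_heq (Sigma.mk.inj (Sum.inr_injective h1)).2
        have h3 : ((k * h : Monoid.CoprodI A) : Monoid.CoprodI A ⧸ H1A A i)
            = (h : Monoid.CoprodI A ⧸ H1A A i) := h2
        have h4 := QuotientGroup.eq.mp h3.symm
        show h⁻¹ * k * h ∈ H1A A i
        rwa [mul_assoc]
      set e := MonoidHom.ofInjective (Monoid.CoprodI.of_injective (M := A) i) with he
      let c : MulAction.stabilizer (Monoid.CoprodI A)
          (Sum.inr ⟨i, (h : Monoid.CoprodI A ⧸ H1A A i)⟩ : H1V A) →* H1A A i :=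
        { toFun := fun k => ⟨h⁻¹ * (k : Monoid.CoprodI A) * h, hst k⟩
          map_one' := by
            apply Subtype.ext
            simp
          map_mul' := by
            intro k l
            apply Subtype.ext
            simp only [Subgroup.coe_mul]
            group }
      refine ⟨i, e.symm.toMonoidHom.comp c, ?_⟩
      intro k l hkl
      have h1 : e.symm (c k) = e.symm (c l) := hkl
      have h2 := e.symm.injective h1
      have h3 : h⁻¹ * (k : Monoid.CoprodI A) * h = h⁻¹ * (l : Monoid.CoprodI A) * h :=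
        congrArg Subtype.val h2
      apply Subtype.ext
      exact mul_left_cancel (mul_right_cancel h3)

end Pool.Agent.LR
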