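import Pool.Agent.Lib.MP_836f52_al_LR.Defs
import Pool.Agent.Lib.MP_836f52_al_H7.Tree

set_option autoImplicit false

/-!
Row T1: cofinite cores, with finitely many orbits of edges.

Extends `tree_core` of `Pool.Agent.Lib.MP_836f52_al_H7.Tree` (copy its proof).  With
`I a c = {z | dist a z + dist z c = dist a c}`, `H = ⟨S⟩`, take
`W = {z | ∃ g h ∈ H, z ∈ I (g • x₀) (h • x₀)}`.  Edges: let `x, y ∈ W` be adjacent.  Then there are
`a, b ∈ H • x₀` such that the edge lies on the geodesic from `a` to `b`, that is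
`dist a x + 1 + dist y b = dist a b` (`x ∈ I a a'`: one of `a, a'` is closer to `x` than to `y`;
similarly for `y`).  Translate so that `a = x₀`, `b = h • x₀`, and show by induction on `h`
(`Subgroup.closure_induction`, as in `tree_core`) that every edge on the geodesic from `x₀` to
`h • x₀` is an `H`-translate of an edge, in one of the two directions, on a geodesic from `x₀` to
`s • x₀`, `s ∈ insert 1 S`; the geodesic from `x₀` to `(a b) • x₀` has all its edges on the
geodesics from `x₀` to `a • x₀` and from `a • x₀` to `(a b) • x₀`.  So `B` may be taken to be the set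
of the pairs of vertices in the finite set `⋃ s, I x₀ (s • x₀)`.
-/

namespace Pool.Agent.LR

open Pool.Agent.Lib.MP_836f52_al_H7

universe u v w

/-- points of an interval of a tree are linearly ordered -/
private lemma core_linear {V : Type v} {T : SimpleGraph V} (hT : T.IsTree) {a d z m : V}
    (hz : T.dist a z + T.dist z d = T.dist a d) (hm : T.dist a m + T.dist m d = T.dist a d)
    (hle : T.dist a z ≤ T.dist a m) : T.dist a z + T.dist z m = T.dist a m := by
  rcases tree_split hT m hz with h | h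
  · exact h
  · have h0 : T.dist m z = 0 := by omega
    have c1 := T.dist_comm (u := m) (v := z)
    omega

/-- an edge of the geodesic from `a` to `d` is an edge of the geodesic from `a` to `c` or from `c`
to `d` -/
private lemma core_edge_split {V : Type v} {T : SimpleGraph V} (hT : T.IsTree) {a c d x y : V}
    (hxy : T.Adj x y) (hx : T.dist a x + T.dist x d = T.dist a d)
    (hy : T.dist a y + T.dist y d = T.dist a d) :
    (T.dist a x + T.dist x c = T.dist a c ∧ T.dist a y + T.dist y c = T.dist a c) ∨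
      (T.dist c x + T.dist x d = T.dist c d ∧ T.dist c y + T.dist y d = T.dist c d) := by
  have hc := hT.1
  obtain ⟨m, h1, h2, h3⟩ := tree_median_exists hT c _ a d rfl
  have cm1 := T.dist_comm (u := c) (v := a)
  have cm2 := T.dist_comm (u := c) (v := m)
  have cm3 := T.dist_comm (u := m) (v := a)
  have hlow : ∀ z, T.dist a z + T.dist z d = T.dist a d → T.dist a z ≤ T.dist a m →
      T.dist a z + T.dist z c = T.dist a c := by
    intro z hz hle
    have k := core_linear hT hz h1 hle
    have t1 := hc.dist_triangle (u := z) (v := m) (w := c)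
    have t2 := hc.dist_triangle (u := a) (v := z) (w := c)
    omega
  have hhigh : ∀ z, T.dist a z + T.dist z d = T.dist a d → T.dist a m ≤ T.dist a z →
      T.dist c z + T.dist z d = T.dist c d := by
    intro z hz hle
    have c1 := T.dist_comm (u := a) (v := z)
    have c2 := T.dist_comm (u := z) (v := d)
    have c3 := T.dist_comm (u := a) (v := d)
    have c4 := T.dist_comm (u := m) (v := d)
    have c5 := T.dist_comm (u := a) (v := m)
    have c6 := T.dist_comm (u := z) (v := m)
    have k := core_linear hT (a := d) (d := a) (z := z) (m := m) (by omega) (by omega) (by omega)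
    have t1 := hc.dist_triangle (u := c) (v := m) (w := z)
    have t2 := hc.dist_triangle (u := c) (v := z) (w := d)
    omega
  rcases tree_dist_adj hT hxy a with h | h
  · -- `y` is farther
    by_cases hle : T.dist a y ≤ T.dist a m
    · exact Or.inl ⟨hlow x hx (by omega), hlow y hy hle⟩
    · exact Or.inr ⟨hhigh x hx (by omega), hhigh y hy (by omega)⟩
  · by_cases hle : T.dist a x ≤ T.dist a m
    · exact Or.inl ⟨hlow x hx hle, hlow y hy (by omega)⟩
    · exact Or.inr ⟨hhigh x hx (by omega), hhigh y hy (by omega)⟩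

theorem core {G : Type u} [Group G] {V : Type v} [MulAction G V] {T : SimpleGraph V}
    (h : TreeAct G T) (H : Subgroup G) (hH : H.FG) (x₀ : V) :
    ∃ W : Set V, x₀ ∈ W ∧ IsConvex T W ∧ (∀ g ∈ H, ∀ x ∈ W, g • x ∈ W) ∧
      (∃ B : Set V, B.Finite ∧ ∀ x ∈ W, ∃ g ∈ H, ∃ b ∈ B, g • b = x) ∧
      ∃ B : Set (V × V), B.Finite ∧ ∀ x ∈ W, ∀ y ∈ W, T.Adj x y →
        ∃ g ∈ H, ∃ b ∈ B, g • b.1 = x ∧ g • b.2 = y := by
  classical
  have hT := h.tree
  have hact := h.adj
  have hc := hT.1
  have hd := dist_smul (X := T) hc hact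
  obtain ⟨S, hS⟩ := hH
  -- intervals
  let I : V → V → Set V := fun a c => {z : V | T.dist a z + T.dist z c = T.dist a c}
  have hI : ∀ a c z, z ∈ I a c ↔ T.dist a z + T.dist z c = T.dist a c := fun a c z => Iff.rfl
  have hIsm : ∀ (g : G) a c z, g • z ∈ I (g • a) (g • c) ↔ z ∈ I a c := by
    intro g a c z
    rw [hI, hI, hd, hd, hd]
  have hIcomm : ∀ a c z, z ∈ I a c ↔ z ∈ I c a := by
    intro a c z
    rw [hI, hI, T.dist_comm (u := a) (v := z), T.dist_comm (u := z) (v := c),
      T.dist_comm (u := a) (v := c)]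
    omega
  have hIself : ∀ a c, a ∈ I a c := by
    intro a c
    rw [hI]
    simp
  have hItrans : ∀ a c x z, x ∈ I a c → z ∈ I a x → z ∈ I a c := by
    intro a c x z hx hz
    rw [hI] at *
    have t1 := hc.dist_triangle (u := z) (v := x) (w := c)
    have t2 := hc.dist_triangle (u := a) (v := z) (w := c)
    omega
  have hsplit : ∀ a c z b, z ∈ I a c → z ∈ I a b ∨ z ∈ I b c := by
    intro a c z b hz
    exact tree_split hT b hz
  have hsplit2 : ∀ a c x y b, T.Adj x y → x ∈ I a c → y ∈ I a c →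
      (x ∈ I a b ∧ y ∈ I a b) ∨ (x ∈ I b c ∧ y ∈ I b c) := by
    intro a c x y b hxy hx hy
    exact core_edge_split hT hxy hx hy
  have hBfin : (⋃ s ∈ insert (1 : G) S, I x₀ (s • x₀)).Finite := by
    apply Set.Finite.biUnion (Finset.finite_toSet _)
    intro s _
    exact tree_interval_finite hT _ _
  refine ⟨{z | ∃ g ∈ H, ∃ h ∈ H, z ∈ I (g • x₀) (h • x₀)}, ?_, ?_, ?_, ?_, ?_⟩
  · exact ⟨1, H.one_mem, 1, H.one_mem, by simpa using hIself x₀ x₀⟩
  · rintro x ⟨g, hg, h, hh, hx⟩ y ⟨g', hg', h', hh', hy⟩ z hz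
    rcases hsplit x y z (g • x₀) hz with h1 | h1
    · rw [hIcomm] at h1
      exact ⟨g, hg, h, hh, hItrans _ _ _ _ hx h1⟩
    · rcases hsplit _ _ z (g' • x₀) h1 with h2 | h2
      · exact ⟨g, hg, g', hg', h2⟩
      · exact ⟨g', hg', h', hh', hItrans _ _ _ _ hy h2⟩
  · rintro k hk x ⟨g, hg, h, hh, hx⟩
    refine ⟨k * g, H.mul_mem hk hg, k * h, H.mul_mem hk hh, ?_⟩
    rw [mul_smul, mul_smul, hIsm]
    exact hx
  · refine ⟨⋃ s ∈ insert (1 : G) S, I x₀ (s • x₀), hBfin, ?_⟩
    have key : ∀ h ∈ H, ∀ z ∈ I x₀ (h • x₀),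
        ∃ g ∈ H, ∃ s ∈ insert (1 : G) S, g⁻¹ • z ∈ I x₀ (s • x₀) := by
      intro h hh
      rw [← hS] at hh
      induction hh using Subgroup.closure_induction with
      | mem s hs =>
        intro z hz
        exact ⟨1, H.one_mem, s, Finset.mem_insert_of_mem hs, by simpa using hz⟩
      | one =>
        intro z hz
        exact ⟨1, H.one_mem, 1, Finset.mem_insert_self _ _, by simpa using hz⟩
      | mul a b ha hb iha ihb =>
        intro z hz
        rw [hS] at ha hb
        rcases hsplit _ _ z (a • x₀) hz with h1 | h1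
        · exact iha z h1
        · have h2 : a⁻¹ • z ∈ I x₀ (b • x₀) := by
            rw [← hIsm a]
            simpa [mul_smul] using h1
          obtain ⟨g, hg, s, hs, h3⟩ := ihb _ h2
          refine ⟨a * g, H.mul_mem ha hg, s, hs, ?_⟩
          simpa [mul_smul] using h3
      | inv a ha iha =>
        intro z hz
        rw [hS] at ha
        have h2 : a • z ∈ I x₀ (a • x₀) := by
          rw [hIcomm, ← hIsm a⁻¹]
          simpa using hz
        obtain ⟨g, hg, s, hs, h3⟩ := iha _ h2
        refine ⟨a⁻¹ * g, H.mul_mem (H.inv_mem ha) hg, s, hs, ?_⟩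
        simpa [mul_smul] using h3
    rintro x ⟨g, hg, h, hh, hx⟩
    have h1 : g⁻¹ • x ∈ I x₀ ((g⁻¹ * h) • x₀) := by
      rw [← hIsm g]
      simpa [mul_smul] using hx
    obtain ⟨k, hk, s, hs, h2⟩ := key _ (H.mul_mem (H.inv_mem hg) hh) _ h1
    refine ⟨g * k, H.mul_mem hg hk, k⁻¹ • g⁻¹ • x, ?_, ?_⟩
    · simp only [Set.mem_iUnion]
      exact ⟨s, hs, h2⟩
    · simp [mul_smul]
  · refine ⟨(⋃ s ∈ insert (1 : G) S, I x₀ (s • x₀)) ×ˢ (⋃ s ∈ insert (1 : G) S, I x₀ (s • x₀)),
      hBfin.prod hBfin, ?_⟩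
    have key : ∀ h ∈ H, ∀ x y, T.Adj x y → x ∈ I x₀ (h • x₀) → y ∈ I x₀ (h • x₀) →
        ∃ g ∈ H, ∃ s ∈ insert (1 : G) S, g⁻¹ • x ∈ I x₀ (s • x₀) ∧
          g⁻¹ • y ∈ I x₀ (s • x₀) := by
      intro h hh
      rw [← hS] at hh
      induction hh using Subgroup.closure_induction with
      | mem s hs =>
        intro x y _ hx hy
        exact ⟨1, H.one_mem, s, Finset.mem_insert_of_mem hs, by simpa using hx,
          by simpa using hy⟩
      | one =>
        intro x y _ hx hy
        exact ⟨1, H.one_mem, 1, Finset.mem_insert_self _ _, by simpa using hx,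
          by simpa using hy⟩
      | mul a b ha hb iha ihb =>
        intro x y hxy hx hy
        rw [hS] at ha hb
        rcases hsplit2 _ _ x y (a • x₀) hxy hx hy with ⟨h1, h1'⟩ | ⟨h1, h1'⟩
        · exact iha x y hxy h1 h1'
        · have h2 : a⁻¹ • x ∈ I x₀ (b • x₀) := by
            rw [← hIsm a]
            simpa [mul_smul] using h1
          have h2' : a⁻¹ • y ∈ I x₀ (b • x₀) := by
            rw [← hIsm a]
            simpa [mul_smul] using h1'
          obtain ⟨g, hg, s, hs, h3, h3'⟩ := ihb _ _ (hact a⁻¹ _ _ hxy) h2 h2'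
          refine ⟨a * g, H.mul_mem ha hg, s, hs, ?_, ?_⟩
          · simpa [mul_smul] using h3
          · simpa [mul_smul] using h3'
      | inv a ha iha =>
        intro x y hxy hx hy
        rw [hS] at ha
        have h2 : a • x ∈ I x₀ (a • x₀) := by
          rw [hIcomm, ← hIsm a⁻¹]
          simpa using hx
        have h2' : a • y ∈ I x₀ (a • x₀) := by
          rw [hIcomm, ← hIsm a⁻¹]
          simpa using hy
        obtain ⟨g, hg, s, hs, h3, h3'⟩ := iha _ _ (hact a _ _ hxy) h2 h2'
        refine ⟨a⁻¹ * g, H.mul_mem (H.inv_mem ha) hg, s, hs, ?_, ?_⟩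
        · simpa [mul_smul] using h3
        · simpa [mul_smul] using h3'
    have hside : ∀ x y, T.Adj x y → (∃ g ∈ H, ∃ k ∈ H, x ∈ I (g • x₀) (k • x₀)) →
        ∃ g ∈ H, T.dist (g • x₀) y = T.dist (g • x₀) x + 1 := by
      rintro x y hxy ⟨g, hg, k, hk, hx⟩
      rw [hI] at hx
      rcases tree_dist_adj hT hxy (g • x₀) with h1 | h1
      · exact ⟨g, hg, h1⟩
      · rcases tree_dist_adj hT hxy (k • x₀) with h2 | h2
        · exact ⟨k, hk, h2⟩
        · exfalso
          have c1 := T.dist_comm (u := k • x₀) (v := x)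
          have c2 := T.dist_comm (u := k • x₀) (v := y)
          have t := hc.dist_triangle (u := g • x₀) (v := y) (w := k • x₀)
          omega
    intro x hx y hy hxy
    obtain ⟨g, hg, e1⟩ := hside x y hxy hx
    obtain ⟨k, hk, e2⟩ := hside y x hxy.symm hy
    have d1 : T.dist x y = 1 := SimpleGraph.dist_eq_one_iff_adj.2 hxy
    have c1 := T.dist_comm (u := k • x₀) (v := x)
    have c2 := T.dist_comm (u := k • x₀) (v := y)
    have hs1 : T.dist (g • x₀) x + T.dist x (k • x₀) = T.dist (g • x₀) (k • x₀) := by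
      rcases tree_split hT (a := g • x₀) (c := y) (z := x) (k • x₀) (by omega) with h1 | h1
      · exact h1
      · omega
    have hx1 : x ∈ I (g • x₀) (k • x₀) := hs1
    have hy1 : y ∈ I (g • x₀) (k • x₀) := by
      rw [hI]
      omega
    have hx2 : g⁻¹ • x ∈ I x₀ ((g⁻¹ * k) • x₀) := by
      rw [← hIsm g]
      simpa [mul_smul] using hx1
    have hy2 : g⁻¹ • y ∈ I x₀ ((g⁻¹ * k) • x₀) := by
      rw [← hIsm g]
      simpa [mul_smul] using hy1
    obtain ⟨l, hl, s, hs, h3, h3'⟩ := key _ (H.mul_mem (H.inv_mem hg) hk) _ _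
      (hact g⁻¹ _ _ hxy) hx2 hy2
    refine ⟨g * l, H.mul_mem hg hl, (l⁻¹ • g⁻¹ • x, l⁻¹ • g⁻¹ • y), ?_, ?_, ?_⟩
    · refine ⟨?_, ?_⟩
      · simp only [Set.mem_iUnion]
        exact ⟨s, hs, h3⟩
      · simp only [Set.mem_iUnion]
        exact ⟨s, hs, h3'⟩
    · simp [mul_smul]
    · simp [mul_smul]

end Pool.Agent.LR
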