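import Pool.Agent.Lib.MP_836f52_al_LR.Marks

set_option autoImplicit false

/-!
Row CO1: the quotient of a family by a normal subgroup.

`C` is the quotient of `W` by `K` (`w ~ k • w`, e.g. `MulAction.orbitRel.Quotient K W` or `Quot`); `Γ`
acts on it since `K` is normal, `K` acts trivially.
* `c` is injective on the fibres: if `w' = k • w` is over `x` too then `k • x = x`, so `w' = w` by `hKW`.
* `H` acts freely: if `h • [w] = [w]` then `h • w = k • w` for some `k ∈ K`; as `h` fixes `πW w`, so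
  does `k`, hence `k • w = w` by `hKW`, `h • w = w` and `h = 1`.
* `FinMod H C`: `C` is covered by the images of the fibres `{w | πW w = b}`, `b ∈ B` (`hKV`: if
  `πW w = k • b` then `[w] = [k⁻¹ • w]`), each of them is `FinMod` (`FinMod.image`, `FinMod.union`,
  induction on the finite set `B`).
-/

namespace Pool.Agent.LR

universe u

private def CO1_setoid {Γ : Type u} [Group Γ] (K : Subgroup Γ) (W : Type u) [MulAction Γ W] :
    Setoid W where
  r w w' := ∃ k ∈ K, k • w = w'
  iseqv :=
    { refl := fun w => ⟨1, K.one_mem, one_smul _ _⟩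
      symm := fun {w w'} ⟨k, hk, h⟩ => ⟨k⁻¹, K.inv_mem hk, by rw [← h, inv_smul_smul]⟩
      trans := fun {w w' w''} ⟨k, hk, h⟩ ⟨k', hk', h'⟩ =>
        ⟨k' * k, K.mul_mem hk' hk, by rw [mul_smul, h, h']⟩ }

@[reducible] private def CO1_act {Γ : Type u} [Group Γ] (K : Subgroup Γ) (hK : K.Normal)
    (W : Type u) [MulAction Γ W] : MulAction Γ (Quotient (CO1_setoid K W)) where
  smul g := Quotient.map (fun w => g • w) (by
    rintro w w' ⟨k, hk, rfl⟩
    exact ⟨g * k * g⁻¹, hK.conj_mem k hk g, by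
      rw [← mul_smul, inv_mul_cancel_right, mul_smul]⟩)
  one_smul z := by
    induction z using Quotient.inductionOn with
    | h w => exact congrArg (Quotient.mk _) (one_smul Γ w)
  mul_smul g g' z := by
    induction z using Quotient.inductionOn with
    | h w => exact congrArg (Quotient.mk _) (mul_smul g g' w)

theorem exists_quot {Γ : Type u} [Group Γ] {V : Type u} [MulAction Γ V] (H K : Subgroup Γ)
    (hK : K.Normal) (hHV : ∀ h ∈ H, ∀ x : V, h • x = x)
    (hKV : ∃ B : Set V, B.Finite ∧ ∀ x, ∃ k ∈ K, ∃ b ∈ B, k • b = x)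
    {W : Type u} [MulAction Γ W] (πW : W → V) (hπW : ∀ (g : Γ) (w : W), πW (g • w) = g • πW w)
    (fW : FreeOn H (Set.univ : Set W)) (mW : ∀ x, FinMod H {w | πW w = x})
    (hKW : ∀ k ∈ K, ∀ w, k • πW w = πW w → k • w = w) :
    ∃ (C : Type u) (_ : MulAction Γ C) (c : W → C), (∀ (g : Γ) (w : W), c (g • w) = g • c w) ∧
      (∀ x, Set.InjOn c {w | πW w = x}) ∧ (∀ k ∈ K, ∀ z : C, k • z = z) ∧
      FreeOn H (Set.univ : Set C) ∧ FinMod H (Set.univ : Set C) := by
  have htriv : ∀ k ∈ K, ∀ w : W, Quotient.mk (CO1_setoid K W) (k • w) =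
      Quotient.mk (CO1_setoid K W) w := fun k hk w =>
    Quotient.sound ⟨k⁻¹, K.inv_mem hk, inv_smul_smul k w⟩
  refine ⟨Quotient (CO1_setoid K W), CO1_act K hK W, Quotient.mk _, fun g w => rfl, ?_, ?_, ?_, ?_⟩
  · intro x w hw w' hw' h
    obtain ⟨k, hk, hkw⟩ := Quotient.exact h
    have h1 : k • πW w = πW w := by
      rw [← hπW, hkw]
      exact hw'.trans hw.symm
    rw [← hkw]
    exact (hKW k hk w h1).symm
  · intro k hk z
    induction z using Quotient.inductionOn with
    | h w => exact htriv k hk w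
  · intro h hh z _ hz
    induction z using Quotient.inductionOn with
    | h w =>
      obtain ⟨k, hk, hkw⟩ := Quotient.exact (s := CO1_setoid K W) (a := h • w) (b := w) hz
      have h1 : πW (h • w) = πW w := by rw [hπW, hHV h hh]
      have h2 : k • πW (h • w) = πW (h • w) := by
        rw [← hπW, hkw, h1]
      have h3 := hKW k hk (h • w) h2
      rw [hkw] at h3
      exact fW h hh w (Set.mem_univ _) h3.symm
  · obtain ⟨B, hB, hBK⟩ := hKV
    choose Bf hBf1 hBf2 using mW
    refine ⟨⋃ b ∈ B, Quotient.mk (CO1_setoid K W) '' Bf b,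
      hB.biUnion fun b _ => (hBf1 b).image _, ?_⟩
    intro z _
    induction z using Quotient.inductionOn with
    | h w =>
      obtain ⟨k, hk, b, hb, hkb⟩ := hBK (πW w)
      have h1 : πW (k⁻¹ • w) = b := by rw [hπW, ← hkb, inv_smul_smul]
      obtain ⟨h, hh, b', hb', hhb⟩ := hBf2 b (k⁻¹ • w) h1
      refine ⟨h, hh, Quotient.mk _ b', ?_, ?_⟩
      · exact Set.mem_biUnion hb ⟨b', hb', rfl⟩
      · change Quotient.mk (CO1_setoid K W) (h • b') = _
        rw [hhb]
        exact htriv k⁻¹ (K.inv_mem hk) w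

end Pool.Agent.LR
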