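import Pool.Agent.Lib.MP_836f52_al_LR.Flat
import Pool.Agent.Lib.MP_836f52_al_LR.Burn
import Pool.Agent.Lib.MP_836f52_al_LR.Quot

set_option autoImplicit false

/-!
Row CO2: the gluing theorem.

Get `C` and `c : W → C` from `exists_quot`; let `C x = c '' {w | πW w = x}`; `g • C x = C (g • x)`.
`Y = Z ⊕ {p : V × C // p.2 ∉ C p.1}` with the evident action of `Γ` and the evident `πY : Y → V`.
`H` acts freely on `Y`, the fibres are `FinMod`, and (`marks_union`, `marks_bijOn`) for `Δ` fixing `x`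
  `marks Y_x Δ + marks W_x Δ = marks Z_x Δ + marks (univ : Set C) Δ`.  (1)
Let `rY` be the relation `r` on the first summand.  To apply `flat` one needs for adjacent `x`, `x'` the
bijection `φ`.  Let `Λ` be the stabiliser of `x` and `x'`; `H ≤ Λ` (`hHV`).  Let `A` be the set of
the points of `Y_x` not `rY`-related to a point over `x'`, `A'` the set of the points of `Y_x'` not
`rY`-related to a point over `x`.  `rY` gives a bijection between `Y_x \ A` and `Y_x' \ A'` commuting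
with `Λ` (`hr_fun`, `hr_symm`), so these have equal marks (`marks_bijOn`); by (1) for `x` and `x'`,
and `hmarks`, `Y_x` and `Y_x'` have equal marks for `Δ ≤ Λ`, `Δ ⊓ H = ⊥`; so `A` and `A'` have equal
marks; apply `burn`, and glue.
`flat` gives `Q` and `p : Y → Q`; restrict `p` to `Z`.  The bijections `Y_x → Q` commute with the
stabiliser of `x`, so `H` acts freely on `Q`, `Q` is `FinMod H` and `marks Q Δ = marks Y_x Δ` for `Δ`
fixing `x` (`marks_bijOn` with `Λ` the stabiliser of `x`); use (1).  (`V` is not empty as `T` is a tree.)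
-/

namespace Pool.Agent.LR

open Pool.Agent.Lib.MP_836f52_al_H7

universe u

private theorem co2_mono {Γ : Type u} [Group Γ] {Y : Type u} [MulAction Γ Y] {H : Subgroup Γ}
    {A B : Set Y} (h : FreeOn H A) (hB : B ⊆ A) : FreeOn H B :=
  fun g hg y hy e => h g hg y (hB hy) e

/-- the bijection between the fibres over adjacent vertices -/
private theorem co2_phi {Γ : Type u} [Group Γ] {V : Type u} [MulAction Γ V] (H : Subgroup Γ)
    (hH : H.Normal) (hHV : ∀ h ∈ H, ∀ x : V, h • x = x) {Y : Type u} [MulAction Γ Y] (π : Y → V)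
    (hπ : ∀ (g : Γ) (y : Y), π (g • y) = g • π y) (fY : FreeOn H (Set.univ : Set Y))
    (mY : ∀ x, FinMod H {y | π y = x}) (r : Y → Y → Prop) (hsymm : ∀ y y', r y y' → r y' y)
    (hsmul : ∀ (g : Γ) (y y' : Y), r y y' → r (g • y) (g • y'))
    (hfun : ∀ y y₁ y₂, r y y₁ → r y y₂ → π y₁ = π y₂ → y₁ = y₂) (x x' : V)
    (hfi : (H.subgroupOf (MulAction.stabilizer Γ x ⊓ MulAction.stabilizer Γ x')).FiniteIndex)
    (hmarks : ∀ Δ : Subgroup Γ, (∀ d ∈ Δ, d • x = x ∧ d • x' = x') → Δ ⊓ H = ⊥ →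
      marks H {y | π y = x} Δ = marks H {y | π y = x'} Δ) :
    ∃ φ : Y → Y, Set.BijOn φ {y | π y = x} {y | π y = x'} ∧
      (∀ g : Γ, g • x = x → g • x' = x' → ∀ y, π y = x → φ (g • y) = g • φ y) ∧
      ∀ y y', π y = x → π y' = x' → r y y' → φ y = y' := by
  classical
  set Λ : Subgroup Γ := MulAction.stabilizer Γ x ⊓ MulAction.stabilizer Γ x' with hΛ
  have hΛ1 : ∀ g ∈ Λ, g • x = x := fun g hg => MulAction.mem_stabilizer_iff.1 hg.1
  have hΛ2 : ∀ g ∈ Λ, g • x' = x' := fun g hg => MulAction.mem_stabilizer_iff.1 hg.2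
  have hHΛ : H ≤ Λ := fun h hh =>
    ⟨MulAction.mem_stabilizer_iff.2 (hHV h hh x), MulAction.mem_stabilizer_iff.2 (hHV h hh x')⟩
  let D : Set Y := {y | π y = x ∧ ∃ y', π y' = x' ∧ r y y'}
  let A : Set Y := {y | π y = x ∧ ¬ ∃ y', π y' = x' ∧ r y y'}
  let D' : Set Y := {y' | π y' = x' ∧ ∃ y, π y = x ∧ r y' y}
  let A' : Set Y := {y' | π y' = x' ∧ ¬ ∃ y, π y = x ∧ r y' y}
  have hDA : {y | π y = x} = D ∪ A := by
    ext y
    constructor
    · intro h
      by_cases h1 : ∃ y', π y' = x' ∧ r y y'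
      · exact Or.inl ⟨h, h1⟩
      · exact Or.inr ⟨h, h1⟩
    · rintro (h | h)
      · exact h.1
      · exact h.1
  have hDA' : {y | π y = x'} = D' ∪ A' := by
    ext y
    constructor
    · intro h
      by_cases h1 : ∃ y', π y' = x ∧ r y y'
      · exact Or.inl ⟨h, h1⟩
      · exact Or.inr ⟨h, h1⟩
    · rintro (h | h)
      · exact h.1
      · exact h.1
  have dis : Disjoint D A := Set.disjoint_left.2 fun y h h' => h'.2 h.2
  have dis' : Disjoint D' A' := Set.disjoint_left.2 fun y h h' => h'.2 h.2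
  -- stability
  have sD : ∀ g ∈ Λ, ∀ y ∈ D, g • y ∈ D := by
    rintro g hg y ⟨h1, y', h2, h3⟩
    exact ⟨by rw [hπ, h1, hΛ1 g hg], g • y', by rw [hπ, h2, hΛ2 g hg], hsmul g _ _ h3⟩
  have sD' : ∀ g ∈ Λ, ∀ y ∈ D', g • y ∈ D' := by
    rintro g hg y ⟨h1, y', h2, h3⟩
    exact ⟨by rw [hπ, h1, hΛ2 g hg], g • y', by rw [hπ, h2, hΛ1 g hg], hsmul g _ _ h3⟩
  have sA : ∀ g ∈ Λ, ∀ y ∈ A, g • y ∈ A := by
    rintro g hg y ⟨h1, h2⟩
    refine ⟨by rw [hπ, h1, hΛ1 g hg], fun h3 => h2 ?_⟩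
    have h4 := sD g⁻¹ (Λ.inv_mem hg) (g • y) ⟨by rw [hπ, h1, hΛ1 g hg], h3⟩
    rw [inv_smul_smul] at h4
    exact h4.2
  have sA' : ∀ g ∈ Λ, ∀ y ∈ A', g • y ∈ A' := by
    rintro g hg y ⟨h1, h2⟩
    refine ⟨by rw [hπ, h1, hΛ2 g hg], fun h3 => h2 ?_⟩
    have h4 := sD' g⁻¹ (Λ.inv_mem hg) (g • y) ⟨by rw [hπ, h1, hΛ2 g hg], h3⟩
    rw [inv_smul_smul] at h4
    exact h4.2
  -- finiteness
  have mD : FinMod H D := (mY x).mono fun y h => h.1
  have mA : FinMod H A := (mY x).mono fun y h => h.1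
  have mD' : FinMod H D' := (mY x').mono fun y h => h.1
  have mA' : FinMod H A' := (mY x').mono fun y h => h.1
  -- the bijection given by the relation
  let ψ : Y → Y := fun y => if h : ∃ y', π y' = x' ∧ r y y' then h.choose else y
  have hψ : ∀ y ∈ D, π (ψ y) = x' ∧ r y (ψ y) := by
    intro y hy
    have h1 : ψ y = hy.2.choose := dif_pos hy.2
    rw [h1]
    exact hy.2.choose_spec
  have hψ' : ∀ y y', π y = x → π y' = x' → r y y' → ψ y = y' := by
    intro y y' h0 h1 h2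
    obtain ⟨h3, h4⟩ := hψ y ⟨h0, y', h1, h2⟩
    exact hfun y _ _ h4 h2 (h3.trans h1.symm)
  have bψ : Set.BijOn ψ D D' := by
    refine ⟨fun y hy => ⟨(hψ y hy).1, y, hy.1, hsymm _ _ (hψ y hy).2⟩, ?_, ?_⟩
    · intro y₁ h₁ y₂ h₂ e
      refine hfun (ψ y₁) y₁ y₂ (hsymm _ _ (hψ y₁ h₁).2) ?_ (h₁.1.trans h₂.1.symm)
      rw [e]
      exact hsymm _ _ (hψ y₂ h₂).2
    · rintro y' ⟨h1, y, h2, h3⟩
      have h4 := hsymm _ _ h3
      exact ⟨y, ⟨h2, y', h1, h4⟩, hψ' y y' h2 h1 h4⟩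
  have cψ : ∀ g ∈ Λ, ∀ y ∈ D, ψ (g • y) = g • ψ y := by
    intro g hg y hy
    obtain ⟨h1, h2⟩ := hψ y hy
    refine hψ' _ _ ?_ ?_ (hsmul g _ _ h2)
    · rw [hπ, hy.1, hΛ1 g hg]
    · rw [hπ, h1, hΛ2 g hg]
  -- the rest has equal marks
  have hAA : ∀ Δ : Subgroup Γ, Δ ≤ Λ → Δ ⊓ H = ⊥ → marks H A Δ = marks H A' Δ := by
    intro Δ hΔ hΔH
    have h1 := hmarks Δ (fun d hd => ⟨hΛ1 d (hΔ hd), hΛ2 d (hΔ hd)⟩) hΔH
    rw [hDA, hDA', marks_union mD mA (fun h hh y hy => sD h (hHΛ hh) y hy) dis Δ,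
      marks_union mD' mA' (fun h hh y hy => sD' h (hHΛ hh) y hy) dis' Δ] at h1
    have h2 : marks H D' Δ = marks H D Δ := marks_bijOn hHΛ hΔ sD ψ bψ cψ
    omega
  obtain ⟨φ₀, b₀, c₀⟩ := burn Λ H hHΛ (fun g _ h hh => hH.conj_mem h hh g) hfi A A' sA sA'
    (co2_mono fY (Set.subset_univ _)) (co2_mono fY (Set.subset_univ _)) mA mA' hAA
  let φ : Y → Y := fun y => if y ∈ D then ψ y else φ₀ y
  have φD : ∀ y ∈ D, φ y = ψ y := fun y hy => if_pos hy
  have φA : ∀ y ∈ A, φ y = φ₀ y := fun y hy => if_neg fun h => Set.disjoint_left.1 dis h hy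
  have b1 : Set.BijOn φ D D' := bψ.congr fun y hy => (φD y hy).symm
  have b2 : Set.BijOn φ A A' := b₀.congr fun y hy => (φA y hy).symm
  refine ⟨φ, ?_, ?_, ?_⟩
  · rw [hDA, hDA']
    refine b1.union b2 ?_
    rw [Set.injOn_union dis]
    refine ⟨b1.injOn, b2.injOn, fun y hy y' hy' e => ?_⟩
    have h1 := b1.mapsTo hy
    rw [e] at h1
    exact Set.disjoint_left.1 dis' h1 (b2.mapsTo hy')
  · intro g hg hg' y hy
    have hgΛ : g ∈ Λ := ⟨MulAction.mem_stabilizer_iff.2 hg, MulAction.mem_stabilizer_iff.2 hg'⟩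
    have hy' : y ∈ D ∪ A := by
      rw [← hDA]
      exact hy
    rcases hy' with h | h
    · rw [φD y h, φD _ (sD g hgΛ y h), cψ g hgΛ y h]
    · rw [φA y h, φA _ (sA g hgΛ y h), c₀ g hgΛ y h]
  · intro y y' hy hy' h
    rw [φD y ⟨hy, y', hy', h⟩]
    exact hψ' y y' hy hy' h

/-- the points of `V × C` outside of the family `S` -/
private def CoP (V C : Type u) (S : V → Set C) : Type u := {q : V × C // q.2 ∉ S q.1}

@[reducible] private def coPAct {Γ : Type u} [Group Γ] {V C : Type u} [MulAction Γ V]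
    [MulAction Γ C] (S : V → Set C)
    (hS : ∀ (g : Γ) (x : V) (z : C), z ∈ S x → g • z ∈ S (g • x)) :
    MulAction Γ (CoP V C S) where
  smul g q := ⟨(g • q.1.1, g • q.1.2), fun h => q.2 (by
    have h1 := hS g⁻¹ _ _ h
    rwa [inv_smul_smul, inv_smul_smul] at h1)⟩
  one_smul q := Subtype.ext (Prod.ext (one_smul _ _) (one_smul _ _))
  mul_smul g g' q := Subtype.ext (Prod.ext (mul_smul _ _ _) (mul_smul _ _ _))

private theorem co2_Y {Γ : Type u} [Group Γ] {V : Type u} [MulAction Γ V] (H : Subgroup Γ)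
    (hHV : ∀ h ∈ H, ∀ x : V, h • x = x) {Z W C : Type u} [MulAction Γ Z] [MulAction Γ W]
    [MulAction Γ C] (πZ : Z → V) (hπZ : ∀ (g : Γ) (z : Z), πZ (g • z) = g • πZ z) (πW : W → V)
    (hπW : ∀ (g : Γ) (w : W), πW (g • w) = g • πW w) (fZ : FreeOn H (Set.univ : Set Z))
    (mZ : ∀ x, FinMod H {z | πZ z = x}) (c : W → C) (hc : ∀ (g : Γ) (w : W), c (g • w) = g • c w)
    (hci : ∀ x, Set.InjOn c {w | πW w = x}) (fC : FreeOn H (Set.univ : Set C))
    (mC : FinMod H (Set.univ : Set C)) :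
    ∃ (Y : Type u) (_ : MulAction Γ Y) (πY : Y → V) (i : Z → Y),
      (∀ (g : Γ) (y : Y), πY (g • y) = g • πY y) ∧ (∀ (g : Γ) (z : Z), i (g • z) = g • i z) ∧
      Function.Injective i ∧ (∀ z, πY (i z) = πZ z) ∧ FreeOn H (Set.univ : Set Y) ∧
      (∀ x, FinMod H {y | πY y = x}) ∧ ∀ (x : V) (Δ : Subgroup Γ), (∀ d ∈ Δ, d • x = x) →
        marks H {y | πY y = x} Δ + marks H {w | πW w = x} Δ =
          marks H {z | πZ z = x} Δ + marks H (Set.univ : Set C) Δ := by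
  classical
  let S : V → Set C := fun x => c '' {w | πW w = x}
  have hS : ∀ (g : Γ) (x : V) (z : C), z ∈ S x → g • z ∈ S (g • x) := by
    rintro g x _ ⟨w, hw, rfl⟩
    exact ⟨g • w, by rw [Set.mem_ofPred_eq, hπW, hw], hc g w⟩
  have hS' : ∀ (g : Γ) (x : V) (z : C), g • x = x → (g • z ∈ S x ↔ z ∈ S x) := by
    intro g x z hx
    constructor
    · intro h
      have h1 := hS g⁻¹ x _ h
      rw [inv_smul_smul] at h1
      rwa [show g⁻¹ • x = x by rw [inv_smul_eq_iff, hx]] at h1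
    · intro h
      have h1 := hS g x z h
      rwa [hx] at h1
  let _ : MulAction Γ (CoP V C S) := coPAct S hS
  have sm1 : ∀ (g : Γ) (q : CoP V C S), (g • q).1.1 = g • q.1.1 := fun _ _ => rfl
  have sm2 : ∀ (g : Γ) (q : CoP V C S), (g • q).1.2 = g • q.1.2 := fun _ _ => rfl
  let πY : Z ⊕ CoP V C S → V := Sum.elim πZ fun q => q.1.1
  have mP : ∀ x, FinMod H {q : CoP V C S | q.1.1 = x} := by
    intro x
    obtain ⟨B, hB, hB'⟩ := mC
    refine ⟨{q | q.1 ∈ ({x} : Set V) ×ˢ B},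
      ((Set.finite_singleton x).prod hB).preimage Subtype.val_injective.injOn, fun q hq => ?_⟩
    obtain ⟨h, hh, b, hb, e⟩ := hB' q.1.2 (Set.mem_univ _)
    have hq' : q.1.1 = x := hq
    have hbx : b ∉ S x := by
      intro h1
      have h2 := (hS' h x b (hHV h hh x)).2 h1
      rw [e, ← hq'] at h2
      exact q.2 h2
    refine ⟨h, hh, ⟨(x, b), hbx⟩, ⟨rfl, hb⟩, Subtype.ext (Prod.ext ?_ e)⟩
    exact (hHV h hh x).trans hq'.symm
  have hfib : ∀ x, {y | πY y = x} = Sum.inl '' {z | πZ z = x} ∪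
      Sum.inr '' {q : CoP V C S | q.1.1 = x} := by
    intro x
    ext y
    constructor
    · intro hy
      rcases y with z | q
      · exact Or.inl ⟨z, hy, rfl⟩
      · exact Or.inr ⟨q, hy, rfl⟩
    · rintro (⟨z, hz, rfl⟩ | ⟨q, hq, rfl⟩)
      · exact hz
      · exact hq
  have mL : ∀ x, FinMod H ((Sum.inl : Z → Z ⊕ CoP V C S) '' {z | πZ z = x}) := fun x =>
    (mZ x).image Sum.inl fun _ _ _ => rfl
  have mR : ∀ x, FinMod H ((Sum.inr : CoP V C S → Z ⊕ CoP V C S) '' {q | q.1.1 = x}) := fun x =>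
    (mP x).image Sum.inr fun _ _ _ => rfl
  refine ⟨Z ⊕ CoP V C S, inferInstance, πY, Sum.inl, ?_, fun _ _ => rfl, Sum.inl_injective,
    fun _ => rfl, ?_, ?_, ?_⟩
  · rintro g (z | q)
    · exact hπZ g z
    · rfl
  · rintro h hh (z | q) - e
    · exact fZ h hh z (Set.mem_univ _) (Sum.inl_injective e)
    · have e' : h • q = q := Sum.inr_injective e
      refine fC h hh q.1.2 (Set.mem_univ _) ?_
      rw [← sm2, e']
  · intro x
    rw [hfib x]
    exact (mL x).union (mR x)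
  · intro x Δ hΔ
    set Λ : Subgroup Γ := MulAction.stabilizer Γ x with hΛ
    have hΛ1 : ∀ g ∈ Λ, g • x = x := fun g hg => MulAction.mem_stabilizer_iff.1 hg
    have hHΛ : H ≤ Λ := fun h hh => MulAction.mem_stabilizer_iff.2 (hHV h hh x)
    have hΔΛ : Δ ≤ Λ := fun d hd => MulAction.mem_stabilizer_iff.2 (hΔ d hd)
    have sL : ∀ h ∈ H, ∀ y ∈ (Sum.inl : Z → Z ⊕ CoP V C S) '' {z | πZ z = x},
        h • y ∈ (Sum.inl : Z → Z ⊕ CoP V C S) '' {z | πZ z = x} := by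
      rintro h hh _ ⟨z, hz, rfl⟩
      refine ⟨h • z, ?_, rfl⟩
      rw [Set.mem_ofPred_eq, hπZ, hz, hHV h hh x]
    have dis : Disjoint ((Sum.inl : Z → Z ⊕ CoP V C S) '' {z | πZ z = x})
        ((Sum.inr : CoP V C S → Z ⊕ CoP V C S) '' {q | q.1.1 = x}) := by
      rw [Set.disjoint_left]
      rintro _ ⟨z, -, rfl⟩ ⟨q, -, h⟩
      exact absurd h (by simp)
    have h1 : marks H {y | πY y = x} Δ =
        marks H ((Sum.inl : Z → Z ⊕ CoP V C S) '' {z | πZ z = x}) Δ +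
          marks H ((Sum.inr : CoP V C S → Z ⊕ CoP V C S) '' {q | q.1.1 = x}) Δ := by
      rw [hfib x]
      exact marks_union (mL x) (mR x) sL dis Δ
    have h2 : marks H ((Sum.inl : Z → Z ⊕ CoP V C S) '' {z | πZ z = x}) Δ =
        marks H {z | πZ z = x} Δ := by
      refine marks_bijOn hHΛ hΔΛ (fun g hg z hz => ?_) Sum.inl
        (Sum.inl_injective.injOn.bijOn_image) fun _ _ _ _ => rfl
      rw [Set.mem_ofPred_eq, hπZ, hz, hΛ1 g hg]
    have h3 : marks H ((Sum.inr : CoP V C S → Z ⊕ CoP V C S) '' {q | q.1.1 = x}) Δ =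
        marks H {q : CoP V C S | q.1.1 = x} Δ := by
      refine marks_bijOn hHΛ hΔΛ (fun g hg q hq => ?_) Sum.inr
        (Sum.inr_injective.injOn.bijOn_image) fun _ _ _ _ => rfl
      rw [Set.mem_ofPred_eq, sm1, hq, hΛ1 g hg]
    have h4 : marks H (S x)ᶜ Δ = marks H {q : CoP V C S | q.1.1 = x} Δ := by
      refine marks_bijOn hHΛ hΔΛ (fun g hg q hq => ?_) (fun q => q.1.2) ⟨?_, ?_, ?_⟩
        fun _ _ _ _ => rfl
      · rw [Set.mem_ofPred_eq, sm1, hq, hΛ1 g hg]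
      · intro q hq h
        have hq' : q.1.1 = x := hq
        rw [← hq'] at h
        exact q.2 h
      · intro q hq q' hq' e
        exact Subtype.ext (Prod.ext (hq.trans hq'.symm) e)
      · intro z hz
        exact ⟨⟨(x, z), hz⟩, rfl, rfl⟩
    have h5 : marks H (S x) Δ = marks H {w | πW w = x} Δ := by
      refine marks_bijOn hHΛ hΔΛ (fun g hg w hw => ?_) c (hci x).bijOn_image
        fun g _ w _ => hc g w
      rw [Set.mem_ofPred_eq, hπW, hw, hΛ1 g hg]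
    have h6 : marks H (Set.univ : Set C) Δ = marks H (S x) Δ + marks H (S x)ᶜ Δ := by
      rw [← marks_union (mC.mono (Set.subset_univ _)) (mC.mono (Set.subset_univ _))
        (fun h hh z hz => (hS' h x z (hHV h hh x)).2 hz) disjoint_compl_right Δ,
        Set.union_compl_self]
    omega

theorem corr {Γ : Type u} [Group Γ] {V : Type u} [MulAction Γ V] {T : SimpleGraph V}
    (hT : TAct Γ T) (H K : Subgroup Γ) (hH : H.Normal) (hK : K.Normal)
    (hHV : ∀ h ∈ H, ∀ x : V, h • x = x)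
    (hfin : ∀ x x', T.Adj x x' →
      (H.subgroupOf (MulAction.stabilizer Γ x ⊓ MulAction.stabilizer Γ x')).FiniteIndex)
    (hKV : ∃ B : Set V, B.Finite ∧ ∀ x, ∃ k ∈ K, ∃ b ∈ B, k • b = x)
    {Z W : Type u} [MulAction Γ Z] [MulAction Γ W] (πZ : Z → V)
    (hπZ : ∀ (g : Γ) (z : Z), πZ (g • z) = g • πZ z) (πW : W → V)
    (hπW : ∀ (g : Γ) (w : W), πW (g • w) = g • πW w) (fZ : FreeOn H (Set.univ : Set Z))
    (fW : FreeOn H (Set.univ : Set W)) (mZ : ∀ x, FinMod H {z | πZ z = x})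
    (mW : ∀ x, FinMod H {w | πW w = x}) (hKW : ∀ k ∈ K, ∀ w, k • πW w = πW w → k • w = w)
    (hmarks : ∀ x x', T.Adj x x' → ∀ Δ : Subgroup Γ, (∀ d ∈ Δ, d • x = x ∧ d • x' = x') →
      Δ ⊓ H = ⊥ → marks H {z | πZ z = x} Δ + marks H {w | πW w = x'} Δ =
        marks H {z | πZ z = x'} Δ + marks H {w | πW w = x} Δ)
    (r : Z → Z → Prop) (hr_symm : ∀ z z', r z z' → r z' z)
    (hr_adj : ∀ z z', r z z' → T.Adj (πZ z) (πZ z'))
    (hr_smul : ∀ (g : Γ) (z z' : Z), r z z' → r (g • z) (g • z'))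
    (hr_fun : ∀ z z₁ z₂, r z z₁ → r z z₂ → πZ z₁ = πZ z₂ → z₁ = z₂) :
    ∃ (Q C : Type u) (_ : MulAction Γ Q) (_ : MulAction Γ C) (p : Z → Q),
      (∀ (g : Γ) (z : Z), p (g • z) = g • p z) ∧ (∀ z z', r z z' → p z = p z') ∧
      FreeOn H (Set.univ : Set Q) ∧ FinMod H (Set.univ : Set Q) ∧
      (∀ k ∈ K, ∀ c : C, k • c = c) ∧ FinMod H (Set.univ : Set C) ∧
      ∀ (x : V) (Δ : Subgroup Γ), (∀ d ∈ Δ, d • x = x) →
        marks H (Set.univ : Set Q) Δ + marks H {w | πW w = x} Δ =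
          marks H {z | πZ z = x} Δ + marks H (Set.univ : Set C) Δ := by
  classical
  obtain ⟨C, iC, c, hc, hci, hKC, fC, mC⟩ := exists_quot H K hK hHV hKV πW hπW fW mW hKW
  obtain ⟨Y, iY, πY, i, hπY, hi, inj, hπi, fY, mY, hY⟩ :=
    co2_Y H hHV πZ hπZ πW hπW fZ mZ c hc hci fC mC
  let R : Y → Y → Prop := fun y y' => ∃ z z', r z z' ∧ i z = y ∧ i z' = y'
  have R_symm : ∀ y y', R y y' → R y' y := by
    rintro _ _ ⟨z, z', h, rfl, rfl⟩
    exact ⟨z', z, hr_symm _ _ h, rfl, rfl⟩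
  have R_adj : ∀ y y', R y y' → T.Adj (πY y) (πY y') := by
    rintro _ _ ⟨z, z', h, rfl, rfl⟩
    rw [hπi, hπi]
    exact hr_adj _ _ h
  have R_smul : ∀ (g : Γ) (y y' : Y), R y y' → R (g • y) (g • y') := by
    rintro g _ _ ⟨z, z', h, rfl, rfl⟩
    exact ⟨g • z, g • z', hr_smul g _ _ h, hi g z, hi g z'⟩
  have R_fun : ∀ y y₁ y₂, R y y₁ → R y y₂ → πY y₁ = πY y₂ → y₁ = y₂ := by
    rintro _ _ _ ⟨z, z₁, h, rfl, rfl⟩ ⟨z', z₂, h', e, rfl⟩ e'
    obtain rfl := inj e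
    rw [hπi, hπi] at e'
    rw [hr_fun _ _ _ h h' e']
  obtain ⟨Q, iQ, p, hp, hpb, hpR⟩ := flat hT πY hπY R R_symm R_adj R_smul (by
    intro x x' hxx'
    refine co2_phi H hH hHV πY hπY fY mY R R_symm R_smul R_fun x x' (hfin x x' hxx') ?_
    intro Δ hΔ hΔH
    have h1 := hY x Δ fun d hd => (hΔ d hd).1
    have h2 := hY x' Δ fun d hd => (hΔ d hd).2
    have h3 := hmarks x x' hxx' Δ hΔ hΔH
    omega)
  obtain ⟨x₀⟩ : Nonempty V := hT.tree.connected.nonempty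
  refine ⟨Q, C, iQ, iC, fun z => p (i z), ?_, ?_, ?_, ?_, hKC, mC, ?_⟩
  · intro g z
    show p (i (g • z)) = g • p (i z)
    rw [hi, hp]
  · intro z z' h
    exact hpR _ _ ⟨z, z', h, rfl, rfl⟩
  · intro h hh q _ e
    obtain ⟨y, hy, rfl⟩ := (hpb x₀).surjOn (Set.mem_univ q)
    have hy' : πY y = x₀ := hy
    refine fY h hh y (Set.mem_univ _) ((hpb x₀).injOn ?_ hy ?_)
    · rw [Set.mem_ofPred_eq, hπY, hy', hHV h hh x₀]
    · rw [hp]
      exact e
  · have h1 := (mY x₀).image p fun h _ y => hp h y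
    rwa [(hpb x₀).image_eq] at h1
  · intro x Δ hΔ
    have h1 : marks H (Set.univ : Set Q) Δ = marks H {y | πY y = x} Δ := by
      refine marks_bijOn (Λ := MulAction.stabilizer Γ x)
        (fun h hh => MulAction.mem_stabilizer_iff.2 (hHV h hh x))
        (fun d hd => MulAction.mem_stabilizer_iff.2 (hΔ d hd)) (fun g hg y hy => ?_) p (hpb x)
        fun g _ y _ => hp g y
      have hy' : πY y = x := hy
      rw [Set.mem_ofPred_eq, hπY, hy', MulAction.mem_stabilizer_iff.1 hg]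
    rw [h1]
    exact hY x Δ hΔ

end Pool.Agent.LR
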