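import Pool.Agent.Lib.MP_836f52_al_LR.Flat
import Pool.Agent.Lib.MP_836f52_al_LR.Burn
import Pool.Agent.Lib.MP_836f52_al_LR.Defs

set_option autoImplicit false
set_option linter.style.haveILetI false

/-!
Row FI: finite quotients of a group acting on a tree.

Let `I` be the set of orbits of vertices (`MulAction.orbitRel.Quotient G V`), finite by `hc.vert`;
`x i` a representative.  For every `i` choose a normal subgroup of finite index of
`stabilizer G (x i)`, i.e. a subgroup `M i ≤ G` contained in `stabilizer G (x i)`, of finite index in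
it and normalised by it, such that
* `M i` meets the stabiliser of every edge at `x i` trivially: there are finitely many orbits under
  `stabilizer G (x i)` of edges at `x i` (from `hc.edge`: if `g • b.1 = x i = g' • b.1` for the same
  `b`, then the edges `g • b` and `g' • b` differ by `g' g⁻¹ ∈ stabilizer G (x i)`), the stabilisers
  of the edges are finite, and `stabilizer G (x i)` is residually finite; a normal subgroup avoiding
  the finitely many elements `≠ 1` of one stabiliser avoids those of its conjugates;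
* for every `x ∈ X₀` in the orbit of `x i`, with a chosen `g` such that `x = g • x i`:
  `g (M i) g⁻¹ ≤ N x`.
Let `m i` be the index of `M i` in `stabilizer G (x i)`, `n = ∏ i, m i`, `n i = n / m i`, and
`Y = Σ p : (Σ i, Fin (n i)), G ⧸ M p.1`, `π (p, g M) = g • x p.1`.  The fibre over `g • x i` is finite
with `n` elements (`n i` copies of `stabilizer G (x i) ⧸ M i`), and the stabiliser of an edge acts
freely on the fibres over its ends (`M i` is normal in `stabilizer G (x i)`).  By `burn` with `H = ⊥`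
(marks are numbers of fixed points, `marks_bot`: `n` for `Δ = ⊥`, and `0` for `Δ ≠ ⊥`) the
hypothesis of `flat` is satisfied for `r = False`.  So there is `Q`, finite (with `n` elements); let `K` be
the kernel of the action of `G` on `Q`: normal, of finite index.  An element of `K` which fixes the
vertex `x` acts trivially on the fibre over `x` (`p` is injective on it and equivariant), so if
`x = g • x i` it fixes the point `(_, g M i)`, hence is in `g (M i) g⁻¹`.
-/

namespace Pool.Agent.LR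

open Pool.Agent.Lib.MP_836f52_al_H7

universe u v

private lemma fiq_exists_M {G : Type u} [Group G] {V : Type v} [MulAction G V] {T : SimpleGraph V}
    (h : TreeAct G T) (hc : Cocompact G T) (hrf : ∀ x : V, ResFin (MulAction.stabilizer G x))
    (N : V → Subgroup G) (X₀ : Set V) (hX₀ : X₀.Finite)
    (hN : ∀ x ∈ X₀, ((N x).subgroupOf (MulAction.stabilizer G x)).FiniteIndex) (x : V) :
    ∃ M : Subgroup G, M ≤ MulAction.stabilizer G x ∧
      (M.subgroupOf (MulAction.stabilizer G x)).FiniteIndex ∧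
      (∀ g ∈ MulAction.stabilizer G x, ∀ m ∈ M, g * m * g⁻¹ ∈ M) ∧
      (∀ z, T.Adj x z → ∀ m ∈ M, m • z = z → m = 1) ∧
      ∀ x' ∈ X₀, ∀ g : G, g • x = x' → ∀ m ∈ M, g * m * g⁻¹ ∈ N x' := by
  classical
  -- finite set of neighbours
  obtain ⟨B, hB, hBe⟩ := hc.edge
  have hZ : ∃ Z : Set V, Z.Finite ∧
      ∀ z, T.Adj x z → ∃ s ∈ MulAction.stabilizer G x, ∃ z₀ ∈ Z, s • z₀ = z := by
    have hch : ∀ b : V × V, ∃ g : G, (∃ g' : G, g' • b.1 = x) → g • b.1 = x := by
      intro b
      by_cases hb : ∃ g' : G, g' • b.1 = x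
      · obtain ⟨g, hg⟩ := hb
        exact ⟨g, fun _ => hg⟩
      · exact ⟨1, fun h => absurd h hb⟩
    choose c hcc using hch
    refine ⟨(fun b => c b • b.2) '' B, hB.image _, fun z hz => ?_⟩
    obtain ⟨g, b, hb, h1, h2⟩ := hBe x z hz
    have h3 := hcc b ⟨g, h1⟩
    refine ⟨g * (c b)⁻¹, ?_, c b • b.2, ⟨b, hb, rfl⟩, ?_⟩
    · rw [MulAction.mem_stabilizer_iff, mul_smul, inv_smul_eq_iff.mpr h3.symm, h1]
    · rw [mul_smul, inv_smul_smul, h2]
  obtain ⟨Z, hZ, hZe⟩ := hZ
  -- finite set of elements to be avoided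
  set P : Set G := {m | m ≠ 1 ∧ m • x = x ∧ ∃ z₀ ∈ Z, T.Adj x z₀ ∧ m • z₀ = z₀} with hP
  have hPfin : P.Finite := by
    have h1 : (⋃ z ∈ {z | z ∈ Z ∧ T.Adj x z}, {g : G | g • x = x ∧ g • z = z}).Finite :=
      Set.Finite.biUnion (hZ.subset fun z hz => hz.1) fun z hz => h.fin x z hz.2
    refine h1.subset ?_
    rintro m ⟨_, h2, z, h3, h4, h5⟩
    exact Set.mem_biUnion (show z ∈ {z | z ∈ Z ∧ T.Adj x z} from ⟨h3, h4⟩) ⟨h2, h5⟩
  haveI : Finite P := hPfin
  have h1 : ∀ m : P, ∃ M : Subgroup (MulAction.stabilizer G x), M.FiniteIndex ∧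
      (⟨m.1, m.2.2.1⟩ : MulAction.stabilizer G x) ∉ M := by
    intro m
    obtain ⟨M, _, h2, h3⟩ := hrf x ⟨m.1, m.2.2.1⟩ (by
      intro h4
      exact m.2.1 (congrArg Subtype.val h4))
    exact ⟨M, h2, h3⟩
  choose M1 hM1 hM1' using h1
  -- the vertices in `X₀`
  set X₁ : Set V := {x' | x' ∈ X₀ ∧ ∃ g : G, g • x = x'} with hX₁
  haveI : Finite X₁ := hX₀.subset fun x' hx' => hx'.1
  have h2 : ∀ x' : X₁, ∃ g : G, g • x = x' := fun x' => x'.2.2
  choose c hcc using h2
  let cj : ∀ x' : X₁, MulAction.stabilizer G x →* MulAction.stabilizer G (x' : V) := fun x' =>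
    ((MulAut.conj (c x')).toMonoidHom.comp (MulAction.stabilizer G x).subtype).codRestrict
      (MulAction.stabilizer G (x' : V)) (by
        intro s
        have hs : (s : G) • x = x := s.2
        change (c x' * (s : G) * (c x')⁻¹) • (x' : V) = x'
        rw [mul_smul, mul_smul, inv_smul_eq_iff.mpr (hcc x').symm, hs, hcc x'])
  haveI hA1 : ∀ m, (M1 m).FiniteIndex := hM1
  haveI hA2 : ∀ x' : X₁, (((N x').subgroupOf (MulAction.stabilizer G (x' : V))).comap
      (cj x')).FiniteIndex := by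
    intro x'
    haveI := hN x' x'.2.1
    refine ⟨?_⟩
    rw [Subgroup.index_comap]
    haveI := Subgroup.isFiniteRelIndex_of_finiteIndex
      (H := (N x').subgroupOf (MulAction.stabilizer G (x' : V))) (K := (cj x').range)
    exact Subgroup.relIndex_ne_zero
  set A : Subgroup (MulAction.stabilizer G x) := (⨅ m, M1 m) ⊓
    ⨅ x' : X₁, ((N x').subgroupOf (MulAction.stabilizer G (x' : V))).comap (cj x') with hA
  haveI hAfi : A.FiniteIndex := by
    haveI := Subgroup.finiteIndex_iInf hA1
    haveI := Subgroup.finiteIndex_iInf hA2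
    rw [hA]
    infer_instance
  have hAle : A.normalCore ≤ A := Subgroup.normalCore_le A
  have hnorm : ∀ g ∈ MulAction.stabilizer G x,
      ∀ m ∈ A.normalCore.map (MulAction.stabilizer G x).subtype,
      g * m * g⁻¹ ∈ A.normalCore.map (MulAction.stabilizer G x).subtype := by
    rintro g hg m ⟨a, ha, rfl⟩
    exact ⟨⟨g, hg⟩ * a * ⟨g, hg⟩⁻¹, (inferInstance : A.normalCore.Normal).conj_mem a ha ⟨g, hg⟩,
      rfl⟩
  refine ⟨A.normalCore.map (MulAction.stabilizer G x).subtype, Subgroup.map_subtype_le _, ?_,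
    hnorm, ?_, ?_⟩
  · have h3 : (A.normalCore.map (MulAction.stabilizer G x).subtype).subgroupOf
        (MulAction.stabilizer G x) = A.normalCore :=
      Subgroup.comap_map_eq_self_of_injective (Subgroup.subtype_injective _) _
    rw [h3]
    infer_instance
  · intro z hz m hm hmz
    by_contra hm1
    obtain ⟨s, hs, z₀, hz₀, rfl⟩ := hZe z hz
    have hs' : s⁻¹ ∈ MulAction.stabilizer G x := inv_mem hs
    have h3 := hnorm s⁻¹ hs' m hm
    rw [inv_inv] at h3
    obtain ⟨a, ha, ha2⟩ := h3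
    have ha3 : (a : G) = s⁻¹ * m * s := ha2
    have h4 : T.Adj x z₀ := by
      have := h.adj s⁻¹ _ _ hz
      rwa [inv_smul_smul, MulAction.mem_stabilizer_iff.mp hs'] at this
    have h5 : (a : G) • z₀ = z₀ := by
      rw [ha3, mul_smul, mul_smul, hmz, inv_smul_smul]
    have h6 : (a : G) ≠ 1 := by
      rw [ha3]
      intro h7
      apply hm1
      have h8 : m = s * (s⁻¹ * m * s) * s⁻¹ := by group
      rw [h8, h7]
      group
    have h7 : (a : G) ∈ P := ⟨h6, a.2, z₀, hz₀, h4, h5⟩
    have h8 : a ∈ ⨅ m, M1 m := (hAle ha).1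
    exact hM1' ⟨(a : G), h7⟩ ((Subgroup.mem_iInf.mp h8) ⟨(a : G), h7⟩)
  · intro x' hx' g hg m hm
    have hx₁ : x' ∈ X₁ := ⟨hx', g, hg⟩
    have h3 := hcc ⟨x', hx₁⟩
    set g0 := c ⟨x', hx₁⟩ with hg0
    have hs : g0⁻¹ * g ∈ MulAction.stabilizer G x := by
      rw [MulAction.mem_stabilizer_iff, mul_smul, hg]
      exact inv_smul_eq_iff.mpr h3.symm
    obtain ⟨a, ha, ha2⟩ := hnorm _ hs m hm
    have ha3 : (a : G) = g0⁻¹ * g * m * (g0⁻¹ * g)⁻¹ := ha2
    have h4 : a ∈ ⨅ x' : X₁, ((N x').subgroupOf (MulAction.stabilizer G (x' : V))).comap (cj x') :=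
      (hAle ha).2
    have h5 := (Subgroup.mem_iInf.mp h4) ⟨x', hx₁⟩
    have h6 : g0 * (a : G) * g0⁻¹ ∈ N x' := h5
    rw [ha3] at h6
    have h7 : g0 * (g0⁻¹ * g * m * (g0⁻¹ * g)⁻¹) * g0⁻¹ = g * m * g⁻¹ := by group
    rwa [h7] at h6

theorem fiq {G : Type u} [Group G] {V : Type v} [MulAction G V] {T : SimpleGraph V}
    (h : TreeAct G T) (hc : Cocompact G T) (hrf : ∀ x : V, ResFin (MulAction.stabilizer G x))
    (N : V → Subgroup G) (X₀ : Set V) (hX₀ : X₀.Finite)
    (hN : ∀ x ∈ X₀, ((N x).subgroupOf (MulAction.stabilizer G x)).FiniteIndex) :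
    ∃ K : Subgroup G, K.Normal ∧ K.FiniteIndex ∧
      (∀ x y, T.Adj x y → ∀ k ∈ K, k • x = x → k • y = y → k = 1) ∧
      ∀ x ∈ X₀, ∀ k ∈ K, k • x = x → k ∈ N x := by
  classical
  choose M0 hMle hMfi hMnorm hMadj hMX using fiq_exists_M h hc hrf N X₀ hX₀ hN
  -- orbits of vertices
  let Ω := MulAction.orbitRel.Quotient G V
  have hmkeq : ∀ (g : G) (x : V), (Quotient.mk (MulAction.orbitRel G V) (g • x) : Ω) =
      Quotient.mk (MulAction.orbitRel G V) x := by
    intro g x
    exact Quotient.sound (show g • x ∈ MulAction.orbit G x from ⟨g, rfl⟩)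
  have hX : ∀ x : V, ∃ g : G, g • (Quotient.mk (MulAction.orbitRel G V) x : Ω).out = x := by
    intro x
    have h1 : (Quotient.mk (MulAction.orbitRel G V) x : Ω).out ∈ MulAction.orbit G x :=
      Quotient.mk_out (s := MulAction.orbitRel G V) x
    obtain ⟨g, hg⟩ := h1
    exact ⟨g⁻¹, inv_smul_eq_iff.mpr hg.symm⟩
  haveI hΩ : Finite Ω := by
    obtain ⟨B, hB, hB2⟩ := hc.vert
    haveI : Finite B := hB
    refine Finite.of_surjective (fun b : B => (Quotient.mk (MulAction.orbitRel G V) b.1 : Ω)) ?_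
    intro ω
    induction ω using Quotient.inductionOn with
    | h x =>
      obtain ⟨g, b, hb, rfl⟩ := hB2 x
      exact ⟨⟨b, hb⟩, (hmkeq g b).symm⟩
  haveI := Fintype.ofFinite Ω
  let M : Ω → Subgroup G := fun ω => M0 ω.out
  let m : Ω → ℕ := fun ω => ((M ω).subgroupOf (MulAction.stabilizer G ω.out)).index
  have hm : ∀ ω, m ω ≠ 0 := fun ω => (hMfi ω.out).index_ne_zero
  set n : ℕ := ∏ ω, m ω with hn
  have hn0 : n ≠ 0 := Finset.prod_ne_zero_iff.mpr fun ω _ => hm ω
  let k : Ω → ℕ := fun ω => n / m ω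
  have hk : ∀ ω, k ω * m ω = n := fun ω =>
    Nat.div_mul_cancel (Finset.dvd_prod_of_mem m (Finset.mem_univ ω))
  let πq : ∀ ω : Ω, G ⧸ M ω → V := fun ω q => Quotient.liftOn' q (fun g => g • ω.out) (by
    intro a b hab
    have h1 : a⁻¹ * b ∈ M ω := QuotientGroup.leftRel_apply.mp hab
    have h2 : (a⁻¹ * b) • ω.out = ω.out := hMle _ h1
    rw [mul_smul, inv_smul_eq_iff] at h2
    exact h2.symm)
  let π : (Σ p : (Σ ω : Ω, Fin (k ω)), G ⧸ M p.1) → V := fun y => πq y.1.1 y.2
  have hπmk : ∀ (ω : Ω) (j : Fin (k ω)) (g : G), π ⟨⟨ω, j⟩, (g : G ⧸ M ω)⟩ = g • ω.out :=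
    fun _ _ _ => rfl
  have hπ : ∀ (g : G) (y : Σ p : (Σ ω : Ω, Fin (k ω)), G ⧸ M p.1), π (g • y) = g • π y := by
    rintro g ⟨⟨ω, j⟩, q⟩
    induction q using QuotientGroup.induction_on with
    | H a => exact mul_smul g a ω.out
  -- stabilisers of points
  have hstab : ∀ (ω : Ω) (j : Fin (k ω)) (g d : G),
      d • (⟨⟨ω, j⟩, (g : G ⧸ M ω)⟩ : Σ p : (Σ ω : Ω, Fin (k ω)), G ⧸ M p.1) =
        ⟨⟨ω, j⟩, (g : G ⧸ M ω)⟩ → g⁻¹ * d * g ∈ M ω := by
    intro ω j g d hd
    have h1 : (⟨⟨ω, j⟩, ((d * g : G) : G ⧸ M ω)⟩ : Σ p : (Σ ω : Ω, Fin (k ω)), G ⧸ M p.1) =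
        ⟨⟨ω, j⟩, (g : G ⧸ M ω)⟩ := hd
    have h2 : ((d * g : G) : G ⧸ M ω) = (g : G ⧸ M ω) := by
      simpa using h1
    have h3 := QuotientGroup.eq.mp h2.symm
    rwa [← mul_assoc] at h3
  -- fibres
  have hfib : ∀ x : V, {y | π y = x}.ncard = n := by
    intro x
    obtain ⟨g0, hg0⟩ := hX x
    set ω : Ω := Quotient.mk (MulAction.orbitRel G V) x with hω
    let f : (MulAction.stabilizer G ω.out) ⧸ (M ω).subgroupOf (MulAction.stabilizer G ω.out) →
        G ⧸ M ω := Quotient.map' (fun s => g0 * (s : G)) (by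
      intro a b hab
      have h1 := QuotientGroup.leftRel_apply.mp hab
      have h2 : (a : G)⁻¹ * (b : G) ∈ M ω := h1
      refine QuotientGroup.leftRel_apply.mpr ?_
      have h3 : (g0 * (a : G))⁻¹ * (g0 * (b : G)) = (a : G)⁻¹ * (b : G) := by group
      rw [h3]
      exact h2)
    have hfmk : ∀ s : MulAction.stabilizer G ω.out,
        f (s : (MulAction.stabilizer G ω.out) ⧸
          (M ω).subgroupOf (MulAction.stabilizer G ω.out)) = ((g0 * (s : G) : G) : G ⧸ M ω) :=
      fun _ => rfl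
    have hfinj : Function.Injective f := by
      intro a b
      induction a using QuotientGroup.induction_on with
      | H a =>
        induction b using QuotientGroup.induction_on with
        | H b =>
          intro hab
          rw [hfmk, hfmk] at hab
          have h1 := QuotientGroup.eq.mp hab
          have h3 : (g0 * (a : G))⁻¹ * (g0 * (b : G)) = (a : G)⁻¹ * (b : G) := by group
          rw [h3] at h1
          exact QuotientGroup.eq.mpr h1
    let F : Fin (k ω) × ((MulAction.stabilizer G ω.out) ⧸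
        (M ω).subgroupOf (MulAction.stabilizer G ω.out)) →
        (Σ p : (Σ ω : Ω, Fin (k ω)), G ⧸ M p.1) := fun t => ⟨⟨ω, t.1⟩, f t.2⟩
    have hFinj : Function.Injective F := by
      rintro ⟨j, a⟩ ⟨j', b⟩ hab
      have h1 : (⟨⟨ω, j⟩, f a⟩ : Σ p : (Σ ω : Ω, Fin (k ω)), G ⧸ M p.1) = ⟨⟨ω, j'⟩, f b⟩ := hab
      have h2 : j = j' := by
        have h3 := (Sigma.mk.inj_iff.mp h1).1
        exact eq_of_heq (Sigma.mk.inj_iff.mp h3).2
      subst h2
      have h3 : f a = f b := eq_of_heq (Sigma.mk.inj_iff.mp h1).2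
      rw [hfinj h3]
    have hrange : {y | π y = x} = Set.range F := by
      ext y
      constructor
      · intro hy
        obtain ⟨⟨ω', j⟩, q⟩ := y
        induction q using QuotientGroup.induction_on with
        | H g =>
          have h1 : g • ω'.out = x := hy
          have h2 : ω' = ω := by
            rw [hω, ← h1, hmkeq g ω'.out]
            exact (Quotient.out_eq (s := MulAction.orbitRel G V) ω').symm
          subst h2
          have h3 : g0⁻¹ * g ∈ MulAction.stabilizer G ω.out := by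
            rw [MulAction.mem_stabilizer_iff, mul_smul, h1, inv_smul_eq_iff]
            exact hg0.symm
          refine ⟨(j, ((⟨g0⁻¹ * g, h3⟩ : MulAction.stabilizer G ω.out) :
            (MulAction.stabilizer G ω.out) ⧸
              (M ω).subgroupOf (MulAction.stabilizer G ω.out))), ?_⟩
          change (⟨⟨ω, j⟩, ((g0 * (g0⁻¹ * g) : G) : G ⧸ M ω)⟩ :
            Σ p : (Σ ω : Ω, Fin (k ω)), G ⧸ M p.1) = ⟨⟨ω, j⟩, (g : G ⧸ M ω)⟩
          rw [mul_inv_cancel_left]
      · rintro ⟨⟨j, a⟩, rfl⟩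
        induction a using QuotientGroup.induction_on with
        | H s =>
          change (g0 * (s : G)) • ω.out = x
          have hs : (s : G) • ω.out = ω.out := s.2
          rw [mul_smul, hs, hg0]
    rw [hrange, Set.ncard_range_of_injective hFinj, Nat.card_prod, Nat.card_eq_fintype_card,
      Fintype.card_fin]
    exact hk ω
  have hfin : ∀ x : V, {y | π y = x}.Finite := fun x =>
    Set.finite_of_ncard_ne_zero (by rw [hfib x]; exact hn0)
  -- freeness of the stabilisers of edges
  have hfree : ∀ x z, T.Adj x z → ∀ d : G, d • z = z → ∀ y, π y = x → d • y = y → d = 1 := by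
    intro x z hxz d hdz y hy hdy
    obtain ⟨⟨ω, j⟩, q⟩ := y
    induction q using QuotientGroup.induction_on with
    | H g =>
      have h1 := hstab ω j g d hdy
      have h2 : g • ω.out = x := hy
      have h3 : T.Adj ω.out (g⁻¹ • z) := by
        have := h.adj g⁻¹ _ _ hxz
        rwa [← h2, inv_smul_smul] at this
      have h4 := hMadj ω.out (g⁻¹ • z) h3 _ h1 (by
        rw [mul_smul, mul_smul, smul_inv_smul, hdz])
      have h5 : d = g * (g⁻¹ * d * g) * g⁻¹ := by group
      rw [h5, h4]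
      group
  -- the quotient
  obtain ⟨Q, hQ, p, hp, hbij, -⟩ := flat (Γ := G) (T := T) ⟨h.tree, h.adj, h.noinv⟩ π hπ
    (fun _ _ => False) (fun _ _ h => h) (fun _ _ h => h.elim) (fun _ _ _ h => h) (by
      intro x x' hxx'
      set Λ : Subgroup G := MulAction.stabilizer G x ⊓ MulAction.stabilizer G x' with hΛ
      haveI : Finite Λ := (h.fin x x' hxx').subset fun g hg => hg
      have hfix : ∀ (a b : V), T.Adj a b → (∀ g ∈ Λ, g • a = a ∧ g • b = b) →
          ∀ Δ : Subgroup G, Δ ≤ Λ → marks ⊥ {y | π y = a} Δ = if Δ = ⊥ then n else 0 := by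
        intro a b hab hfx Δ hΔ
        rw [marks_bot]
        split_ifs with hΔ2
        · subst hΔ2
          rw [← hfib a]
          congr 1
          ext y
          constructor
          · exact fun hy => hy.1
          · refine fun hy => ⟨hy, fun d hd => ?_⟩
            rw [Subgroup.mem_bot.mp hd, one_smul]
        · have h1 : {y | y ∈ {y | π y = a} ∧ ∀ d ∈ Δ, d • y = y} = ∅ := by
            rw [Set.eq_empty_iff_forall_notMem]
            rintro y ⟨hy1, hy2⟩
            apply hΔ2
            rw [Subgroup.eq_bot_iff_forall]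
            intro d hd
            exact hfree a b hab d (hfx d (hΔ hd)).2 y hy1 (hy2 d hd)
          rw [h1, Set.ncard_empty]
      obtain ⟨φ, hφ1, hφ2⟩ := burn Λ ⊥ bot_le
        (by
          intro g _ h hh
          rw [Subgroup.mem_bot] at hh ⊢
          rw [hh]
          group)
        inferInstance {y | π y = x} {y | π y = x'}
        (by
          intro g hg y hy
          change π (g • y) = x
          rw [hπ, show π y = x from hy]
          exact hg.1)
        (by
          intro g hg y hy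
          change π (g • y) = x'
          rw [hπ, show π y = x' from hy]
          exact hg.2)
        (fun h hh _ _ _ => Subgroup.mem_bot.mp hh) (fun h hh _ _ _ => Subgroup.mem_bot.mp hh)
        ⟨_, hfin x, fun y hy => ⟨1, one_mem _, y, hy, one_smul _ _⟩⟩
        ⟨_, hfin x', fun y hy => ⟨1, one_mem _, y, hy, one_smul _ _⟩⟩
        (by
          intro Δ hΔ _
          rw [hfix x x' hxx' (fun g hg => ⟨hg.1, hg.2⟩) Δ hΔ,
            hfix x' x hxx'.symm (fun g hg => ⟨hg.2, hg.1⟩) Δ hΔ])
      exact ⟨φ, hφ1, fun g h1 h2 y hy => hφ2 g ⟨h1, h2⟩ y hy, fun _ _ _ _ h => h.elim⟩)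
  -- the kernel
  have hne : Nonempty V := h.tree.1.nonempty
  obtain ⟨x0⟩ := hne
  haveI : Finite Q := by
    rw [← Set.finite_univ_iff, ← (hbij x0).image_eq]
    exact (hfin x0).image p
  have hker : ∀ g ∈ (MulAction.toPermHom G Q).ker, ∀ q : Q, g • q = q := by
    intro g hg q
    have h1 : MulAction.toPermHom G Q g = 1 := hg
    have h2 := congrArg (fun e => e q) h1
    exact h2
  have hkey : ∀ g ∈ (MulAction.toPermHom G Q).ker, ∀ x : V, g • x = x → ∀ y, π y = x →
      g • y = y := by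
    intro g hg x hgx y hy
    apply (hbij x).injOn
    · change π (g • y) = x
      rw [hπ, hy, hgx]
    · exact hy
    · rw [hp, hker g hg]
  have hexist : ∀ x : V, ∃ y, π y = x := by
    intro x
    have h1 : {y | π y = x}.ncard ≠ 0 := by rw [hfib x]; exact hn0
    obtain ⟨y, hy⟩ := Set.nonempty_of_ncard_ne_zero h1
    exact ⟨y, hy⟩
  refine ⟨(MulAction.toPermHom G Q).ker, inferInstance, inferInstance, ?_, ?_⟩
  · intro x y hxy g hg hgx hgy
    obtain ⟨z, hz⟩ := hexist x
    exact hfree x y hxy g hgy z hz (hkey g hg x hgx z hz)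
  · intro x hx g hg hgx
    obtain ⟨y, hy⟩ := hexist x
    have h1 := hkey g hg x hgx y hy
    obtain ⟨⟨ω, j⟩, q⟩ := y
    induction q using QuotientGroup.induction_on with
    | H a =>
      have h2 := hstab ω j a g h1
      have h3 : a • ω.out = x := hy
      have h4 := hMX ω.out x hx a h3 _ h2
      have h5 : a * (a⁻¹ * g * a) * a⁻¹ = g := by group
      rwa [h5] at h4

end Pool.Agent.LR
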