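import Pool.Agent.Lib.MP_836f52_al_LR.DepthFV
import Pool.Agent.Lib.MP_836f52_al_LR.Fiq

set_option autoImplicit false

/-!
Row G3: the choice of `K` for conjugacy of homomorphisms, and invariance of `GoodAt` along edges.

* `depth_f`: let `B` be a finite set of vertices meeting every orbit (`hc.vert`), `M b` the subgroup of
  `depthF_vertex` for `b ∈ B`; apply `fiq` with `N = M`, `X₀ = B`.  For `x = g • b` conjugate `δ`, `ε` by
  `g⁻¹` (`FSet` is invariant); `(δ d)⁻¹ ε d ∈ K` fixes `b`.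
* `goodAt_edge`: let `x`, `x'` be adjacent, fixed by `Δ`, and `GoodAt K α x Δ` with `δ`:
  `Δ.map (qF K) = grF K δ`.  If `γ, γ' ∈ Δ` have the same image under `qF K` then `γ'⁻¹ γ = (k, 1)` with
  `k ∈ K` fixing `x` and `x'`, so `k = 1` by `hKe`.  Hence for every `d : D` there is exactly one
  `ε d` with `(ε d, d) ∈ Δ`, `ε : D →* G` is a homomorphism fixing `x` and `x'`, and `ε d ≡ δ d`
  modulo `K`.  Both are in `FSet T α β x`, so by `hK` `ε` is conjugate to `δ`, hence to `α`;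
  and `grF K ε = grF K δ`; so `ε` shows `GoodAt K α x' Δ`.
-/

namespace Pool.Agent.LR

open Pool.Agent.Lib.MP_836f52_al_H7

universe u

private lemma g3_fset_conj {G V D : Type u} [Group G] [MulAction G V] {T : SimpleGraph V}
    (h : TreeAct G T) [Group D] (α β : D →* G) (b x : V) (g : G) (hg : g • b = x)
    (δ : D →* G) (hδ : FSet T α β x δ) :
    FSet T α β b ((MulAut.conj g⁻¹).toMonoidHom.comp δ) := by
  have hval : ∀ d, ((MulAut.conj g⁻¹).toMonoidHom.comp δ) d = g⁻¹ * δ d * g := by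
    intro d
    change g⁻¹ * δ d * g⁻¹⁻¹ = g⁻¹ * δ d * g
    rw [inv_inv]
  obtain ⟨h1, h2⟩ := hδ
  refine ⟨fun d => ?_, ?_⟩
  · rw [hval, mul_smul, mul_smul, hg, h1 d, inv_smul_eq_iff, hg]
  · rcases h2 with ⟨g1, h2⟩ | ⟨g1, h2⟩ | ⟨x', h2, h3⟩
    · refine Or.inl ⟨g⁻¹ * g1, fun d => ?_⟩
      rw [hval, h2]
      group
    · refine Or.inr (Or.inl ⟨g⁻¹ * g1, fun d => ?_⟩)
      rw [hval, h2]
      group
    · refine Or.inr (Or.inr ⟨g⁻¹ • x', ?_, fun d => ?_⟩)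
      · have := h.adj g⁻¹ _ _ h2
        rwa [← hg, inv_smul_smul] at this
      · rw [hval, mul_smul, mul_smul, smul_inv_smul, h3 d]

theorem depth_f {G V D : Type u} [Group G] [MulAction G V] {T : SimpleGraph V}
    (h : TreeAct G T) (hc : Cocompact G T) (hF : ∀ x : V, HasF (MulAction.stabilizer G x))
    (hrf : ∀ x : V, ResFin (MulAction.stabilizer G x)) [Group D] [Finite D] (α β : D →* G) :
    ∃ K : Subgroup G, K.Normal ∧ K.FiniteIndex ∧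
      (∀ x y, T.Adj x y → ∀ k ∈ K, k • x = x → k • y = y → k = 1) ∧
      ∀ (x : V) (δ ε : D →* G), FSet T α β x δ → FSet T α β x ε → (∀ d, (δ d)⁻¹ * ε d ∈ K) →
        ∃ g : G, ∀ d, ε d = g * δ d * g⁻¹ := by
  obtain ⟨B, hB, hB2⟩ := hc.vert
  choose M hM1 hM2 using fun x => depthF_vertex h hc α β x (hF x)
  obtain ⟨K, hK1, hK2, hK3, hK4⟩ := fiq h hc hrf M B hB (fun x _ => hM1 x)
  refine ⟨K, hK1, hK2, hK3, ?_⟩
  intro x δ ε hδ hε hd
  obtain ⟨g, b, hb, hg⟩ := hB2 x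
  have h1 := g3_fset_conj h α β b x g hg δ hδ
  have h2 := g3_fset_conj h α β b x g hg ε hε
  have hval : ∀ (δ : D →* G) d, ((MulAut.conj g⁻¹).toMonoidHom.comp δ) d = g⁻¹ * δ d * g := by
    intro δ d
    change g⁻¹ * δ d * g⁻¹⁻¹ = g⁻¹ * δ d * g
    rw [inv_inv]
  obtain ⟨g2, hg2⟩ := hM2 b _ _ h1 h2 (by
    intro d
    apply hK4 b hb
    · rw [hval, hval]
      have h3 := hK1.conj_mem _ (hd d) g⁻¹
      rw [inv_inv] at h3
      have h4 : (g⁻¹ * δ d * g)⁻¹ * (g⁻¹ * ε d * g) = g⁻¹ * ((δ d)⁻¹ * ε d) * g := by group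
      rwa [h4]
    · rw [mul_smul, h2.1 d, inv_smul_eq_iff, h1.1 d])
  refine ⟨g * g2 * g⁻¹, fun d => ?_⟩
  have h3 := hg2 d
  rw [hval, hval] at h3
  have h4 : ε d = g * (g⁻¹ * ε d * g) * g⁻¹ := by group
  rw [h4, h3]
  group

theorem goodAt_edge {G V D : Type u} [Group G] [MulAction G V] {T : SimpleGraph V}
    [Group D] (α β : D →* G) (K : Subgroup G) [K.Normal]
    (hKe : ∀ x y, T.Adj x y → ∀ k ∈ K, k • x = x → k • y = y → k = 1)
    (hK : ∀ (x : V) (δ ε : D →* G), FSet T α β x δ → FSet T α β x ε →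
      (∀ d, (δ d)⁻¹ * ε d ∈ K) → ∃ g : G, ∀ d, ε d = g * δ d * g⁻¹)
    (x x' : V) (hx : T.Adj x x') (Δ : Subgroup (G × D))
    (hΔ : ∀ d ∈ Δ, d.1 • x = x ∧ d.1 • x' = x') (hgood : GoodAt K α x Δ) :
    GoodAt K α x' Δ := by
  obtain ⟨δ, ⟨g1, hg1⟩, hfix, hmap⟩ := hgood
  have hmem : ∀ γ ∈ Δ, (γ.1 : G ⧸ K) = (δ γ.2 : G ⧸ K) := by
    intro γ hγ
    have h1 : qF K γ ∈ Δ.map (qF K) := ⟨γ, hγ, rfl⟩
    rw [hmap, mem_grF] at h1
    exact h1
  have hex : ∀ d : D, ∃ g : G, (g, d) ∈ Δ := by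
    intro d
    have h1 : ((δ d : G ⧸ K), d) ∈ grF K δ := (mem_grF K δ _).mpr rfl
    rw [← hmap] at h1
    obtain ⟨γ, hγ, h2⟩ := h1
    rw [qF_apply] at h2
    have h3 : γ.2 = d := congrArg Prod.snd h2
    refine ⟨γ.1, ?_⟩
    rw [← h3]
    exact hγ
  have huniq : ∀ (d : D) (g g' : G), (g, d) ∈ Δ → (g', d) ∈ Δ → g = g' := by
    intro d g g' hg hg'
    have h1 : (g : G ⧸ K) = (g' : G ⧸ K) := by
      rw [hmem _ hg, hmem _ hg']
    have h2 : g⁻¹ * g' ∈ K := QuotientGroup.eq.mp h1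
    have h3 := hΔ _ hg
    have h4 := hΔ _ hg'
    have h5 := hKe x x' hx _ h2 (by rw [mul_smul, h4.1, inv_smul_eq_iff, h3.1])
      (by rw [mul_smul, h4.2, inv_smul_eq_iff, h3.2])
    exact inv_mul_eq_one.mp h5
  choose e he using hex
  let ε : D →* G := MonoidHom.mk' e (by
    intro d d'
    exact huniq (d * d') _ _ (he _) (mul_mem (he d) (he d')))
  have hε : ∀ d, (ε d, d) ∈ Δ := he
  have hcong : ∀ d, (ε d : G ⧸ K) = (δ d : G ⧸ K) := fun d => hmem _ (hε d)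
  obtain ⟨g2, hg2⟩ := hK x δ ε ⟨hfix, Or.inl ⟨g1, hg1⟩⟩
    ⟨fun d => (hΔ _ (hε d)).1, Or.inr (Or.inr ⟨x', hx, fun d => (hΔ _ (hε d)).2⟩)⟩
    (fun d => QuotientGroup.eq.mp (hcong d).symm)
  refine ⟨ε, ⟨g2 * g1, fun d => ?_⟩, fun d => (hΔ _ (hε d)).2, ?_⟩
  · rw [hg2, hg1]
    group
  · rw [hmap]
    ext p
    rw [mem_grF, mem_grF, hcong]

end Pool.Agent.LR
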