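import Pool.Agent.Lib.MP_836f52_al_LR.Defs

set_option autoImplicit false

/-!
Row SE: separating finitely many conjugacy classes of homomorphisms by one normal subgroup.

For every pair `φ, ψ ∈ F` that is not conjugate `HasF` gives a normal subgroup `M φ ψ` of finite
index modulo which they are not conjugate; let `M` be the intersection (a finite intersection of
normal subgroups of finite index).  If `δ = a φ a⁻¹`, `ε = b ψ b⁻¹`, `δ ≡ ε` modulo `M`, then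
`(b⁻¹ a) φ (b⁻¹ a)⁻¹ ≡ ψ` modulo `M`, so `φ` and `ψ` are conjugate, and so are `δ` and `ε`.
-/

namespace Pool.Agent.LR

open Pool.Agent.Lib.MP_836f52_al_H7

universe u

theorem sep {A : Type u} [Group A] (hA : HasF A) (D : Type u) [Group D] [Finite D]
    (S : Set (D →* A)) (hfin : ∃ F : Set (D →* A), F.Finite ∧
      ∀ δ ∈ S, ∃ ε ∈ F, ∃ a : A, ∀ d, δ d = a * ε d * a⁻¹) :
    ∃ M : Subgroup A, M.Normal ∧ M.FiniteIndex ∧ ∀ δ ∈ S, ∀ ε ∈ S,
      (∀ d, (δ d)⁻¹ * ε d ∈ M) → ∃ a : A, ∀ d, ε d = a * δ d * a⁻¹ := by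
  classical
  obtain ⟨F, hF, hS⟩ := hfin
  have key : ∀ p : (D →* A) × (D →* A), ∃ M : Subgroup A, M.Normal ∧ M.FiniteIndex ∧
      ((∃ g : A, ∀ d, (g * p.1 d * g⁻¹)⁻¹ * p.2 d ∈ M) → ∃ g : A, ∀ d, p.2 d = g * p.1 d * g⁻¹) := by
    intro p
    by_cases h : ∃ g : A, ∀ d, p.2 d = g * p.1 d * g⁻¹
    · exact ⟨⊤, inferInstance, inferInstance, fun _ => h⟩
    · by_contra hcon
      push Not at hcon
      refine h (hA D p.1 p.2 fun M hMn hMf => ?_)
      exact (hcon M hMn hMf).1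
  choose M hMn hMf hM using key
  have hPfin : (F ×ˢ F).Finite := hF.prod hF
  set P := hPfin.toFinset with hP
  refine ⟨⨅ p ∈ P, M p, ?_, ?_, ?_⟩
  · refine ⟨fun n hn g => ?_⟩
    simp only [Subgroup.mem_iInf] at hn ⊢
    exact fun p hp => (hMn p).conj_mem n (hn p hp) g
  · exact Subgroup.finiteIndex_iInf' M (fun p _ => hMf p)
  · intro δ hδ ε hε hd
    obtain ⟨φ, hφ, a, ha⟩ := hS δ hδ
    obtain ⟨ψ, hψ, b, hb⟩ := hS ε hε
    have hmem : (φ, ψ) ∈ P := by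
      rw [hP, Set.Finite.mem_toFinset]
      exact ⟨hφ, hψ⟩
    obtain ⟨g, hg⟩ := hM (φ, ψ) ⟨b⁻¹ * a, fun d => by
      have h1 := hd d
      simp only [Subgroup.mem_iInf] at h1
      have h2 := (hMn (φ, ψ)).conj_mem _ (h1 _ hmem) b⁻¹
      have h3 : b⁻¹ * ((δ d)⁻¹ * ε d) * b⁻¹⁻¹ = (b⁻¹ * a * φ d * (b⁻¹ * a)⁻¹)⁻¹ * ψ d := by
        rw [ha d, hb d]; group
      rwa [h3] at h2⟩
    refine ⟨b * g * a⁻¹, fun d => ?_⟩
    have h1 : ψ d = g * φ d * g⁻¹ := hg d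
    rw [hb d, h1, ha d]
    group

end Pool.Agent.LR
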