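import Pool.Agent.Lib.MP_836f52_al_LR.FFamDefs
import Pool.Agent.Lib.MP_836f52_al_LR.Sep
import Pool.Agent.Lib.MP_836f52_al_H7.Tree

set_option autoImplicit false

/-!
Row G2: separation of the homomorphisms of `FSet` at one vertex.

Let `A = stabilizer G x`.  The set of the `δ : D →* A` such that the composite with `A → G` is in
`FSet T α β x` is a finite union of `A`-conjugacy classes:
 * if `δ` fixes a neighbour `x'` of `x`: the neighbours of `x` are finitely many `A`-orbits, with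
   representatives `z 1, …, z n` (from `hc.edge`: if `g • b.1 = x = g' • b.1` for the same `b` then
   `g' g⁻¹ ∈ A` maps `g • b.2` to `g' • b.2`); if `x' = a • z i` then `a⁻¹ δ a` is one of the finitely many
   homomorphisms from `D` to the finite group `A ⊓ stabilizer (z i)`;
 * otherwise, if `δ = g α g⁻¹`: `x` is the only vertex fixed by `δ(D)` (if `v ≠ x` is fixed, so is the
   neighbour of `x` towards `v`, by uniqueness: `first_step`, `tree_parent`), so the only vertex fixed by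
   `α(D)` is `g⁻¹ • x`; if `δ' = g' α g'⁻¹` is another one then `g'⁻¹ • x = g⁻¹ • x`, `a = g' g⁻¹ ∈ A`
   and `δ' = a δ a⁻¹`: one class.  The same for `β`.
Apply `sep` to `A`, `D` and this set; push `M` forward to `G`.
-/

namespace Pool.Agent.LR

open Pool.Agent.Lib.MP_836f52_al_H7

universe u

/-- the homomorphism is contained in finitely many conjugacy classes -/
private def g2Fin {A D : Type u} [Group A] [Group D] (S : Set (D →* A)) : Prop :=
  ∃ F : Set (D →* A), F.Finite ∧ ∀ δ ∈ S, ∃ ε ∈ F, ∃ a : A, ∀ d, δ d = a * ε d * a⁻¹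

private theorem g2Fin_union {A D : Type u} [Group A] [Group D] {S S' : Set (D →* A)}
    (h : g2Fin S) (h' : g2Fin S') : g2Fin (S ∪ S') := by
  obtain ⟨F, hF, h1⟩ := h
  obtain ⟨F', hF', h1'⟩ := h'
  refine ⟨F ∪ F', hF.union hF', ?_⟩
  rintro δ (hδ | hδ)
  · obtain ⟨ε, hε, a, ha⟩ := h1 δ hδ
    exact ⟨ε, Or.inl hε, a, ha⟩
  · obtain ⟨ε, hε, a, ha⟩ := h1' δ hδ
    exact ⟨ε, Or.inr hε, a, ha⟩

private theorem g2Fin_mono {A D : Type u} [Group A] [Group D] {S S' : Set (D →* A)}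
    (h : g2Fin S) (hS : S' ⊆ S) : g2Fin S' := by
  obtain ⟨F, hF, h1⟩ := h
  exact ⟨F, hF, fun δ hδ => h1 δ (hS hδ)⟩

section

variable {G V D : Type u} [Group G] [MulAction G V] {T : SimpleGraph V}

/-- a group fixing two vertices fixes a neighbour of the first one -/
private theorem g2_neighbour (h : TreeAct G T) [Group D] (δ : D →* G) (x v : V)
    (hx : ∀ d, δ d • x = x) (hv : ∀ d, δ d • v = v) (hne : x ≠ v) :
    ∃ x', T.Adj x x' ∧ ∀ d, δ d • x' = x' := by
  have hc := h.tree.1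
  obtain ⟨z, hz1, hz2⟩ := first_step hc hne
  refine ⟨z, hz1, fun d => ?_⟩
  have hd := dist_smul hc h.adj (δ d)
  have h1 : T.Adj (δ d • z) x := by
    have := h.adj (δ d) _ _ hz1
    rw [hx] at this
    exact this.symm
  have h2 : T.dist v x = T.dist v z + 1 := by
    rw [T.dist_comm (u := v) (v := x), T.dist_comm (u := v) (v := z)]
    exact hz2
  have h3 : T.dist v (δ d • z) = T.dist v z := by
    have := hd v z
    rwa [hv] at this
  exact (tree_parent h.tree hz1.symm h1 h2 (by rw [h3]; exact h2)).symm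

/-- homomorphisms fixing a neighbour -/
private theorem g2_edge (h : TreeAct G T) (hc : Cocompact G T) [Group D] [Finite D] (x : V) :
    g2Fin {δ : D →* MulAction.stabilizer G x | ∃ x', T.Adj x x' ∧ ∀ d, (δ d : G) • x' = x'} := by
  classical
  obtain ⟨B, hB, hcov⟩ := hc.edge
  have hb : ∀ b : V × V, ∃ F : Set (D →* MulAction.stabilizer G x), F.Finite ∧
      ∀ (δ : D →* MulAction.stabilizer G x) (g : G), g • b.1 = x → T.Adj x (g • b.2) →
        (∀ d, (δ d : G) • g • b.2 = g • b.2) →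
        ∃ ε ∈ F, ∃ a : MulAction.stabilizer G x, ∀ d, δ d = a * ε d * a⁻¹ := by
    intro b
    by_cases hg : ∃ g : G, g • b.1 = x ∧ T.Adj x (g • b.2)
    · obtain ⟨g₀, hg1, hg2⟩ := hg
      refine ⟨{ε | ∀ d, (ε d : G) • g₀ • b.2 = g₀ • b.2}, ?_, ?_⟩
      · have h1 : (Set.pi (Set.univ : Set D) fun _ =>
            {g : G | g • x = x ∧ g • g₀ • b.2 = g₀ • b.2}).Finite :=
          Set.Finite.pi fun _ => h.fin x _ hg2
        refine Set.Finite.of_finite_image
          (f := fun (ε : D →* MulAction.stabilizer G x) (d : D) => (ε d : G)) (h1.subset ?_) ?_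
        · rintro _ ⟨ε, hε, rfl⟩ d -
          exact ⟨(ε d).2, hε d⟩
        · intro ε _ ε' _ hee
          refine MonoidHom.ext fun d => Subtype.ext ?_
          exact congrFun hee d
      · intro δ g h1 h2 h3
        have ha : g * g₀⁻¹ ∈ MulAction.stabilizer G x := by
          rw [MulAction.mem_stabilizer_iff, mul_smul]
          conv_lhs => rw [← hg1]
          rw [inv_smul_smul, h1]
        refine ⟨(MulAut.conj (⟨g * g₀⁻¹, ha⟩ : MulAction.stabilizer G x)⁻¹).toMonoidHom.comp δ,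
          fun d => ?_, ⟨g * g₀⁻¹, ha⟩, fun d => ?_⟩
        · show ((g * g₀⁻¹)⁻¹ * (δ d : G) * (g * g₀⁻¹)⁻¹⁻¹) • g₀ • b.2 = g₀ • b.2
          have h4 : (g * g₀⁻¹)⁻¹ * (δ d : G) * (g * g₀⁻¹)⁻¹⁻¹ * g₀ = g₀ * g⁻¹ * ((δ d : G) * g) := by
            group
          rw [← mul_smul, h4, mul_smul, mul_smul, mul_smul (δ d : G) g, h3, inv_smul_smul]
        · show δ d = _ * ((⟨g * g₀⁻¹, ha⟩ : MulAction.stabilizer G x)⁻¹ * δ d *
            (⟨g * g₀⁻¹, ha⟩ : MulAction.stabilizer G x)⁻¹⁻¹) * _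
          group
    · exact ⟨∅, Set.finite_empty, fun δ g h1 h2 => absurd ⟨g, h1, h2⟩ hg⟩
  choose F hF hFc using hb
  refine ⟨⋃ b ∈ B, F b, hB.biUnion fun b _ => hF b, ?_⟩
  rintro δ ⟨x', hx', hδ⟩
  obtain ⟨g, b, hbB, h1, h2⟩ := hcov x x' hx'
  obtain ⟨ε, hε, a, ha⟩ := hFc b δ g h1 (by rw [h2]; exact hx') (by rw [h2]; exact hδ)
  exact ⟨ε, Set.mem_biUnion hbB hε, a, ha⟩

/-- conjugates of `α` fixing only `x` -/
private theorem g2_conj (h : TreeAct G T) [Group D] (α : D →* G) (x : V) :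
    g2Fin {δ : D →* MulAction.stabilizer G x | (∃ g : G, ∀ d, (δ d : G) = g * α d * g⁻¹) ∧
      ¬ ∃ x', T.Adj x x' ∧ ∀ d, (δ d : G) • x' = x'} := by
  by_cases hex : ∃ δ : D →* MulAction.stabilizer G x, (∃ g : G, ∀ d, (δ d : G) = g * α d * g⁻¹) ∧
      ¬ ∃ x', T.Adj x x' ∧ ∀ d, (δ d : G) • x' = x'
  · obtain ⟨δ₀, ⟨g₀, hg₀⟩, hn₀⟩ := hex
    refine ⟨{δ₀}, Set.finite_singleton _, ?_⟩
    rintro δ ⟨⟨g, hg⟩, hn⟩
    have hfix : ∀ d, (δ d : G) • (g * g₀⁻¹) • x = (g * g₀⁻¹) • x := by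
      intro d
      have h1 : (δ d : G) * (g * g₀⁻¹) = g * g₀⁻¹ * (δ₀ d : G) := by
        rw [hg, hg₀]
        group
      have h2 : (δ₀ d : G) • x = x := (δ₀ d).2
      rw [← mul_smul, h1, mul_smul, h2]
    have ha : (g * g₀⁻¹) • x = x := by
      by_contra hne
      exact hn (g2_neighbour h ((MulAction.stabilizer G x).subtype.comp δ) x _
        (fun d => (δ d).2) hfix (Ne.symm hne))
    refine ⟨δ₀, rfl, ⟨g * g₀⁻¹, ha⟩, fun d => Subtype.ext ?_⟩
    show (δ d : G) = g * g₀⁻¹ * (δ₀ d : G) * (g * g₀⁻¹)⁻¹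
    rw [hg, hg₀]
    group
  · refine ⟨∅, Set.finite_empty, fun δ hδ => absurd ⟨δ, hδ⟩ hex⟩

end

theorem depthF_vertex {G V D : Type u} [Group G] [MulAction G V] {T : SimpleGraph V}
    (h : TreeAct G T) (hc : Cocompact G T) [Group D] [Finite D] (α β : D →* G) (x : V)
    (hF : HasF (MulAction.stabilizer G x)) :
    ∃ M : Subgroup G, (M.subgroupOf (MulAction.stabilizer G x)).FiniteIndex ∧
      ∀ δ ε : D →* G, FSet T α β x δ → FSet T α β x ε → (∀ d, (δ d)⁻¹ * ε d ∈ M) →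
        ∃ g : G, ∀ d, ε d = g * δ d * g⁻¹ := by
  have hfin : g2Fin {δ : D →* MulAction.stabilizer G x |
      FSet T α β x ((MulAction.stabilizer G x).subtype.comp δ)} := by
    refine g2Fin_mono (g2Fin_union (g2_edge h hc x) (g2Fin_union (g2_conj h α x)
      (g2_conj h β x))) ?_
    rintro δ ⟨-, h2⟩
    by_cases hn : ∃ x', T.Adj x x' ∧ ∀ d, (δ d : G) • x' = x'
    · exact Or.inl hn
    · rcases h2 with h2 | h2 | h2
      · exact Or.inr (Or.inl ⟨h2, hn⟩)
      · exact Or.inr (Or.inr ⟨h2, hn⟩)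
      · exact Or.inl h2
  obtain ⟨M, -, hMf, hM⟩ := sep hF D _ hfin
  refine ⟨M.map (MulAction.stabilizer G x).subtype, ?_, ?_⟩
  · have h1 : (M.map (MulAction.stabilizer G x).subtype).subgroupOf
        (MulAction.stabilizer G x) = M :=
      Subgroup.comap_map_eq_self_of_injective (Subgroup.subtype_injective _) M
    rw [h1]
    exact hMf
  · intro δ ε hδ hε hmod
    have h1 : FSet T α β x ((MulAction.stabilizer G x).subtype.comp
        (δ.codRestrict (MulAction.stabilizer G x) hδ.1)) := hδ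
    have h2 : FSet T α β x ((MulAction.stabilizer G x).subtype.comp
        (ε.codRestrict (MulAction.stabilizer G x) hε.1)) := hε
    obtain ⟨a, ha⟩ := hM _ h1 _ h2 fun d => by
      obtain ⟨m, hm, hmd⟩ := hmod d
      have h3 : m = (δ.codRestrict (MulAction.stabilizer G x) hδ.1 d)⁻¹ *
          ε.codRestrict (MulAction.stabilizer G x) hε.1 d := Subtype.ext hmd
      rw [← h3]
      exact hm
    exact ⟨a, fun d => congrArg Subtype.val (ha d)⟩

end Pool.Agent.LR
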