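import Pool.Agent.Lib.MP_836f52_al_LR.DepthV
import Pool.Agent.Lib.MP_836f52_al_LR.Fiq

set_option autoImplicit false

/-!
Row D2: the choice of `K`.

Let `B ⊆ W` be a finite set of representatives of the `H`-orbits in `W` (from `hfin`: keep the `b`
whose orbit meets `W`, they are in `W` by invariance).  For `b ∈ B` let `M b` be the subgroup of
`depth_vertex`; apply `fiq` with `N = M`, `X₀ = B`.  For `y ∈ W`, `y = g • b` with `g ∈ H`, `b ∈ B`,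
conjugate the data `z₁`, `z₂`, `D`, `β` by `g⁻¹`: `g⁻¹ • z₁`, `g⁻¹ • z₂`, `D₀ = g⁻¹ D g`,
`β₀ d = g⁻¹ β(g d g⁻¹) g`; `β₀ d * d⁻¹ ∈ K` fixes `b`, so it is in `M b`.
-/

namespace Pool.Agent.LR

open Pool.Agent.Lib.MP_836f52_al_H7

universe u

theorem depth_lr {G V : Type u} [Group G] [MulAction G V] {T : SimpleGraph V}
    (h : TreeAct G T) (hc : Cocompact G T) (hrf : ∀ x : V, ResFin (MulAction.stabilizer G x))
    (H : Subgroup G) (W : Set V) (hHW : ∀ g ∈ H, ∀ x ∈ W, g • x ∈ W)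
    (hfin : ∃ B : Set V, B.Finite ∧ ∀ x ∈ W, ∃ g ∈ H, ∃ b ∈ B, g • b = x)
    (hfi : ∀ y ∈ W, ((H ⊓ MulAction.stabilizer G y).subgroupOf
      (MulAction.stabilizer G y)).FiniteIndex)
    (hF : ∀ y ∈ W, HasF ↥(H ⊓ MulAction.stabilizer G y)) :
    ∃ K : Subgroup G, K.Normal ∧ K.FiniteIndex ∧
      (∀ x y, T.Adj x y → ∀ k ∈ K, k • x = x → k • y = y → k = 1) ∧
      ∀ y ∈ W, ∀ z₁ z₂, T.Adj y z₁ → T.Adj y z₂ → ∀ (D : Subgroup G) (β : D →* G),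
        (∀ d : D, (d : G) ∈ H ∧ (d : G) • y = y ∧ (d : G) • z₁ = z₁) →
        (∀ d : D, β d • y = y ∧ β d • z₂ = z₂ ∧ β d * (d : G)⁻¹ ∈ K) →
        ∃ k ∈ H, k • y = y ∧ ∀ d : D, β d = k * d * k⁻¹ := by
  classical
  obtain ⟨B, hB, hBW⟩ := hfin
  choose M hM1 hM2 using fun (y : V) (hy : y ∈ W) => depth_vertex h hc H y (hfi y hy) (hF y hy)
  let N : V → Subgroup G := fun y => if hy : y ∈ W then M y hy else ⊤
  have hN : ∀ y (hy : y ∈ W), N y = M y hy := fun y hy => dif_pos hy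
  obtain ⟨K, hKn, hKf, hK1, hK2⟩ := fiq h hc hrf N (B ∩ W) (hB.inter_of_left W) (by
    rintro x ⟨_, hx⟩
    rw [hN x hx]
    exact hM1 x hx)
  refine ⟨K, hKn, hKf, hK1, ?_⟩
  intro y hy z₁ z₂ hz₁ hz₂ D β hD hβ
  obtain ⟨g, hg, b, hb, rfl⟩ := hBW y hy
  have hbW : b ∈ W := by
    have := hHW g⁻¹ (H.inv_mem hg) _ hy
    rwa [inv_smul_smul] at this
  let D₀ : Subgroup G := D.comap (MulAut.conj g).toMonoidHom
  have hD₀ : ∀ d : D₀, g * (d : G) * g⁻¹ ∈ D := fun d => d.2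
  let γ : D₀ →* D := ((MulAut.conj g).toMonoidHom.comp D₀.subtype).codRestrict D fun d => d.2
  have hγ : ∀ d : D₀, ((γ d : D) : G) = g * (d : G) * g⁻¹ := fun d => rfl
  let β₀ : D₀ →* G := (MulAut.conj g⁻¹).toMonoidHom.comp (β.comp γ)
  have hβ₀ : ∀ d : D₀, β₀ d = g⁻¹ * β (γ d) * g := fun d => by
    change g⁻¹ * β (γ d) * (g⁻¹)⁻¹ = _
    rw [inv_inv]
  have hfixb : ∀ x : G, x • g • b = g • b → (g⁻¹ * x * g) • b = b := by
    intro x hx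
    rw [mul_smul, mul_smul, hx, inv_smul_smul]
  have hfixz : ∀ (x : G) (z : V), x • z = z → (g⁻¹ * x * g) • g⁻¹ • z = g⁻¹ • z := by
    intro x z hx
    rw [mul_smul, smul_inv_smul, mul_smul, hx]
  have hdγ : ∀ d : D₀, (d : G) = g⁻¹ * ((γ d : D) : G) * g := by
    intro d
    rw [hγ]
    group
  have hadj : ∀ z, T.Adj (g • b) z → T.Adj b (g⁻¹ • z) := by
    intro z hz
    have := h.adj g⁻¹ _ _ hz
    rwa [inv_smul_smul] at this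
  have h1 : ∀ d : D₀, (d : G) ∈ H ∧ (d : G) • b = b ∧ (d : G) • g⁻¹ • z₁ = g⁻¹ • z₁ := by
    intro d
    obtain ⟨e1, e2, e3⟩ := hD (γ d)
    rw [hdγ d]
    exact ⟨H.mul_mem (H.mul_mem (H.inv_mem hg) e1) hg, hfixb _ e2, hfixz _ _ e3⟩
  have h2 : ∀ d : D₀, β₀ d • b = b ∧ β₀ d • g⁻¹ • z₂ = g⁻¹ • z₂ ∧
      β₀ d * (d : G)⁻¹ ∈ M b hbW := by
    intro d
    obtain ⟨e1, e2, e3⟩ := hβ (γ d)
    have e4 : β₀ d • b = b := by rw [hβ₀]; exact hfixb _ e1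
    refine ⟨e4, ?_, ?_⟩
    · rw [hβ₀]; exact hfixz _ _ e2
    · rw [← hN b hbW]
      apply hK2 b ⟨hb, hbW⟩
      · have e5 := hKn.conj_mem _ e3 g⁻¹
        have e6 : g⁻¹ * (β (γ d) * ((γ d : D) : G)⁻¹) * (g⁻¹)⁻¹ = β₀ d * (d : G)⁻¹ := by
          rw [hβ₀, hγ]
          group
        rwa [e6] at e5
      · rw [mul_smul]
        have e7 : (d : G)⁻¹ • b = b := by
          rw [inv_smul_eq_iff]
          exact (h1 d).2.1.symm
        rw [e7, e4]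
  obtain ⟨k, hk, hkb, hkβ⟩ := hM2 b hbW (g⁻¹ • z₁) (g⁻¹ • z₂) (hadj _ hz₁) (hadj _ hz₂) D₀ β₀ h1 h2
  refine ⟨g * k * g⁻¹, H.mul_mem (H.mul_mem hg hk) (H.inv_mem hg), ?_, ?_⟩
  · rw [mul_smul, inv_smul_smul, mul_smul, hkb]
  · intro d
    have e1 : g⁻¹ * (d : G) * g ∈ D₀ := by
      change g * (g⁻¹ * (d : G) * g) * g⁻¹ ∈ D
      have : g * (g⁻¹ * (d : G) * g) * g⁻¹ = d := by group
      rw [this]
      exact d.2
    have e2 : γ ⟨g⁻¹ * (d : G) * g, e1⟩ = d := by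
      apply Subtype.ext
      rw [hγ]
      group
    have e3 := hkβ ⟨g⁻¹ * (d : G) * g, e1⟩
    rw [hβ₀, e2] at e3
    have e4 : β d = g * (g⁻¹ * β d * g) * g⁻¹ := by group
    rw [e4, e3]
    group

end Pool.Agent.LR
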