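import Pool.Agent.Lib.MP_836f52_al_LR.Sep

set_option autoImplicit false

/-!
Row D1: the condition `sep` at one vertex.

Let `A = H ⊓ stabilizer G y`.  The neighbours of `y` form finitely many orbits under
`stabilizer G y` (from `hc.edge`: if `g • b.1 = y = g' • b.1` for the same `b` then
`g' g⁻¹ ∈ stabilizer G y` maps `g • b.2` to `g' • b.2`), hence also under `A`, of finite index; let
`z 1, …, z n` be representatives and `F i = A ⊓ stabilizer G (z i)`, a finite group.  For every `i` and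
every subgroup `D ≤ F i` (finitely many pairs) apply `sep` to `A` and the set of the homomorphisms
`δ : D →* A` whose image fixes a neighbour `z` of `y`: if `z = a • z j`, `a ∈ A`, then
`a⁻¹ δ a` is one of the finitely many homomorphisms `D →* F j`; the inclusion `D → A` is in the set.
Let `M` be the intersection (as a subgroup of `G`) of the finitely many normal subgroups of `A` obtained.
It is normal in `A` and of finite index in `A`, hence in `stabilizer G y`.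

Let `z₁`, `z₂`, `D`, `β` be as in the statement.  `β d ∈ M D ⊆ A`.  Let `z₁ = a • z i`, `a ∈ A`;
`D₁ = a⁻¹ D a ≤ F i`, `β₁ d = a⁻¹ β(a d a⁻¹) a`: a homomorphism `D₁ →* A` whose image fixes the
neighbour `a⁻¹ • z₂`, and `β₁ d * d⁻¹ ∈ M`, as `M` is normal in `A`.  So `β₁ d = h d h⁻¹` with
`h ∈ A`, and `β d = (a h a⁻¹) d (a h a⁻¹)⁻¹`.
-/

namespace Pool.Agent.LR

open Pool.Agent.Lib.MP_836f52_al_H7

universe u

/-- finitely many representatives from a map to a finite type -/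
private lemma finite_reps {X Y : Type*} [Finite Y] (s : Set X) (f : X → Y) :
    ∃ Z : Set X, Z.Finite ∧ Z ⊆ s ∧ ∀ x ∈ s, ∃ z ∈ Z, f z = f x := by
  classical
  have hfin : (f '' s).Finite := Set.toFinite _
  have hch : ∀ w : f '' s, ∃ x ∈ s, f x = w := fun w => w.2
  choose c hc1 hc2 using hch
  have : Finite (f '' s) := hfin.to_subtype
  refine ⟨Set.range c, Set.finite_range c, ?_, ?_⟩
  · rintro _ ⟨w, rfl⟩
    exact hc1 w
  · intro x hx
    exact ⟨c ⟨f x, x, hx, rfl⟩, ⟨_, rfl⟩, hc2 _⟩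

/-- finitely many orbits of neighbours -/
private lemma nbr_reps {G V : Type u} [Group G] [MulAction G V] {T : SimpleGraph V}
    (hc : Cocompact G T) (A : Subgroup G) (y : V)
    (hfi : (A.subgroupOf (MulAction.stabilizer G y)).FiniteIndex) :
    ∃ Z : Set V, Z.Finite ∧ (∀ z ∈ Z, T.Adj y z) ∧
      ∀ z, T.Adj y z → ∃ a ∈ A, ∃ z₀ ∈ Z, a • z₀ = z := by
  classical
  obtain ⟨B, hB, hBs⟩ := hc.edge
  have hBf : Finite B := hB.to_subtype
  have hch : ∀ z : {z // T.Adj y z}, ∃ g : G, ∃ b : B, g • (b : V × V).1 = y ∧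
      g • (b : V × V).2 = z := by
    intro z
    obtain ⟨g, b, hb, h1, h2⟩ := hBs y z z.2
    exact ⟨g, ⟨b, hb⟩, h1, h2⟩
  choose g b hg1 hg2 using hch
  -- reference elements
  have href : ∀ w : B, ∃ r : G, (∃ z : {z // T.Adj y z}, b z = w) → r • (w : V × V).1 = y := by
    intro w
    by_cases hw : ∃ z : {z // T.Adj y z}, b z = w
    · obtain ⟨z, hz⟩ := hw
      exact ⟨g z, fun _ => by rw [← hz]; exact hg1 z⟩
    · exact ⟨1, fun h => absurd h hw⟩
  choose r hr using href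
  have hs : ∀ z : {z // T.Adj y z}, r (b z) * (g z)⁻¹ ∈ MulAction.stabilizer G y := by
    intro z
    rw [MulAction.mem_stabilizer_iff, mul_smul]
    have h1 : (g z)⁻¹ • y = (b z : V × V).1 := by rw [inv_smul_eq_iff]; exact (hg1 z).symm
    rw [h1]
    exact hr (b z) ⟨z, rfl⟩
  have hQ : Finite (MulAction.stabilizer G y ⧸ A.subgroupOf (MulAction.stabilizer G y)) :=
    Subgroup.finite_quotient_of_finiteIndex
  obtain ⟨Z, hZ, -, hZs⟩ := finite_reps (Set.univ : Set {z // T.Adj y z})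
    (fun z => ((b z, ((⟨r (b z) * (g z)⁻¹, hs z⟩ : MulAction.stabilizer G y) :
      MulAction.stabilizer G y ⧸ A.subgroupOf (MulAction.stabilizer G y))) :
      B × (MulAction.stabilizer G y ⧸ A.subgroupOf (MulAction.stabilizer G y))))
  refine ⟨Subtype.val '' Z, hZ.image _, ?_, ?_⟩
  · rintro _ ⟨z, _, rfl⟩
    exact z.2
  · intro z hz
    obtain ⟨z0, hz0, h1⟩ := hZs ⟨z, hz⟩ (Set.mem_univ _)
    have h2 : b z0 = b ⟨z, hz⟩ := congrArg Prod.fst h1
    have h3 := congrArg Prod.snd h1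
    have h4 := QuotientGroup.eq.mp h3
    rw [Subgroup.mem_subgroupOf] at h4
    have h5 : ((r (b z0) * (g z0)⁻¹)⁻¹ * (r (b ⟨z, hz⟩) * (g ⟨z, hz⟩)⁻¹)) ∈ A := h4
    rw [h2] at h5
    have h6 : g z0 * (g ⟨z, hz⟩)⁻¹ ∈ A := by
      have : (r (b ⟨z, hz⟩) * (g z0)⁻¹)⁻¹ * (r (b ⟨z, hz⟩) * (g ⟨z, hz⟩)⁻¹)
          = g z0 * (g ⟨z, hz⟩)⁻¹ := by group
      rwa [this] at h5
    refine ⟨(g z0 * (g ⟨z, hz⟩)⁻¹)⁻¹, A.inv_mem h6, z0, ⟨z0, hz0, rfl⟩, ?_⟩
    rw [inv_smul_eq_iff, mul_smul]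
    have h7 : (g ⟨z, hz⟩)⁻¹ • z = (b ⟨z, hz⟩ : V × V).2 := by
      rw [inv_smul_eq_iff]
      exact (hg2 ⟨z, hz⟩).symm
    rw [h7, ← h2]
    exact (hg2 z0).symm

theorem depth_vertex {G V : Type u} [Group G] [MulAction G V] {T : SimpleGraph V}
    (h : TreeAct G T) (hc : Cocompact G T) (H : Subgroup G) (y : V)
    (hfi : ((H ⊓ MulAction.stabilizer G y).subgroupOf (MulAction.stabilizer G y)).FiniteIndex)
    (hF : HasF ↥(H ⊓ MulAction.stabilizer G y)) :
    ∃ M : Subgroup G, (M.subgroupOf (MulAction.stabilizer G y)).FiniteIndex ∧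
      ∀ z₁ z₂, T.Adj y z₁ → T.Adj y z₂ → ∀ (D : Subgroup G) (β : D →* G),
        (∀ d : D, (d : G) ∈ H ∧ (d : G) • y = y ∧ (d : G) • z₁ = z₁) →
        (∀ d : D, β d • y = y ∧ β d • z₂ = z₂ ∧ β d * (d : G)⁻¹ ∈ M) →
        ∃ k ∈ H, k • y = y ∧ ∀ d : D, β d = k * d * k⁻¹ := by
  classical
  set A : Subgroup G := H ⊓ MulAction.stabilizer G y with hAdef
  have hASt : A ≤ MulAction.stabilizer G y := inf_le_right
  have hAy : ∀ a : G, a ∈ A → a • y = y := fun a ha => MulAction.mem_stabilizer_iff.mp (hASt ha)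
  obtain ⟨Z, hZ, hZadj, hZs⟩ := nbr_reps hc A y hfi
  -- finite stabilisers
  have hFfin : ∀ z, T.Adj y z → {a : A | (a : G) • z = z}.Finite := by
    intro z hz
    have h1 := h.fin y z hz
    refine Set.Finite.of_finite_image (f := fun a : A => (a : G)) (h1.subset ?_)
      (Subtype.val_injective.injOn)
    rintro _ ⟨a, ha, rfl⟩
    exact ⟨hAy _ a.2, ha⟩
  -- the finite set of subgroups
  set 𝒟 : Set (Subgroup A) := {D | ∃ z ∈ Z, ∀ d ∈ D, (d : G) • z = z} with h𝒟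
  have h𝒟fin : 𝒟.Finite := by
    have h1 : 𝒟 = ⋃ z ∈ Z, {D : Subgroup A | ∀ d ∈ D, (d : G) • z = z} := by
      ext D
      simp [h𝒟]
    rw [h1]
    refine hZ.biUnion fun z hz => ?_
    have h2 := (hFfin z (hZadj z hz)).powerset
    refine Set.Finite.of_finite_image (f := fun D : Subgroup A => (D : Set A)) (h2.subset ?_)
      (SetLike.coe_injective.injOn)
    rintro _ ⟨D, hD, rfl⟩
    intro d hd
    exact hD d hd
  -- the separating subgroups
  have hsep : ∀ D : Subgroup A, D ∈ 𝒟 → ∃ M : Subgroup A, M.Normal ∧ M.FiniteIndex ∧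
      ∀ δ ε : D →* A, (∃ z, T.Adj y z ∧ ∀ d, (δ d : G) • z = z) →
        (∃ z, T.Adj y z ∧ ∀ d, (ε d : G) • z = z) → (∀ d, (δ d)⁻¹ * ε d ∈ M) →
        ∃ a : A, ∀ d, ε d = a * δ d * a⁻¹ := by
    intro D hD
    obtain ⟨z, hz, hDz⟩ := hD
    have hDfin : Finite D := by
      have : (D : Set A).Finite := (hFfin z (hZadj z hz)).subset fun d hd => hDz d hd
      exact this.to_subtype
    obtain ⟨M, hM1, hM2, hM3⟩ := sep hF D {δ : D →* A | ∃ z, T.Adj y z ∧ ∀ d, (δ d : G) • z = z}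
      ⟨{ε : D →* A | ∃ z ∈ Z, ∀ d, (ε d : G) • z = z}, by
        have h1 : {ε : D →* A | ∃ z ∈ Z, ∀ d, (ε d : G) • z = z}
            = ⋃ z ∈ Z, {ε : D →* A | ∀ d, (ε d : G) • z = z} := by
          ext ε
          simp
        rw [h1]
        refine hZ.biUnion fun z hz => ?_
        have h2 : (Set.univ.pi (fun _ : D => {a : A | (a : G) • z = z})).Finite :=
          Set.Finite.pi fun _ => hFfin z (hZadj z hz)
        refine Set.Finite.of_finite_image (f := fun ε : D →* A => (ε : D → A)) (h2.subset ?_)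
          (DFunLike.coe_injective.injOn)
        rintro _ ⟨ε, hε, rfl⟩
        intro d _
        exact hε d, by
        rintro δ ⟨z, hz, hδ⟩
        obtain ⟨a, ha, z0, hz0, haz⟩ := hZs z hz
        refine ⟨(MulAut.conj (⟨a, ha⟩ : A)⁻¹).toMonoidHom.comp δ, ⟨z0, hz0, fun d => ?_⟩,
          ⟨a, ha⟩, fun d => ?_⟩
        · have h1 : (((MulAut.conj (⟨a, ha⟩ : A)⁻¹).toMonoidHom.comp δ d : A) : G)
              = a⁻¹ * (δ d : G) * a := by simp
          rw [h1, mul_smul, mul_smul, haz, hδ d, ← haz, inv_smul_smul]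
        · change δ d = ⟨a, ha⟩ * ((⟨a, ha⟩ : A)⁻¹ * δ d * ((⟨a, ha⟩ : A)⁻¹)⁻¹) * (⟨a, ha⟩ : A)⁻¹
          group⟩
    exact ⟨M, hM1, hM2, fun δ ε h1 h2 h3 => hM3 δ h1 ε h2 h3⟩
  choose! MD hMD1 hMD2 hMD3 using hsep
  have : Finite 𝒟 := h𝒟fin.to_subtype
  set MA : Subgroup A := ⨅ D : 𝒟, MD D with hMA
  have hMAn : MA.Normal := by
    rw [hMA]
    exact Subgroup.normal_iInf_normal fun D => hMD1 D D.2
  have hMAfi : MA.FiniteIndex := by
    rw [hMA]
    exact Subgroup.finiteIndex_iInf fun D => hMD2 D D.2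
  refine ⟨MA.map A.subtype, ?_, ?_⟩
  · have hle : MA.map A.subtype ≤ A := Subgroup.map_subtype_le MA
    have h1 : (MA.map A.subtype).subgroupOf A = MA := Subgroup.comap_map_eq_self_of_injective
      (Subgroup.subtype_injective A) MA
    have h2 := Subgroup.relIndex_mul_relIndex (MA.map A.subtype) A (MulAction.stabilizer G y)
      hle hASt
    constructor
    change (MA.map A.subtype).relIndex (MulAction.stabilizer G y) ≠ 0
    rw [← h2]
    refine mul_ne_zero ?_ hfi.index_ne_zero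
    change ((MA.map A.subtype).subgroupOf A).index ≠ 0
    rw [h1]
    exact hMAfi.index_ne_zero
  · intro z₁ z₂ hz₁ hz₂ D β hD hβ
    have hDA : ∀ d : D, (d : G) ∈ A := fun d =>
      ⟨(hD d).1, MulAction.mem_stabilizer_iff.mpr (hD d).2.1⟩
    have hM : ∀ d : D, ∃ m : A, m ∈ MA ∧ (m : G) = β d * (d : G)⁻¹ := by
      intro d
      obtain ⟨m, hm, hm'⟩ := (hβ d).2.2
      exact ⟨m, hm, hm'⟩
    have hβA : ∀ d : D, β d ∈ A := by
      intro d
      obtain ⟨m, _, hm⟩ := hM d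
      have : β d = (m : G) * d := by rw [hm]; group
      rw [this]
      exact A.mul_mem m.2 (hDA d)
    obtain ⟨a, ha, z0, hz0, haz⟩ := hZs z₁ hz₁
    set D₁ : Subgroup A := D.comap ((MulAut.conj a).toMonoidHom.comp A.subtype) with hD₁
    have hD₁mem : ∀ x : A, x ∈ D₁ ↔ a * (x : G) * a⁻¹ ∈ D := by
      intro x
      rw [hD₁, Subgroup.mem_comap]
      rfl
    have hD₁z : ∀ x ∈ D₁, (x : G) • z0 = z0 := by
      intro x hx
      have h1 := (hD ⟨_, (hD₁mem x).mp hx⟩).2.2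
      change (a * (x : G) * a⁻¹) • z₁ = z₁ at h1
      rw [← haz, mul_smul, mul_smul, inv_smul_smul] at h1
      exact (smul_left_cancel_iff a).mp h1
    have hD₁𝒟 : D₁ ∈ 𝒟 := ⟨z0, hz0, hD₁z⟩
    -- the conjugated homomorphism
    let β₁ : D₁ →* A :=
      { toFun := fun x => ⟨a⁻¹ * β ⟨a * ((x : A) : G) * a⁻¹, (hD₁mem x).mp x.2⟩ * a,
          A.mul_mem (A.mul_mem (A.inv_mem ha) (hβA _)) ha⟩
        map_one' := by
          apply Subtype.ext
          change a⁻¹ * β ⟨a * (((1 : D₁) : A) : G) * a⁻¹, _⟩ * a = 1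
          have : (⟨a * (((1 : D₁) : A) : G) * a⁻¹, (hD₁mem _).mp (1 : D₁).2⟩ : D) = 1 := by
            apply Subtype.ext
            simp
          rw [this, map_one]
          group
        map_mul' := by
          intro x x'
          apply Subtype.ext
          change a⁻¹ * β ⟨a * (((x * x' : D₁) : A) : G) * a⁻¹, _⟩ * a
            = (a⁻¹ * β ⟨a * ((x : A) : G) * a⁻¹, _⟩ * a)
              * (a⁻¹ * β ⟨a * ((x' : A) : G) * a⁻¹, _⟩ * a)
          have : (⟨a * (((x * x' : D₁) : A) : G) * a⁻¹, (hD₁mem _).mp (x * x' : D₁).2⟩ : D)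
              = ⟨a * ((x : A) : G) * a⁻¹, (hD₁mem _).mp x.2⟩
                * ⟨a * ((x' : A) : G) * a⁻¹, (hD₁mem _).mp x'.2⟩ := by
            apply Subtype.ext
            change a * (((x : A) : G) * ((x' : A) : G)) * a⁻¹
              = (a * ((x : A) : G) * a⁻¹) * (a * ((x' : A) : G) * a⁻¹)
            group
          rw [this, map_mul]
          group }
    have hβ₁ : ∀ x : D₁, (β₁ x : G) = a⁻¹ * β ⟨a * ((x : A) : G) * a⁻¹, (hD₁mem x).mp x.2⟩ * a :=
      fun x => rfl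
    obtain ⟨k, hk⟩ := hMD3 D₁ hD₁𝒟 D₁.subtype β₁
      ⟨z0, hZadj z0 hz0, fun x => hD₁z x x.2⟩
      ⟨a⁻¹ • z₂, by
        have h1 := h.adj a⁻¹ y z₂ hz₂
        rwa [hAy _ (A.inv_mem ha)] at h1, fun x => by
        rw [hβ₁, mul_smul, mul_smul, smul_inv_smul, (hβ _).2.1]⟩
      (fun x => by
        have hx := (hD₁mem x).mp x.2
        obtain ⟨m, hm, hm'⟩ := hM ⟨_, hx⟩
        have h1 : MA ≤ MD D₁ := by
          rw [hMA]
          exact iInf_le (fun D : 𝒟 => MD D) ⟨D₁, hD₁𝒟⟩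
        refine h1 ?_
        have h2 : (D₁.subtype x)⁻¹ * β₁ x
            = ((⟨a, ha⟩ : A) * (x : A))⁻¹ * m * (((⟨a, ha⟩ : A) * (x : A))⁻¹)⁻¹ := by
          apply Subtype.ext
          change ((x : A) : G)⁻¹ * (β₁ x : G) = (a * ((x : A) : G))⁻¹ * (m : G)
            * ((a * ((x : A) : G))⁻¹)⁻¹
          rw [hβ₁, hm']
          group
        rw [h2]
        exact hMAn.conj_mem m hm _)
    refine ⟨a * (k : G) * a⁻¹, ?_, ?_, ?_⟩
    · exact (A.mul_mem (A.mul_mem ha k.2) (A.inv_mem ha)).1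
    · exact hAy _ (A.mul_mem (A.mul_mem ha k.2) (A.inv_mem ha))
    · intro d
      have hx : (⟨a⁻¹ * (d : G) * a, A.mul_mem (A.mul_mem (A.inv_mem ha) (hDA d)) ha⟩ : A) ∈ D₁ := by
        rw [hD₁mem]
        have : a * (a⁻¹ * (d : G) * a) * a⁻¹ = d := by group
        change a * (a⁻¹ * (d : G) * a) * a⁻¹ ∈ D
        rw [this]
        exact d.2
      have h1 := congrArg (Subtype.val : A → G) (hk ⟨_, hx⟩)
      rw [hβ₁] at h1
      have h2 : (⟨a * (a⁻¹ * (d : G) * a) * a⁻¹, (hD₁mem _).mp hx⟩ : D) = d := by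
        apply Subtype.ext
        change a * (a⁻¹ * (d : G) * a) * a⁻¹ = d
        group
      change a⁻¹ * β ⟨a * (a⁻¹ * (d : G) * a) * a⁻¹, _⟩ * a
        = (k : G) * (a⁻¹ * (d : G) * a) * (k : G)⁻¹ at h1
      rw [h2] at h1
      have h3 : β d = a * (a⁻¹ * β d * a) * a⁻¹ := by group
      rw [h3, h1]
      group

end Pool.Agent.LR
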