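import Mathlib

set_option autoImplicit false

/-!
Row M3: sums of powers.

Consider the polynomial `∏_{i = 1}^{N} (i - X)` with integer coefficients; it vanishes at
`1, …, N` and its constant coefficient is `N ! > 0`.  Write it as `P - M` with polynomials `P`, `M`
with nonnegative coefficients; a polynomial with nonnegative coefficients is a sum of monomials
`X ^ (a i)`.  More directly, by induction on `N`: from `∑ s ^ a i` and `∑ s ^ b j` for `N` one gets
for `N + 1`: `(N + 1) ∑ s ^ a i + ∑ s ^ (b j + 1)` and `(N + 1) ∑ s ^ b j + ∑ s ^ (a i + 1)`.  It may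
be convenient to work with lists or multisets of exponents first, and to convert to `Fin k → ℕ` at
the end (`List.get`), with `∑ i, s ^ a i = (l.map (s ^ ·)).sum`.

* `poly_zero`: `P 0 - M 0 = N !`, where `0 ^ 0 = 1`.
* `poly_one`: in `P - M` separate the constant term `N !` from the other monomials, all of which
  are `s * s ^ a`.  (By induction: `m + s P' = s M'` for `1 ≤ s ≤ N` gives
  `(N + 1) (m + s P') + s (s M') - …`: multiply `m + s P' - s M'` by `N + 1 - s`.)
-/

namespace Pool.Agent.LR

/-- the value at `s` of the sum of powers with the exponents in a list -/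
private def pw (l : List ℕ) (s : ℕ) : ℕ := (l.map (s ^ ·)).sum

private theorem pw_append (l l' : List ℕ) (s : ℕ) : pw (l ++ l') s = pw l s + pw l' s := by
  simp [pw]

private theorem pw_rep (c : ℕ) (l : List ℕ) (s : ℕ) :
    pw (List.replicate c l).flatten s = c * pw l s := by
  induction c with
  | zero => simp [pw]
  | succ c ih => rw [List.replicate_succ, List.flatten_cons, pw_append, ih]; ring

private theorem pw_succ (l : List ℕ) (s : ℕ) : pw (l.map (· + 1)) s = s * pw l s := by
  induction l with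
  | nil => simp [pw]
  | cons a l ih =>
    simp only [pw, List.map_cons, List.sum_cons] at ih ⊢
    rw [ih, pow_succ]
    ring

private theorem pw_fin (l : List ℕ) (s : ℕ) : ∑ i : Fin l.length, s ^ l.get i = pw l s := by
  unfold pw
  rw [← List.sum_ofFn]
  congr 1
  conv_rhs => rw [← List.ofFn_get l]
  rw [List.map_ofFn]
  rfl

private theorem aux_zero (N : ℕ) : ∃ (m : ℕ) (a b : List ℕ), 0 < m ∧
    (∀ s : ℕ, 1 ≤ s → s ≤ N → pw a s = pw b s) ∧ pw a 0 = m + pw b 0 := by
  induction N with
  | zero => exact ⟨1, [0], [], by norm_num, fun s h1 h2 => by omega, by simp [pw]⟩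
  | succ N ih =>
    obtain ⟨m, a, b, hm, h1, h2⟩ := ih
    refine ⟨(N + 1) * m, (List.replicate (N + 1) a).flatten ++ b.map (· + 1),
      (List.replicate (N + 1) b).flatten ++ a.map (· + 1), by positivity, ?_, ?_⟩
    · intro s hs hsN
      simp only [pw_append, pw_rep, pw_succ]
      rcases Nat.lt_or_ge s (N + 1) with h | h
      · rw [h1 s hs (by omega)]
      · have : s = N + 1 := by omega
        rw [this]
        ring
    · simp only [pw_append, pw_rep, pw_succ]
      rw [h2]
      ring

theorem poly_zero (N : ℕ) : ∃ (m k l : ℕ) (a : Fin k → ℕ) (b : Fin l → ℕ), 0 < m ∧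
    (∀ s : ℕ, 1 ≤ s → s ≤ N → ∑ i, s ^ a i = ∑ j, s ^ b j) ∧
    ∑ i, 0 ^ a i = m + ∑ j, 0 ^ b j := by
  obtain ⟨m, a, b, hm, h1, h2⟩ := aux_zero N
  refine ⟨m, a.length, b.length, a.get, b.get, hm, fun s hs hsN => ?_, ?_⟩
  · rw [pw_fin, pw_fin, h1 s hs hsN]
  · rw [pw_fin, pw_fin, h2]

private theorem aux_one (N : ℕ) : ∃ (m : ℕ) (a b : List ℕ), 0 < m ∧
    ∀ s : ℕ, 1 ≤ s → s ≤ N → m + s * pw a s = s * pw b s := by
  induction N with
  | zero => exact ⟨1, [], [], by norm_num, fun s h1 h2 => by omega⟩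
  | succ N ih =>
    obtain ⟨m, a, b, hm, h1⟩ := ih
    -- multiply `m + s a - s b` by `N + 1 - s`
    refine ⟨(N + 1) * m, (List.replicate (N + 1) a).flatten ++ b.map (· + 1),
      (List.replicate (N + 1) b).flatten ++ a.map (· + 1) ++ List.replicate m 0, by positivity, ?_⟩
    intro s hs hsN
    have h0 : pw (List.replicate m 0) s = m := by simp [pw]
    simp only [pw_append, pw_rep, pw_succ, h0]
    rcases Nat.lt_or_ge s (N + 1) with h | h
    · have h3 := h1 s hs (by omega)
      zify at h3 ⊢
      linear_combination ((N : ℤ) + 1 - s) * h3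
    · have : s = N + 1 := by omega
      rw [this]
      ring

theorem poly_one (N : ℕ) : ∃ (m k l : ℕ) (a : Fin k → ℕ) (b : Fin l → ℕ), 0 < m ∧
    ∀ s : ℕ, 1 ≤ s → s ≤ N → m + s * ∑ i, s ^ a i = s * ∑ j, s ^ b j := by
  obtain ⟨m, a, b, hm, h1⟩ := aux_one N
  refine ⟨m, a.length, b.length, a.get, b.get, hm, fun s hs hsN => ?_⟩
  rw [pw_fin, pw_fin, h1 s hs hsN]

end Pool.Agent.LR
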