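import Pool.Agent.Lib.MP_836f52_al_LR.Marks

set_option autoImplicit false

/-!
Row M4: fibre products with tuples.

`T = {p : X × (Σ i : Fin k, Fin (a i) → E) // ∀ j, πE (p.2.2 j) = πX p.1}` with
`g • (y, ⟨i, t⟩) = (g • y, ⟨i, fun j => g • t j⟩)`, `q (y, t) = y`, `π (y, t) = πX y`.

* `FinMod`: the fibre of `T` over `x` is covered by the `H`-orbits of the finitely many points
  `(b, ⟨i, t⟩)` with `b` in a finite set `B` of points over `x` (`FinMod.exists_mem`), `t` with values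
  in the finite set `{e | πE e = x}`: if `y = h • b` then `(y, t) = h • (b, t)`, as `H` acts trivially on
  `E` (and `x` is fixed by `h`, because `x = πX y = h • πX b = h • x`).
* marks: `(O, ⟨i, t⟩) ↦ {((y, ⟨i, t⟩)) | y ∈ O}` is a bijection from
  `mkset H {y | πX y = x} Δ × {⟨i, t⟩ | t j ∈ E_x^Δ}` to `mkset H {t | π t = x} Δ`, where
  `E_x^Δ = {e | πE e = x ∧ ∀ d ∈ Δ, d • e = e}`; the number of the `⟨i, t⟩` is
  `∑ i, (E_x^Δ).ncard ^ a i`.
* section: if `a i = 0` take `ι y = (y, ⟨i, the empty tuple⟩)`.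
-/

namespace Pool.Agent.LR

universe u v w

private theorem tup_finite {E : Type w} {F : Set E} (hF : F.Finite) {k : ℕ} (a : Fin k → ℕ) :
    {s : (i : Fin k) × (Fin (a i) → E) | ∀ j, s.2 j ∈ F}.Finite := by
  have h : {s : (i : Fin k) × (Fin (a i) → E) | ∀ j, s.2 j ∈ F} ⊆
      ⋃ i : Fin k, (fun t : Fin (a i) → E => (⟨i, t⟩ : (i : Fin k) × (Fin (a i) → E))) ''
        (Set.pi Set.univ fun _ => F) := by
    rintro ⟨i, t⟩ ht
    exact Set.mem_iUnion.2 ⟨i, t, fun j _ => ht j, rfl⟩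
  exact (Set.finite_iUnion fun i => (Set.Finite.pi fun _ => hF).image _).subset h

private theorem tup_ncard {E : Type w} {F : Set E} (hF : F.Finite) {k : ℕ} (a : Fin k → ℕ) :
    {s : (i : Fin k) × (Fin (a i) → E) | ∀ j, s.2 j ∈ F}.ncard = ∑ i, F.ncard ^ a i := by
  have : Finite F := hF
  have e : {s : (i : Fin k) × (Fin (a i) → E) | ∀ j, s.2 j ∈ F} ≃
      (i : Fin k) × (Fin (a i) → F) :=
    { toFun := fun s => ⟨s.1.1, fun j => ⟨s.1.2 j, s.2 j⟩⟩
      invFun := fun s => ⟨⟨s.1, fun j => (s.2 j : E)⟩, fun j => (s.2 j).2⟩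
      left_inv := fun _ => rfl
      right_inv := fun _ => rfl }
  rw [← Nat.card_coe_set_eq, Nat.card_congr e, Nat.card_sigma]
  refine Finset.sum_congr rfl fun i _ => ?_
  rw [Nat.card_fun, Nat.card_coe_set_eq, Nat.card_fin]

/-- the fibre product with the tuples -/
private def tupS {Γ : Type u} [Group Γ] {V : Type v} [MulAction Γ V] {X E : Type w}
    [MulAction Γ X] [MulAction Γ E] (πX : X → V) (hX : ∀ (g : Γ) (y : X), πX (g • y) = g • πX y)
    (πE : E → V) (hE : ∀ (g : Γ) (e : E), πE (g • e) = g • πE e) {k : ℕ} (a : Fin k → ℕ) :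
    SubMulAction Γ (X × ((i : Fin k) × (Fin (a i) → E))) where
  carrier := {p | ∀ j, πE (p.2.2 j) = πX p.1}
  smul_mem' := by
    rintro g ⟨y, i, t⟩ h j
    show πE (g • t j) = πX (g • y)
    rw [hE, hX]
    exact congrArg (g • ·) (h j)

theorem exists_tup {Γ : Type u} [Group Γ] {V : Type v} [MulAction Γ V] {X E : Type w}
    [MulAction Γ X] [MulAction Γ E] (πX : X → V) (hX : ∀ (g : Γ) (y : X), πX (g • y) = g • πX y)
    (πE : E → V) (hE : ∀ (g : Γ) (e : E), πE (g • e) = g • πE e) (H : Subgroup Γ)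
    (hHE : ∀ h ∈ H, ∀ e : E, h • e = e) (hfinE : ∀ x, {e | πE e = x}.Finite)
    (hmX : ∀ x, FinMod H {y | πX y = x}) {k : ℕ} (a : Fin k → ℕ) :
    ∃ (T : Type w) (_ : MulAction Γ T) (π : T → V) (q : T → X),
      (∀ (g : Γ) (t : T), π (g • t) = g • π t) ∧ (∀ (g : Γ) (t : T), q (g • t) = g • q t) ∧
      (∀ t, πX (q t) = π t) ∧ (∀ x, FinMod H {t | π t = x}) ∧
      (∀ (g : Γ) (x : V), (∀ y, πX y = x → g • y = y) → (∀ e, πE e = x → g • e = e) →
        ∀ t, π t = x → g • t = t) ∧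
      (∀ (x : V) (Δ : Subgroup Γ), (∀ d ∈ Δ, d • x = x) →
        marks H {t | π t = x} Δ = marks H {y | πX y = x} Δ *
          ∑ i, ({e | πE e = x ∧ ∀ d ∈ Δ, d • e = e}.ncard) ^ a i) ∧
      ∀ i, a i = 0 → ∃ ι : X → T, (∀ (g : Γ) (y : X), ι (g • y) = g • ι y) ∧ ∀ y, q (ι y) = y := by
  have htriv : ∀ h ∈ H, ∀ s : (i : Fin k) × (Fin (a i) → E), h • s = s := by
    rintro h hh ⟨i, t⟩
    show (⟨i, h • t⟩ : (i : Fin k) × (Fin (a i) → E)) = ⟨i, t⟩
    have h1 : h • t = t := funext fun j => hHE h hh (t j)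
    rw [h1]
  refine ⟨tupS πX hX πE hE a, inferInstance, fun t => πX t.1.1, fun t => t.1.1, fun g t => hX g t.1.1,
    fun _ _ => rfl, fun _ => rfl, fun x => ?_, ?_, ?_, ?_⟩
  · -- finitely many orbits
    obtain ⟨B, hB, hBA, hcov⟩ := (hmX x).exists_mem
    refine ⟨{t | t.1.1 ∈ B}, ?_, ?_⟩
    · have h1 : (B ×ˢ {s : (i : Fin k) × (Fin (a i) → E) | ∀ j, s.2 j ∈ {e | πE e = x}}).Finite :=
        hB.prod (tup_finite (hfinE x) a)
      refine Set.Finite.of_finite_image (f := Subtype.val) (h1.subset ?_)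
        Subtype.val_injective.injOn
      rintro _ ⟨t, ht, rfl⟩
      refine ⟨ht, fun j => ?_⟩
      exact (t.2 j).trans (hBA ht)
    · intro t ht
      obtain ⟨h, hh, b, hb, hbt⟩ := hcov t.1.1 ht
      refine ⟨h, hh, h⁻¹ • t, ?_, smul_inv_smul h t⟩
      show h⁻¹ • t.1.1 ∈ B
      rw [← hbt, inv_smul_smul]
      exact hb
  · intro g x h1 h2 t ht
    refine Subtype.ext (Prod.ext (h1 _ ht) ?_)
    have h3 : ∀ j, g • t.1.2.2 j = t.1.2.2 j := fun j => h2 _ ((t.2 j).trans ht)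
    show (⟨t.1.2.1, g • t.1.2.2⟩ : (i : Fin k) × (Fin (a i) → E)) = t.1.2
    have h4 : g • t.1.2.2 = t.1.2.2 := funext h3
    rw [h4]
  · intro x Δ hΔ
    have hF : {e | πE e = x ∧ ∀ d ∈ Δ, d • e = e}.Finite := (hfinE x).subset fun e he => he.1
    rw [← tup_ncard hF a]
    unfold marks
    rw [← Set.ncard_prod]
    symm
    -- the orbit of a point
    have horb : ∀ t : tupS πX hX πE hE a, orb H t = {z | z.1.1 ∈ orb H t.1.1 ∧ z.1.2 = t.1.2} := by
      intro t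
      ext z
      constructor
      · rintro ⟨h, hh, rfl⟩
        exact ⟨⟨h, hh, rfl⟩, htriv h hh t.1.2⟩
      · rintro ⟨⟨h, hh, h1⟩, h2⟩
        exact ⟨h, hh, Subtype.ext (Prod.ext h1 ((htriv h hh t.1.2).trans h2.symm))⟩
    refine Set.BijOn.ncard_eq (f := fun p : Set X × ((i : Fin k) × (Fin (a i) → E)) =>
      ({z | z.1.1 ∈ p.1 ∧ z.1.2 = p.2} : Set (tupS πX hX πE hE a))) ⟨?_, ?_, ?_⟩
    · rintro ⟨O, s⟩ ⟨⟨y, hy, hyΔ, hO⟩, hs⟩
      have hy' : πX y = x := hy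
      refine ⟨⟨(y, s), fun j => (hs j).1.trans hy'.symm⟩, hy', ?_, ?_⟩
      · intro d hd
        refine Subtype.ext (Prod.ext (hyΔ d hd) ?_)
        show (⟨s.1, d • s.2⟩ : (i : Fin k) × (Fin (a i) → E)) = s
        have h4 : d • s.2 = s.2 := funext fun j => (hs j).2 d hd
        rw [h4]
      · rw [horb]
        show {z : tupS πX hX πE hE a | z.1.1 ∈ O ∧ z.1.2 = s} = _
        have hO' : O = orb H y := hO
        rw [hO']
    · rintro ⟨O, s⟩ ⟨⟨y, hy, hyΔ, hO⟩, hs⟩ ⟨O', s'⟩ ⟨⟨y', hy', hyΔ', hO'⟩, hs'⟩ heq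
      have hy0 : πX y = x := hy
      have hy0' : πX y' = x := hy'
      have hO1 : O = orb H y := hO
      have hO1' : O' = orb H y' := hO'
      subst hO1 hO1'
      have heq' : ({z | z.1.1 ∈ orb H y ∧ z.1.2 = s} : Set (tupS πX hX πE hE a)) =
        {z | z.1.1 ∈ orb H y' ∧ z.1.2 = s'} := heq
      have key : ∀ z : tupS πX hX πE hE a, (z.1.1 ∈ orb H y ∧ z.1.2 = s) ↔
          (z.1.1 ∈ orb H y' ∧ z.1.2 = s') := fun z => by
        have := Set.ext_iff.1 heq' z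
        exact this
      have h1 := (key ⟨(y, s), fun j => (hs j).1.trans hy0.symm⟩).1 ⟨⟨1, H.one_mem, one_smul _ _⟩, rfl⟩
      have h1' := (key ⟨(y', s'), fun j => (hs' j).1.trans hy0'.symm⟩).2
        ⟨⟨1, H.one_mem, one_smul _ _⟩, rfl⟩
      obtain ⟨⟨h, hh, h2⟩, h3⟩ := h1
      have h2' : h • y' = y := h2
      have h3' : s = s' := h3
      refine Prod.ext ?_ h3'
      show orb H y = orb H y'
      ext z
      constructor
      · rintro ⟨g, hg, rfl⟩
        exact ⟨g * h, H.mul_mem hg hh, by rw [mul_smul, h2']⟩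
      · rintro ⟨g, hg, rfl⟩
        exact ⟨g * h⁻¹, H.mul_mem hg (H.inv_mem hh), by rw [mul_smul, ← h2', inv_smul_smul]⟩
    · rintro O ⟨t, ht, htΔ, rfl⟩
      have ht' : πX t.1.1 = x := ht
      refine ⟨(orb H t.1.1, t.1.2), ⟨⟨t.1.1, ht', fun d hd => ?_, rfl⟩, fun j => ⟨?_, fun d hd => ?_⟩⟩,
        (horb t).symm⟩
      · exact congrArg (fun z : tupS πX hX πE hE a => z.1.1) (htΔ d hd)
      · exact (t.2 j).trans ht'
      · have h5 : (⟨t.1.2.1, d • t.1.2.2⟩ : (i : Fin k) × (Fin (a i) → E)) = ⟨t.1.2.1, t.1.2.2⟩ :=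
          congrArg (fun z : tupS πX hX πE hE a => z.1.2) (htΔ d hd)
        have h6 := eq_of_heq (Sigma.mk.inj h5).2
        exact congrFun h6 j
  · intro i hi
    have hempty : IsEmpty (Fin (a i)) := by
      rw [hi]
      infer_instance
    refine ⟨fun y => ⟨(y, ⟨i, fun j => (hempty.false j).elim⟩), fun j => (hempty.false j).elim⟩,
      fun g y => ?_, fun _ => rfl⟩
    refine Subtype.ext (Prod.ext rfl ?_)
    show (⟨i, _⟩ : (i : Fin k) × (Fin (a i) → E)) = ⟨i, _⟩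
    congr 1
    exact funext fun j => (hempty.false j).elim

end Pool.Agent.LR
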