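import Pool.Agent.Lib.MP_836f52_al_LR.FFamDefs
import Pool.Agent.Lib.MP_836f52_al_LR.Tup
import Pool.Agent.Lib.MP_836f52_al_LR.Poly

set_option autoImplicit false

/-!
Row G1: families whose marks detect the graphs of the conjugates of `α`.

`P = (G ⧸ K) × D` is a finite group.  Let `U = cosetFam K pU`, `S = cosetFam K pS`, where
 `pU x E := ∃ δ, (∃ g, ∀ d, δ d = g * α d * g⁻¹) ∧ (∀ d, δ d • x = x) ∧ E = grF K δ`,
 `pS x E := (∀ e ∈ E, ∃ γ : G × D, γ.1 • x = x ∧ qF K γ = e) ∧ Nat.card E < Nat.card D`.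
`InvClass`: for `pU` the conjugate of `grF K δ` by `γ = (g, d₀)` is `grF K δ'` with
`δ' d = (g (δ d₀)⁻¹) δ d (g (δ d₀)⁻¹)⁻¹` (check `δ' (d₀ d d₀⁻¹) = g δ d g⁻¹`).
The elements `(k, 1)`, `k ∈ K`, act trivially on the second component.  The fibres are finite
(subsets of `P`), with at most `N` points, `N` the number of subsets of `P`.

Let `Δ` fix `x`, `Q = Δ.map (qF K)`, `n = Nat.card D` (this is also the cardinality of `grF K δ`).  A
coset `E c` is fixed by `Δ` iff `Q ≤ E`.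
 * If `card Q < n` then `Δ` fixes a point of `S` over `x` (`E = Q`, `c = 1`); if `card Q ≥ n` it fixes
   none.
 * If `card Q ≥ n`: a point of `U` over `x` fixed by `Δ` is `E c` with `Q ≤ E = grF K δ`, so `Q = E` by
   cardinality; thus the number of these points is `0` if not `GoodAt K α x Δ`, and otherwise it is the
   number `card P / n > 0` of the cosets `Q c`.

Let `m`, `a`, `b` be as in `poly_zero N`, `Z` the tuples of `exists_tup` for `X = U`, `E = S`, exponents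
`a`, and `W` the same with `b`, always with `H = ⊥`.  With `u`, `s` the numbers of fixed points of `Δ`
in `U` and `S` over `x` one has `marks Z_x Δ = u ∑ s ^ a i`, `marks W_x Δ = u ∑ s ^ b j` (`marks_bot`).  If
`s ≥ 1` they are equal, and `GoodAt K α x Δ` is false (`card Q < n`).  If `s = 0` the difference is `u m`.
So `c₀ = (card P / n) m`.
-/

namespace Pool.Agent.LR

open Pool.Agent.Lib.MP_836f52_al_H7

universe u

section

variable {G V D : Type u} [Group G] [MulAction G V] [Group D] (K : Subgroup G) [K.Normal]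

private theorem g1_fix (p : V → Subgroup ((G ⧸ K) × D) → Prop) (hp : InvClass K p)
    (z : cosetFam K p) (E : Subgroup ((G ⧸ K) × D)) (c : (G ⧸ K) × D)
    (hE : z.1.2 = {s | ∃ e ∈ E, s = e * c}) (Δ : Subgroup (G × D))
    (hΔ : ∀ d ∈ Δ, d.1 • z.1.1 = z.1.1) :
    (∀ d ∈ Δ, (cosetAct K p hp).smul d z = z) ↔ Δ.map (qF K) ≤ E := by
  constructor
  · rintro h _ ⟨d, hd, rfl⟩
    have h1 : (fun s => qF K d * s) '' z.1.2 = z.1.2 :=
      congrArg (fun y : cosetFam K p => y.1.2) (h d hd)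
    have h2 : qF K d * c ∈ z.1.2 := by
      rw [← h1]
      refine ⟨c, ?_, rfl⟩
      rw [hE]
      exact ⟨1, E.one_mem, (one_mul c).symm⟩
    rw [hE] at h2
    obtain ⟨e, he, h3⟩ := h2
    rw [mul_right_cancel h3]
    exact he
  · intro h d hd
    refine Subtype.ext (Prod.ext (hΔ d hd) ?_)
    show (fun s => qF K d * s) '' z.1.2 = z.1.2
    have hq : qF K d ∈ E := h ⟨d, hd, rfl⟩
    rw [hE]
    ext s
    constructor
    · rintro ⟨_, ⟨e, he, rfl⟩, rfl⟩
      exact ⟨qF K d * e, E.mul_mem hq he, (mul_assoc _ _ _).symm⟩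
    · rintro ⟨e, he, rfl⟩
      refine ⟨(qF K d)⁻¹ * e * c, ⟨(qF K d)⁻¹ * e, E.mul_mem (E.inv_mem hq) he, rfl⟩, ?_⟩
      show qF K d * ((qF K d)⁻¹ * e * c) = e * c
      rw [mul_assoc, mul_inv_cancel_left]

private theorem g1_triv (p : V → Subgroup ((G ⧸ K) × D) → Prop) (hp : InvClass K p)
    (z : cosetFam K p) (k : G) (hk : k ∈ K) (hz : k • z.1.1 = z.1.1) :
    (cosetAct K p hp).smul (k, 1) z = z := by
  refine Subtype.ext (Prod.ext hz ?_)
  show (fun s => qF K (k, 1) * s) '' z.1.2 = z.1.2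
  have h1 : qF K (k, (1 : D)) = 1 := by
    rw [qF_apply]
    refine Prod.ext ?_ rfl
    exact (QuotientGroup.eq_one_iff k).2 hk
  rw [h1]
  simp

private theorem g1_finite [Finite ((G ⧸ K) × D)] (p : V → Subgroup ((G ⧸ K) × D) → Prop) (x : V) :
    {z : cosetFam K p | z.1.1 = x}.Finite := by
  have h1 : (({x} : Set V) ×ˢ (Set.univ : Set (Set ((G ⧸ K) × D)))).Finite :=
    (Set.finite_singleton x).prod Set.finite_univ
  refine Set.Finite.of_finite_image (f := Subtype.val) (h1.subset ?_)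
    Subtype.val_injective.injOn
  rintro _ ⟨z, hz, rfl⟩
  exact ⟨hz, Set.mem_univ _⟩

private theorem g1_le [Finite ((G ⧸ K) × D)] (p : V → Subgroup ((G ⧸ K) × D) → Prop) (x : V)
    (A : Set (cosetFam K p)) (hA : ∀ z ∈ A, z.1.1 = x) :
    A.ncard ≤ Nat.card (Set ((G ⧸ K) × D)) := by
  rw [← Set.ncard_univ]
  refine Set.ncard_le_ncard_of_injOn (fun z => z.1.2) (fun _ _ => Set.mem_univ _) ?_
    Set.finite_univ
  intro z hz z' hz' h
  exact Subtype.ext (Prod.ext ((hA z hz).trans (hA z' hz').symm) h)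

/-- the class of the graphs of the conjugates of `α` -/
private def g1U (α : D →* G) (x : V) (E : Subgroup ((G ⧸ K) × D)) : Prop :=
  ∃ δ : D →* G, (∃ g : G, ∀ d, δ d = g * α d * g⁻¹) ∧ (∀ d, δ d • x = x) ∧ E = grF K δ

/-- the class of the small groups -/
private def g1S (x : V) (E : Subgroup ((G ⧸ K) × D)) : Prop :=
  (∀ e ∈ E, ∃ γ : G × D, γ.1 • x = x ∧ qF K γ = e) ∧ Nat.card E < Nat.card D

private theorem g1U_inv (α : D →* G) : InvClass K (g1U (V := V) K α) := by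
  rintro ⟨g, d₀⟩ x E ⟨δ, ⟨g₁, hg₁⟩, hx, rfl⟩
  let h : G := g * (δ d₀)⁻¹
  refine ⟨(MulAut.conj h).toMonoidHom.comp δ, ⟨h * g₁, fun d => ?_⟩, fun d => ?_, ?_⟩
  · show h * δ d * h⁻¹ = _
    rw [hg₁]
    group
  · show (h * δ d * h⁻¹) • g • x = g • x
    have h1 : h * δ d * h⁻¹ * g = g * ((δ d₀)⁻¹ * (δ d * δ d₀)) := by
      show g * (δ d₀)⁻¹ * δ d * (g * (δ d₀)⁻¹)⁻¹ * g = _
      group
    rw [← mul_smul, h1, mul_smul, mul_smul, mul_smul, hx, hx]
    have h2 := hx d₀⁻¹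
    rw [map_inv] at h2
    rw [h2]
  · ext p
    rw [mem_grF]
    constructor
    · rintro ⟨e, he, rfl⟩
      have he' : e.1 = (δ e.2 : G ⧸ K) := (mem_grF K δ e).1 he
      show (g : G ⧸ K) * e.1 * (g : G ⧸ K)⁻¹ = ((h * δ (d₀ * e.2 * d₀⁻¹) * h⁻¹ : G) : G ⧸ K)
      have h3 : h * δ (d₀ * e.2 * d₀⁻¹) * h⁻¹ = g * δ e.2 * g⁻¹ := by
        show g * (δ d₀)⁻¹ * δ (d₀ * e.2 * d₀⁻¹) * (g * (δ d₀)⁻¹)⁻¹ = _
        rw [map_mul, map_mul, map_inv]
        group
      rw [h3, he']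
      rfl
    · intro hp
      have hp' : p.1 = ((h * δ p.2 * h⁻¹ : G) : G ⧸ K) := hp
      refine ⟨((δ (d₀⁻¹ * p.2 * d₀) : G ⧸ K), d₀⁻¹ * p.2 * d₀), (mem_grF K δ _).2 rfl, ?_⟩
      refine Prod.ext ?_ ?_
      · show (g : G ⧸ K) * (δ (d₀⁻¹ * p.2 * d₀) : G ⧸ K) * (g : G ⧸ K)⁻¹ = p.1
        have h3 : h * δ p.2 * h⁻¹ = g * δ (d₀⁻¹ * p.2 * d₀) * g⁻¹ := by
          show g * (δ d₀)⁻¹ * δ p.2 * (g * (δ d₀)⁻¹)⁻¹ = _
          rw [map_mul, map_mul, map_inv]
          group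
        rw [hp', h3]
        rfl
      · show d₀ * (d₀⁻¹ * p.2 * d₀) * d₀⁻¹ = p.2
        group

private theorem g1S_inv : InvClass K (g1S (V := V) (D := D) K) := by
  rintro γ x E ⟨h1, h2⟩
  refine ⟨?_, ?_⟩
  · rintro _ ⟨e, he, rfl⟩
    obtain ⟨γ', h3, rfl⟩ := h1 e he
    refine ⟨γ * γ' * γ⁻¹, ?_, ?_⟩
    · show (γ.1 * γ'.1 * γ.1⁻¹) • γ.1 • x = γ.1 • x
      rw [mul_smul, inv_smul_smul, mul_smul, h3]
    · rw [map_mul, map_mul, map_inv]
      rfl
  · have e := E.equivMapOfInjective (MulAut.conj (qF K γ)).toMonoidHom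
      (MulAut.conj (qF K γ)).injective
    rw [← Nat.card_congr e.toEquiv]
    exact h2

private theorem g1_card_gr (δ : D →* G) : Nat.card (grF K δ) = Nat.card D := by
  have h : Function.Injective (((QuotientGroup.mk' K).comp δ).prod (MonoidHom.id D)) := by
    intro d d' hd
    exact congrArg Prod.snd hd
  exact (Nat.card_congr (MonoidHom.ofInjective h).toEquiv).symm

private theorem g1_cosets {P : Type u} [Group P] (Q : Subgroup P) :
    {C : Set P | ∃ c, C = {s | ∃ e ∈ Q, s = e * c}}.ncard = Q.index := by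
  let f : P ⧸ Q → Set P := fun y => {s | ((s⁻¹ : P) : P ⧸ Q) = y}
  have hf : Function.Injective f := by
    intro y y' h
    obtain ⟨c, rfl⟩ := QuotientGroup.mk_surjective y
    have h1 : c⁻¹ ∈ f (c : P ⧸ Q) := by
      show ((c⁻¹⁻¹ : P) : P ⧸ Q) = (c : P ⧸ Q)
      rw [inv_inv]
    rw [h] at h1
    have h2 : ((c⁻¹⁻¹ : P) : P ⧸ Q) = y' := h1
    rwa [inv_inv] at h2
  have hr : {C : Set P | ∃ c, C = {s | ∃ e ∈ Q, s = e * c}} = f '' Set.univ := by
    have key : ∀ c : P, {s | ∃ e ∈ Q, s = e * c} = f ((c⁻¹ : P) : P ⧸ Q) := by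
      intro c
      ext s
      constructor
      · rintro ⟨e, he, rfl⟩
        show (((e * c)⁻¹ : P) : P ⧸ Q) = ((c⁻¹ : P) : P ⧸ Q)
        rw [QuotientGroup.eq]
        rw [inv_inv, mul_inv_cancel_right]
        exact he
      · intro hs
        have hs' : ((s⁻¹ : P) : P ⧸ Q) = ((c⁻¹ : P) : P ⧸ Q) := hs
        rw [QuotientGroup.eq, inv_inv] at hs'
        exact ⟨s * c⁻¹, hs', by rw [inv_mul_cancel_right]⟩
    ext C
    constructor
    · rintro ⟨c, rfl⟩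
      exact ⟨_, Set.mem_univ _, (key c).symm⟩
    · rintro ⟨y, -, rfl⟩
      obtain ⟨c, rfl⟩ := QuotientGroup.mk_surjective y
      refine ⟨c⁻¹, ?_⟩
      rw [key, inv_inv]
  rw [hr, Set.ncard_image_of_injective _ hf, Set.ncard_univ]
  rfl

private theorem g1_count [Finite ((G ⧸ K) × D)] [Finite D] (α : D →* G) (x : V)
    (Δ : Subgroup (G × D)) (hΔ : ∀ d ∈ Δ, d.1 • x = x) :
    (Nat.card (Δ.map (qF K)) < Nat.card D ∧
      {e : cosetFam K (g1S (V := V) (D := D) K) | e.1.1 = x ∧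
        ∀ d ∈ Δ, (cosetAct K _ (g1S_inv K)).smul d e = e}.ncard ≠ 0) ∨
    (Nat.card D ≤ Nat.card (Δ.map (qF K)) ∧
      {e : cosetFam K (g1S (V := V) (D := D) K) | e.1.1 = x ∧
        ∀ d ∈ Δ, (cosetAct K _ (g1S_inv K)).smul d e = e}.ncard = 0 ∧
      ((GoodAt K α x Δ ∧ {y : cosetFam K (g1U (V := V) K α) | y.1.1 = x ∧
        ∀ d ∈ Δ, (cosetAct K _ (g1U_inv K α)).smul d y = y}.ncard = K.index) ∨
      (¬ GoodAt K α x Δ ∧ {y : cosetFam K (g1U (V := V) K α) | y.1.1 = x ∧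
        ∀ d ∈ Δ, (cosetAct K _ (g1U_inv K α)).smul d y = y}.ncard = 0))) := by
  rcases lt_or_ge (Nat.card (Δ.map (qF K))) (Nat.card D) with h | h
  · left
    refine ⟨h, ?_⟩
    have hfin : {e : cosetFam K (g1S (V := V) (D := D) K) | e.1.1 = x ∧
        ∀ d ∈ Δ, (cosetAct K _ (g1S_inv K)).smul d e = e}.Finite :=
      (g1_finite K _ x).subset fun e he => he.1
    have hmem : g1S K x (Δ.map (qF K)) := by
      refine ⟨?_, h⟩
      rintro _ ⟨γ, hγ, rfl⟩
      exact ⟨γ, hΔ γ hγ, rfl⟩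
    obtain ⟨z, hz⟩ : ∃ z : cosetFam K (g1S (V := V) (D := D) K),
        z.1 = (x, {s | ∃ e ∈ Δ.map (qF K), s = e * 1}) := ⟨⟨_, _, hmem, 1, rfl⟩, rfl⟩
    refine (Set.ncard_pos hfin).2 ⟨z, ?_, ?_⟩ |>.ne'
    · rw [hz]
    · refine (g1_fix K _ _ z (Δ.map (qF K)) 1 (by rw [hz]) Δ ?_).2 le_rfl
      rw [hz]
      exact hΔ
  · right
    have hfix : ∀ (p : V → Subgroup ((G ⧸ K) × D) → Prop) (hp : InvClass K p)
        (z : cosetFam K p), z.1.1 = x → (∀ d ∈ Δ, (cosetAct K p hp).smul d z = z) →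
        ∃ E, p x E ∧ Δ.map (qF K) ≤ E ∧ ∃ c, z.1.2 = {s | ∃ e ∈ E, s = e * c} := by
      intro p hp z hz1 hz2
      obtain ⟨E, hE, c, hc⟩ := z.2
      rw [hz1] at hE
      refine ⟨E, hE, (g1_fix K p hp z E c hc Δ ?_).1 hz2, c, hc⟩
      rw [hz1]
      exact hΔ
    refine ⟨h, ?_, ?_⟩
    · rw [Set.ncard_eq_zero ((g1_finite K _ x).subset fun e he => he.1)]
      rw [Set.eq_empty_iff_forall_notMem]
      rintro z ⟨hz1, hz2⟩
      obtain ⟨E, hE, hQE, -⟩ := hfix _ _ z hz1 hz2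
      have h1 : Nat.card (Δ.map (qF K)) ≤ Nat.card E :=
        Subgroup.card_le_of_le hQE
      exact absurd hE.2 (not_lt.2 (h.trans h1))
    · have hfix2 : ∀ z : cosetFam K (g1U (V := V) K α), z.1.1 = x →
          (∀ d ∈ Δ, (cosetAct K _ (g1U_inv K α)).smul d z = z) →
          GoodAt K α x Δ ∧ ∃ c, z.1.2 = {s | ∃ e ∈ Δ.map (qF K), s = e * c} := by
        intro z hz1 hz2
        obtain ⟨E, ⟨δ, hδ1, hδ2, rfl⟩, hQE, c, hc⟩ := hfix _ _ z hz1 hz2
        have h1 : Δ.map (qF K) = grF K δ := by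
          refine Subgroup.eq_of_le_of_card_ge hQE ?_
          rw [g1_card_gr]
          exact h
        exact ⟨⟨δ, hδ1, hδ2, h1⟩, c, by rw [hc, h1]⟩
      by_cases hgood : GoodAt K α x Δ
      · left
        refine ⟨hgood, ?_⟩
        obtain ⟨δ, hδ1, hδ2, hQ⟩ := hgood
        have hcard : Nat.card (Δ.map (qF K)) = Nat.card D := by
          rw [hQ, g1_card_gr]
        have hidx : (Δ.map (qF K)).index = K.index := by
          have h1 := (Δ.map (qF K)).index_mul_card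
          rw [hcard, Nat.card_prod] at h1
          exact Nat.eq_of_mul_eq_mul_right Nat.card_pos h1
        rw [← hidx, ← g1_cosets]
        refine Set.BijOn.ncard_eq (f := fun z => z.1.2) ⟨?_, ?_, ?_⟩
        · rintro z ⟨hz1, hz2⟩
          exact (hfix2 z hz1 hz2).2
        · rintro z ⟨hz1, hz2⟩ z' ⟨hz1', hz2'⟩ hzz
          exact Subtype.ext (Prod.ext (hz1.trans hz1'.symm) hzz)
        · rintro C ⟨c, rfl⟩
          have hmem : g1U K α x (Δ.map (qF K)) := ⟨δ, hδ1, hδ2, hQ⟩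
          obtain ⟨z, hz⟩ : ∃ z : cosetFam K (g1U (V := V) K α),
            z.1 = (x, {s | ∃ e ∈ Δ.map (qF K), s = e * c}) := ⟨⟨_, _, hmem, c, rfl⟩, rfl⟩
          refine ⟨z, ⟨by rw [hz], ?_⟩, congrArg Prod.snd hz⟩
          refine (g1_fix K _ _ z (Δ.map (qF K)) c (by rw [hz]) Δ ?_).2 le_rfl
          rw [hz]
          exact hΔ
      · right
        refine ⟨hgood, ?_⟩
        rw [Set.ncard_eq_zero ((g1_finite K _ x).subset fun e he => he.1)]
        rw [Set.eq_empty_iff_forall_notMem]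
        rintro z ⟨hz1, hz2⟩
        exact hgood (hfix2 z hz1 hz2).1

end

theorem ffam {G V D : Type u} [Group G] [MulAction G V] [Group D] [Finite D] (K : Subgroup G)
    [K.Normal] (hK : K.FiniteIndex) (α : D →* G) :
    letI : MulAction (G × D) V := prodAct G D V
    ∃ (Z W : Type u) (_ : MulAction (G × D) Z) (_ : MulAction (G × D) W) (πZ : Z → V) (πW : W → V),
      (∀ (γ : G × D) (z : Z), πZ (γ • z) = γ.1 • πZ z) ∧
      (∀ (γ : G × D) (w : W), πW (γ • w) = γ.1 • πW w) ∧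
      (∀ x, {z | πZ z = x}.Finite) ∧ (∀ x, {w | πW w = x}.Finite) ∧
      (∀ k ∈ K, ∀ w, k • πW w = πW w → (k, (1 : D)) • w = w) ∧
      ∃ c₀ : ℕ, 0 < c₀ ∧ ∀ (x : V) (Δ : Subgroup (G × D)), (∀ d ∈ Δ, d.1 • x = x) →
        (GoodAt K α x Δ ∧ marks ⊥ {z | πZ z = x} Δ = marks ⊥ {w | πW w = x} Δ + c₀) ∨
        (¬ GoodAt K α x Δ ∧ marks ⊥ {z | πZ z = x} Δ = marks ⊥ {w | πW w = x} Δ) := by
  have hfinQ : Finite (G ⧸ K) := Subgroup.finite_quotient_of_finiteIndex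
  letI actV : MulAction (G × D) V := prodAct G D V
  letI actU : MulAction (G × D) (cosetFam K (g1U (V := V) K α)) := cosetAct K _ (g1U_inv K α)
  letI actS : MulAction (G × D) (cosetFam K (g1S (V := V) (D := D) K)) :=
    cosetAct K _ (g1S_inv K)
  obtain ⟨m, k, l, a, b, hm, hpos, hzero⟩ := poly_zero (Nat.card (Set ((G ⧸ K) × D)))
  have hbotS : ∀ h ∈ (⊥ : Subgroup (G × D)), ∀ e : cosetFam K (g1S (V := V) (D := D) K),
      h • e = e := by
    intro h hh e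
    rw [Subgroup.mem_bot.1 hh, one_smul]
  have hmU : ∀ x, FinMod (⊥ : Subgroup (G × D))
      {y : cosetFam K (g1U (V := V) K α) | y.1.1 = x} := fun x =>
    ⟨{y : cosetFam K (g1U (V := V) K α) | y.1.1 = x}, g1_finite K _ x,
      fun y hy => ⟨1, Subgroup.one_mem _, y, hy, one_smul _ y⟩⟩
  have hbotfin : ∀ {T : Type u} [MulAction (G × D) T] (A : Set T),
      FinMod (⊥ : Subgroup (G × D)) A → A.Finite := by
    rintro T _ A ⟨B, hB, hcov⟩
    refine hB.subset fun y hy => ?_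
    obtain ⟨h, hh, c, hc, rfl⟩ := hcov y hy
    rw [Subgroup.mem_bot.1 hh, one_smul]
    exact hc
  obtain ⟨Z, aZ, πZ, qZ, hZ1, hZ2, hZ3, hZ4, hZ5, hZ6, -⟩ :=
    exists_tup (Γ := G × D) (V := V) (X := cosetFam K (g1U (V := V) K α))
      (E := cosetFam K (g1S (V := V) (D := D) K)) (fun z => z.1.1) (fun _ _ => rfl)
      (fun z => z.1.1) (fun _ _ => rfl) ⊥ hbotS (fun x => g1_finite K _ x) hmU a
  obtain ⟨W, aW, πW, qW, hW1, hW2, hW3, hW4, hW5, hW6, -⟩ :=
    exists_tup (Γ := G × D) (V := V) (X := cosetFam K (g1U (V := V) K α))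
      (E := cosetFam K (g1S (V := V) (D := D) K)) (fun z => z.1.1) (fun _ _ => rfl)
      (fun z => z.1.1) (fun _ _ => rfl) ⊥ hbotS (fun x => g1_finite K _ x) hmU b
  refine ⟨Z, W, aZ, aW, πZ, πW, hZ1, hW1, fun x => hbotfin _ (hZ4 x), fun x => hbotfin _ (hW4 x),
    ?_, K.index * m, Nat.mul_pos (Nat.pos_of_ne_zero hK.index_ne_zero) hm, ?_⟩
  · intro k hk w hw
    refine hW5 (k, 1) (πW w) ?_ ?_ w rfl
    · intro y hy
      refine g1_triv K _ _ y k hk ?_
      have hy' : y.1.1 = πW w := hy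
      rw [hy', hw]
    · intro y hy
      refine g1_triv K _ _ y k hk ?_
      have hy' : y.1.1 = πW w := hy
      rw [hy', hw]
  · intro x Δ hΔ
    have hZx := hZ6 x Δ hΔ
    have hWx := hW6 x Δ hΔ
    rw [marks_bot {y : cosetFam K (g1U (V := V) K α) | y.1.1 = x}] at hZx hWx
    have hle := g1_le K _ x {e : cosetFam K (g1S (V := V) (D := D) K) | e.1.1 = x ∧
      ∀ d ∈ Δ, d • e = e} (fun z hz => hz.1)
    rcases g1_count K α x Δ hΔ with ⟨h1, h2⟩ | ⟨h1, h2, h3⟩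
    · right
      refine ⟨?_, ?_⟩
      · rintro ⟨δ, -, -, hQ⟩
        rw [hQ, g1_card_gr] at h1
        exact lt_irrefl _ h1
      · have h4 := hpos _ (Nat.one_le_iff_ne_zero.2 h2) hle
        rw [hZx, hWx]
        congr 1
    · have h2' : {e : cosetFam K (g1S (V := V) (D := D) K) | e.1.1 = x ∧
        ∀ d ∈ Δ, d • e = e}.ncard = 0 := h2
      rw [h2', hzero] at hZx
      rw [h2'] at hWx
      rcases h3 with ⟨h4, h5⟩ | ⟨h4, h5⟩
      · left
        refine ⟨h4, ?_⟩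
        have h5' : {y : cosetFam K (g1U (V := V) K α) | y ∈ {y : cosetFam K (g1U (V := V) K α) |
          y.1.1 = x} ∧ ∀ d ∈ Δ, d • y = y}.ncard = K.index := h5
        rw [hZx, hWx, h5']
        ring
      · right
        refine ⟨h4, ?_⟩
        have h5' : {y : cosetFam K (g1U (V := V) K α) | y ∈ {y : cosetFam K (g1U (V := V) K α) |
          y.1.1 = x} ∧ ∀ d ∈ Δ, d • y = y}.ncard = 0 := h5
        rw [hZx, hWx, h5']
        ring

end Pool.Agent.LR
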