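import Pool.Agent.Lib.MP_836f52_al_LR.MarksDefs
import Pool.Agent.Lib.MP_836f52_al_LR.Defs

set_option autoImplicit false

/-!
# Project LR: the families for conjugacy of homomorphisms of finite groups

`K` is a normal subgroup of `G`, `D` a group, `α : D →* G`.  `G × D` acts on two families over a
`G`-set `V`; their points over `x` are certain subsets of `P = (G ⧸ K) × D`.
-/

namespace Pool.Agent.LR

open Pool.Agent.Lib.MP_836f52_al_H7

universe u

section

variable {G V D : Type u} [Group G] [MulAction G V] [Group D] (K : Subgroup G) [K.Normal]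

/-- the projection `G × D → (G ⧸ K) × D` -/
def qF : G × D →* (G ⧸ K) × D := (QuotientGroup.mk' K).prodMap (MonoidHom.id D)

theorem qF_apply (g : G × D) : qF K g = ((g.1 : G ⧸ K), g.2) := rfl

/-- the graph of `δ` modulo `K` -/
def grF (δ : D →* G) : Subgroup ((G ⧸ K) × D) :=
  (((QuotientGroup.mk' K).comp δ).prod (MonoidHom.id D)).range

theorem mem_grF (δ : D →* G) (p : (G ⧸ K) × D) : p ∈ grF K δ ↔ p.1 = (δ p.2 : G ⧸ K) := by
  constructor
  · rintro ⟨d, rfl⟩
    rfl
  · intro h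
    exact ⟨p.2, by
      apply Prod.ext
      · exact h.symm
      · rfl⟩

/-- `Δ` acts modulo `K` as the graph of a conjugate of `α` fixing `x` -/
def GoodAt (α : D →* G) (x : V) (Δ : Subgroup (G × D)) : Prop :=
  ∃ δ : D →* G, (∃ g : G, ∀ d, δ d = g * α d * g⁻¹) ∧ (∀ d, δ d • x = x) ∧
    Δ.map (qF K) = grF K δ

/-- right cosets `E c` of subgroups `E` in a class of subgroups -/
def cosetFam (p : V → Subgroup ((G ⧸ K) × D) → Prop) : Type u :=
  {z : V × Set ((G ⧸ K) × D) // ∃ E, p z.1 E ∧ ∃ c, z.2 = {s | ∃ e ∈ E, s = e * c}}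

/-- invariance of a class of subgroups -/
def InvClass (p : V → Subgroup ((G ⧸ K) × D) → Prop) : Prop :=
  ∀ (γ : G × D) (x : V) (E : Subgroup ((G ⧸ K) × D)), p x E →
    p (γ.1 • x) (E.map (MulAut.conj (qF K γ)).toMonoidHom)

/-- `G × D` acts on the family by left multiplication -/
@[reducible] def cosetAct (p : V → Subgroup ((G ⧸ K) × D) → Prop) (hp : InvClass K p) :
    MulAction (G × D) (cosetFam K p) where
  smul γ z := ⟨(γ.1 • z.1.1, (fun s => qF K γ * s) '' z.1.2), by
    obtain ⟨E, h1, c, h2⟩ := z.2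
    refine ⟨_, hp γ _ E h1, qF K γ * c, ?_⟩
    simp only
    rw [h2]
    ext s
    constructor
    · rintro ⟨_, ⟨e, he, rfl⟩, rfl⟩
      refine ⟨qF K γ * e * (qF K γ)⁻¹, ⟨e, he, rfl⟩, ?_⟩
      simp [mul_assoc]
    · rintro ⟨_, ⟨e, he, rfl⟩, rfl⟩
      refine ⟨e * c, ⟨e, he, rfl⟩, ?_⟩
      simp [mul_assoc]⟩
  one_smul z := by
    apply Subtype.ext
    change ((1 : G × D).1 • z.1.1, (fun s => qF K (1 : G × D) * s) '' z.1.2) = z.1
    simp
  mul_smul γ γ' z := by
    apply Subtype.ext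
    change ((γ * γ').1 • z.1.1, (fun s => qF K (γ * γ') * s) '' z.1.2) =
      (γ.1 • γ'.1 • z.1.1, (fun s => qF K γ * s) '' ((fun s => qF K γ' * s) '' z.1.2))
    rw [Set.image_image]
    simp [mul_smul, mul_assoc]

end

/-- the homomorphisms `D → G` fixing `x` that are conjugate to `α` or `β` or fix a neighbour of
`x` -/
def FSet {G V D : Type u} [Group G] [MulAction G V] [Group D] (T : SimpleGraph V)
    (α β : D →* G) (x : V) (δ : D →* G) : Prop :=
  (∀ d, δ d • x = x) ∧ ((∃ g : G, ∀ d, δ d = g * α d * g⁻¹) ∨ (∃ g : G, ∀ d, δ d = g * β d * g⁻¹) ∨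
    ∃ x', T.Adj x x' ∧ ∀ d, δ d • x' = x')

end Pool.Agent.LR
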