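import Pool.Agent.Lib.MP_836f52_al_LR.FamDefs

set_option autoImplicit false

/-!
Row F1: the family `C`.

* `free_C`: `(1, h) • (x, g) = (x, g h⁻¹)`.
* `finMod_C`: the points over `x` are the `(x, g)` with `g⁻¹ • x ∈ W`.  Let `B` be as in `W_fin`.  For
  `b ∈ B` in the orbit of `x` with `g⁻¹ • x = h • b`, `h ∈ H` (`b ∈ W`), replace `(x, g)` by
  `(1, h⁻¹) • (x, g) = (x, g h)`: so we may assume `g⁻¹ • x = b`.  Fix one such `g_b`; the others are
  `g = g_b * s` with `s ∈ stabilizer G b`, and `s` matters only modulo `H ⊓ stabilizer G b`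
  (right multiplication), of finite index (`H_fi`): choose representatives of the finitely many cosets.
* `index_edge`: an element of `G × H` fixes `x` iff its first component does; modulo `H'` (kernel of
  the first projection) the stabiliser of the edge `x, x'` embeds in the finite group
  `{g | g • x = x ∧ g • x' = x'}` (e.g. `H'.subgroupOf _` is the kernel of a homomorphism to a finite
  group, `Subgroup.finiteIndex_ker`).
* `cover_K'`: `V = G B₀` with `B₀` finite and `G` is a finite union of cosets `K t`.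
* `tAct`: immediate.
-/

namespace Pool.Agent.LR

open Pool.Agent.Lib.MP_836f52_al_H7

universe u

namespace Data

variable {G V : Type u} [Group G] [MulAction G V] (S : Data G V)

theorem free_C : FreeOn S.H' (Set.univ : Set S.CFam) := by
  intro h hh y _ hy
  rw [mem_H'] at hh
  have h1 : (h • y).1.2 = y.1.2 := by rw [hy]
  rw [smul_C, hh, one_mul] at h1
  have h2 : ((h.2 : G))⁻¹ = 1 := mul_eq_left.1 h1
  refine Prod.ext hh (Subtype.ext ?_)
  exact inv_eq_one.1 h2

private theorem f1_cosets (hS : S.Ok) (x b : V) (hb : b ∈ S.W) :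
    ∃ F : Set G, F.Finite ∧ ∀ g : G, g⁻¹ • x = b → ∃ f ∈ F, ∃ t ∈ S.H, g = f * t := by
  by_cases hg : ∃ g : G, g⁻¹ • x = b
  · obtain ⟨g₀, hg₀⟩ := hg
    have hfi := hS.H_fi b hb
    have hfin : Finite (MulAction.stabilizer G b ⧸
        ((S.H ⊓ MulAction.stabilizer G b).subgroupOf (MulAction.stabilizer G b))) :=
      Subgroup.finite_quotient_of_finiteIndex
    refine ⟨Set.range fun q : MulAction.stabilizer G b ⧸
        ((S.H ⊓ MulAction.stabilizer G b).subgroupOf (MulAction.stabilizer G b)) =>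
        g₀ * ((q.out : MulAction.stabilizer G b) : G), Set.finite_range _, ?_⟩
    intro g hg
    have hs : g₀⁻¹ * g ∈ MulAction.stabilizer G b := by
      rw [MulAction.mem_stabilizer_iff, mul_smul, ← hg, smul_inv_smul, hg₀, hg]
    obtain ⟨t, ht⟩ := QuotientGroup.mk_out_eq_mul
      ((S.H ⊓ MulAction.stabilizer G b).subgroupOf (MulAction.stabilizer G b)) ⟨g₀⁻¹ * g, hs⟩
    have ht2 : ((t : MulAction.stabilizer G b) : G) ∈ S.H := (Subgroup.mem_subgroupOf.1 t.2).1
    refine ⟨_, ⟨QuotientGroup.mk ⟨g₀⁻¹ * g, hs⟩, rfl⟩, ((t : MulAction.stabilizer G b) : G)⁻¹,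
      S.H.inv_mem ht2, ?_⟩
    beta_reduce
    rw [ht, Subgroup.coe_mul]
    group
  · exact ⟨∅, Set.finite_empty, fun g h => absurd ⟨g, h⟩ hg⟩

theorem finMod_C (hS : S.Ok) (x : V) : FinMod S.H' {c | S.πC c = x} := by
  classical
  obtain ⟨B, hB, hcov⟩ := hS.W_fin
  have hch : ∀ b : V, ∃ F : Set G, F.Finite ∧
      (b ∈ S.W → ∀ g : G, g⁻¹ • x = b → ∃ f ∈ F, ∃ t ∈ S.H, g = f * t) := by
    intro b
    by_cases hb : b ∈ S.W
    · obtain ⟨F, hF, h⟩ := S.f1_cosets hS x b hb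
      exact ⟨F, hF, fun _ => h⟩
    · exact ⟨∅, Set.finite_empty, fun h => absurd h hb⟩
  choose F hF hFc using hch
  have hU : (⋃ b ∈ B, F b).Finite := hB.biUnion fun b _ => hF b
  refine ⟨{c | c.1.1 = x ∧ c.1.2 ∈ ⋃ b ∈ B, F b}, ?_, ?_⟩
  · have h1 : (({x} : Set V) ×ˢ (⋃ b ∈ B, F b)).Finite := (Set.finite_singleton x).prod hU
    refine Set.Finite.of_finite_image (f := Subtype.val) (h1.subset ?_)
      Subtype.val_injective.injOn
    rintro _ ⟨c, hc, rfl⟩
    exact ⟨hc.1, hc.2⟩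
  · intro c hc
    have hcx : c.1.1 = x := hc
    obtain ⟨h, hh, b, hb, hbx⟩ := hcov _ c.2
    rw [hcx] at hbx
    have hbW : b ∈ S.W := by
      have h1 := S.W_smul h⁻¹ (S.H.inv_mem hh) _ c.2
      rw [hcx, ← hbx, inv_smul_smul] at h1
      exact h1
    have hg : (c.1.2 * h)⁻¹ • x = b := by
      rw [mul_inv_rev, mul_smul, ← hbx, inv_smul_smul]
    obtain ⟨f, hf, t, ht, hft⟩ := hFc b hbW _ hg
    have hfx : f⁻¹ • x = t • b := by
      rw [← hg, hft, mul_inv_rev, mul_smul, smul_inv_smul]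
    have hfW : f⁻¹ • x ∈ S.W := by
      rw [hfx]
      exact S.W_smul t ht _ hbW
    obtain ⟨c₀, hc₀⟩ : ∃ c₀ : S.CFam, c₀.1 = (x, f) := ⟨⟨(x, f), hfW⟩, rfl⟩
    refine ⟨(1, ⟨h * t⁻¹, S.H.mul_mem hh (S.H.inv_mem ht)⟩), (S.mem_H' _).2 rfl,
      c₀, ⟨by rw [hc₀], by rw [hc₀]; exact Set.mem_biUnion hb hf⟩, ?_⟩
    refine Subtype.ext ?_
    rw [smul_C, hc₀]
    refine Prod.ext ?_ ?_
    · show (1 : G) • x = c.1.1
      rw [one_smul, hcx]
    · show (1 : G) * f * (h * t⁻¹)⁻¹ = c.1.2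
      have h3 : f = c.1.2 * h * t⁻¹ := by rw [hft, mul_inv_cancel_right]
      rw [h3]
      group

theorem index_edge (hS : S.Ok) :
    letI : MulAction (G × S.H) V := prodAct G S.H V
    ∀ x x', S.T.Adj x x' → (S.H'.subgroupOf
      (MulAction.stabilizer (G × S.H) x ⊓ MulAction.stabilizer (G × S.H) x')).FiniteIndex := by
  intro x x' hadj
  letI : MulAction (G × S.H) V := prodAct G S.H V
  have hfin := hS.act.fin x x' hadj
  let φ : (MulAction.stabilizer (G × S.H) x ⊓ MulAction.stabilizer (G × S.H) x' :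
      Subgroup (G × S.H)) →* G :=
    (MonoidHom.fst G S.H).comp (Subgroup.subtype _)
  have hker : φ.ker = S.H'.subgroupOf
      (MulAction.stabilizer (G × S.H) x ⊓ MulAction.stabilizer (G × S.H) x') := by
    ext γ
    rw [MonoidHom.mem_ker, Subgroup.mem_subgroupOf, mem_H']
    rfl
  have hrange : Finite φ.range := by
    refine hfin.subset ?_
    rintro _ ⟨γ, rfl⟩
    exact ⟨γ.2.1, γ.2.2⟩
  rw [← hker]
  exact Subgroup.finiteIndex_ker φ

theorem cover_K' (hS : S.Ok) :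
    ∃ B : Set V, B.Finite ∧ ∀ x, ∃ k ∈ S.K', ∃ b ∈ B, k.1 • b = x := by
  obtain ⟨B, hB, hcov⟩ := hS.coc.vert
  have hfi := hS.K_fi
  have hfin : Finite (G ⧸ S.K) := Subgroup.finite_quotient_of_finiteIndex
  refine ⟨Set.image2 (fun (q : G ⧸ S.K) (b : V) => q.out • b) Set.univ B,
    Set.finite_univ.image2 _ hB, fun x => ?_⟩
  obtain ⟨g, b, hb, rfl⟩ := hcov x
  refine ⟨(g / (QuotientGroup.mk g : G ⧸ S.K).out, 1), (S.mem_K' _).2 ⟨?_, rfl⟩,
    (QuotientGroup.mk g : G ⧸ S.K).out • b, ⟨_, Set.mem_univ _, b, hb, rfl⟩, ?_⟩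
  · show g / (QuotientGroup.mk g : G ⧸ S.K).out ∈ S.K
    rw [← QuotientGroup.eq_iff_div_mem, QuotientGroup.out_eq']
  · show (g / (QuotientGroup.mk g : G ⧸ S.K).out) • (QuotientGroup.mk g : G ⧸ S.K).out • b = g • b
    rw [← mul_smul, div_mul_cancel]

theorem tAct (hS : S.Ok) :
    letI : MulAction (G × S.H) V := prodAct G S.H V
    TAct (G × S.H) S.T := by
  letI : MulAction (G × S.H) V := prodAct G S.H V
  exact ⟨hS.act.tree, fun g x y h => hS.act.adj g.1 x y h,
    fun g x y h h1 h2 => hS.act.noinv g.1 x y h h1 h2⟩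

end Data

end Pool.Agent.LR
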