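import Pool.Agent.Lib.MP_836f52_al_LR.MarksDefs
import Pool.Agent.Lib.MP_836f52_al_LR.Defs

set_option autoImplicit false

/-!
# Project LR: the families of Step 2

`Data G V`: a graph `T`, subgroups `H` and `K` (`K` normal) of `G` and an `H`-invariant set `W` of
vertices.  The group `G × H` acts on the three families `CFam`, `RFam`, `EFam` over `V`.
-/

namespace Pool.Agent.LR

open Pool.Agent.Lib.MP_836f52_al_H7

universe u

/-- a graph with a `G`-action, two subgroups and an `H`-invariant set of vertices -/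
structure Data (G V : Type u) [Group G] [MulAction G V] where
  T : SimpleGraph V
  H : Subgroup G
  K : Subgroup G
  W : Set V
  K_normal : K.Normal
  adj : ∀ (g : G) (x y : V), T.Adj x y → T.Adj (g • x) (g • y)
  W_smul : ∀ h ∈ H, ∀ x ∈ W, h • x ∈ W

variable {G V : Type u} [Group G] [MulAction G V]

instance (S : Data G V) : S.K.Normal := S.K_normal

/-- the assumptions of Step 2 -/
structure Data.Ok (S : Data G V) : Prop where
  act : TreeAct G S.T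
  coc : Cocompact G S.T
  W_ne : S.W.Nonempty
  W_conv : IsConvex S.T S.W
  W_fin : ∃ B : Set V, B.Finite ∧ ∀ x ∈ S.W, ∃ g ∈ S.H, ∃ b ∈ B, g • b = x
  H_fi : ∀ x ∈ S.W, ((S.H ⊓ MulAction.stabilizer G x).subgroupOf
    (MulAction.stabilizer G x)).FiniteIndex
  K_fi : S.K.FiniteIndex
  K_edge : ∀ x y, S.T.Adj x y → ∀ k ∈ S.K, k • x = x → k • y = y → k = 1
  sep : ∀ y ∈ S.W, ∀ z₁ z₂, S.T.Adj y z₁ → S.T.Adj y z₂ → ∀ (D : Subgroup G) (β : D →* G),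
    (∀ d : D, (d : G) ∈ S.H ∧ (d : G) • y = y ∧ (d : G) • z₁ = z₁) →
    (∀ d : D, β d • y = y ∧ β d • z₂ = z₂ ∧ β d * (d : G)⁻¹ ∈ S.K) →
    ∃ h ∈ S.H, h • y = y ∧ ∀ d : D, β d = h * d * h⁻¹

namespace Data

variable (S : Data G V)

/-- the second factor of `G × H` -/
def H' : Subgroup (G × S.H) := Subgroup.prod ⊥ ⊤

/-- `K × 1` -/
def K' : Subgroup (G × S.H) := Subgroup.prod S.K ⊥

theorem mem_H' (g : G × S.H) : g ∈ S.H' ↔ g.1 = 1 := by
  simp [H', Subgroup.mem_prod]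

theorem mem_K' (g : G × S.H) : g ∈ S.K' ↔ g.1 ∈ S.K ∧ g.2 = 1 := by
  simp [K', Subgroup.mem_prod]

theorem H'_normal : S.H'.Normal := by
  constructor
  intro n hn g
  rw [mem_H'] at *
  simp [hn]

theorem K'_normal : S.K'.Normal := by
  constructor
  intro n hn g
  rw [mem_K'] at *
  refine ⟨?_, ?_⟩
  · have := S.K_normal.conj_mem _ hn.1 g.1
    simpa using this
  · simp [hn.2]

/-- the family `C`: the fibre over `x` consists of the `g` with `g⁻¹ • x ∈ W`;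
`(γ, h) • (x, g) = (γ • x, γ g h⁻¹)` -/
def CFam : Type u := {p : V × G // p.2⁻¹ • p.1 ∈ S.W}

instance : MulAction (G × S.H) S.CFam where
  smul γ p := ⟨(γ.1 • p.1.1, γ.1 * p.1.2 * (γ.2 : G)⁻¹), by
    have := S.W_smul γ.2 γ.2.2 _ p.2
    simpa [mul_smul] using this⟩
  one_smul p := by
    apply Subtype.ext
    change ((1 : G × S.H).1 • p.1.1, (1 : G × S.H).1 * p.1.2 * ((1 : G × S.H).2 : G)⁻¹) = p.1
    simp
  mul_smul γ γ' p := by
    apply Subtype.ext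
    change ((γ * γ').1 • p.1.1, (γ * γ').1 * p.1.2 * ((γ * γ').2 : G)⁻¹) =
      (γ.1 • γ'.1 • p.1.1, γ.1 * (γ'.1 * p.1.2 * (γ'.2 : G)⁻¹) * (γ.2 : G)⁻¹)
    simp [mul_smul, mul_assoc]

/-- the projection of `C` -/
def πC (p : S.CFam) : V := p.1.1

theorem smul_C (γ : G × S.H) (p : S.CFam) :
    (γ • p).1 = (γ.1 • p.1.1, γ.1 * p.1.2 * (γ.2 : G)⁻¹) := rfl

/-- the family `R`: the points over `x` are the `(y, y', q)` with `y ∈ W`, `y'` adjacent to `y` and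
`q ∈ G ⧸ K` the class of some `g` with `g • y = x`;
`(γ, h) • (x, y, y', q) = (γ • x, h • y, h • y', γ q h⁻¹)` -/
def RFam : Type u :=
  {p : V × V × V × (G ⧸ S.K) // p.2.1 ∈ S.W ∧ S.T.Adj p.2.1 p.2.2.1 ∧
    ∃ g : G, (g : G ⧸ S.K) = p.2.2.2 ∧ g • p.2.1 = p.1}

instance : MulAction (G × S.H) S.RFam where
  smul γ p := ⟨(γ.1 • p.1.1, (γ.2 : G) • p.1.2.1, (γ.2 : G) • p.1.2.2.1,
      (γ.1 : G ⧸ S.K) * p.1.2.2.2 * ((γ.2 : G) : G ⧸ S.K)⁻¹), by
    obtain ⟨h1, h2, g, h3, h4⟩ := p.2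
    refine ⟨S.W_smul _ γ.2.2 _ h1, S.adj _ _ _ h2, γ.1 * g * (γ.2 : G)⁻¹, ?_, ?_⟩
    · rw [← h3]
      rfl
    · change (γ.1 * g * (γ.2 : G)⁻¹) • (γ.2 : G) • p.1.2.1 = γ.1 • p.1.1
      rw [← h4]
      simp [mul_smul]⟩
  one_smul p := by
    apply Subtype.ext
    change ((1 : G × S.H).1 • p.1.1, ((1 : G × S.H).2 : G) • p.1.2.1,
      ((1 : G × S.H).2 : G) • p.1.2.2.1, ((1 : G × S.H).1 : G ⧸ S.K) * p.1.2.2.2 *
        (((1 : G × S.H).2 : G) : G ⧸ S.K)⁻¹) = p.1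
    simp
  mul_smul γ γ' p := by
    apply Subtype.ext
    change ((γ * γ').1 • p.1.1, ((γ * γ').2 : G) • p.1.2.1, ((γ * γ').2 : G) • p.1.2.2.1,
      ((γ * γ').1 : G ⧸ S.K) * p.1.2.2.2 * (((γ * γ').2 : G) : G ⧸ S.K)⁻¹) =
      (γ.1 • γ'.1 • p.1.1, (γ.2 : G) • (γ'.2 : G) • p.1.2.1, (γ.2 : G) • (γ'.2 : G) • p.1.2.2.1,
        (γ.1 : G ⧸ S.K) * ((γ'.1 : G ⧸ S.K) * p.1.2.2.2 * ((γ'.2 : G) : G ⧸ S.K)⁻¹) *
          ((γ.2 : G) : G ⧸ S.K)⁻¹)
    simp [mul_smul, mul_assoc]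

/-- the projection of `R` -/
def πR (p : S.RFam) : V := p.1.1

theorem smul_R (γ : G × S.H) (p : S.RFam) :
    (γ • p).1 = (γ.1 • p.1.1, (γ.2 : G) • p.1.2.1, (γ.2 : G) • p.1.2.2.1,
      (γ.1 : G ⧸ S.K) * p.1.2.2.2 * ((γ.2 : G) : G ⧸ S.K)⁻¹) := rfl

/-- the orbit of the vertex `x'` under the stabiliser of `x` in `K` -/
def kOrb (x x' : V) : Set V := {z | ∃ k ∈ S.K, k • x = x ∧ k • x' = z}

theorem kOrb_smul (g : G) (x x' : V) :
    (fun z => g • z) '' S.kOrb x x' = S.kOrb (g • x) (g • x') := by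
  ext z
  constructor
  · rintro ⟨_, ⟨k, hk, h1, rfl⟩, rfl⟩
    refine ⟨g * k * g⁻¹, S.K_normal.conj_mem _ hk g, ?_, ?_⟩
    · simp [mul_smul, h1]
    · simp [mul_smul]
  · rintro ⟨k, hk, h1, rfl⟩
    refine ⟨g⁻¹ • k • g • x', ⟨g⁻¹ * k * g, ?_, ?_, ?_⟩, ?_⟩
    · have := S.K_normal.conj_mem _ hk g⁻¹
      simpa using this
    · rw [mul_smul, mul_smul, h1]
      simp
    · simp [mul_smul]
    · simp

/-- the family `E`: the points over `x` are the orbits under the stabiliser of `x` in `K` of the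
vertices adjacent to `x`; `(γ, h)` acts as `γ` -/
def EFam : Type u := {p : V × Set V // ∃ x', S.T.Adj p.1 x' ∧ p.2 = S.kOrb p.1 x'}

instance : MulAction (G × S.H) S.EFam where
  smul γ p := ⟨(γ.1 • p.1.1, (fun z => γ.1 • z) '' p.1.2), by
    obtain ⟨x', h1, h2⟩ := p.2
    refine ⟨γ.1 • x', S.adj _ _ _ h1, ?_⟩
    rw [h2]
    exact S.kOrb_smul _ _ _⟩
  one_smul p := by
    apply Subtype.ext
    change ((1 : G × S.H).1 • p.1.1, (fun z => (1 : G × S.H).1 • z) '' p.1.2) = p.1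
    simp
  mul_smul γ γ' p := by
    apply Subtype.ext
    change ((γ * γ').1 • p.1.1, (fun z => (γ * γ').1 • z) '' p.1.2) =
      (γ.1 • γ'.1 • p.1.1, (fun z => γ.1 • z) '' ((fun z => γ'.1 • z) '' p.1.2))
    rw [Set.image_image]
    simp [mul_smul]

/-- the projection of `E` -/
def πE (p : S.EFam) : V := p.1.1

theorem smul_E (γ : G × S.H) (p : S.EFam) :
    (γ • p).1 = (γ.1 • p.1.1, (fun z => γ.1 • z) '' p.1.2) := rfl

/-- the relation of Step 2: `(x, g) ~ (x', g)` -/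
def rC (p p' : S.CFam) : Prop := S.T.Adj p.1.1 p'.1.1 ∧ p.1.2 = p'.1.2

end Data

end Pool.Agent.LR
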