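import Pool.Agent.Lib.MP_836f52_al_LR.FamDefs

set_option autoImplicit false

/-!
Row F3: the family `E`.

* `H'_E`: clear.
* `trivial_E`: if `k ∈ K` fixes `x` then it maps the orbit `kOrb x x'` to itself.
* `exists_bound_E`: the number of points over `x` is the number of orbits of `K ⊓ stabilizer G x` on the
  neighbours of `x`.  The neighbours form finitely many orbits under `stabilizer G x` (from `coc.edge`: if
  `g • b.1 = x = g' • b.1` for the same `b` then `g' g⁻¹ ∈ stabilizer G x` maps `g • b.2` to `g' • b.2`),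
  hence under its subgroup of finite index `K ⊓ stabilizer G x`.  The number depends only on the
  `G`-orbit of `x` (the action of `G × 1` maps the fibre over `x` bijectively to the fibre over
  `g • x`), and there are finitely many orbits of vertices.
-/

namespace Pool.Agent.LR

open Pool.Agent.Lib.MP_836f52_al_H7

universe u

namespace Data

variable {G V : Type u} [Group G] [MulAction G V] (S : Data G V)

private theorem f3_kOrb (k : G) (hk : k ∈ S.K) (x y : V) (hx : k • x = x) :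
    S.kOrb x (k • y) = S.kOrb x y := by
  ext z
  constructor
  · rintro ⟨k', hk', h1, rfl⟩
    exact ⟨k' * k, S.K.mul_mem hk' hk, by rw [mul_smul, hx, h1], by rw [mul_smul]⟩
  · rintro ⟨k', hk', h1, rfl⟩
    refine ⟨k' * k⁻¹, S.K.mul_mem hk' (S.K.inv_mem hk), ?_, ?_⟩
    · rw [mul_smul, inv_smul_eq_iff.2 hx.symm, h1]
    · rw [mul_smul, inv_smul_smul]

theorem H'_E (h : G × S.H) (hh : h ∈ S.H') (e : S.EFam) : h • e = e := by
  rw [mem_H'] at hh
  apply Subtype.ext
  rw [smul_E, hh]
  simp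

theorem trivial_E (k : G × S.H) (hk : k ∈ S.K') (e : S.EFam) (h : k.1 • S.πE e = S.πE e) :
    k • e = e := by
  rw [mem_K'] at hk
  apply Subtype.ext
  rw [smul_E]
  obtain ⟨x', h1, h2⟩ := e.2
  have h3 : k.1 • e.1.1 = e.1.1 := h
  apply Prod.ext
  · exact h3
  · show (fun z => k.1 • z) '' e.1.2 = e.1.2
    rw [h2, S.kOrb_smul, h3, f3_kOrb S k.1 hk.1 _ _ h3]

theorem exists_bound_E (hS : S.Ok) :
    ∃ N : ℕ, ∀ x, {e | S.πE e = x}.Finite ∧ {e | S.πE e = x}.ncard ≤ N := by
  classical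
  obtain ⟨B, hB, hBe⟩ := hS.coc.edge
  have hKf := hS.K_fi
  have hfin : Finite (G ⧸ S.K) := Subgroup.finite_quotient_of_finiteIndex
  set P : Set (V × V) := Set.image2 (fun (f : G ⧸ S.K) (b : V × V) => (f.out • b.1, f.out • b.2))
    Set.univ B with hP
  have hPf : P.Finite := Set.finite_univ.image2 _ hB
  have hedge : ∀ x y, S.T.Adj x y → ∃ p ∈ P, ∃ k ∈ S.K, k • p.1 = x ∧ k • p.2 = y := by
    intro x y hxy
    obtain ⟨g, b, hb, h1, h2⟩ := hBe x y hxy
    set f : G ⧸ S.K := (g : G ⧸ S.K) with hf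
    have h3 : f.out⁻¹ * g ∈ S.K := by
      rw [← QuotientGroup.eq, QuotientGroup.out_eq']
    have h4 : g * f.out⁻¹ ∈ S.K := by
      have := S.K_normal.conj_mem _ h3 f.out
      simpa [mul_assoc] using this
    refine ⟨(f.out • b.1, f.out • b.2), ⟨f, Set.mem_univ _, b, hb, rfl⟩, g * f.out⁻¹, h4, ?_, ?_⟩
    · show (g * f.out⁻¹) • f.out • b.1 = x
      rw [mul_smul, inv_smul_smul, h1]
    · show (g * f.out⁻¹) • f.out • b.2 = y
      rw [mul_smul, inv_smul_smul, h2]
  have hex : ∀ e : S.EFam, ∃ p ∈ P, ∃ k ∈ S.K, k • p.1 = S.πE e ∧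
      e.1.2 = S.kOrb (S.πE e) (k • p.2) := by
    intro e
    obtain ⟨x', h1, h2⟩ := e.2
    obtain ⟨p, hp, k, hk, h3, h4⟩ := hedge _ _ h1
    exact ⟨p, hp, k, hk, h3, by rw [h4]; exact h2⟩
  choose F hF k hk hk1 hk2 using hex
  refine ⟨P.ncard, fun x => ?_⟩
  have hinj : Set.InjOn F {e | S.πE e = x} := by
    intro e he e' he' hee
    have he1 : S.πE e = x := he
    have he2 : S.πE e' = x := he'
    apply Subtype.ext
    apply Prod.ext
    · exact he1.trans he2.symm
    · rw [hk2 e, hk2 e', he1, he2, ← hee]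
      have h1 : k e • (F e).1 = x := (hk1 e).trans he1
      have h2 : k e' • (F e).1 = x := by
        rw [hee]
        exact (hk1 e').trans he2
      have h3 : (k e' * (k e)⁻¹) • x = x := by
        rw [mul_smul, inv_smul_eq_iff.2 h1.symm, h2]
      have h4 : k e' • (F e).2 = (k e' * (k e)⁻¹) • (k e • (F e).2) := by
        rw [mul_smul, inv_smul_smul]
      rw [h4, f3_kOrb S _ (S.K.mul_mem (hk e') (S.K.inv_mem (hk e))) _ _ h3]
  exact ⟨Set.Finite.of_injOn (fun e _ => hF e) hinj hPf,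
    Set.ncard_le_ncard_of_injOn F (fun e _ => hF e) hinj hPf⟩

end Data

end Pool.Agent.LR
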