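import Pool.Agent.Lib.MP_836f52_al_LR.MarksDefs

set_option autoImplicit false

/-!
Row M1: elementary properties of marks.

Everything is elementary.  Useful: `orb H y = orb H z ↔ ∃ h ∈ H, h • y = z`, `y ∈ orb H y`.

* `mkset_finite`: if `A` is covered by the orbits of the finite set `B` then
  `mkset H A Δ ⊆ orb H '' B`.
* `FinMod.mono`, `FinMod.union`, `FinMod.image` (a map commuting with `H` on all of `Y`).
* `orbits_finite`: converse of the covering property: the set of orbits of points of `A` is finite.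
* `marks_union`: `A` is `H`-invariant and disjoint from `A'`, so no orbit meets both; `ncard` of a
  disjoint union of finite sets.
* `marks_image`: the map `O ↦ φ '' O` (on the orbits of points of `A`) is a bijection from
  `mkset H A Δ` to `mkset H (φ '' A) Δ`; a point `φ y` (`y ∈ A`) is fixed by `Δ` iff `y` is, by
  injectivity of `φ` on the `Λ`-invariant set `A`.  (`Set.ncard_congr` or `Set.BijOn.ncard_eq` ...)
* `marks_bijOn`: the case `φ '' A = A'`.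
* `marks_pos`.
* `marks_free_zero`: an element of `Δ ⊓ H` different from `1` fixes no point of `A`.
* `marks_bot`: `orb ⊥ y = {y}`.
-/

namespace Pool.Agent.LR

universe u v w

variable {Γ : Type u} [Group Γ] {Y : Type v} [MulAction Γ Y]

private theorem m1_mem (H : Subgroup Γ) (y : Y) : y ∈ orb H y := ⟨1, H.one_mem, one_smul _ _⟩

private theorem m1_eq {H : Subgroup Γ} {y z : Y} (h : z ∈ orb H y) : orb H z = orb H y := by
  obtain ⟨g, hg, rfl⟩ := h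
  ext x
  constructor
  · rintro ⟨k, hk, rfl⟩
    exact ⟨k * g, H.mul_mem hk hg, mul_smul _ _ _⟩
  · rintro ⟨k, hk, rfl⟩
    exact ⟨k * g⁻¹, H.mul_mem hk (H.inv_mem hg), by rw [mul_smul, inv_smul_smul]⟩

theorem mkset_finite {H : Subgroup Γ} {A : Set Y} (hA : FinMod H A) (Δ : Subgroup Γ) :
    (mkset H A Δ).Finite := by
  obtain ⟨B, hB, h⟩ := hA
  refine (hB.image (orb H)).subset ?_
  rintro O ⟨y, hy, -, rfl⟩
  obtain ⟨g, hg, b, hb, rfl⟩ := h y hy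
  exact ⟨b, hb, (m1_eq ⟨g, hg, rfl⟩).symm⟩

theorem FinMod.mono {H : Subgroup Γ} {A A' : Set Y} (hA : FinMod H A) (h : A' ⊆ A) :
    FinMod H A' := by
  obtain ⟨B, hB, hc⟩ := hA
  exact ⟨B, hB, fun y hy => hc y (h hy)⟩

theorem FinMod.union {H : Subgroup Γ} {A A' : Set Y} (hA : FinMod H A) (hA' : FinMod H A') :
    FinMod H (A ∪ A') := by
  obtain ⟨B, hB, hc⟩ := hA
  obtain ⟨B', hB', hc'⟩ := hA'
  refine ⟨B ∪ B', hB.union hB', ?_⟩
  rintro y (hy | hy)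
  · obtain ⟨h, hh, b, hb, e⟩ := hc y hy
    exact ⟨h, hh, b, Or.inl hb, e⟩
  · obtain ⟨h, hh, b, hb, e⟩ := hc' y hy
    exact ⟨h, hh, b, Or.inr hb, e⟩

theorem FinMod.image {H : Subgroup Γ} {A : Set Y} {Y' : Type w} [MulAction Γ Y'] (φ : Y → Y')
    (hφ : ∀ h ∈ H, ∀ y : Y, φ (h • y) = h • φ y) (hA : FinMod H A) : FinMod H (φ '' A) := by
  obtain ⟨B, hB, hc⟩ := hA
  refine ⟨φ '' B, hB.image φ, ?_⟩
  rintro _ ⟨y, hy, rfl⟩
  obtain ⟨h, hh, b, hb, rfl⟩ := hc y hy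
  exact ⟨h, hh, φ b, ⟨b, hb, rfl⟩, (hφ h hh b).symm⟩

/-- a covering by finitely many orbits of points of `A` itself -/
theorem FinMod.exists_mem {H : Subgroup Γ} {A : Set Y} (hA : FinMod H A) :
    ∃ B : Set Y, B.Finite ∧ B ⊆ A ∧ ∀ y ∈ A, ∃ h ∈ H, ∃ b ∈ B, h • b = y := by
  classical
  obtain ⟨B, hB, hc⟩ := hA
  let P : Y → Prop := fun b => ∃ h ∈ H, h • b ∈ A
  let f : Y → Y := fun b => if hb : P b then hb.choose • b else b
  refine ⟨f '' {b | b ∈ B ∧ P b}, (hB.subset fun b hb => hb.1).image f, ?_, ?_⟩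
  · rintro _ ⟨b, ⟨-, hb⟩, rfl⟩
    simp only [f, dif_pos hb]
    exact hb.choose_spec.2
  · intro y hy
    obtain ⟨h, hh, b, hb, rfl⟩ := hc y hy
    have hP : P b := ⟨h, hh, hy⟩
    refine ⟨h * hP.choose⁻¹, H.mul_mem hh (H.inv_mem hP.choose_spec.1), f b, ⟨b, ⟨hb, hP⟩, rfl⟩, ?_⟩
    simp only [f, dif_pos hP]
    rw [mul_smul, inv_smul_smul]

theorem marks_union {H : Subgroup Γ} {A A' : Set Y} (hA : FinMod H A) (hA' : FinMod H A')
    (hinv : ∀ h ∈ H, ∀ y ∈ A, h • y ∈ A) (hdisj : Disjoint A A') (Δ : Subgroup Γ) :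
    marks H (A ∪ A') Δ = marks H A Δ + marks H A' Δ := by
  have h1 : mkset H (A ∪ A') Δ = mkset H A Δ ∪ mkset H A' Δ := by
    ext O
    constructor
    · rintro ⟨y, hy | hy, h, rfl⟩
      · exact Or.inl ⟨y, hy, h, rfl⟩
      · exact Or.inr ⟨y, hy, h, rfl⟩
    · rintro (⟨y, hy, h, rfl⟩ | ⟨y, hy, h, rfl⟩)
      · exact ⟨y, Or.inl hy, h, rfl⟩
      · exact ⟨y, Or.inr hy, h, rfl⟩
  have h2 : Disjoint (mkset H A Δ) (mkset H A' Δ) := by
    rw [Set.disjoint_left]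
    rintro O ⟨y, hy, -, rfl⟩ ⟨y', hy', -, he⟩
    have h3 : y' ∈ orb H y := by rw [he]; exact m1_mem H y'
    obtain ⟨g, hg, rfl⟩ := h3
    exact Set.disjoint_left.1 hdisj (hinv g hg y hy) hy'
  unfold marks
  rw [h1, Set.ncard_union_eq h2 (mkset_finite hA Δ) (mkset_finite hA' Δ)]

theorem marks_bijOn {H Λ Δ : Subgroup Γ} (hH : H ≤ Λ) (hΔ : Δ ≤ Λ) {A : Set Y} {Y' : Type w}
    [MulAction Γ Y'] {A' : Set Y'} (hA : ∀ g ∈ Λ, ∀ y ∈ A, g • y ∈ A) (φ : Y → Y')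
    (hφ : Set.BijOn φ A A') (hφΛ : ∀ g ∈ Λ, ∀ y ∈ A, φ (g • y) = g • φ y) :
    marks H A' Δ = marks H A Δ := by
  have himg : ∀ y ∈ A, φ '' orb H y = orb H (φ y) := by
    intro y hy
    ext x
    constructor
    · rintro ⟨_, ⟨h, hh, rfl⟩, rfl⟩
      exact ⟨h, hh, (hφΛ h (hH hh) y hy).symm⟩
    · rintro ⟨h, hh, rfl⟩
      exact ⟨h • y, ⟨h, hh, rfl⟩, hφΛ h (hH hh) y hy⟩
  have hsub : ∀ y ∈ A, orb H y ⊆ A := by
    rintro y hy _ ⟨h, hh, rfl⟩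
    exact hA h (hH hh) y hy
  unfold marks
  symm
  refine Set.ncard_congr (fun O _ => φ '' O) ?_ ?_ ?_
  · rintro _ ⟨y, hy, h, rfl⟩
    refine ⟨φ y, hφ.mapsTo hy, fun d hd => ?_, himg y hy⟩
    rw [← hφΛ d (hΔ hd) y hy, h d hd]
  · rintro _ _ ⟨y, hy, h, rfl⟩ ⟨y', hy', h', rfl⟩ he
    have h1 : φ y ∈ φ '' orb H y' := by
      rw [← he]
      exact ⟨y, m1_mem H y, rfl⟩
    obtain ⟨z, hz, hzy⟩ := h1
    have h2 : z = y := hφ.injOn (hsub y' hy' hz) hy hzy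
    rw [h2] at hz
    exact m1_eq hz
  · rintro _ ⟨y', hy', h, rfl⟩
    obtain ⟨y, hy, rfl⟩ := hφ.surjOn hy'
    refine ⟨orb H y, ⟨y, hy, fun d hd => ?_, rfl⟩, himg y hy⟩
    refine hφ.injOn (hA d (hΔ hd) y hy) hy ?_
    rw [hφΛ d (hΔ hd) y hy, h d hd]

theorem marks_pos {H : Subgroup Γ} {A : Set Y} (hA : FinMod H A) (Δ : Subgroup Γ) :
    0 < marks H A Δ ↔ ∃ y ∈ A, ∀ d ∈ Δ, d • y = y := by
  unfold marks
  rw [Set.ncard_pos (mkset_finite hA Δ)]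
  constructor
  · rintro ⟨O, y, hy, h, -⟩
    exact ⟨y, hy, h⟩
  · rintro ⟨y, hy, h⟩
    exact ⟨_, y, hy, h, rfl⟩

theorem marks_free_zero {H : Subgroup Γ} {A : Set Y} (hA : FreeOn H A) {Δ : Subgroup Γ}
    (h : Δ ⊓ H ≠ ⊥) : marks H A Δ = 0 := by
  obtain ⟨g, hg, hg1⟩ : ∃ g ∈ Δ ⊓ H, g ≠ 1 := by
    obtain ⟨a, ha⟩ := Subgroup.ne_bot_iff_exists_ne_one.1 h
    exact ⟨a.1, a.2, fun e => ha (Subtype.ext e)⟩
  have h1 : mkset H A Δ = ∅ := by
    rw [Set.eq_empty_iff_forall_notMem]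
    rintro O ⟨y, hy, hfix, -⟩
    exact hg1 (hA g (Subgroup.mem_inf.1 hg).2 y hy (hfix g (Subgroup.mem_inf.1 hg).1))
  unfold marks
  rw [h1, Set.ncard_empty]

theorem marks_bot (A : Set Y) (Δ : Subgroup Γ) :
    marks (⊥ : Subgroup Γ) A Δ = {y | y ∈ A ∧ ∀ d ∈ Δ, d • y = y}.ncard := by
  have h0 : ∀ y : Y, orb (⊥ : Subgroup Γ) y = {y} := by
    intro y
    ext z
    constructor
    · rintro ⟨h, hh, rfl⟩
      rw [Subgroup.mem_bot.1 hh, one_smul]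
      rfl
    · rintro rfl
      exact m1_mem _ _
  have h1 : mkset (⊥ : Subgroup Γ) A Δ =
      (fun y : Y => ({y} : Set Y)) '' {y | y ∈ A ∧ ∀ d ∈ Δ, d • y = y} := by
    ext O
    constructor
    · rintro ⟨y, hy, h, rfl⟩
      exact ⟨y, ⟨hy, h⟩, (h0 y).symm⟩
    · rintro ⟨y, ⟨hy, h⟩, rfl⟩
      exact ⟨y, hy, h, (h0 y).symm⟩
  unfold marks
  rw [h1, Set.ncard_image_of_injective _ Set.singleton_injective]

end Pool.Agent.LR
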