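import Pool.Agent.Lib.MP_836f52_al_LR.SepGen
import Pool.Agent.Lib.MP_836f52_al_LR.Marks

set_option autoImplicit false

/-!
Row F5: the marks of the family `R` (the key computation).

`x`, `x'` are adjacent, `Δ ≤ G × H` fixes both (through the first component) and meets `H' = 1 × H`
trivially.  Write the elements of `Δ` as `d = (d₁, d₂)`, `d₁` fixes `x` and `x'`.

`E_x^Δ` is not empty: `kOrb x x'` is fixed by `Δ`.  Let `K_x = {k ∈ K | k • x = x}`.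

Let `ε = (x, O) ∈ E_x^Δ` and choose `x'' ∈ O`, so `x''` is adjacent to `x` and `O = kOrb x x''`.  For
`d ∈ Δ` the vertex `d₁ • x''` is in `O`, so there is a unique (`K_edge`) `k ∈ K_x` with
`k d₁ • x'' = x''`; let `σ d = k d₁`.  `σ : Δ →* G` is a homomorphism (by uniqueness, `K` is normal):
`σ d` fixes `x` and `x''` and `σ d * d₁⁻¹ ∈ K`, and it is the only such element.

(A) Points of `R` over `x`: for every `g` with `g⁻¹ • x ∈ W` let `p g = (x, g⁻¹ • x, g⁻¹ • x'', [g])`.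
Every point `(x, y, y', q)` whose edge class `kOrb x (g • y')` (`q = [g]`, `g • y = x`; it does not
depend on `g`) is `O` is `p g` for a unique `g` (first choose `g` with `[g] = q`, `g • y = x`, then
correct it by an element of `K_x`).  `p g` is fixed by `Δ` iff `g d₂ g⁻¹ = σ d` for all `d ∈ Δ`: both
sides fix `x` and `x''` and are congruent to `d₁` modulo `K`.  `(1, h) • p g = p (g h⁻¹)`.
The edge class of a point fixed by `Δ` is fixed by `Δ`.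

(B) `(x, g) ∈ C` is fixed by `Δ` iff `g d₂ g⁻¹ = d₁` for all `d ∈ Δ`.  `(1, h) • (x, g) = (x, g h⁻¹)`.

(C) For a coset `g H` the following are equivalent: it contains `g` with `g⁻¹ • x ∈ W` and
`g d₂ g⁻¹ = σ d` for all `d`; it contains `g` with `g⁻¹ • x ∈ W` and `g d₂ g⁻¹ = d₁` for all `d`.
Let `g` be as in the first condition, `y = g⁻¹ • x`.  Apply `Ok.sep'` with `D = Δ`,
`z₁ = g⁻¹ • x''`, `z₂ = g⁻¹ • x'`, `α d = d₂`, `β d = g⁻¹ d₁ g`:
`β d (α d)⁻¹ = g⁻¹ (d₁ (σ d)⁻¹) g ∈ K`.  It gives `h ∈ H` with `h • y = y` and `g⁻¹ d₁ g = h d₂ h⁻¹`, and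
`g h` satisfies the second condition.  Conversely let `g` be as in the second condition; apply
`Ok.sep'` with `z₁ = g⁻¹ • x'`, `z₂ = g⁻¹ • x''`, `α d = d₂`, `β d = g⁻¹ (σ d) g`.

So the elements of `mkset H' R_x Δ` with edge class `O` correspond to the elements of
`mkset H' C_x Δ` (both to the cosets `g H` in (C)), and `mkset H' R_x Δ` is in bijection with
`E_x^Δ × mkset H' C_x Δ`.
-/

namespace Pool.Agent.LR

open Pool.Agent.Lib.MP_836f52_al_H7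

universe u

namespace Data

variable {G V : Type u} [Group G] [MulAction G V] (S : Data G V)

private theorem self_mem_kOrb (x x' : V) : x' ∈ S.kOrb x x' :=
  ⟨1, S.K.one_mem, by simp, by simp⟩

private theorem kOrb_eq_of_mem {x x' z : V} (h : z ∈ S.kOrb x x') : S.kOrb x z = S.kOrb x x' := by
  obtain ⟨k, hk, hkx, rfl⟩ := h
  ext w
  constructor
  · rintro ⟨l, hl, hlx, rfl⟩
    exact ⟨l * k, S.K.mul_mem hl hk, by rw [mul_smul, hkx, hlx], by rw [mul_smul]⟩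
  · rintro ⟨l, hl, hlx, rfl⟩
    refine ⟨l * k⁻¹, S.K.mul_mem hl (S.K.inv_mem hk), ?_, ?_⟩
    · have : k⁻¹ • x = x := by
        rw [inv_smul_eq_iff]
        exact hkx.symm
      rw [mul_smul, this, hlx]
    · rw [mul_smul, inv_smul_smul]

private theorem sec_unique (hS : S.Ok) {x x'' : V} (hx : S.T.Adj x x'') {a b c : G}
    (ha1 : a • x = x) (ha2 : a • x'' = x'') (ha3 : a * c⁻¹ ∈ S.K)
    (hb1 : b • x = x) (hb2 : b • x'' = x'') (hb3 : b * c⁻¹ ∈ S.K) : a = b := by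
  have h1 : a * b⁻¹ ∈ S.K := by
    have := S.K.mul_mem ha3 (S.K.inv_mem hb3)
    simpa [mul_assoc] using this
  have h2 : b⁻¹ • x = x := by
    rw [inv_smul_eq_iff]
    exact hb1.symm
  have h3 : b⁻¹ • x'' = x'' := by
    rw [inv_smul_eq_iff]
    exact hb2.symm
  have h4 := hS.K_edge x x'' hx (a * b⁻¹) h1 (by rw [mul_smul, h2, ha1]) (by rw [mul_smul, h3, ha2])
  exact mul_inv_eq_one.1 h4

/-- the sections over an edge -/
private def Sec (x x'' : V) (Δ : Subgroup (G × S.H)) (σ : Δ →* G) : Prop :=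
  ∀ d : Δ, σ d • x = x ∧ σ d • x'' = x'' ∧ σ d * (d : G × S.H).1⁻¹ ∈ S.K

private theorem exists_sec (hS : S.Ok) {x x'' : V} (hx : S.T.Adj x x'') (Δ : Subgroup (G × S.H))
    (h1 : ∀ d ∈ Δ, d.1 • x = x) (h2 : ∀ d ∈ Δ, d.1 • x'' ∈ S.kOrb x x'') :
    ∃ σ : Δ →* G, S.Sec x x'' Δ σ := by
  have h3 : ∀ d : Δ, ∃ a : G, a • x = x ∧ a • x'' = x'' ∧ a * (d : G × S.H).1⁻¹ ∈ S.K := by
    intro d
    obtain ⟨k, hk, hkx, hk2⟩ := h2 d d.2
    refine ⟨k⁻¹ * (d : G × S.H).1, ?_, ?_, ?_⟩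
    · rw [mul_smul, h1 d d.2, inv_smul_eq_iff]
      exact hkx.symm
    · rw [mul_smul, inv_smul_eq_iff]
      exact hk2.symm
    · simpa using hk
  choose a ha1 ha2 ha3 using h3
  refine ⟨⟨⟨a, ?_⟩, ?_⟩, fun d => ⟨ha1 d, ha2 d, ha3 d⟩⟩
  · exact S.sec_unique hS hx (ha1 1) (ha2 1) (ha3 1) (one_smul _ _) (one_smul _ _)
      (by simp [S.K.one_mem])
  · intro d e
    refine S.sec_unique hS hx (ha1 (d * e)) (ha2 (d * e)) (ha3 (d * e)) ?_ ?_ ?_
    · rw [mul_smul, ha1 e, ha1 d]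
    · rw [mul_smul, ha2 e, ha2 d]
    · have h4 := S.K_normal.conj_mem _ (ha3 e) (d : G × S.H).1
      have h5 := S.K.mul_mem (ha3 d) h4
      have h6 : a d * a e * (((d * e : Δ) : G × S.H).1)⁻¹ =
          a d * ((d : G × S.H).1)⁻¹ * ((d : G × S.H).1 * (a e * ((e : G × S.H).1)⁻¹) *
            ((d : G × S.H).1)⁻¹) := by
        simp [mul_assoc]
      rw [h6]
      exact h5

private def Qs (x : V) (Δ : Subgroup (G × S.H)) (σ : Δ →* G) : Set G :=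
  {g | g⁻¹ • x ∈ S.W ∧ ∀ d : Δ, g * ((d : G × S.H).2 : G) * g⁻¹ = σ d}

private def Cos (x : V) (Δ : Subgroup (G × S.H)) (σ : Δ →* G) : Set (G ⧸ S.H) :=
  (fun g : G => (g : G ⧸ S.H)) '' S.Qs x Δ σ

private theorem cos_subset (hS : S.Ok) {x z z' : V} (hz : S.T.Adj x z) (hz' : S.T.Adj x z')
    (Δ : Subgroup (G × S.H)) {σ τ : Δ →* G} (hσ : S.Sec x z Δ σ) (hτ : S.Sec x z' Δ τ) :
    S.Cos x Δ σ ⊆ S.Cos x Δ τ := by
  rintro _ ⟨g, ⟨hg1, hg2⟩, rfl⟩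
  have e1 : ∀ d : Δ, ((d : G × S.H).2 : G) = g⁻¹ * σ d * g := by
    intro d
    rw [← hg2 d]
    group
  obtain ⟨h, hh, hy, hh2⟩ := hS.sep' (y := g⁻¹ • x) (z₁ := g⁻¹ • z) (z₂ := g⁻¹ • z') hg1
    (S.adj _ _ _ hz) (S.adj _ _ _ hz') (D := Δ)
    (S.H.subtype.comp ((MonoidHom.snd G S.H).comp Δ.subtype))
    ((MulAut.conj g⁻¹).toMonoidHom.comp τ)
    (by
      intro d
      change ((d : G × S.H).2 : G) ∈ S.H ∧ ((d : G × S.H).2 : G) • g⁻¹ • x = g⁻¹ • x ∧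
        ((d : G × S.H).2 : G) • g⁻¹ • z = g⁻¹ • z
      refine ⟨(d : G × S.H).2.2, ?_, ?_⟩
      · rw [e1 d, mul_smul, mul_smul, smul_inv_smul, (hσ d).1]
      · rw [e1 d, mul_smul, mul_smul, smul_inv_smul, (hσ d).2.1])
    (by
      intro d
      change (g⁻¹ * τ d * g⁻¹⁻¹) • g⁻¹ • x = g⁻¹ • x ∧ (g⁻¹ * τ d * g⁻¹⁻¹) • g⁻¹ • z' = g⁻¹ • z' ∧
        (g⁻¹ * τ d * g⁻¹⁻¹) * ((d : G × S.H).2 : G)⁻¹ ∈ S.K
      refine ⟨?_, ?_, ?_⟩
      · rw [inv_inv, mul_smul, mul_smul, smul_inv_smul, (hτ d).1]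
      · rw [inv_inv, mul_smul, mul_smul, smul_inv_smul, (hτ d).2.1]
      · have h4 := S.K.mul_mem (hτ d).2.2 (S.K.inv_mem (hσ d).2.2)
        have h5 := S.K_normal.conj_mem _ h4 g⁻¹
        rw [e1 d]
        have h6 : g⁻¹ * τ d * g⁻¹⁻¹ * (g⁻¹ * σ d * g)⁻¹ = g⁻¹ * (τ d * ((d : G × S.H).1)⁻¹ *
            (σ d * ((d : G × S.H).1)⁻¹)⁻¹) * g⁻¹⁻¹ := by
          group
        rw [h6]
        exact h5)
  refine ⟨g * h, ⟨?_, ?_⟩, ?_⟩
  · have : h⁻¹ • g⁻¹ • x = g⁻¹ • x := by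
      rw [inv_smul_eq_iff]
      exact hy.symm
    rw [mul_inv_rev, mul_smul, this]
    exact hg1
  · intro d
    have h7 : g⁻¹ * τ d * g⁻¹⁻¹ = h * ((d : G × S.H).2 : G) * h⁻¹ := hh2 d
    have h8 : τ d = g * (g⁻¹ * τ d * g⁻¹⁻¹) * g⁻¹ := by group
    rw [h8, h7]
    group
  · change ((g * h : G) : G ⧸ S.H) = (g : G ⧸ S.H)
    rw [QuotientGroup.eq]
    simpa using S.H.inv_mem hh

private theorem cos_eq (hS : S.Ok) {x z z' : V} (hz : S.T.Adj x z) (hz' : S.T.Adj x z')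
    (Δ : Subgroup (G × S.H)) {σ τ : Δ →* G} (hσ : S.Sec x z Δ σ) (hτ : S.Sec x z' Δ τ) :
    S.Cos x Δ σ = S.Cos x Δ τ :=
  Set.Subset.antisymm (S.cos_subset hS hz hz' Δ hσ hτ) (S.cos_subset hS hz' hz Δ hτ hσ)

/-- the first projection -/
private def rho (Δ : Subgroup (G × S.H)) : Δ →* G := (MonoidHom.fst G S.H).comp Δ.subtype

private theorem rho_sec {x x' : V} (Δ : Subgroup (G × S.H))
    (hΔ : ∀ d ∈ Δ, d.1 • x = x ∧ d.1 • x' = x') : S.Sec x x' Δ (S.rho Δ) := by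
  intro d
  refine ⟨(hΔ d d.2).1, (hΔ d d.2).2, ?_⟩
  change (d : G × S.H).1 * (d : G × S.H).1⁻¹ ∈ S.K
  simp [S.K.one_mem]

/-- the orbits in `C` -/
private def OC (x : V) (c : G ⧸ S.H) : Set S.CFam := {p | p.1.1 = x ∧ (p.1.2 : G ⧸ S.H) = c}

private theorem orb_C (p : S.CFam) : orb S.H' p = S.OC p.1.1 (p.1.2 : G ⧸ S.H) := by
  ext q
  constructor
  · rintro ⟨γ, hγ, rfl⟩
    rw [mem_H'] at hγ
    refine ⟨?_, ?_⟩
    · rw [smul_C, hγ]
      simp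
    · rw [smul_C, hγ]
      change ((1 * p.1.2 * (γ.2 : G)⁻¹ : G) : G ⧸ S.H) = (p.1.2 : G ⧸ S.H)
      rw [QuotientGroup.eq]
      simp
  · rintro ⟨h1, h2⟩
    rw [QuotientGroup.eq] at h2
    refine ⟨(1, ⟨_, h2⟩), by rw [mem_H'], ?_⟩
    apply Subtype.ext
    rw [smul_C]
    apply Prod.ext
    · simp [h1]
    · simp

private theorem mkset_C {x x' : V} (Δ : Subgroup (G × S.H))
    (hΔ : ∀ d ∈ Δ, d.1 • x = x ∧ d.1 • x' = x') :
    mkset S.H' {c | S.πC c = x} Δ = S.OC x '' S.Cos x Δ (S.rho Δ) := by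
  ext O
  constructor
  · rintro ⟨p, hp, hfix, rfl⟩
    change p.1.1 = x at hp
    refine ⟨(p.1.2 : G ⧸ S.H), ⟨p.1.2, ⟨?_, ?_⟩, rfl⟩, ?_⟩
    · rw [← hp]
      exact p.2
    · intro d
      have h1 := congrArg (fun q : S.CFam => q.1.2) (hfix d d.2)
      simp only [smul_C] at h1
      change p.1.2 * ((d : G × S.H).2 : G) * (p.1.2)⁻¹ = (d : G × S.H).1
      have h2 : (d : G × S.H).1 * p.1.2 = p.1.2 * ((d : G × S.H).2 : G) := by
        rw [← mul_inv_eq_iff_eq_mul]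
        exact h1
      rw [← h2]
      group
    · rw [orb_C, hp]
  · rintro ⟨_, ⟨g, ⟨hg1, hg2⟩, rfl⟩, rfl⟩
    let p0 : S.CFam := ⟨(x, g), hg1⟩
    refine ⟨p0, rfl, ?_, ?_⟩
    · intro d hd
      have h1 : g * (d.2 : G) * g⁻¹ = d.1 := hg2 ⟨d, hd⟩
      apply Subtype.ext
      rw [smul_C]
      apply Prod.ext
      · exact (hΔ d hd).1
      · change d.1 * g * (d.2 : G)⁻¹ = g
        rw [← h1]
        group
    · exact (S.orb_C p0).symm

private theorem marks_C {x x' : V} (Δ : Subgroup (G × S.H))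
    (hΔ : ∀ d ∈ Δ, d.1 • x = x ∧ d.1 • x' = x') :
    marks S.H' {c | S.πC c = x} Δ = (S.Cos x Δ (S.rho Δ)).ncard := by
  rw [marks, S.mkset_C Δ hΔ]
  apply Set.InjOn.ncard_image
  rintro _ ⟨g, ⟨hg1, hg2⟩, rfl⟩ c' hc' h
  have h1 : (⟨(x, g), hg1⟩ : S.CFam) ∈ S.OC x (g : G ⧸ S.H) := ⟨rfl, rfl⟩
  have h2 : S.OC x (g : G ⧸ S.H) = S.OC x c' := h
  rw [h2] at h1
  exact h1.2

/-- the points of `R` over `x` with edge class the class of `x''` -/
private def pt {x x'' : V} (hx : S.T.Adj x x'') (g : G) (hg : g⁻¹ • x ∈ S.W) : S.RFam :=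
  ⟨(x, g⁻¹ • x, g⁻¹ • x'', (g : G ⧸ S.K)), hg, S.adj _ _ _ hx, g, rfl, smul_inv_smul _ _⟩

/-- the orbits in `R` -/
private def OR (x x'' : V) (c : G ⧸ S.H) : Set S.RFam :=
  {p | ∃ g : G, (g : G ⧸ S.H) = c ∧ p.1 = (x, g⁻¹ • x, g⁻¹ • x'', (g : G ⧸ S.K))}

private theorem orb_R {x x'' : V} (hx : S.T.Adj x x'') (g : G) (hg : g⁻¹ • x ∈ S.W) :
    orb S.H' (S.pt hx g hg) = S.OR x x'' (g : G ⧸ S.H) := by
  ext q
  constructor
  · rintro ⟨γ, hγ, rfl⟩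
    rw [mem_H'] at hγ
    refine ⟨g * (γ.2 : G)⁻¹, ?_, ?_⟩
    · rw [QuotientGroup.eq]
      simp
    · rw [smul_R, hγ]
      change ((1 : G) • x, (γ.2 : G) • g⁻¹ • x, (γ.2 : G) • g⁻¹ • x'',
        (((1 : G) * g * (γ.2 : G)⁻¹ : G) : G ⧸ S.K)) = _
      simp [mul_smul]
  · rintro ⟨g', h1, h2⟩
    have h1' : g'⁻¹ * g ∈ S.H := QuotientGroup.eq.1 h1
    refine ⟨(1, ⟨_, h1'⟩), by rw [mem_H'], ?_⟩
    apply Subtype.ext
    rw [smul_R, h2]
    change ((1 : G) • x, (g'⁻¹ * g) • g⁻¹ • x, (g'⁻¹ * g) • g⁻¹ • x'',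
      (((1 : G) * g * (g'⁻¹ * g)⁻¹ : G) : G ⧸ S.K)) = _
    simp [mul_smul]

private theorem pt_fixed {x x'' : V} (hx : S.T.Adj x x'') (g : G) (hg : g⁻¹ • x ∈ S.W)
    (Δ : Subgroup (G × S.H)) (hΔ : ∀ d ∈ Δ, d.1 • x = x) {σ : Δ →* G} (hσ : S.Sec x x'' Δ σ)
    (h : ∀ d : Δ, g * ((d : G × S.H).2 : G) * g⁻¹ = σ d) :
    ∀ d ∈ Δ, d • S.pt hx g hg = S.pt hx g hg := by
  intro d hd
  have h1 : (d.2 : G) = g⁻¹ * σ ⟨d, hd⟩ * g := by
    rw [← h ⟨d, hd⟩]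
    group
  obtain ⟨s1, s2, s3⟩ := hσ ⟨d, hd⟩
  apply Subtype.ext
  rw [smul_R]
  change (d.1 • x, (d.2 : G) • g⁻¹ • x, (d.2 : G) • g⁻¹ • x'',
    ((d.1 * g * (d.2 : G)⁻¹ : G) : G ⧸ S.K)) = (x, g⁻¹ • x, g⁻¹ • x'', (g : G ⧸ S.K))
  have e2 : (d.2 : G) • g⁻¹ • x = g⁻¹ • x := by
    rw [h1, mul_smul, mul_smul, smul_inv_smul, s1]
  have e3 : (d.2 : G) • g⁻¹ • x'' = g⁻¹ • x'' := by
    rw [h1, mul_smul, mul_smul, smul_inv_smul, s2]
  have e4 : ((d.1 * g * (d.2 : G)⁻¹ : G) : G ⧸ S.K) = (g : G ⧸ S.K) := by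
    rw [QuotientGroup.eq, h1]
    have h5 := S.K_normal.conj_mem _ s3 g⁻¹
    have h6 : (d.1 * g * (g⁻¹ * σ ⟨d, hd⟩ * g)⁻¹)⁻¹ * g =
        g⁻¹ * (σ ⟨d, hd⟩ * ((⟨d, hd⟩ : Δ) : G × S.H).1⁻¹) * g⁻¹⁻¹ := by
      change (d.1 * g * (g⁻¹ * σ ⟨d, hd⟩ * g)⁻¹)⁻¹ * g = g⁻¹ * (σ ⟨d, hd⟩ * d.1⁻¹) * g⁻¹⁻¹
      group
    rw [h6]
    exact h5
  rw [hΔ d hd, e2, e3, e4]

private theorem mem_E_iff (e : S.EFam) (x : V) (Δ : Subgroup (G × S.H)) :
    (S.πE e = x ∧ ∀ d ∈ Δ, d • e = e) ↔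
      (e.1.1 = x ∧ ∀ d ∈ Δ, d.1 • x = x ∧ (fun z => d.1 • z) '' e.1.2 = e.1.2) := by
  constructor
  · rintro ⟨h1, h2⟩
    change e.1.1 = x at h1
    refine ⟨h1, fun d hd => ?_⟩
    have h3 := congrArg Subtype.val (h2 d hd)
    rw [smul_E] at h3
    have h4 := congrArg Prod.fst h3
    have h5 := congrArg Prod.snd h3
    exact ⟨by rw [← h1]; exact h4, h5⟩
  · rintro ⟨h1, h2⟩
    refine ⟨h1, fun d hd => ?_⟩
    apply Subtype.ext
    rw [smul_E]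
    apply Prod.ext
    · change d.1 • e.1.1 = e.1.1
      rw [h1]
      exact (h2 d hd).1
    · exact (h2 d hd).2

theorem marks_R (hS : S.Ok) {x x' : V} (hx : S.T.Adj x x') (Δ : Subgroup (G × S.H))
    (hΔ : ∀ d ∈ Δ, d.1 • x = x ∧ d.1 • x' = x') (hΔH : Δ ⊓ S.H' = ⊥) :
    marks S.H' {p | S.πR p = x} Δ =
      {e | S.πE e = x ∧ ∀ d ∈ Δ, d • e = e}.ncard * marks S.H' {c | S.πC c = x} Δ ∧
    {e | S.πE e = x ∧ ∀ d ∈ Δ, d • e = e}.Nonempty := by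
  classical
  have hΔx : ∀ d ∈ Δ, d.1 • x = x := fun d hd => (hΔ d hd).1
  have hch : ∀ e : S.EFam, ∃ z, S.T.Adj e.1.1 z ∧ e.1.2 = S.kOrb e.1.1 z := fun e => e.2
  choose z hz1 hz2 using hch
  set E : Set S.EFam := {e | S.πE e = x ∧ ∀ d ∈ Δ, d • e = e} with hE
  have hEx : ∀ e ∈ E, e.1.1 = x := fun e he => he.1
  have hEadj : ∀ e ∈ E, S.T.Adj x (z e) := by
    intro e he
    have := hz1 e
    rwa [hEx e he] at this
  have hEset : ∀ e ∈ E, e.1.2 = S.kOrb x (z e) := by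
    intro e he
    have := hz2 e
    rwa [hEx e he] at this
  have hEsec : ∀ e ∈ E, ∃ σ : Δ →* G, S.Sec x (z e) Δ σ := by
    intro e he
    refine S.exists_sec hS (hEadj e he) Δ hΔx ?_
    intro d hd
    have h1 := (((S.mem_E_iff e x Δ).1 he).2 d hd).2
    rw [← hEset e he, ← h1]
    refine ⟨z e, ?_, rfl⟩
    rw [hEset e he]
    exact S.self_mem_kOrb _ _
  have hρ : S.Sec x x' Δ (S.rho Δ) := S.rho_sec Δ hΔ
  refine ⟨?_, ?_⟩
  · rw [S.marks_C Δ hΔ, ← Set.ncard_prod, marks]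
    have hmk : mkset S.H' {p | S.πR p = x} Δ =
        (fun ec : S.EFam × (G ⧸ S.H) => S.OR x (z ec.1) ec.2) '' (E ×ˢ S.Cos x Δ (S.rho Δ)) := by
      ext O
      constructor
      · rintro ⟨p, hp, hfix, rfl⟩
        obtain ⟨⟨a, y, y', q⟩, hyW, hyy', g₀, hg1, hg2⟩ := p
        change a = x at hp
        subst hp
        change y ∈ S.W at hyW
        change S.T.Adj y y' at hyy'
        change (g₀ : G ⧸ S.K) = q at hg1
        change g₀ • y = a at hg2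
        subst hg1
        have hadj : S.T.Adj a (g₀ • y') := by
          rw [← hg2]
          exact S.adj _ _ _ hyy'
        have hfix' : ∀ d ∈ Δ, (d.2 : G) • y = y ∧ (d.2 : G) • y' = y' ∧
            (d.1 * g₀ * (d.2 : G)⁻¹)⁻¹ * g₀ ∈ S.K := by
          intro d hd
          have h1 : (d.1 • a, (d.2 : G) • y, (d.2 : G) • y',
              ((d.1 * g₀ * (d.2 : G)⁻¹ : G) : G ⧸ S.K)) = (a, y, y', (g₀ : G ⧸ S.K)) :=
            congrArg Subtype.val (hfix d hd)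
          have h2 := congrArg (fun t => t.2.1) h1
          have h3 := congrArg (fun t => t.2.2.1) h1
          have h4 := congrArg (fun t => t.2.2.2) h1
          refine ⟨h2, h3, ?_⟩
          have h5 : ((d.1 * g₀ * (d.2 : G)⁻¹ : G) : G ⧸ S.K) = (g₀ : G ⧸ S.K) := h4
          exact QuotientGroup.eq.1 h5
        let e : S.EFam := ⟨(a, S.kOrb a (g₀ • y')), g₀ • y', hadj, rfl⟩
        have he : e ∈ E := by
          rw [hE]
          change S.πE e = a ∧ ∀ d ∈ Δ, d • e = e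
          rw [S.mem_E_iff]
          refine ⟨rfl, fun d hd => ⟨hΔx d hd, ?_⟩⟩
          change (fun w => d.1 • w) '' S.kOrb a (g₀ • y') = S.kOrb a (g₀ • y')
          rw [S.kOrb_smul, hΔx d hd]
          apply S.kOrb_eq_of_mem
          obtain ⟨f1, f2, f3⟩ := hfix' d hd
          have f1' : (d.2 : G)⁻¹ • y = y := by
            rw [inv_smul_eq_iff]
            exact f1.symm
          have f2' : (d.2 : G)⁻¹ • y' = y' := by
            rw [inv_smul_eq_iff]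
            exact f2.symm
          refine ⟨d.1 * g₀ * (d.2 : G)⁻¹ * g₀⁻¹, ?_, ?_, ?_⟩
          · have h5 := S.K_normal.conj_mem _ (S.K.inv_mem f3) g₀
            have h6 : d.1 * g₀ * (d.2 : G)⁻¹ * g₀⁻¹ =
                g₀ * ((d.1 * g₀ * (d.2 : G)⁻¹)⁻¹ * g₀)⁻¹ * g₀⁻¹ := by group
            rw [h6]
            exact h5
          · rw [mul_smul, mul_smul, mul_smul]
            nth_rewrite 1 [← hg2]
            rw [inv_smul_smul, f1', hg2, hΔx d hd]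
          · rw [mul_smul, mul_smul, mul_smul, inv_smul_smul, f2']
        obtain ⟨σ, hσ⟩ := hEsec e he
        have hadjz := hEadj e he
        have hmem : z e ∈ S.kOrb a (g₀ • y') := by
          have h1 : S.kOrb a (g₀ • y') = S.kOrb a (z e) := hEset e he
          rw [h1]
          exact S.self_mem_kOrb _ _
        obtain ⟨k, hk, hka, hkz⟩ := hmem
        have hgy : (k * g₀) • y = a := by rw [mul_smul, hg2, hka]
        have hgy' : (k * g₀) • y' = z e := by rw [mul_smul, hkz]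
        have hgi : (k * g₀)⁻¹ • a = y := by
          rw [inv_smul_eq_iff]
          exact hgy.symm
        have hgi' : (k * g₀)⁻¹ • z e = y' := by
          rw [inv_smul_eq_iff]
          exact hgy'.symm
        have hgW : (k * g₀)⁻¹ • a ∈ S.W := by
          rw [hgi]
          exact hyW
        have hgK : ((k * g₀ : G) : G ⧸ S.K) = (g₀ : G ⧸ S.K) := by
          rw [QuotientGroup.eq]
          have h5 := S.K_normal.conj_mem _ (S.K.inv_mem hk) g₀⁻¹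
          have h6 : (k * g₀)⁻¹ * g₀ = g₀⁻¹ * k⁻¹ * g₀⁻¹⁻¹ := by group
          rw [h6]
          exact h5
        have hQ : k * g₀ ∈ S.Qs a Δ σ := by
          refine ⟨hgW, fun d => ?_⟩
          obtain ⟨f1, f2, f3⟩ := hfix' d d.2
          obtain ⟨s1, s2, s3⟩ := hσ d
          refine S.sec_unique hS hadjz (c := (d : G × S.H).1) ?_ ?_ ?_ s1 s2 s3
          · rw [mul_smul, mul_smul, hgi, f1, hgy]
          · rw [mul_smul, mul_smul, hgi', f2, hgy']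
          · have h5 := S.K_normal.conj_mem _ f3 g₀
            have h7 := S.K_normal.conj_mem _ (S.K.inv_mem hk) (d : G × S.H).1
            have h5' : g₀ * ((d : G × S.H).2 : G) * g₀⁻¹ * ((d : G × S.H).1)⁻¹ ∈ S.K := by
              have h6 : g₀ * ((d : G × S.H).2 : G) * g₀⁻¹ * ((d : G × S.H).1)⁻¹ =
                  g₀ * (((d : G × S.H).1 * g₀ * ((d : G × S.H).2 : G)⁻¹)⁻¹ * g₀) * g₀⁻¹ := by
                group
              rw [h6]
              exact h5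
            have h8 : k * g₀ * ((d : G × S.H).2 : G) * (k * g₀)⁻¹ * ((d : G × S.H).1)⁻¹ =
                k * (g₀ * ((d : G × S.H).2 : G) * g₀⁻¹ * ((d : G × S.H).1)⁻¹) *
                  ((d : G × S.H).1 * k⁻¹ * ((d : G × S.H).1)⁻¹) := by
              group
            rw [h8]
            exact S.K.mul_mem (S.K.mul_mem hk h5') h7
        refine ⟨(e, ((k * g₀ : G) : G ⧸ S.H)), ⟨he, ?_⟩, ?_⟩
        · change ((k * g₀ : G) : G ⧸ S.H) ∈ S.Cos a Δ (S.rho Δ)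
          rw [← S.cos_eq hS hadjz hx Δ hσ hρ]
          exact ⟨k * g₀, hQ, rfl⟩
        · change S.OR a (z e) ((k * g₀ : G) : G ⧸ S.H) = _
          rw [← S.orb_R hadjz (k * g₀) hgW]
          congr 1
          apply Subtype.ext
          change (a, (k * g₀)⁻¹ • a, (k * g₀)⁻¹ • z e, ((k * g₀ : G) : G ⧸ S.K)) =
            (a, y, y', (g₀ : G ⧸ S.K))
          rw [hgi, hgi', hgK]
      · rintro ⟨⟨e, c⟩, ⟨he, hc⟩, rfl⟩
        change e ∈ E at he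
        change c ∈ S.Cos x Δ (S.rho Δ) at hc
        obtain ⟨σ, hσ⟩ := hEsec e he
        rw [← S.cos_eq hS (hEadj e he) hx Δ hσ hρ] at hc
        obtain ⟨g, ⟨hg1, hg2⟩, rfl⟩ := hc
        refine ⟨S.pt (hEadj e he) g hg1, rfl, ?_, ?_⟩
        · exact S.pt_fixed (hEadj e he) g hg1 Δ hΔx hσ hg2
        · exact (S.orb_R (hEadj e he) g hg1).symm
    rw [hmk]
    apply Set.InjOn.ncard_image
    rintro ⟨e, c⟩ ⟨he, hc⟩ ⟨e', c'⟩ ⟨he', hc'⟩ h
    change e ∈ E at he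
    change e' ∈ E at he'
    change c ∈ S.Cos x Δ (S.rho Δ) at hc
    have h' : S.OR x (z e) c = S.OR x (z e') c' := h
    obtain ⟨g, ⟨hg1, hg2⟩, rfl⟩ := hc
    have h1 : S.pt (hEadj e he) g hg1 ∈ S.OR x (z e) (g : G ⧸ S.H) := ⟨g, rfl, rfl⟩
    have h1' : S.pt (hEadj e he) g hg1 ∈ S.OR x (z e') c' := h' ▸ h1
    obtain ⟨g', hg', h2⟩ := h1'
    have a1 : g⁻¹ • x = g'⁻¹ • x := congrArg (fun t => t.2.1) h2
    have a2 : g⁻¹ • z e = g'⁻¹ • z e' := congrArg (fun t => t.2.2.1) h2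
    have a3 : (g : G ⧸ S.K) = (g' : G ⧸ S.K) := congrArg (fun t => t.2.2.2) h2
    have a4 : g⁻¹ * g' ∈ S.K := QuotientGroup.eq.1 a3
    have a5 : g' * g⁻¹ ∈ S.K := by
      have h5 := S.K_normal.conj_mem _ a4 g
      have h6 : g' * g⁻¹ = g * (g⁻¹ * g') * g⁻¹ := by group
      rw [h6]
      exact h5
    have a6 : (g' * g⁻¹) • x = x := by rw [mul_smul, a1, smul_inv_smul]
    have a7 : (g' * g⁻¹) • z e = z e' := by rw [mul_smul, a2, smul_inv_smul]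
    have a8 : S.kOrb x (z e') = S.kOrb x (z e) := S.kOrb_eq_of_mem ⟨_, a5, a6, a7⟩
    have a9 : e = e' := by
      apply Subtype.ext
      apply Prod.ext
      · rw [hEx e he, hEx e' he']
      · rw [hEset e he, hEset e' he', a8]
    subst a9
    have a10 := hS.K_edge x (z e) (hEadj e he) _ a5 a6 a7
    have a11 : g' = g := mul_inv_eq_one.1 a10
    subst a11
    change (e, (g' : G ⧸ S.H)) = (e, c')
    rw [hg']
  · let e0 : S.EFam := ⟨(x, S.kOrb x x'), x', hx, rfl⟩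
    refine ⟨e0, (S.mem_E_iff e0 x Δ).2 ⟨rfl, fun d hd => ⟨hΔx d hd, ?_⟩⟩⟩
    change (fun w => d.1 • w) '' S.kOrb x x' = S.kOrb x x'
    rw [S.kOrb_smul, (hΔ d hd).1, (hΔ d hd).2]

end Data

end Pool.Agent.LR
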