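import Pool.Agent.Lib.MP_836f52_al_LR.FamDefs

set_option autoImplicit false

/-!
Row F2: the family `R`.

* `free_R`: if `(1, h)` fixes `(x, y, y', q)` then `h` fixes `y` and `y'` and `q h⁻¹ = q`, so `h ∈ K` and
  `h = 1` by `K_edge`.
* `trivial_R`: `(k, 1) • (x, y, y', q) = (k • x, y, y', k q)` and `k q = q` in `G ⧸ K` (`K` is normal).
* `finMod_R`: modulo `H`, `y` is in the finite set `B` of `W_fin`; for a given `y` the vertices `y'`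
  adjacent to `y` form finitely many orbits under `stabilizer G y` (from `coc.edge`: if
  `g • b.1 = y = g' • b.1` for the same `b` then `g' g⁻¹ ∈ stabilizer G y` maps `g • b.2` to `g' • b.2`),
  hence also under its subgroup of finite index `H ⊓ stabilizer G y`; and `q` is in the finite set `G ⧸ K`.
  So the points over `x` form finitely many orbits of `H'`.
-/

namespace Pool.Agent.LR

open Pool.Agent.Lib.MP_836f52_al_H7

universe u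

namespace Data

variable {G V : Type u} [Group G] [MulAction G V] (S : Data G V)

theorem free_R (hS : S.Ok) : FreeOn S.H' (Set.univ : Set S.RFam) := by
  intro γ hγ p _ e
  rw [S.mem_H'] at hγ
  have e1 := congrArg Subtype.val e
  rw [S.smul_R] at e1
  have e2 : (γ.2 : G) • p.1.2.1 = p.1.2.1 := congrArg (fun t => t.2.1) e1
  have e3 : (γ.2 : G) • p.1.2.2.1 = p.1.2.2.1 := congrArg (fun t => t.2.2.1) e1
  have e4 : (γ.1 : G ⧸ S.K) * p.1.2.2.2 * ((γ.2 : G) : G ⧸ S.K)⁻¹ = p.1.2.2.2 :=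
    congrArg (fun t => t.2.2.2) e1
  have e5 : ((γ.1 : G) : G ⧸ S.K) = 1 := by
    rw [hγ]
    rfl
  rw [e5, one_mul, mul_eq_left, inv_eq_one] at e4
  have e6 : (γ.2 : G) ∈ S.K := (QuotientGroup.eq_one_iff _).1 e4
  have e7 := hS.K_edge _ _ p.2.2.1 _ e6 e2 e3
  exact Prod.ext hγ (Subtype.ext e7)

theorem trivial_R (k : G × S.H) (hk : k ∈ S.K') (p : S.RFam) (h : k.1 • S.πR p = S.πR p) :
    k • p = p := by
  rw [S.mem_K'] at hk
  obtain ⟨h1, h2⟩ := hk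
  apply Subtype.ext
  rw [S.smul_R]
  have e5 : ((k.1 : G) : G ⧸ S.K) = 1 := (QuotientGroup.eq_one_iff _).2 h1
  have e6 : ((k.2 : S.H) : G) = 1 := by
    rw [h2]
    rfl
  have e7 : ((1 : G) : G ⧸ S.K) = 1 := rfl
  rw [e5, e6, e7, one_smul, one_smul, one_mul, inv_one, mul_one]
  exact Prod.ext h rfl

/-- coset representatives -/
private theorem f2_reps {A : Type u} [Group A] (L : Subgroup A) (hL : L.FiniteIndex) :
    ∃ R : Set A, R.Finite ∧ ∀ s : A, ∃ t ∈ R, s * t⁻¹ ∈ L := by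
  refine ⟨Set.range fun q : A ⧸ L => (Quotient.out q)⁻¹, Set.finite_range _, fun s => ?_⟩
  refine ⟨_, ⟨(s⁻¹ : A), rfl⟩, ?_⟩
  have h1 : ((s⁻¹ : A) : A ⧸ L) = ((Quotient.out ((s⁻¹ : A) : A ⧸ L) : A) : A ⧸ L) :=
    (QuotientGroup.out_eq' _).symm
  have h2 := QuotientGroup.eq.1 h1
  rw [inv_inv] at h2 ⊢
  exact h2

/-- the neighbours of `y` form finitely many orbits under `S.H ⊓ stabilizer G y` -/
private theorem f2_nbr (hS : S.Ok) (y : V) (hy : y ∈ S.W) :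
    ∃ F : Set V, F.Finite ∧ ∀ y', S.T.Adj y y' →
      ∃ h ∈ S.H, h • y = y ∧ ∃ b ∈ F, h • b = y' := by
  classical
  obtain ⟨E, hE, hE'⟩ := hS.coc.edge
  obtain ⟨R, hR, hR'⟩ := f2_reps _ (hS.H_fi y hy)
  let c : V × V → V := fun b => if h : ∃ g : G, g • b.1 = y then h.choose • b.2 else b.2
  refine ⟨(fun t : MulAction.stabilizer G y × (V × V) => (t.1 : G) • c t.2) '' (R ×ˢ E),
    (hR.prod hE).image _, fun y' hy' => ?_⟩
  obtain ⟨g, b, hb, h1, h2⟩ := hE' y y' hy'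
  have hex : ∃ g : G, g • b.1 = y := ⟨g, h1⟩
  have hc : c b = hex.choose • b.2 := dif_pos hex
  have hg₀ : hex.choose • b.1 = y := hex.choose_spec
  set g₀ : G := hex.choose with hg₀'
  have hs : (g * g₀⁻¹) • y = y := by
    rw [mul_smul, inv_smul_eq_iff.2 hg₀.symm, h1]
  obtain ⟨t, ht, ht'⟩ := hR' ⟨g * g₀⁻¹, MulAction.mem_stabilizer_iff.2 hs⟩
  rw [Subgroup.mem_subgroupOf] at ht'
  have ht1 : (g * g₀⁻¹) * (t : G)⁻¹ ∈ S.H := ht'.1
  have ht2 : ((g * g₀⁻¹) * (t : G)⁻¹) • y = y := MulAction.mem_stabilizer_iff.1 ht'.2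
  refine ⟨(g * g₀⁻¹) * (t : G)⁻¹, ht1, ht2, (t : G) • c b, ⟨(t, b), ⟨ht, hb⟩, rfl⟩, ?_⟩
  rw [mul_smul, inv_smul_smul, hc, mul_smul, inv_smul_smul, h2]

theorem finMod_R (hS : S.Ok) (x : V) : FinMod S.H' {p | S.πR p = x} := by
  classical
  obtain ⟨B, hB, hB'⟩ := hS.W_fin
  have hKf := hS.K_fi
  choose! F hF hF' using S.f2_nbr hS
  let C : Set (V × V × V × (G ⧸ S.K)) :=
    {x} ×ˢ (B ×ˢ ((⋃ b ∈ B ∩ S.W, F b) ×ˢ (Set.univ : Set (G ⧸ S.K))))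
  have hC : C.Finite := (Set.finite_singleton x).prod (hB.prod
    (((hB.inter_of_left _).biUnion fun b hb => hF b hb.2).prod Set.finite_univ))
  refine ⟨{p | p.1 ∈ C}, hC.preimage Subtype.val_injective.injOn, fun p hp => ?_⟩
  have hp' : p.1.1 = x := hp
  obtain ⟨h₁, hh₁, b, hb, e₁⟩ := hB' _ p.2.1
  have hbW : b ∈ S.W := by
    have h2 := S.W_smul h₁⁻¹ (S.H.inv_mem hh₁) _ p.2.1
    rwa [← e₁, inv_smul_smul] at h2
  have hadj : S.T.Adj b (h₁⁻¹ • p.1.2.2.1) := by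
    have h2 := S.adj h₁⁻¹ _ _ p.2.2.1
    rwa [← e₁, inv_smul_smul] at h2
  obtain ⟨h₂, hh₂, e₂, b', hb', e₃⟩ := hF' b hbW _ hadj
  let γ : G × S.H := (1, ⟨h₁ * h₂, S.H.mul_mem hh₁ hh₂⟩)
  refine ⟨γ, (S.mem_H' γ).2 rfl, γ⁻¹ • p, ?_, smul_inv_smul γ p⟩
  show (γ⁻¹ • p).1 ∈ C
  rw [S.smul_R]
  have i1 : (γ⁻¹).1 = 1 := inv_one
  have i2 : (((γ⁻¹).2 : S.H) : G) = h₂⁻¹ * h₁⁻¹ := mul_inv_rev h₁ h₂
  refine ⟨?_, ?_, ?_, Set.mem_univ _⟩
  · show (γ⁻¹).1 • p.1.1 = x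
    rw [i1, one_smul, hp']
  · show (((γ⁻¹).2 : S.H) : G) • p.1.2.1 ∈ B
    rw [i2, ← e₁, mul_smul, inv_smul_smul, inv_smul_eq_iff.2 e₂.symm]
    exact hb
  · show (((γ⁻¹).2 : S.H) : G) • p.1.2.2.1 ∈ ⋃ b ∈ B ∩ S.W, F b
    rw [i2, mul_smul, ← e₃, inv_smul_smul]
    exact Set.mem_biUnion ⟨hb, hbW⟩ hb'

end Data

end Pool.Agent.LR
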