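import Pool.Agent.Lib.MP_836f52_al_LR.Step

set_option autoImplicit false

/-!
Row FL2: integration of an equivariant step relation over a tree.

Get `S` from `exists_step`; let `Q` be the quotient of `Y` by the equivalence relation generated by
`S` (`Quot S`), `p = Quot.mk S`, with the action of `Γ` induced from `Y` (`Quot.map`).
* every class meets every fibre: by induction on the distance from `π y` to `x` (or along a walk), using
  the existence part.
* at most once: fix a vertex `o`.  By recursion on `dist (π y) o` define `τ y` in the fibre over `o`: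
  `τ y = y` if `π y = o`; otherwise let `x'` be the neighbour of `π y` towards `o` (`first_step`, unique
  by `tree_parent`), `y'` the point over `x'` with `S y y'`, and `τ y = τ y'`.  If `S y y'` then
  `τ y = τ y'`: one of `π y`, `π y'` is the neighbour towards `o` of the other one
  (`tree_dist_adj`, `tree_parent`), and the point is unique.  (Instead of a recursive definition one
  may prove by induction on `n` that for every `y` with `dist (π y) o ≤ n` there is exactly one point over
  `o` reachable by a chain of `S`-steps that approach `o`.)  So points over `o` in the same class are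
  equal.
-/

namespace Pool.Agent.LR

open Pool.Agent.Lib.MP_836f52_al_H7

universe u v w

theorem flat {Γ : Type u} [Group Γ] {V : Type v} [MulAction Γ V] {T : SimpleGraph V}
    (hT : TAct Γ T) {Y : Type w} [MulAction Γ Y] (π : Y → V)
    (hπ : ∀ (g : Γ) (y : Y), π (g • y) = g • π y) (r : Y → Y → Prop)
    (hr_symm : ∀ y y', r y y' → r y' y) (hr_adj : ∀ y y', r y y' → T.Adj (π y) (π y'))
    (hr_smul : ∀ (g : Γ) (y y' : Y), r y y' → r (g • y) (g • y'))
    (hφ : ∀ x x', T.Adj x x' → ∃ φ : Y → Y, Set.BijOn φ {y | π y = x} {y | π y = x'} ∧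
      (∀ g : Γ, g • x = x → g • x' = x' → ∀ y, π y = x → φ (g • y) = g • φ y) ∧
      ∀ y y', π y = x → π y' = x' → r y y' → φ y = y') :
    ∃ (Q : Type w) (_ : MulAction Γ Q) (p : Y → Q), (∀ (g : Γ) (y : Y), p (g • y) = g • p y) ∧
      (∀ x, Set.BijOn p {y | π y = x} Set.univ) ∧ ∀ y y', r y y' → p y = p y' := by
  classical
  obtain ⟨S, hSsymm, hSadj, hSsmul, hSex, hSr⟩ :=
    exists_step hT π hπ r hr_symm hr_adj hr_smul hφ
  have hc := hT.tree.1
  have key : ∀ o : V, ∃ τ : Y → Y, (∀ y, π (τ y) = o) ∧ (∀ y, π y = o → τ y = y) ∧
      (∀ y y', S y y' → τ y = τ y') ∧ ∀ y, Quot.mk S (τ y) = Quot.mk S y := by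
    intro o
    have hpar : ∀ y : Y, ∃ y' : Y, (π y = o → y' = y) ∧
        (π y ≠ o → S y y' ∧ T.dist (π y) o = T.dist (π y') o + 1) := by
      intro y
      by_cases h : π y = o
      · exact ⟨y, fun _ => rfl, fun h' => absurd h h'⟩
      · obtain ⟨x', hx', hd⟩ := first_step hc h
        obtain ⟨y', ⟨h1, h2⟩, _⟩ := hSex y x' hx'
        exact ⟨y', fun h' => absurd h' h, fun _ => ⟨h2, by rw [h1]; exact hd⟩⟩
    choose par hpar0 hpar1 using hpar
    have huniq : ∀ y y', S y y' → T.dist (π y) o = T.dist (π y') o + 1 → par y = y' := by
      intro y y' hS hd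
      have hne : π y ≠ o := by
        intro h
        rw [h, SimpleGraph.dist_self] at hd
        omega
      obtain ⟨h1, h2⟩ := hpar1 y hne
      have c1 := T.dist_comm (u := π y) (v := o)
      have c2 := T.dist_comm (u := π y') (v := o)
      have c3 := T.dist_comm (u := π (par y)) (v := o)
      have h3 : π (par y) = π y' := tree_parent hT.tree (o := o) (hSadj _ _ h1).symm
        (hSadj _ _ hS).symm (by omega) (by omega)
      obtain ⟨z, _, hz⟩ := hSex y (π y') (hSadj _ _ hS)
      rw [hz (par y) ⟨h3, h1⟩, hz y' ⟨rfl, hS⟩]
    have hiter : ∀ n y, T.dist (π y) o = n → π (par^[n] y) = o := by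
      intro n
      induction n with
      | zero => intro y hy; exact hc.dist_eq_zero_iff.1 hy
      | succ n ih =>
        intro y hy
        rw [Function.iterate_succ_apply]
        apply ih
        have hne : π y ≠ o := by
          intro h
          rw [h, SimpleGraph.dist_self] at hy
          omega
        have := (hpar1 y hne).2
        omega
    have hmk : ∀ y, Quot.mk S (par y) = Quot.mk S y := by
      intro y
      by_cases h : π y = o
      · rw [hpar0 y h]
      · exact (Quot.sound (hpar1 y h).1).symm
    have hmkn : ∀ n y, Quot.mk S (par^[n] y) = Quot.mk S y := by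
      intro n
      induction n with
      | zero => intro y; rfl
      | succ n ih =>
        intro y
        rw [Function.iterate_succ_apply, ih, hmk]
    refine ⟨fun y => par^[T.dist (π y) o] y, fun y => hiter _ y rfl, fun y hy => ?_,
      fun y y' hS => ?_, fun y => hmkn _ y⟩
    · have h0 : T.dist (π y) o = 0 := by rw [hy, SimpleGraph.dist_self]
      show par^[T.dist (π y) o] y = y
      rw [h0]
      rfl
    · have c1 := T.dist_comm (u := π y) (v := o)
      have c2 := T.dist_comm (u := π y') (v := o)
      show par^[T.dist (π y) o] y = par^[T.dist (π y') o] y'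
      rcases tree_dist_adj hT.tree (hSadj _ _ hS) o with h | h
      · have h1 : T.dist (π y') o = T.dist (π y) o + 1 := by omega
        rw [h1, Function.iterate_succ_apply, huniq y' y (hSsymm _ _ hS) h1]
      · have h1 : T.dist (π y) o = T.dist (π y') o + 1 := by omega
        rw [h1, Function.iterate_succ_apply, huniq y y' hS h1]
  let act : MulAction Γ (Quot S) :=
    { smul := fun g => Quot.map (fun y => g • y) (fun y y' h => hSsmul g y y' h)
      one_smul := by
        intro q
        induction q using Quot.ind with
        | mk y => exact congrArg (Quot.mk S) (one_smul Γ y)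
      mul_smul := by
        intro g h q
        induction q using Quot.ind with
        | mk y => exact congrArg (Quot.mk S) (mul_smul g h y) }
  refine ⟨Quot S, act, Quot.mk S, fun g y => rfl, fun x => ?_, fun y y' h =>
    Quot.sound (hSr y y' h)⟩
  obtain ⟨τ, h1, h2, h3, h4⟩ := key x
  refine ⟨fun y _ => Set.mem_univ _, fun y hy y' hy' he => ?_, fun q _ => ?_⟩
  · have h5 : Quot.lift τ h3 (Quot.mk S y) = Quot.lift τ h3 (Quot.mk S y') := by rw [he]
    have h6 : τ y = τ y' := h5
    rwa [h2 y hy, h2 y' hy'] at h6
  · induction q using Quot.ind with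
    | mk y => exact ⟨τ y, h1 y, h4 y⟩

end Pool.Agent.LR
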