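import Pool.Agent.Lib.MP_836f52_al_LR.VR

set_option autoImplicit false

/-!
Row GB: elementary properties of `Good`.

* `Good.of_injective`: compose the embeddings.
* `Good.of_fi`: let `f : K' →* K` be injective, `K'` of finite index in `G`.  The subgroup
  `(L.comap f).map K'.subtype` of `G` has finite index and embeds in `L`.
* `Good.lr_f`: `G = K`, `K' = ⊤`.
* `Good.sub`: every finitely generated subgroup of a good group is (LR) and `HasF`.
* `Good.fg_sub`: subgroups of finite index in a finitely generated good group.
* `good_of_finite`: `G` has a finite subgroup of finite index, so it is finite: every subgroup `H`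
  is a virtual retract (`L = H`), and for `HasF` take `M = ⊥`.
-/

namespace Pool.Agent.LR

open Pool.Agent.Lib.MP_836f52_al_H7

universe u v w

theorem Good.of_injective {K L : Type u} [Group K] [Group L] (h : Good K) (f : L →* K)
    (hf : Function.Injective f) : Good L := by
  intro G _ hG K' hK' φ hφ
  exact h G hG K' hK' (f.comp φ) (hf.comp hφ)

theorem Good.of_fi {K : Type u} [Group K] (L : Subgroup K) (hL : L.FiniteIndex) (h : Good L) :
    Good K := by
  intro G _ hG K' hK' φ hφ
  have h1 : (L.comap φ).FiniteIndex :=
    ⟨by rw [Subgroup.index_comap]; exact (L.subgroupOf φ.range).index_ne_zero_of_finite⟩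
  have h2 : ((L.comap φ).map K'.subtype).FiniteIndex :=
    ⟨by
      rw [Subgroup.index_map_subtype]
      exact Nat.mul_ne_zero h1.index_ne_zero hK'.index_ne_zero⟩
  let e := (L.comap φ).equivMapOfInjective K'.subtype K'.subtype_injective
  refine h G hG _ h2 ((φ.subgroupComap L).comp e.symm.toMonoidHom) ?_
  have h3 : Function.Injective (φ.subgroupComap L) := by
    intro a b hab
    have h4 : φ a = φ b := congrArg Subtype.val hab
    exact Subtype.ext (hφ h4)
  exact h3.comp e.symm.injective

theorem Good.lr_f {K : Type u} [Group K] (h : Good K) (hK : Group.FG K) :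
    HasLR K ∧ HasF K := by
  exact h K hK ⊤ inferInstance (⊤ : Subgroup K).subtype (⊤ : Subgroup K).subtype_injective

theorem Good.sub {K : Type u} [Group K] (h : Good K) (L : Subgroup K) (hL : L.FG) :
    HasLR L ∧ HasF L := by
  exact (h.of_injective L.subtype L.subtype_injective).lr_f ((Group.fg_iff_subgroup_fg L).2 hL)

theorem good_of_finite {K : Type u} [Group K] [Finite K] : Good K := by
  intro G _ _ K' hK' f hf
  have h1 : Finite K' := Finite.of_injective f hf
  have h2 : Finite (G ⧸ K') := Subgroup.finite_quotient_of_finiteIndex
  have h3 : Finite G := Finite.of_equiv _ (Subgroup.groupEquivQuotientProdSubgroup (s := K')).symm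
  constructor
  · rw [hasLR_iff]
    intro H _
    refine ⟨⊥, ?_, bot_inf_eq H, inferInstance⟩
    intro x _ n hn
    rw [Subgroup.mem_bot] at hn ⊢
    rw [hn]
    group
  · intro D _ _ α β hαβ
    obtain ⟨g, hg⟩ := hαβ ⊥ inferInstance inferInstance
    refine ⟨g, fun d => ?_⟩
    have h4 := hg d
    rw [Subgroup.mem_bot, inv_mul_eq_one] at h4
    exact h4.symm

end Pool.Agent.LR
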