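import Pool.Agent.Lib.MP_836f52_al_LR.Central
import Pool.Agent.Lib.MP_836f52_al_LR.CenF
import Pool.Agent.Lib.MP_836f52_al_LR.CenLR

set_option autoImplicit false

/-!
Row V10: `Good K → Good (K × ℤ)`.

Let `f : K' →* K × ℤ` be injective, `K'` of finite index in the finitely generated group `G`.  Let
`K₁ = K'.normalCore` and `j` the restriction of `f` to it.  `exists_central` (its hypothesis on `K`
is `Good.sub`) gives `Z` and `N₁`, and `exists_compl_normal` gives `M`.  `G ⧸ Z` is finitely
generated and good: the map `N₁ → G ⧸ Z` is injective (`N₁ ⊓ Z = ⊥`) with image of finite index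
(`N₁ ⊔ Z` has finite index), and `x ↦ (j x).1` embeds `N₁` in `K`; use `Good.of_fi`,
`Good.of_injective`.  By `Good.lr_f`, `G ⧸ Z` has (LR).  Apply `cen_lr` and `cen_f`.
-/

namespace Pool.Agent.LR

open Pool.Agent.Lib.MP_836f52_al_H7

universe u

theorem good_prod_int {K : Type u} [Group K] (h : Good K) : Good (K × Multiplicative ℤ) := by
  intro G _ hG K' hK' f hf
  have hj : Function.Injective (f.comp (Subgroup.inclusion K'.normalCore_le)) := by
    rw [MonoidHom.coe_comp]
    exact hf.comp (Subgroup.inclusion_injective K'.normalCore_le)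
  have hKn : K'.normalCore.Normal := inferInstance
  have hKf : K'.normalCore.FiniteIndex := inferInstance
  obtain ⟨Z, hZn, hZK, hcent, hfg, htf, N₁, hN₁, hN₁Z, hfi₁, hinj⟩ :=
    exists_central hG K'.normalCore hKn hKf (f.comp (Subgroup.inclusion K'.normalCore_le)) hj
      fun L hL => (h.sub L hL).1
  obtain ⟨M, hMn, hMK, hMZ, hfi⟩ :=
    exists_compl_normal Z K'.normalCore hZn hKn hKf hZK hcent hfg htf N₁ hN₁ hN₁Z hfi₁
  have hQ : Good (G ⧸ Z) := by
    -- the image of `N₁`
    have hbij : Function.Bijective ((QuotientGroup.mk' Z).subgroupMap N₁) := by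
      refine ⟨?_, (QuotientGroup.mk' Z).subgroupMap_surjective N₁⟩
      rw [injective_iff_map_eq_one]
      intro x hx
      have hx' : QuotientGroup.mk' Z (x : G) = 1 := congrArg Subtype.val hx
      rw [QuotientGroup.mk'_apply, QuotientGroup.eq_one_iff] at hx'
      have h1 : (x : G) ∈ N₁ ⊓ Z := ⟨x.2, hx'⟩
      rw [hN₁Z, Subgroup.mem_bot] at h1
      exact Subtype.ext h1
    let e : N₁ ≃* N₁.map (QuotientGroup.mk' Z) := MulEquiv.ofBijective _ hbij
    let k : N₁ →* K := (MonoidHom.fst K (Multiplicative ℤ)).comp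
      ((f.comp (Subgroup.inclusion K'.normalCore_le)).comp (Subgroup.inclusion hN₁))
    have hk : Function.Injective k := by
      rw [injective_iff_map_eq_one]
      intro x hx
      have h1 := hinj (Subgroup.inclusion hN₁ x) x.2 hx
      have h2 : ((Subgroup.inclusion hN₁ x : K'.normalCore) : G) = 1 := congrArg Subtype.val h1
      exact Subtype.ext h2
    have hg : Good (N₁.map (QuotientGroup.mk' Z)) := by
      refine h.of_injective (k.comp e.symm.toMonoidHom) ?_
      rw [MonoidHom.coe_comp]
      exact hk.comp e.symm.injective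
    refine Good.of_fi _ ?_ hg
    constructor
    have h1 : ((N₁.map (QuotientGroup.mk' Z)).comap (QuotientGroup.mk' Z)).index =
        (N₁.map (QuotientGroup.mk' Z)).index :=
      Subgroup.index_comap_of_surjective _ (QuotientGroup.mk'_surjective Z)
    rw [← h1, Subgroup.comap_map_eq, QuotientGroup.ker_mk']
    exact hfi₁.index_ne_zero
  have hfgQ : Group.FG (G ⧸ Z) := inferInstance
  exact ⟨cen_lr Z K'.normalCore M hKn hKf hMn hZK hMK hcent hfg htf hMZ hfi (hQ.lr_f hfgQ).1,
    cen_f Z K'.normalCore M hKn hKf hMn hZK hMK hcent hfg htf hMZ hfi hG hQ⟩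

end Pool.Agent.LR
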