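import Pool.Agent.Lib.MP_836f52_al_LR.Defs
import Pool.Agent.Lib.MP_836f52_al_H7.Tree
import Pool.Agent.Lib.MP_836f52_al_H7.VF.TreeLemmas

set_option autoImplicit false

/-!
Row T3: Serre's lemma.

(i) If `a`, `b` and `a * b` have fixed points then `Fix a ∩ Fix b` is not empty: if
`(a * b) • z = z` put `w = b • z = a⁻¹ • z`; every fixed point of `a` or of `b` has the same
distance to `z` and to `w`, so the midpoint of `z` and `w` exists and is fixed by `a` and by `b`.

(ii) Helly property of finite families of convex sets, by medians.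

(iii) `P = ⟨S⟩` with `S` finite: the sets `Fix s`, `s ∈ S`, intersect pairwise by (i); a common point
is fixed by `P`.
-/

namespace Pool.Agent.LR

open Pool.Agent.Lib.MP_836f52_al_H7

universe u v w

private lemma serre_midpoint {N : Type u} [Group N] {S : Type v} [MulAction N S]
    {T : SimpleGraph S} (hT : T.IsTree)
    (hact : ∀ (n : N) (x y : S), T.Adj x y → T.Adj (n • x) (n • y))
    (a : N) (p z w : S) (hp : a • p = p) (hw : a • z = w) :
    ∃ m : S, T.dist z m + T.dist m w = T.dist z w ∧ T.dist z m = T.dist m w ∧ a • m = m := by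
  have hc := hT.1
  have hd := dist_smul (X := T) hc hact
  obtain ⟨m, h1, h2, h3⟩ := tree_median_exists hT p _ z w rfl
  have e1 : T.dist p w = T.dist p z := by
    have := hd a p z
    rw [hp, hw] at this
    exact this
  have c1 := T.dist_comm (u := m) (v := z)
  have h4 : T.dist z m = T.dist m w := by omega
  refine ⟨m, h1, h4, ?_⟩
  have e2 : T.dist p (a • m) = T.dist p m := by
    have := hd a p m
    rw [hp] at this
    exact this
  have e3 : T.dist (a • m) w = T.dist m w := by
    have := hd a m z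
    rw [hw] at this
    omega
  exact tree_interval_unique hT p w (T.dist m w) (a • m) m (by omega) (by omega) e3 rfl

private lemma serre_pair {N : Type u} [Group N] {S : Type v} [MulAction N S]
    {T : SimpleGraph S} (hT : T.IsTree)
    (hact : ∀ (n : N) (x y : S), T.Adj x y → T.Adj (n • x) (n • y))
    (a b : N) (ha : ∃ z : S, a • z = z) (hb : ∃ z : S, b • z = z)
    (hab : ∃ z : S, (a * b) • z = z) : ∃ z : S, a • z = z ∧ b • z = z := by
  obtain ⟨p, hp⟩ := ha
  obtain ⟨q, hq⟩ := hb
  obtain ⟨z, hz⟩ := hab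
  have hw : a⁻¹ • z = b • z := by
    rw [inv_smul_eq_iff, ← mul_smul, hz]
  have hp' : a⁻¹ • p = p := by
    rw [inv_smul_eq_iff, hp]
  obtain ⟨m, h1, h2, h3⟩ := serre_midpoint hT hact a⁻¹ p z (b • z) hp' hw
  obtain ⟨m', k1, k2, k3⟩ := serre_midpoint hT hact b q z (b • z) hq rfl
  have hmm : m = m' :=
    tree_interval_unique hT z (b • z) (T.dist m (b • z)) m m' h1 k1 rfl (by omega)
  refine ⟨m, ?_, ?_⟩
  · rw [inv_smul_eq_iff] at h3
    exact h3.symm
  · rw [hmm]
    exact k3

private lemma serre_fix_convex {N : Type u} [Group N] {S : Type v} [MulAction N S]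
    {T : SimpleGraph S} (hT : T.IsTree)
    (hact : ∀ (n : N) (x y : S), T.Adj x y → T.Adj (n • x) (n • y)) (a : N) (x y z : S)
    (hx : a • x = x) (hy : a • y = y) (hz : T.dist x z + T.dist z y = T.dist x y) :
    a • z = z := by
  have hc := hT.1
  have hd := dist_smul (X := T) hc hact
  have e1 : T.dist x (a • z) = T.dist x z := by
    have := hd a x z
    rw [hx] at this
    exact this
  have e2 : T.dist (a • z) y = T.dist z y := by
    have := hd a z y
    rw [hy] at this
    exact this
  exact tree_interval_unique hT x y (T.dist z y) (a • z) z (by omega) hz e2 rfl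

private lemma serre_helly {S : Type v} {T : SimpleGraph S} (hT : T.IsTree) (n : ℕ) :
    ∀ L : List (Set S), L.length = n →
      (∀ F ∈ L, ∀ x ∈ F, ∀ y ∈ F, ∀ z, T.dist x z + T.dist z y = T.dist x y → z ∈ F) →
      (∀ F ∈ L, ∀ G ∈ L, (F ∩ G).Nonempty) → ∃ z : S, ∀ F ∈ L, z ∈ F := by
  induction n with
  | zero =>
    intro L hL _ _
    obtain ⟨z⟩ := hT.1.nonempty
    rw [List.length_eq_zero_iff] at hL
    subst hL
    exact ⟨z, by simp⟩
  | succ n ih =>
    intro L hL hconv hne
    match L, hL with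
    | F :: L', hL =>
      have hL' : L'.length = n := by simpa using hL
      have hF : F ∈ F :: L' := List.mem_cons_self
      have hG : ∀ G ∈ L', G ∈ F :: L' := fun G hG => List.mem_cons_of_mem _ hG
      obtain ⟨z, hz⟩ := ih (L'.map (fun G => F ∩ G)) (by simpa using hL') (by
        intro G hG' x hx y hy z hz
        rw [List.mem_map] at hG'
        obtain ⟨G0, hG0, rfl⟩ := hG'
        exact ⟨hconv F hF x hx.1 y hy.1 z hz, hconv G0 (hG _ hG0) x hx.2 y hy.2 z hz⟩) (by
        intro G hG' H hH'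
        rw [List.mem_map] at hG' hH'
        obtain ⟨G0, hG0, rfl⟩ := hG'
        obtain ⟨H0, hH0, rfl⟩ := hH'
        obtain ⟨x, hxF, hxG⟩ := hne F hF G0 (hG _ hG0)
        obtain ⟨y, hyF, hyH⟩ := hne F hF H0 (hG _ hH0)
        obtain ⟨w, hwG, hwH⟩ := hne G0 (hG _ hG0) H0 (hG _ hH0)
        obtain ⟨m, h1, h2, h3⟩ := tree_median_exists hT w _ x y rfl
        have mF : m ∈ F := hconv F hF x hxF y hyF m h1
        have mG : m ∈ G0 := hconv G0 (hG _ hG0) w hwG x hxG m h2.symm
        have mH : m ∈ H0 := hconv H0 (hG _ hH0) w hwH y hyH m h3.symm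
        exact ⟨m, ⟨mF, mG⟩, ⟨mF, mH⟩⟩)
      rcases L' with _ | ⟨G, L''⟩
      · obtain ⟨x, hx, _⟩ := hne F hF F hF
        refine ⟨x, ?_⟩
        intro G hG'
        rw [List.mem_singleton] at hG'
        rw [hG']
        exact hx
      · refine ⟨z, ?_⟩
        intro H hH
        rw [List.mem_cons] at hH
        rcases hH with rfl | hH
        · exact (hz (H ∩ G) (List.mem_map.2 ⟨G, List.mem_cons_self, rfl⟩)).1
        · exact (hz (F ∩ H) (List.mem_map.2 ⟨H, hH, rfl⟩)).2

theorem serre {N : Type u} [Group N] {S : Type v} [MulAction N S] {T : SimpleGraph S}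
    (hT : T.IsTree) (hact : ∀ (n : N) (x y : S), T.Adj x y → T.Adj (n • x) (n • y))
    (P : Subgroup N) (hP : P.FG) (hell : ∀ n ∈ P, ∃ z : S, n • z = z) :
    ∃ z : S, ∀ n ∈ P, n • z = z := by
  obtain ⟨A, hA⟩ := hP
  have hAP : ∀ a ∈ A, a ∈ P := by
    intro a ha
    rw [← hA]
    exact Subgroup.subset_closure ha
  obtain ⟨z, hz⟩ := serre_helly hT _ (A.toList.map (fun a => {z : S | a • z = z})) rfl (by
    intro F hF x hx y hy z hz
    rw [List.mem_map] at hF
    obtain ⟨a, _, rfl⟩ := hF
    exact serre_fix_convex hT hact a x y z hx hy hz) (by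
    intro F hF G hG
    rw [List.mem_map] at hF hG
    obtain ⟨a, ha, rfl⟩ := hF
    obtain ⟨b, hb, rfl⟩ := hG
    rw [Finset.mem_toList] at ha hb
    obtain ⟨z, h1, h2⟩ := serre_pair hT hact a b (hell a (hAP a ha)) (hell b (hAP b hb))
      (hell (a * b) (P.mul_mem (hAP a ha) (hAP b hb)))
    exact ⟨z, h1, h2⟩)
  refine ⟨z, ?_⟩
  have hle : P ≤ MulAction.stabilizer N z := by
    rw [← hA, Subgroup.closure_le]
    intro a ha
    rw [SetLike.mem_coe, MulAction.mem_stabilizer_iff]
    exact hz {z : S | a • z = z} (List.mem_map.2 ⟨a, Finset.mem_toList.2 ha, rfl⟩)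
  intro n hn
  exact MulAction.mem_stabilizer_iff.1 (hle hn)

end Pool.Agent.LR
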