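import Pool.Agent.Lib.MP_836f52_al_LR.Core

set_option autoImplicit false

/-!
Row T2: stabilisers in a finitely generated group acting on a tree with finite edge stabilisers are
finitely generated.

Let `H = ⟨S⟩`, `S` finite, `v` a vertex, `I a c = {z | dist a z + dist z c = dist a c}`, and
`D = {v} ∪ ⋃ s ∈ S, I v (s • v)`: a finite convex set (a union of geodesics issuing from `v`)
containing `v` and the `s • v`.  For `d ∈ D ∩ H • v` choose `t d ∈ H` with `t d • v = d`, `t v = 1`.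
Let `A` be the subgroup of `H_v = H ⊓ stabilizer v` generated by the finitely many elements
`(t d)⁻¹ * g * t d'` of `H_v` (when `g • d' = d`) with `d, d' ∈ D ∩ H • v` and
`g ∈ S ∪ S⁻¹ ∪ {1}` or `g ∈ H` with `g • f.1 = f'.1`, `g • f.2 = f'.2` for two edges `f, f'` in `D`
(finitely many `g`, as the stabilisers of edges are finite).
Claim: `A = H_v`.  Say that `h ∈ H` satisfies `P` if
 (1) if `v ∈ h • D`, say `h⁻¹ • v = d`, then `h * t d ∈ A`;
 (2) if `v ∉ h • D`, let `w` be the neighbour of `v` towards `h • D` (all points of `h • D` are in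
     the halfspace of `w` for the edge `v, w`; `h • D` is convex); then for all `k ∈ H` with
     `v, w ∈ k • D` one has `k * t (k⁻¹ • v) ∈ A`.
`P` holds for `h = 1` (`1 * t v = 1`).  If `P` holds for `h` and `s ∈ S ∪ S⁻¹` then `P` holds for
`h * s`: note `h • D` and `(h s) • D` meet (in `h s • v`, or for `s⁻¹` in `h • v`).
 - `v` in both: `h t d ∈ A` and `h s t d' = (h t d) ((t d)⁻¹ s t d')`.
 - `v ∈ h • D`, `v ∉ (h s) • D`: the neighbour `w` of `v` towards `(h s) • D` is in `h • D` (it is on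
   the geodesic from `v` to a common point), so for `k` with `v, w ∈ k • D` the element `h⁻¹ k`
   maps the edge `(k⁻¹ v, k⁻¹ w)` of `D` to the edge `(h⁻¹ v, h⁻¹ w)` of `D`, and
   `k t (k⁻¹ v) = (h t (h⁻¹ v)) ((t (h⁻¹ v))⁻¹ (h⁻¹ k) t (k⁻¹ v)) ∈ A`.
 - `v ∉ h • D`, `v ∈ (h s) • D`: `w` (for `h`) is in `(h s) • D`; apply (2) with `k = h s`.
 - `v` in neither: the same `w`.
So `P` holds for all `h ∈ H`; for `h ∈ H_v`: `v = h • v ∈ h • D`, `h⁻¹ • v = v`, `h = h * t v ∈ A`.
-/

namespace Pool.Agent.LR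

open Pool.Agent.Lib.MP_836f52_al_H7

universe u v w

theorem stab_fg {G : Type u} [Group G] {V : Type v} [MulAction G V] {T : SimpleGraph V}
    (h : TreeAct G T) (H : Subgroup G) (hH : H.FG) (x : V) :
    (H ⊓ MulAction.stabilizer G x).FG := by
  classical
  have hT := h.tree
  have hact := h.adj
  have hc := hT.1
  have hd := dist_smul (X := T) hc hact
  obtain ⟨S, hS⟩ := hH
  have hSH : ∀ s ∈ S, s ∈ H := by
    intro s hs
    rw [← hS]
    exact Subgroup.subset_closure hs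
  -- the symmetric generating set
  obtain ⟨S', hS'fin, hS'H, hSS', hSS'i⟩ : ∃ S' : Set G, S'.Finite ∧ (∀ s ∈ S', s ∈ H) ∧
      (∀ s ∈ S, s ∈ S') ∧ (∀ s ∈ S, s⁻¹ ∈ S') := by
    refine ⟨(S : Set G) ∪ (fun g => g⁻¹) '' (S : Set G),
      (Finset.finite_toSet S).union ((Finset.finite_toSet S).image _), ?_, ?_, ?_⟩
    · rintro s (hs | ⟨s', hs, rfl⟩)
      · exact hSH s hs
      · exact H.inv_mem (hSH s' hs)
    · intro s hs
      exact Or.inl hs
    · intro s hs
      exact Or.inr ⟨s, hs, rfl⟩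
  -- the finite convex set `D`
  obtain ⟨D, hDfin, hxD, hsD, hDconv⟩ : ∃ D : Set V, D.Finite ∧ x ∈ D ∧ (∀ s ∈ S', s • x ∈ D) ∧
      ∀ z ∈ D, ∀ y, T.dist x y + T.dist y z = T.dist x z → y ∈ D := by
    refine ⟨⋃ s ∈ insert (1 : G) S', {z | T.dist x z + T.dist z (s • x) = T.dist x (s • x)},
      ?_, ?_, ?_, ?_⟩
    · apply Set.Finite.biUnion (hS'fin.insert 1)
      intro s _
      exact tree_interval_finite hT _ _
    · simp only [Set.mem_iUnion]
      exact ⟨1, Set.mem_insert _ _, by simp⟩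
    · intro s hs
      simp only [Set.mem_iUnion]
      exact ⟨s, Set.mem_insert_of_mem _ hs, by simp⟩
    · intro z hz y hy
      simp only [Set.mem_iUnion] at hz ⊢
      obtain ⟨s, hs, hz⟩ := hz
      refine ⟨s, hs, ?_⟩
      simp only [Set.mem_ofPred_eq] at hz ⊢
      have t1 := hc.dist_triangle (u := y) (v := z) (w := s • x)
      have t2 := hc.dist_triangle (u := x) (v := y) (w := s • x)
      omega
  -- the finite set `F` of transition elements
  obtain ⟨F, hFfin, hF1, hF2⟩ : ∃ F : Set G, F.Finite ∧ (∀ s ∈ S', s ∈ F) ∧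
      ∀ γ : G, ∀ d ∈ D, ∀ d' ∈ D, ∀ e ∈ D, ∀ e' ∈ D, T.Adj d' e' → γ • d' = d → γ • e' = e →
        γ ∈ F := by
    refine ⟨S' ∪ ⋃ d ∈ D, ⋃ d' ∈ D, ⋃ e ∈ D, ⋃ e' ∈ D,
      {γ : G | T.Adj d' e' ∧ γ • d' = d ∧ γ • e' = e}, ?_, ?_, ?_⟩
    · apply hS'fin.union
      apply hDfin.biUnion
      intro d _
      apply hDfin.biUnion
      intro d' _
      apply hDfin.biUnion
      intro e _
      apply hDfin.biUnion
      intro e' _
      by_cases hne : ∃ γ₀ : G, T.Adj d' e' ∧ γ₀ • d' = d ∧ γ₀ • e' = e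
      · obtain ⟨γ₀, hadj, h1, h2⟩ := hne
        apply ((h.fin d' e' hadj).image (fun g => γ₀ * g)).subset
        rintro γ ⟨_, h3, h4⟩
        refine ⟨γ₀⁻¹ * γ, ⟨?_, ?_⟩, by simp⟩
        · rw [mul_smul, h3, inv_smul_eq_iff, h1]
        · rw [mul_smul, h4, inv_smul_eq_iff, h2]
      · apply Set.finite_empty.subset
        intro γ hγ
        exact hne ⟨γ, hγ⟩
    · intro s hs
      exact Or.inl hs
    · intro γ d hd d' hd' e he e' he' hadj h1 h2
      right
      simp only [Set.mem_iUnion]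
      exact ⟨d, hd, d', hd', e, he, e', he', hadj, h1, h2⟩
  -- the transversal
  obtain ⟨t, ht1, ht⟩ : ∃ t : V → G, t x = 1 ∧
      ∀ g ∈ H, t (g • x) ∈ H ∧ t (g • x) • x = g • x := by
    refine ⟨fun d => if d = x then 1 else if hex : ∃ g ∈ H, g • x = d then hex.choose else 1,
      by simp, ?_⟩
    intro g hg
    by_cases h1 : g • x = x
    · simp only [h1, if_true]
      exact ⟨H.one_mem, one_smul _ _⟩
    · have hex : ∃ g' ∈ H, g' • x = g • x := ⟨g, hg, rfl⟩
      simp only [h1, if_false, hex, dif_pos]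
      exact hex.choose_spec
  obtain ⟨Γ, hΓfin, hΓ1, hΓ2⟩ : ∃ Γ : Set G, Γ.Finite ∧
      (∀ a ∈ Γ, a ∈ H ⊓ MulAction.stabilizer G x) ∧
      ∀ d ∈ D, ∀ d' ∈ D, ∀ γ ∈ F, (t d)⁻¹ * γ * t d' ∈ H ⊓ MulAction.stabilizer G x →
        (t d)⁻¹ * γ * t d' ∈ Γ := by
    refine ⟨(⋃ d ∈ D, ⋃ d' ∈ D, (fun γ => (t d)⁻¹ * γ * t d') '' F) ∩
      {a | a ∈ H ⊓ MulAction.stabilizer G x}, ?_, ?_, ?_⟩
    · apply Set.Finite.subset _ Set.inter_subset_left
      apply hDfin.biUnion
      intro d _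
      apply hDfin.biUnion
      intro d' _
      exact hFfin.image _
    · intro a ha
      exact ha.2
    · intro d hd d' hd' γ hγ hm
      refine ⟨?_, hm⟩
      simp only [Set.mem_iUnion]
      exact ⟨d, hd, d', hd', γ, hγ, rfl⟩
  have hratio : ∀ g ∈ H, ∀ k ∈ H, g⁻¹ • x ∈ D → k⁻¹ • x ∈ D → g⁻¹ * k ∈ F →
      g * t (g⁻¹ • x) ∈ Subgroup.closure Γ → k * t (k⁻¹ • x) ∈ Subgroup.closure Γ := by
    intro g hg k hk hgD hkD hF hgA
    obtain ⟨a1, a2⟩ := ht g⁻¹ (H.inv_mem hg)
    obtain ⟨b1, b2⟩ := ht k⁻¹ (H.inv_mem hk)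
    have hm : (t (g⁻¹ • x))⁻¹ * (g⁻¹ * k) * t (k⁻¹ • x) ∈ H ⊓ MulAction.stabilizer G x := by
      refine Subgroup.mem_inf.2
        ⟨H.mul_mem (H.mul_mem (H.inv_mem a1) (H.mul_mem (H.inv_mem hg) hk)) b1, ?_⟩
      rw [MulAction.mem_stabilizer_iff, mul_smul, mul_smul, b2, mul_smul,
        smul_inv_smul, inv_smul_eq_iff, a2]
    have h1 := Subgroup.subset_closure (hΓ2 _ hgD _ hkD _ hF hm)
    have h2 := (Subgroup.closure Γ).mul_mem hgA h1
    have e : g * t (g⁻¹ • x) * ((t (g⁻¹ • x))⁻¹ * (g⁻¹ * k) * t (k⁻¹ • x)) =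
        k * t (k⁻¹ • x) := by group
    rw [e] at h2
    exact h2
  -- the invariant
  let Φ : G → V → Prop := fun g z =>
    (z = x → g * t (g⁻¹ • x) ∈ Subgroup.closure Γ) ∧
      ∀ w, T.Adj x w → T.dist x z = T.dist w z + 1 → ∀ k ∈ H, k⁻¹ • x ∈ D → k⁻¹ • w ∈ D →
        k * t (k⁻¹ • x) ∈ Subgroup.closure Γ
  have hΦb : ∀ g ∈ H, ∀ z z', g⁻¹ • z ∈ D → g⁻¹ • z' ∈ D → T.Adj z z' → Φ g z → Φ g z' := by
    intro g hg z z' hz hz' hadj hΦ
    refine ⟨?_, ?_⟩
    · intro hz'x
      subst hz'x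
      have d1 : T.dist z' z = 1 := SimpleGraph.dist_eq_one_iff_adj.2 hadj.symm
      exact hΦ.2 z hadj.symm (by rw [d1, SimpleGraph.dist_self]) g hg hz' hz
    · intro w hw hdw k hk hkx hkw
      by_cases hzx : z = x
      · subst hzx
        have d1 : T.dist z z' = 1 := SimpleGraph.dist_eq_one_iff_adj.2 hadj
        have d2 : T.dist w z' = 0 := by omega
        have hwz : w = z' := hc.dist_eq_zero_iff.1 d2
        subst hwz
        refine hratio g hg k hk hz hkx ?_ (hΦ.1 rfl)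
        refine hF2 (g⁻¹ * k) (g⁻¹ • z) hz (k⁻¹ • z) hkx (g⁻¹ • w) hz' (k⁻¹ • w) hkw
          (hact k⁻¹ _ _ hadj) ?_ ?_
        · rw [mul_smul, smul_inv_smul]
        · rw [mul_smul, smul_inv_smul]
      · refine hΦ.2 w hw ?_ k hk hkx hkw
        have c1 := T.dist_comm (u := z) (v := x)
        have c2 := T.dist_comm (u := z) (v := w)
        have c3 := T.dist_comm (u := z') (v := x)
        have c4 := T.dist_comm (u := z') (v := w)
        rcases tree_dist_adj hT hw z with h1 | h1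
        · exfalso
          apply hzx
          apply (tree_crossing hT hw hadj _ _).1
          · simp only [halfspace, Set.mem_ofPred_eq]
            omega
          · simp only [halfspace, Set.mem_ofPred_eq]
            omega
        · omega
  have hΦc : ∀ g ∈ H, ∀ s ∈ S', Φ g ((g * s) • x) → Φ (g * s) ((g * s) • x) := by
    intro g hg s hs hΦ
    refine ⟨?_, hΦ.2⟩
    intro hz
    have e1 : (g * s)⁻¹ • x = x := by
      rw [inv_smul_eq_iff, hz]
    have e2 : g⁻¹ • x = s • x := by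
      rw [inv_smul_eq_iff, ← mul_smul, hz]
    refine hratio g hg (g * s) (H.mul_mem hg (hS'H s hs)) ?_ ?_ ?_ (hΦ.1 hz)
    · rw [e2]
      exact hsD s hs
    · rw [e1]
      exact hxD
    · simpa using hF1 s hs
  have hΦd : ∀ g ∈ H, Φ g (g • x) → ∀ (n : ℕ) (z : V), T.dist z (g • x) = n → g⁻¹ • z ∈ D →
      Φ g z := by
    intro g hg h0 n
    induction n with
    | zero =>
      intro z hz _
      rw [hc.dist_eq_zero_iff.1 hz]
      exact h0
    | succ n ih =>
      intro z hz hzD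
      have hne : z ≠ g • x := by
        rintro rfl
        simp at hz
      obtain ⟨z1, hz1, e1⟩ := first_step hc hne
      have hz1D : g⁻¹ • z1 ∈ D := by
        apply hDconv _ hzD
        have k1 := hd g x (g⁻¹ • z1)
        have k2 := hd g x (g⁻¹ • z)
        have k3 := hd g⁻¹ z1 z
        rw [smul_inv_smul] at k1 k2
        have c1 := T.dist_comm (u := g • x) (v := z1)
        have c2 := T.dist_comm (u := g • x) (v := z)
        have c3 : T.dist z1 z = 1 := SimpleGraph.dist_eq_one_iff_adj.2 hz1.symm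
        omega
      exact hΦb g hg z1 z hz1D hzD hz1.symm (ih z1 (by omega) hz1D)
  have hstep : ∀ g ∈ H, ∀ s ∈ S', Φ g (g • x) → Φ (g * s) ((g * s) • x) := by
    intro g hg s hs h0
    apply hΦc g hg s hs
    apply hΦd g hg h0 _ _ rfl
    rw [← mul_smul, inv_mul_cancel_left]
    exact hsD s hs
  have hone : Φ 1 ((1 : G) • x) := by
    refine ⟨?_, ?_⟩
    · intro _
      simp only [inv_one, one_smul, ht1, mul_one]
      exact Subgroup.one_mem _
    · intro w _ hdw
      simp at hdw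
  have hall : ∀ g ∈ H, Φ g (g • x) := by
    intro g hg
    rw [← hS] at hg
    induction hg using Subgroup.closure_induction_right with
    | one => exact hone
    | mul_right g hg s hs ih =>
      rw [hS] at hg
      exact hstep g hg s (hSS' s hs) ih
    | mul_inv_cancel g hg s hs ih =>
      rw [hS] at hg
      exact hstep g hg s⁻¹ (hSS'i s hs) ih
  have hA : Subgroup.closure Γ = H ⊓ MulAction.stabilizer G x := by
    apply le_antisymm
    · rw [Subgroup.closure_le]
      exact hΓ1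
    · intro g hgm
      obtain ⟨hg, hgx⟩ := Subgroup.mem_inf.1 hgm
      rw [MulAction.mem_stabilizer_iff] at hgx
      have h1 := (hall g hg).1 hgx
      have h2 : g⁻¹ • x = x := by
        rw [inv_smul_eq_iff, hgx]
      rw [h2, ht1, mul_one] at h1
      exact h1
  exact ⟨hΓfin.toFinset, by rw [Set.Finite.coe_toFinset, hA]⟩

end Pool.Agent.LR
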