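import Pool.Agent.Lib.MP_836f52_al_LR.Split
import Pool.Agent.Lib.MP_836f52_al_LR.StabFG
import Pool.Agent.Lib.MP_836f52_al_LR.Serre

set_option autoImplicit false

/-!
Row S2: cocompact trees.

* `hull`: apply `core` with `H = ⊤` (and any vertex `x₀`); the new set of vertices is the subtype
  `↥W`, the graph is `T.induce W` (or `T.comap`), the action is the restriction (`W` is invariant).
  It is a tree: connected as `W` is convex (`first_step` and induction on the distance), acyclic as an
  induced subgraph of `T` (`SimpleGraph.IsAcyclic.comap` or `IsAcyclic.induce` or a similar lemma).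
  The distance is not needed.
* `split_tree'`: combine `split_tree`, `hull`, `stab_fg` (with `H = ⊤`) and `serre`: for a vertex `x`
  the subgroup `P = {n : N | (n : G) • x = x}` of `N` is finitely generated, as it is of finite index
  in the finitely generated group `stabilizer G x` (`Subgroup.fg_of_index_ne_zero` / Schreier; `P` is
  isomorphic to `N.subgroupOf (stabilizer G x)`); all its elements fix vertices of `S₀`
  (`split_tree`), so `P` has a fixed vertex by `serre` applied to the action of `N` on `T₀`.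
* `stab_fg_top`: reformulation of `stab_fg` for `H = ⊤`.
-/

namespace Pool.Agent.LR

open Pool.Agent.Lib.MP_836f52_al_H7

universe u v w

private lemma hull_conn {V : Type v} {T : SimpleGraph V} (hT : T.IsTree) {W : Set V}
    (hW : IsConvex T W) : ∀ (n : ℕ) (x y : W), T.dist x.1 y.1 = n →
      (T.induce W).Reachable x y := by
  intro n
  induction n with
  | zero =>
    intro x y h
    have := hT.1.dist_eq_zero_iff.1 h
    rw [Subtype.ext this]
  | succ n ih =>
    intro x y h
    have hne : x.1 ≠ y.1 := by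
      intro h1
      rw [h1] at h
      simp at h
    obtain ⟨z, hz, e⟩ := first_step hT.1 hne
    have hd : T.dist x.1 z = 1 := SimpleGraph.dist_eq_one_iff_adj.2 hz
    have hzW : z ∈ W := hW x.1 x.2 y.1 y.2 z (by omega)
    have h1 : (T.induce W).Adj x ⟨z, hzW⟩ := by simpa using hz
    exact h1.reachable.trans (ih ⟨z, hzW⟩ y (by simp only; omega))

theorem hull {G : Type u} [Group G] (hG : Group.FG G) {V : Type v} [MulAction G V]
    {T : SimpleGraph V} (h : TreeAct G T) :
    ∃ (W : Type v) (T' : SimpleGraph W) (_ : MulAction G W), TreeAct G T' ∧ Cocompact G T' ∧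
      ∃ ι : W → V, Function.Injective ι ∧ ∀ (g : G) (w : W), ι (g • w) = g • ι w := by
  obtain ⟨x₀⟩ := h.tree.1.nonempty
  obtain ⟨W, hx₀, hconv, hinv, ⟨B, hB, hB'⟩, E, hE, hE'⟩ :=
    core h ⊤ (Group.fg_def.1 hG) x₀
  let act : MulAction G W :=
    { smul := fun g w => ⟨g • w.1, hinv g (Subgroup.mem_top g) w.1 w.2⟩
      one_smul := fun w => Subtype.ext (one_smul G w.1)
      mul_smul := fun a b w => Subtype.ext (mul_smul a b w.1) }
  have hval : ∀ (g : G) (w : W), (g • w).1 = g • w.1 := fun g w => rfl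
  refine ⟨W, T.induce W, act, ?_, ?_, Subtype.val, Subtype.val_injective, hval⟩
  · refine ⟨⟨?_, h.tree.2.induce W⟩, ?_, ?_, ?_⟩
    · have : Nonempty W := ⟨⟨x₀, hx₀⟩⟩
      exact ⟨fun x y => hull_conn h.tree hconv _ x y rfl⟩
    · intro g x y hxy
      have hxy' : T.Adj x.1 y.1 := hxy
      exact h.adj g _ _ hxy'
    · intro g x y hxy h1 h2
      have hxy' : T.Adj x.1 y.1 := hxy
      exact h.noinv g _ _ hxy' (congrArg Subtype.val h1) (congrArg Subtype.val h2)
    · intro x y hxy
      have hxy' : T.Adj x.1 y.1 := hxy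
      apply (h.fin _ _ hxy').subset
      rintro g ⟨h1, h2⟩
      exact ⟨congrArg Subtype.val h1, congrArg Subtype.val h2⟩
  · refine ⟨⟨Subtype.val ⁻¹' B, hB.preimage Subtype.val_injective.injOn, ?_⟩,
      ⟨(fun p : W × W => ((p.1 : V), (p.2 : V))) ⁻¹' E, hE.preimage ?_, ?_⟩⟩
    · intro x
      obtain ⟨g, _, b, hb, hgb⟩ := hB' x.1 x.2
      have hbW : b ∈ W := by
        have h1 := hinv g⁻¹ (Subgroup.mem_top _) x.1 x.2
        rwa [← hgb, inv_smul_smul] at h1
      exact ⟨g, ⟨b, hbW⟩, hb, Subtype.ext hgb⟩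
    · rintro ⟨a, b⟩ _ ⟨c, d⟩ _ h1
      simp only [Prod.mk.injEq] at h1
      exact Prod.ext (Subtype.ext h1.1) (Subtype.ext h1.2)
    · intro x y hxy
      have hxy' : T.Adj x.1 y.1 := hxy
      obtain ⟨g, _, b, hb, h1, h2⟩ := hE' x.1 x.2 y.1 y.2 hxy'
      have hb1 : b.1 ∈ W := by
        have h3 := hinv g⁻¹ (Subgroup.mem_top _) x.1 x.2
        rwa [← h1, inv_smul_smul] at h3
      have hb2 : b.2 ∈ W := by
        have h3 := hinv g⁻¹ (Subgroup.mem_top _) y.1 y.2
        rwa [← h2, inv_smul_smul] at h3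
      exact ⟨g, (⟨b.1, hb1⟩, ⟨b.2, hb2⟩), hb, Subtype.ext h1, Subtype.ext h2⟩

theorem stab_fg_top {G : Type u} [Group G] (hG : Group.FG G) {V : Type v} [MulAction G V]
    {T : SimpleGraph V} (h : TreeAct G T) (x : V) : Group.FG (MulAction.stabilizer G x) := by
  have h1 := stab_fg h ⊤ (Group.fg_def.1 hG) x
  rw [top_inf_eq] at h1
  exact (Group.fg_iff_subgroup_fg _).2 h1

theorem split_tree' {G : Type u} [Group G] (hG : Group.FG G) (N : Subgroup G) (hn : N.Normal)
    (hf : N.FiniteIndex) {S₀ : Type w} {T₀ : SimpleGraph S₀} [MulAction N S₀]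
    (h₀ : TreeAct N T₀) :
    ∃ (S : Type u) (T : SimpleGraph S) (_ : MulAction G S), TreeAct G T ∧ Cocompact G T ∧
      (∀ x : S, Group.FG (MulAction.stabilizer G x)) ∧
      ∀ x : S, ∃ z : S₀, ∀ n : N, (n : G) • x = x → n • z = z := by
  obtain ⟨S, T, _, hT, hell⟩ := split_tree hG N hn hf h₀
  obtain ⟨W, T', _, hT', hco, ι, hinj, hι⟩ := hull hG hT
  refine ⟨W, T', inferInstance, hT', hco, fun x => stab_fg_top hG hT' x, fun x => ?_⟩
  let P : Subgroup N := (MulAction.stabilizer G x).comap N.subtype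
  have hP : P.FG := by
    rw [← Group.fg_iff_subgroup_fg]
    have := stab_fg_top hG hT' x
    have : N.FiniteIndex := hf
    have : Group.FG (N.subgroupOf (MulAction.stabilizer G x)) :=
      Subgroup.fg_of_index_ne_zero _
    let f : N.subgroupOf (MulAction.stabilizer G x) →* P :=
      { toFun := fun k => ⟨⟨((k : MulAction.stabilizer G x) : G), k.2⟩, k.1.2⟩
        map_one' := rfl
        map_mul' := fun _ _ => rfl }
    apply Group.fg_of_surjective (f := f)
    rintro ⟨⟨n, hn1⟩, hn2⟩
    exact ⟨⟨⟨n, hn2⟩, hn1⟩, rfl⟩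
  obtain ⟨z, hz⟩ := serre h₀.tree h₀.adj P hP (by
    intro n hn1
    apply hell n (ι x)
    have h1 : (n : G) • x = x := hn1
    rw [← hι, h1])
  exact ⟨z, fun n hn1 => hz n hn1⟩

end Pool.Agent.LR
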