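import Pool.Agent.Lib.MP_836f52_al_LR.DepthF
import Pool.Agent.Lib.MP_836f52_al_LR.FFam
import Pool.Agent.Lib.MP_836f52_al_LR.Corr
import Pool.Agent.Lib.MP_836f52_al_H7.VF.FixedPoint

set_option autoImplicit false

/-!
Row G4: `HasF` for groups acting on trees with finite edge stabilisers.

Let `D` be finite, `α, β : D →* G` conjugate modulo every normal subgroup of finite index.  Let `K` be
as in `depth_f`, and `Z`, `W`, `c₀` as in `ffam`.  Let `Γ = G × D` act on `V` through `G`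
(`prodAct`).  Apply `corr` with `H = ⊥`, the subgroup `K × 1` (`K.prod ⊥`), `r = False`:
 * `hfin`: the stabiliser in `Γ` of an edge is finite;
 * `hKV`: `hc.vert` and `K` has finite index in `G`;
 * `FinMod ⊥ A` iff `A` is finite; `FreeOn ⊥` is trivial;
 * `hmarks`: for `Δ` fixing the adjacent vertices `x`, `x'`: `GoodAt K α x Δ ↔ GoodAt K α x' Δ` by
   `goodAt_edge` (applied twice), so the differences `marks Z - marks W` are the same at `x` and `x'`.
It gives finite `Γ`-sets `Q` and `C`, `K × 1` acting trivially on `C`.  Let `M₁` be the kernel of the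
action of `G` on `Q` (`g ↦ (g, 1)`), normal of finite index, and `M = M₁ ⊓ K`.  By assumption there is
`g₀` with `(g₀ * α d * g₀⁻¹)⁻¹ * β d ∈ M` for all `d`.
`α(D)` fixes a vertex `x` and `β(D)` fixes a vertex `x'` (`VF.finite_fixed`).  Let
`Δα = {(α d, d)}`, `Δβ = {(β d, d)}`, subgroups of `Γ`.
`GoodAt K α x Δα` (with `δ = α`), so `marks Q Δα = marks C Δα + c₀` (from the last property of `corr`
for `x`).  `z ↦ (g₀, 1) • z` is a bijection from the fixed points of `Δα` to those of `Δβ`, in `Q` and in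
`C`, as `(β d, d) = (g₀, 1) (α d, d) (g₀, 1)⁻¹ (m, 1)` with `m ∈ M` (`marks_bot`).  So
`marks Q Δβ = marks C Δβ + c₀`, hence `marks Z_x' Δβ = marks W_x' Δβ + c₀`, so `GoodAt K α x' Δβ`:
there is `δ` conjugate to `α`, fixing `x'`, with `grF K δ = Δβ.map (qF K) = grF K β`, that is
`δ d ≡ β d` modulo `K`.  Both `δ` and `β` are in `FSet T α β x'`, so `β` is conjugate to `δ`, hence to `α`.
-/

namespace Pool.Agent.LR

open Pool.Agent.Lib.MP_836f52_al_H7

universe u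

private theorem g4_map_graph {G D : Type u} [Group G] [Group D] (K : Subgroup G) [K.Normal]
    (δ : D →* G) : ((δ.prod (MonoidHom.id D)).range).map (qF K) = grF K δ := by
  ext p
  constructor
  · rintro ⟨_, ⟨d, rfl⟩, rfl⟩
    exact ⟨d, rfl⟩
  · rintro ⟨d, rfl⟩
    exact ⟨_, ⟨d, rfl⟩, rfl⟩

private theorem g4_marks_eq {G D Y : Type u} [Group G] [Group D] [MulAction (G × D) Y]
    (α β : D →* G) (g₀ : G) (M : Subgroup G)
    (hM : ∀ m ∈ M, ∀ y : Y, ((m, 1) : G × D) • y = y)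
    (h : ∀ d, (g₀ * α d * g₀⁻¹)⁻¹ * β d ∈ M) :
    marks (⊥ : Subgroup (G × D)) (Set.univ : Set Y) (α.prod (MonoidHom.id D)).range =
      marks (⊥ : Subgroup (G × D)) (Set.univ : Set Y) (β.prod (MonoidHom.id D)).range := by
  have key : ∀ (d : D) (y : Y),
      ((β d, d) : G × D) • ((g₀, 1) : G × D) • y = ((g₀, 1) : G × D) • ((α d, d) : G × D) • y := by
    intro d y
    have h1 := hM _ (h d) (((g₀, 1) : G × D) • y)
    have h2 : ((β d, d) : G × D) * (g₀, 1) = (g₀, 1) * (α d, d) * (g₀, 1)⁻¹ *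
        (((g₀ * α d * g₀⁻¹)⁻¹ * β d, 1) * (g₀, 1)) := by
      ext <;> simp [mul_assoc]
    have h3 : ((g₀, 1) * (α d, d) * (g₀, 1)⁻¹ : G × D) • ((g₀, 1) : G × D) • y =
        ((g₀, 1) : G × D) • ((α d, d) : G × D) • y := by
      rw [← mul_smul, ← mul_smul, inv_mul_cancel_right]
    calc ((β d, d) : G × D) • ((g₀, 1) : G × D) • y
        = (((β d, d) : G × D) * (g₀, 1)) • y := (mul_smul _ _ _).symm
      _ = ((g₀, 1) * (α d, d) * (g₀, 1)⁻¹ : G × D) •
            ((((g₀ * α d * g₀⁻¹)⁻¹ * β d, 1) : G × D) • ((g₀, 1) : G × D) • y) := by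
          rw [h2, mul_smul, mul_smul (((g₀ * α d * g₀⁻¹)⁻¹ * β d, 1) : G × D)]
      _ = _ := by rw [h1, h3]
  rw [marks_bot, marks_bot]
  have himg : {y : Y | y ∈ Set.univ ∧ ∀ d ∈ (β.prod (MonoidHom.id D)).range, d • y = y} =
      (fun y : Y => ((g₀, 1) : G × D) • y) ''
        {y : Y | y ∈ Set.univ ∧ ∀ d ∈ (α.prod (MonoidHom.id D)).range, d • y = y} := by
    ext w
    constructor
    · rintro ⟨-, hw⟩
      refine ⟨((g₀, 1) : G × D)⁻¹ • w, ⟨Set.mem_univ _, ?_⟩, smul_inv_smul _ _⟩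
      rintro _ ⟨d, rfl⟩
      change ((α d, d) : G × D) • ((g₀, 1) : G × D)⁻¹ • w = ((g₀, 1) : G × D)⁻¹ • w
      have h1 := key d (((g₀, 1) : G × D)⁻¹ • w)
      have h0 : ((β d, d) : G × D) • w = w := hw _ ⟨d, rfl⟩
      rw [smul_inv_smul, h0] at h1
      rw [eq_comm, inv_smul_eq_iff]
      exact h1
    · rintro ⟨y, ⟨-, hy⟩, rfl⟩
      refine ⟨Set.mem_univ _, ?_⟩
      rintro _ ⟨d, rfl⟩
      change ((β d, d) : G × D) • ((g₀, 1) : G × D) • y = ((g₀, 1) : G × D) • y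
      rw [key d y]
      congr 1
      exact hy _ ⟨d, rfl⟩
  rw [himg, Set.ncard_image_of_injective]
  exact MulAction.injective _

private theorem g4_finite_of_finMod {Γ Y : Type u} [Group Γ] [MulAction Γ Y]
    (h : FinMod (⊥ : Subgroup Γ) (Set.univ : Set Y)) : Finite Y := by
  obtain ⟨B, hB, hcov⟩ := h
  have h1 : (Set.univ : Set Y) ⊆ B := by
    intro y hy
    obtain ⟨γ, hγ, b, hb, rfl⟩ := hcov y hy
    rw [Subgroup.mem_bot] at hγ
    subst hγ
    rwa [one_smul]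
  exact Set.finite_univ_iff.1 (hB.subset h1)

private theorem g4_finMod {Γ Y : Type u} [Group Γ] [MulAction Γ Y] {A : Set Y} (h : A.Finite) :
    FinMod (⊥ : Subgroup Γ) A :=
  ⟨A, h, fun y hy => ⟨1, Subgroup.mem_bot.2 rfl, y, hy, one_smul _ _⟩⟩

private theorem g4_free {Γ Y : Type u} [Group Γ] [MulAction Γ Y] (A : Set Y) :
    FreeOn (⊥ : Subgroup Γ) A := fun _ hh _ _ _ => Subgroup.mem_bot.1 hh

private theorem g4_cover {G V D : Type u} [Group G] [MulAction G V] [Group D] (K : Subgroup G)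
    (hKn : K.Normal) (hKf : K.FiniteIndex)
    (hv : ∃ B : Set V, B.Finite ∧ ∀ x : V, ∃ g : G, ∃ b ∈ B, g • b = x) :
    letI : MulAction (G × D) V := prodAct G D V
    ∃ B : Set V, B.Finite ∧ ∀ x, ∃ k ∈ K.prod (⊥ : Subgroup D), ∃ b ∈ B, k • b = x := by
  obtain ⟨B, hB, hcov⟩ := hv
  have : Finite (G ⧸ K) := inferInstance
  refine ⟨⋃ q : G ⧸ K, (fun b => q.out • b) '' B,
    Set.finite_iUnion fun q => hB.image _, ?_⟩
  intro x
  obtain ⟨g, b, hb, rfl⟩ := hcov x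
  have h1 : (((g : G ⧸ K).out : G) : G ⧸ K) = (g : G ⧸ K) := Quotient.out_eq' _
  have h2 : ((g : G ⧸ K).out)⁻¹ * g ∈ K := QuotientGroup.eq.1 h1
  have h3 : g * ((g : G ⧸ K).out)⁻¹ ∈ K := by
    have h5 := hKn.conj_mem _ h2 (g : G ⧸ K).out
    simpa [mul_assoc] using h5
  refine ⟨(g * ((g : G ⧸ K).out)⁻¹, 1), ⟨h3, Subgroup.mem_bot.2 rfl⟩, (g : G ⧸ K).out • b,
    Set.mem_iUnion.2 ⟨_, b, hb, rfl⟩, ?_⟩
  change (g * ((g : G ⧸ K).out)⁻¹) • (g : G ⧸ K).out • b = g • b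
  rw [mul_smul, inv_smul_smul]

private theorem g4_hfin {G V D : Type u} [Group G] [MulAction G V] [Group D] [Finite D]
    {T : SimpleGraph V} (h : TreeAct G T) :
    letI : MulAction (G × D) V := prodAct G D V
    ∀ x x', T.Adj x x' → ((⊥ : Subgroup (G × D)).subgroupOf
      (MulAction.stabilizer (G × D) x ⊓ MulAction.stabilizer (G × D) x')).FiniteIndex := by
  let _ : MulAction (G × D) V := prodAct G D V
  intro x x' hx
  have h1 := h.fin x x' hx
  have h2 : ({g : G | g • x = x ∧ g • x' = x'} ×ˢ (Set.univ : Set D)).Finite :=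
    h1.prod Set.finite_univ
  have h3 : Finite ↥(MulAction.stabilizer (G × D) x ⊓ MulAction.stabilizer (G × D) x') := by
    apply Set.Finite.to_subtype
    refine h2.subset ?_
    rintro γ ⟨hγ1, hγ2⟩
    exact ⟨⟨hγ1, hγ2⟩, Set.mem_univ _⟩
  infer_instance

theorem tree_f {G V : Type u} [Group G] [MulAction G V] {T : SimpleGraph V}
    (h : TreeAct G T) (hc : Cocompact G T) (hF : ∀ x : V, HasF (MulAction.stabilizer G x))
    (hrf : ∀ x : V, ResFin (MulAction.stabilizer G x)) : HasF G := by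
  intro D _ _ α β hconj
  obtain ⟨K, hKn, hKf, hKe, hK⟩ := depth_f h hc hF hrf α β
  have := hKn
  let act : MulAction (G × D) V := prodAct G D V
  obtain ⟨Z, W, iZ, iW, πZ, πW, hπZ, hπW, fZ, fW, hKW, c₀, hc₀, hmk⟩ := ffam (V := V) K hKf α
  obtain ⟨Q, C, iQ, iC, p, -, -, -, hQf, hCK, -, hQC⟩ := corr (Γ := G × D) (V := V) (T := T)
    ⟨h.tree, fun γ x y hxy => h.adj γ.1 x y hxy, fun γ x y hxy => h.noinv γ.1 x y hxy⟩
    (⊥ : Subgroup (G × D)) (K.prod (⊥ : Subgroup D)) inferInstance inferInstance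
    (fun γ hγ x => by
      rw [Subgroup.mem_bot] at hγ
      rw [hγ, one_smul])
    (g4_hfin h) (g4_cover K hKn hKf hc.vert) πZ hπZ πW hπW (g4_free _) (g4_free _)
    (fun x => g4_finMod (fZ x)) (fun x => g4_finMod (fW x))
    (fun k hk w hkw => by
      obtain ⟨k1, k2⟩ := k
      obtain ⟨hk1, hk2⟩ := hk
      have hk2' : k2 = 1 := hk2
      subst hk2'
      exact hKW k1 hk1 w hkw)
    (fun x x' hx Δ hΔ _ => by
      have hΔ1 : ∀ d ∈ Δ, d.1 • x = x := fun d hd => (hΔ d hd).1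
      have hΔ2 : ∀ d ∈ Δ, d.1 • x' = x' := fun d hd => (hΔ d hd).2
      have g1 : GoodAt K α x Δ → GoodAt K α x' Δ :=
        goodAt_edge α β K hKe hK x x' hx Δ (fun d hd => ⟨hΔ1 d hd, hΔ2 d hd⟩)
      have g2 : GoodAt K α x' Δ → GoodAt K α x Δ :=
        goodAt_edge α β K hKe hK x' x hx.symm Δ (fun d hd => ⟨hΔ2 d hd, hΔ1 d hd⟩)
      rcases hmk x Δ hΔ1 with ⟨a1, a2⟩ | ⟨a1, a2⟩ <;>
      rcases hmk x' Δ hΔ2 with ⟨b1, b2⟩ | ⟨b1, b2⟩
      · omega
      · exact absurd (g1 a1) b1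
      · exact absurd (g2 b1) a1
      · omega)
    (fun _ _ => False) (fun _ _ h => h.elim) (fun _ _ h => h.elim) (fun _ _ _ h => h.elim)
    (fun _ _ _ h => h.elim)
  have : Finite Q := g4_finite_of_finMod hQf
  let ρ : G →* Equiv.Perm Q := (MulAction.toPermHom (G × D) Q).comp (MonoidHom.inl G D)
  have hρf : ρ.ker.FiniteIndex := Subgroup.finiteIndex_ker ρ
  have hMf : (ρ.ker ⊓ K).FiniteIndex := by
    have := hρf
    have := hKf
    infer_instance
  obtain ⟨g₀, hg₀⟩ := hconj (ρ.ker ⊓ K) inferInstance hMf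
  have hMQ : ∀ m ∈ ρ.ker ⊓ K, ∀ y : Q, ((m, 1) : G × D) • y = y := by
    intro m hm y
    have h1 : ρ m = 1 := MonoidHom.mem_ker.1 hm.1
    have h2 := congrArg (fun σ : Equiv.Perm Q => σ y) h1
    exact h2
  have hMC : ∀ m ∈ ρ.ker ⊓ K, ∀ y : C, ((m, 1) : G × D) • y = y := by
    intro m hm y
    exact hCK _ ⟨hm.2, Subgroup.mem_bot.2 rfl⟩ y
  have hmQ := g4_marks_eq (Y := Q) α β g₀ (ρ.ker ⊓ K) hMQ hg₀
  have hmC := g4_marks_eq (Y := C) α β g₀ (ρ.ker ⊓ K) hMC hg₀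
  obtain ⟨x, hx⟩ := VF.finite_fixed h.tree h.adj h.noinv α.range
    (Finite.of_surjective α.rangeRestrict α.rangeRestrict_surjective)
  obtain ⟨x', hx'⟩ := VF.finite_fixed h.tree h.adj h.noinv β.range
    (Finite.of_surjective β.rangeRestrict β.rangeRestrict_surjective)
  have hΔα : ∀ d ∈ (α.prod (MonoidHom.id D)).range, d.1 • x = x := by
    rintro _ ⟨d, rfl⟩
    exact hx _ ⟨d, rfl⟩
  have hΔβ : ∀ d ∈ (β.prod (MonoidHom.id D)).range, d.1 • x' = x' := by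
    rintro _ ⟨d, rfl⟩
    exact hx' _ ⟨d, rfl⟩
  have hgα : GoodAt K α x (α.prod (MonoidHom.id D)).range :=
    ⟨α, ⟨1, fun d => by simp⟩, fun d => hx _ ⟨d, rfl⟩, g4_map_graph K α⟩
  have e1 := hQC x _ hΔα
  have e2 := hQC x' _ hΔβ
  rcases hmk x _ hΔα with ⟨-, a2⟩ | ⟨a1, -⟩
  · rcases hmk x' _ hΔβ with ⟨b1, -⟩ | ⟨-, b2⟩
    · obtain ⟨δ, ⟨g, hg⟩, hδx, hδ⟩ := b1
      rw [g4_map_graph] at hδ
      have hmod : ∀ d, (δ d)⁻¹ * β d ∈ K := by
        intro d
        have h1 : (((β d : G ⧸ K), d) : (G ⧸ K) × D) ∈ grF K β := (mem_grF K β _).2 rfl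
        rw [hδ, mem_grF] at h1
        exact QuotientGroup.eq.1 h1.symm
      obtain ⟨g', hg'⟩ := hK x' δ β ⟨hδx, Or.inl ⟨g, hg⟩⟩
        ⟨fun d => hx' _ ⟨d, rfl⟩, Or.inr (Or.inl ⟨1, fun d => by simp⟩)⟩ hmod
      refine ⟨g' * g, fun d => ?_⟩
      rw [hg' d, hg d]
      simp [mul_assoc]
    · exfalso
      omega
  · exact absurd hgα a1

end Pool.Agent.LR
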