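import Pool.Agent.Lib.MP_836f52_al_LR.TreeLR
import Pool.Agent.Lib.MP_836f52_al_LR.TreeF
import Pool.Agent.Lib.MP_836f52_al_LR.Hull

set_option autoImplicit false

/-!
Row G5: groups acting on trees with finite edge stabilisers and good vertex stabilisers are good.

Let `G` be finitely generated, `K'` a subgroup of finite index, `f : K' →* K` injective.  Let
`N = K'.normalCore`, and let it act on `V` through `f` (`MulAction.compHom`); `TreeAct N T` (the edge
stabilisers embed in those of `K`).  `split_tree'` gives a tree `S` for `G`, with `TreeAct`, `Cocompact`,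
finitely generated stabilisers, such that for every vertex `x` of `S` there is `z : V` with: every
`n ∈ N` fixing `x` satisfies `f n • z = z`.  So `N ⊓ stabilizer G x`, of finite index in
`stabilizer G x`, embeds in the good group `stabilizer K z`; by `Good.of_injective` and `Good.of_fi`
`stabilizer G x` is good; it has (LR) and `HasF` by `Good.lr_f` and is residually finite by
`resFin_of_hasLR`.  Apply `tree_lr` and `tree_f`.
-/

namespace Pool.Agent.LR

open Pool.Agent.Lib.MP_836f52_al_H7

universe u v

theorem good_tree {K : Type u} [Group K] {V : Type v} [MulAction K V] {T : SimpleGraph V}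
    (h : TreeAct K T) (hgood : ∀ x : V, Good (MulAction.stabilizer K x)) : Good K := by
  intro G _ hG K' hK' f hf
  let N : Subgroup G := K'.normalCore
  have hN : N.Normal := K'.normalCore_normal
  have hNf : N.FiniteIndex := K'.finiteIndex_normalCore
  let fN : N →* K := f.comp (Subgroup.inclusion K'.normalCore_le)
  have hfN : Function.Injective fN := hf.comp (Subgroup.inclusion_injective _)
  let _ : MulAction N V := MulAction.compHom V fN
  have hsm : ∀ (n : N) (x : V), n • x = fN n • x := fun _ _ => rfl
  have h₀ : TreeAct N T :=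
    { tree := h.tree
      adj := fun g x y hxy => h.adj (fN g) x y hxy
      noinv := fun g x y hxy e e' => h.noinv (fN g) x y hxy e e'
      fin := fun x y hxy => (h.fin x y hxy).preimage hfN.injOn }
  obtain ⟨S, T', _, hT', hc, hfg, hz⟩ := split_tree' hG N hN hNf h₀
  have hgoodS : ∀ x : S, Good (MulAction.stabilizer G x) := by
    intro x
    obtain ⟨z, hz'⟩ := hz x
    let L : Subgroup (MulAction.stabilizer G x) := N.subgroupOf (MulAction.stabilizer G x)
    have hL : L.FiniteIndex := inferInstance
    let φ : L →* MulAction.stabilizer K z :=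
      { toFun := fun n => ⟨fN ⟨n.1.1, n.2⟩, MulAction.mem_stabilizer_iff.2
          (hz' ⟨n.1.1, n.2⟩ (MulAction.mem_stabilizer_iff.1 n.1.2))⟩
        map_one' := Subtype.ext (map_one fN)
        map_mul' := fun a b => Subtype.ext (map_mul fN ⟨a.1.1, a.2⟩ ⟨b.1.1, b.2⟩) }
    refine Good.of_fi L hL ((hgood z).of_injective φ fun a b hab => ?_)
    have h1 : fN ⟨a.1.1, a.2⟩ = fN ⟨b.1.1, b.2⟩ := congrArg Subtype.val hab
    have h2 := congrArg Subtype.val (hfN h1)
    exact Subtype.ext (Subtype.ext h2)
  have hlf := fun x => (hgoodS x).lr_f (hfg x)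
  exact ⟨tree_lr hT' hc hfg hgoodS, tree_f hT' hc (fun x => (hlf x).2)
    fun x => resFin_of_hasLR (hlf x).1⟩

end Pool.Agent.LR
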