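import Mathlib

set_option autoImplicit false
set_option linter.style.haveILetI false

/-!
Row R3: connected graphs without induced path or cycle on four vertices have a dominating vertex.

Let `v` be a vertex of the largest degree (`V` is finite and not empty).  Suppose that some `w ≠ v` is
not adjacent to `v`.  On a shortest walk from `v` to `w` the third vertex is at distance `2` from `v`; so we
may assume that `v ~ u ~ w`, `v ≁ w`, `v ≠ w`.  The neighbours of `u` include `v` and `w`, the neighbours of
`v` include `u` and do not include `w`, and `deg u ≤ deg v`.  If every neighbour `t ≠ u` of `v` were a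
neighbour of `u` then `N(u) ⊇ (N(v) \ {u}) ∪ {v, w}` would have more elements than `N(v)`.  So there is
`t ~ v`, `t ≠ u`, `t ≁ u`.  Then `t ~ v ~ u ~ w` contradicts the assumption.
-/

namespace Pool.Agent.LR

universe u

theorem exists_dominating {V : Type u} [Finite V] (Γ : SimpleGraph V) (hc : Γ.Connected)
    (h : ∀ a b c d : V, Γ.Adj a b → Γ.Adj b c → Γ.Adj c d → ¬ Γ.Adj a c → ¬ Γ.Adj b d →
      a ≠ c → b ≠ d → False) : ∃ v : V, ∀ w, w ≠ v → Γ.Adj v w := by
  classical
  haveI := Fintype.ofFinite V
  haveI := hc.nonempty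
  obtain ⟨v, hv⟩ := Finite.exists_max (fun v : V => Γ.degree v)
  refine ⟨v, fun w₀ hw₀ => ?_⟩
  by_contra hvw₀
  obtain ⟨p⟩ := hc.preconnected v w₀
  obtain ⟨d, -, hd1, hd2⟩ := p.exists_boundary_dart {z | z = v ∨ Γ.Adj v z} (Or.inl rfl) (by
    rintro (h1 | h1)
    · exact hw₀ h1
    · exact hvw₀ h1)
  obtain ⟨⟨u, w⟩, huw⟩ := d
  have huw' : Γ.Adj u w := huw
  have hw : ¬ (w = v ∨ Γ.Adj v w) := hd2
  push Not at hw
  have hu : u = v ∨ Γ.Adj v u := hd1
  have hvu : Γ.Adj v u := by
    rcases hu with rfl | hu
    · exact absurd huw' hw.2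
    · exact hu
  have hex : ∃ t, Γ.Adj v t ∧ t ≠ u ∧ ¬ Γ.Adj t u := by
    by_contra hcon
    push Not at hcon
    have hsub : insert w (insert v ((Γ.neighborFinset v).erase u)) ⊆ Γ.neighborFinset u := by
      intro t ht
      rw [Finset.mem_insert, Finset.mem_insert, Finset.mem_erase, SimpleGraph.mem_neighborFinset]
        at ht
      rw [SimpleGraph.mem_neighborFinset]
      rcases ht with rfl | rfl | ⟨h1, h2⟩
      · exact huw'
      · exact hvu.symm
      · exact (hcon t h2 h1).symm
    have h1 := Finset.card_le_card hsub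
    have h2 : v ∉ (Γ.neighborFinset v).erase u := by
      rw [Finset.mem_erase, SimpleGraph.mem_neighborFinset]
      exact fun h => Γ.irrefl h.2
    have h3 : w ∉ insert v ((Γ.neighborFinset v).erase u) := by
      rw [Finset.mem_insert, Finset.mem_erase, SimpleGraph.mem_neighborFinset]
      rintro (h | h)
      · exact hw.1 h
      · exact hw.2 h.2
    rw [Finset.card_insert_of_notMem h3, Finset.card_insert_of_notMem h2, Finset.card_erase_of_mem
      ((SimpleGraph.mem_neighborFinset _ _ _).mpr hvu), SimpleGraph.card_neighborFinset_eq_degree,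
      SimpleGraph.card_neighborFinset_eq_degree] at h1
    have h4 := hv u
    have h5 : 0 < Γ.degree v := (Γ.degree_pos_iff_exists_adj v).mpr ⟨u, hvu⟩
    omega
  obtain ⟨t, ht1, ht2, ht3⟩ := hex
  exact h t v u w ht1.symm hvu huw' ht3 hw.2 ht2 hw.1.symm

end Pool.Agent.LR
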