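import Mathlib

set_option autoImplicit false

/-!
# Project LR: marks

`Γ` acts on `Y`, `H` is a subgroup of `Γ`, `A` a subset of `Y`.
-/

namespace Pool.Agent.LR

universe u v w

variable {Γ : Type u} [Group Γ] {Y : Type v} [MulAction Γ Y]

/-- the orbit of `y` under the subgroup `H` -/
def orb (H : Subgroup Γ) (y : Y) : Set Y := {z | ∃ h ∈ H, h • y = z}

/-- the `H`-orbits of the points of `A` fixed by `Δ` -/
def mkset (H : Subgroup Γ) (A : Set Y) (Δ : Subgroup Γ) : Set (Set Y) :=
  {O | ∃ y ∈ A, (∀ d ∈ Δ, d • y = y) ∧ O = orb H y}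

/-- the number of `H`-orbits of points of `A` fixed by `Δ` -/
noncomputable def marks (H : Subgroup Γ) (A : Set Y) (Δ : Subgroup Γ) : ℕ := (mkset H A Δ).ncard

/-- finitely many `H`-orbits meet `A` -/
def FinMod (H : Subgroup Γ) (A : Set Y) : Prop :=
  ∃ B : Set Y, B.Finite ∧ ∀ y ∈ A, ∃ h ∈ H, ∃ b ∈ B, h • b = y

/-- `H` acts freely on `A` -/
def FreeOn (H : Subgroup Γ) (A : Set Y) : Prop := ∀ h ∈ H, ∀ y ∈ A, h • y = y → h = 1

/-- `Γ` acts on the tree `T` without inversions -/
structure TAct (Γ : Type u) [Group Γ] {V : Type v} [MulAction Γ V] (T : SimpleGraph V) : Prop where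
  tree : T.IsTree
  adj : ∀ (g : Γ) (x y : V), T.Adj x y → T.Adj (g • x) (g • y)
  noinv : ∀ (g : Γ) (x y : V), T.Adj x y → g • x = y → g • y = x → False

/-- the action of `G × D` on a `G`-set through the first factor -/
@[reducible] def prodAct (G : Type u) (D : Type v) (V : Type w) [Group G] [Group D]
    [MulAction G V] : MulAction (G × D) V :=
  MulAction.compHom V (MonoidHom.fst G D)

end Pool.Agent.LR
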