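import Pool.Agent.Lib.MP_836f52_al_LR.GoodBasic

set_option autoImplicit false

/-!
Row V7: conjugacy by elements of a normal subgroup of finite index.

`conj_mod_sub` (pigeonhole): suppose that for every one of the finitely many cosets `G₀ g₀` there
is `M(g₀)` such that no `g ∈ G₀` works.  The intersection `M` of the `M(g₀)` is normal of finite
index; take `g` for it and write `g = (g g₀⁻¹) g₀` with `g₀` the representative of its coset.

`conj_in_sub`: let `S = Q₀ ⋊[φ] D` (`SemidirectProduct`, `φ d` conjugation of `Q₀` by `α d`).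
`S` is finitely generated (`Q₀` has finite index in the finitely generated group `Q`, `D` is finite)
and `Q₀` (the image of `inl`) has finite index in `S` and embeds in `Q`, so `HasF S` by `Good Q`.
The homomorphisms `s_α d = (1, d)`, `s_β d = (β d (α d)⁻¹, d)` from `D` to `S` are conjugate modulo
every normal subgroup `M'` of finite index of `S`: `{x ∈ Q₀ | inl x ∈ M'}` has finite index in
`Q₀`, hence in `Q`; let `M` be its normal core in `Q` and `g ∈ Q₀` with
`(g α g⁻¹)⁻¹ β ∈ M`; then `inl g` conjugates `s_α` to `s_β` modulo `M'`.  So `s_β = s s_α s⁻¹`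
for some `s = (q, e) ∈ S`.  Looking at the second components, `e` is central in `D`, so `(1, e)`
centralises `s_α`; hence `(q, 1)` conjugates `s_α` to `s_β`, which says `β = q α q⁻¹`.
-/

namespace Pool.Agent.LR

open Pool.Agent.Lib.MP_836f52_al_H7

universe u v

private lemma pigeon_map_fg {A : Type u} {B : Type v} [Group A] [Group B] (f : A →* B)
    (h : Group.FG A) : ((⊤ : Subgroup A).map f).FG := by
  obtain ⟨S, hS⟩ := h.out
  classical
  refine ⟨S.image f, ?_⟩
  rw [← hS, MonoidHom.map_closure]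
  simp

private lemma pigeon_comap_fi {A : Type u} {B : Type v} [Group A] [Group B] (f : A →* B)
    (H : Subgroup B) (h : H.FiniteIndex) : (H.comap f).FiniteIndex := by
  constructor
  rw [Subgroup.index_comap]
  have : (H.subgroupOf f.range).FiniteIndex := by infer_instance
  exact this.index_ne_zero

theorem conj_mod_sub {G : Type u} [Group G] (G₀ : Subgroup G) (hn : G₀.Normal)
    (hf : G₀.FiniteIndex) {D : Type v} [Group D] [Finite D] (α β : D →* G)
    (h : ∀ M : Subgroup G, M.Normal → M.FiniteIndex →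
      ∃ g : G, ∀ d : D, (g * α d * g⁻¹)⁻¹ * β d ∈ M) :
    ∃ g₀ : G, ∀ M : Subgroup G, M.Normal → M.FiniteIndex →
      ∃ g ∈ G₀, ∀ d : D, (g * (g₀ * α d * g₀⁻¹) * g⁻¹)⁻¹ * β d ∈ M := by
  classical
  by_contra hcon
  push Not at hcon
  choose M hMn hMf hM using hcon
  have : Finite (G ⧸ G₀) := Subgroup.finite_quotient_of_finiteIndex
  obtain ⟨g, hg⟩ := h (⨅ q : G ⧸ G₀, M q.out)
    (Subgroup.normal_iInf_normal fun q => hMn q.out)
    (Subgroup.finiteIndex_iInf fun q => hMf q.out)
  have hmem : g * ((g : G ⧸ G₀).out)⁻¹ ∈ G₀ := by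
    have h1 : ((g : G ⧸ G₀).out)⁻¹ * g ∈ G₀ := by
      rw [← QuotientGroup.eq]
      exact QuotientGroup.out_eq' _
    have h2 := hn.conj_mem _ h1 ((g : G ⧸ G₀).out)
    simpa [mul_assoc] using h2
  obtain ⟨d, hd⟩ := hM ((g : G ⧸ G₀).out) _ hmem
  apply hd
  have h3 := (Subgroup.mem_iInf.1 (hg d)) (g : G ⧸ G₀)
  have h4 : g * ((g : G ⧸ G₀).out)⁻¹ * ((g : G ⧸ G₀).out * α d * ((g : G ⧸ G₀).out)⁻¹) *
      (g * ((g : G ⧸ G₀).out)⁻¹)⁻¹ = g * α d * g⁻¹ := by group
  rw [h4]
  exact h3

theorem conj_in_sub {Q : Type u} [Group Q] (hQ : Good Q) (hfg : Group.FG Q) (Q₀ : Subgroup Q)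
    (hn : Q₀.Normal) (hf : Q₀.FiniteIndex) {D : Type u} [Group D] [Finite D] (α β : D →* Q)
    (h0 : ∀ d, (α d)⁻¹ * β d ∈ Q₀)
    (h : ∀ M : Subgroup Q, M.Normal → M.FiniteIndex →
      ∃ g ∈ Q₀, ∀ d : D, (g * α d * g⁻¹)⁻¹ * β d ∈ M) :
    ∃ g ∈ Q₀, ∀ d : D, β d = g * α d * g⁻¹ := by
  classical
  have := hn
  have := hf
  have := hfg
  let φ : D →* MulAut Q₀ := (MulAut.conjNormal (H := Q₀)).comp α
  have hφ : ∀ (d : D) (x : Q₀), ((φ d x : Q₀) : Q) = α d * x * (α d)⁻¹ := fun d x => rfl
  have hQ0fg : Group.FG Q₀ := by infer_instance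
  -- S is finitely generated
  have hS : Group.FG (Q₀ ⋊[φ] D) := by
    rw [Group.fg_def]
    have htop : (⊤ : Subgroup (Q₀ ⋊[φ] D)) =
        (⊤ : Subgroup Q₀).map SemidirectProduct.inl ⊔
          (⊤ : Subgroup D).map SemidirectProduct.inr := by
      symm
      rw [eq_top_iff]
      intro x _
      rw [← SemidirectProduct.inl_left_mul_inr_right x]
      exact Subgroup.mul_mem_sup (Subgroup.mem_map_of_mem _ (Subgroup.mem_top _))
        (Subgroup.mem_map_of_mem _ (Subgroup.mem_top _))
    rw [htop]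
    exact (pigeon_map_fg _ hQ0fg).sup (pigeon_map_fg _ inferInstance)
  have hker : (SemidirectProduct.inl : Q₀ →* Q₀ ⋊[φ] D).range.FiniteIndex := by
    rw [SemidirectProduct.range_inl_eq_ker_rightHom]
    infer_instance
  let e : Q₀ ≃* (SemidirectProduct.inl : Q₀ →* Q₀ ⋊[φ] D).range :=
    MonoidHom.ofInjective SemidirectProduct.inl_injective
  have hF : HasF (Q₀ ⋊[φ] D) :=
    (hQ (Q₀ ⋊[φ] D) hS _ hker (Q₀.subtype.comp e.symm.toMonoidHom) (by
      intro x y hxy
      apply e.symm.injective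
      exact Subtype.ext hxy)).2
  have hmem : ∀ d, β d * (α d)⁻¹ ∈ Q₀ := by
    intro d
    have := hn.conj_mem _ (h0 d) (α d)
    simpa [mul_assoc] using this
  let sβ : D →* Q₀ ⋊[φ] D :=
    { toFun := fun d => ⟨⟨β d * (α d)⁻¹, hmem d⟩, d⟩
      map_one' := by
        ext
        · simp
        · rfl
      map_mul' := by
        intro d d'
        ext
        · simp only [SemidirectProduct.mul_left, Subgroup.coe_mul, hφ, map_mul]
          group
        · rfl }
  have hsβ : ∀ d, sβ d = SemidirectProduct.inl ⟨β d * (α d)⁻¹, hmem d⟩ *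
      SemidirectProduct.inr d := by
    intro d
    ext <;> simp [sβ]
  obtain ⟨s, hs⟩ := hF D SemidirectProduct.inr sβ (by
    intro M' hM'n hM'f
    have := hM'n
    have := hM'f
    have hfi : ((M'.comap SemidirectProduct.inl).map Q₀.subtype).FiniteIndex := by
      constructor
      rw [Subgroup.index_map_subtype]
      exact mul_ne_zero (pigeon_comap_fi _ _ hM'f).index_ne_zero hf.index_ne_zero
    obtain ⟨g, hg, hgd⟩ := h ((M'.comap SemidirectProduct.inl).map Q₀.subtype).normalCore
      (Subgroup.normalCore_normal _) (by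
        have := hfi
        infer_instance)
    refine ⟨SemidirectProduct.inl ⟨g, hg⟩, fun d => ?_⟩
    have h1 := Subgroup.normalCore_le _ (hgd d)
    obtain ⟨x, hx, hxe⟩ := Subgroup.mem_map.1 h1
    have hx' : (x : Q) = (g * α d * g⁻¹)⁻¹ * β d := hxe
    have h3 : x = ⟨g, hg⟩ * φ d⁻¹ (⟨g, hg⟩⁻¹ * ⟨β d * (α d)⁻¹, hmem d⟩) := by
      apply Subtype.ext
      rw [hx', Subgroup.coe_mul, hφ, Subgroup.coe_mul, Subgroup.coe_inv, map_inv]
      group
    have h2 : (SemidirectProduct.inl ⟨g, hg⟩ * SemidirectProduct.inr d *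
        (SemidirectProduct.inl ⟨g, hg⟩)⁻¹)⁻¹ * sβ d = SemidirectProduct.inl x := by
      rw [hsβ, h3, map_mul, SemidirectProduct.inl_aut, map_mul, map_inv, map_inv, inv_inv]
      group
    rw [h2]
    exact hx)
  refine ⟨(s.left : Q), s.left.2, fun d => ?_⟩
  have h1 := hs d
  have hr : d = s.right * d * s.right⁻¹ := by
    have := congrArg SemidirectProduct.right h1
    simpa [sβ] using this
  have h4 : (SemidirectProduct.inl (⟨β d * (α d)⁻¹, hmem d⟩ : Q₀) : Q₀ ⋊[φ] D) =
      SemidirectProduct.inl (s.left * φ d s.left⁻¹) := by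
    rw [hsβ] at h1
    rw [eq_mul_inv_of_mul_eq h1, map_mul, SemidirectProduct.inl_aut]
    have h9 : s = SemidirectProduct.inl s.left * SemidirectProduct.inr s.right :=
      (SemidirectProduct.inl_left_mul_inr_right s).symm
    have h6 : (SemidirectProduct.inr d : Q₀ ⋊[φ] D) = SemidirectProduct.inr s.right *
        SemidirectProduct.inr d * (SemidirectProduct.inr s.right)⁻¹ := by
      rw [← map_inv, ← map_mul, ← map_mul, ← hr]
    calc s * SemidirectProduct.inr d * s⁻¹ * (SemidirectProduct.inr d)⁻¹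
        = (SemidirectProduct.inl s.left * SemidirectProduct.inr s.right) *
          SemidirectProduct.inr d *
          (SemidirectProduct.inl s.left * SemidirectProduct.inr s.right)⁻¹ *
          (SemidirectProduct.inr d)⁻¹ := by rw [← h9]
      _ = SemidirectProduct.inl s.left * (SemidirectProduct.inr s.right *
        SemidirectProduct.inr d * (SemidirectProduct.inr s.right)⁻¹) *
        (SemidirectProduct.inl s.left)⁻¹ * (SemidirectProduct.inr d)⁻¹ := by group
      _ = _ := by
        rw [← h6, map_inv, map_inv]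
        group
  have h5 := congrArg (fun t : Q₀ => (t : Q)) (SemidirectProduct.inl_injective h4)
  have h7 : β d * (α d)⁻¹ = (s.left : Q) * (α d * (s.left : Q)⁻¹ * (α d)⁻¹) := h5
  have h8 := eq_mul_of_mul_inv_eq h7
  rw [h8]
  group

end Pool.Agent.LR
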