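import Mathlib

set_option autoImplicit false

/-!
# Right-angled Artin groups
-/

namespace Pool.Agent.LR

universe u v

/-- the defining relators of the right-angled Artin group of a graph: the generators `a` and `b`
commute if `a` and `b` are adjacent -/
def raagRels {V : Type u} (Γ : SimpleGraph V) : Set (FreeGroup V) :=
  {r | ∃ a b : V, Γ.Adj a b ∧
    r = FreeGroup.of a * FreeGroup.of b * (FreeGroup.of a)⁻¹ * (FreeGroup.of b)⁻¹}

/-- the right-angled Artin group of a graph -/
abbrev RAAG {V : Type u} (Γ : SimpleGraph V) : Type u := PresentedGroup (raagRels Γ)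

/-- the generators of a right-angled Artin group -/
def rof {V : Type u} (Γ : SimpleGraph V) (a : V) : RAAG Γ := PresentedGroup.of a

theorem rof_comm {V : Type u} (Γ : SimpleGraph V) {a b : V} (h : Γ.Adj a b) :
    rof Γ a * rof Γ b = rof Γ b * rof Γ a := by
  have h1 : (PresentedGroup.mk (raagRels Γ)) (FreeGroup.of a * FreeGroup.of b *
      (FreeGroup.of a)⁻¹ * (FreeGroup.of b)⁻¹) = 1 := by
    apply (QuotientGroup.eq_one_iff _).2
    exact Subgroup.subset_normalClosure ⟨a, b, h, rfl⟩
  simp only [map_mul, map_inv] at h1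
  have h2 : rof Γ a * rof Γ b * (rof Γ a)⁻¹ * (rof Γ b)⁻¹ = 1 := h1
  have h3 : rof Γ a * rof Γ b * (rof Γ a)⁻¹ = rof Γ b := mul_inv_eq_one.1 h2
  exact mul_inv_eq_iff_eq_mul.1 h3

/-- the universal property -/
def rlift {V : Type u} (Γ : SimpleGraph V) {G : Type v} [Group G] (f : V → G)
    (hf : ∀ a b, Γ.Adj a b → f a * f b = f b * f a) : RAAG Γ →* G :=
  PresentedGroup.toGroup (f := f) (rels := raagRels Γ) (by
    rintro r ⟨a, b, hab, rfl⟩
    simp [hf a b hab])

theorem rlift_rof {V : Type u} (Γ : SimpleGraph V) {G : Type v} [Group G] (f : V → G)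
    (hf : ∀ a b, Γ.Adj a b → f a * f b = f b * f a) (a : V) :
    rlift Γ f hf (rof Γ a) = f a := by
  simp [rlift, rof]

theorem rhom_ext {V : Type u} (Γ : SimpleGraph V) {G : Type v} [Group G] {f g : RAAG Γ →* G}
    (h : ∀ a, f (rof Γ a) = g (rof Γ a)) : f = g :=
  PresentedGroup.ext (rels := raagRels Γ) (fun a => h a)

end Pool.Agent.LR
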