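import Pool.Agent.Lib.MP_836f52_al_LR.RaagDefs
import Pool.Agent.Lib.MP_836f52_al_H7.Defs

set_option autoImplicit false

/-!
Row R2: right-angled Artin groups of graphs with an induced path or cycle on four vertices do not
have (LR).

Let `A = rof a`, …, `H = ⟨A, B C, D⟩` (finitely generated).  Suppose that `H` is a retract of a subgroup
`L` of finite index, `ρ : L →* H`.  Let `n > 0` be such that `B ^ n, C ^ n ∈ L` (some power of every
element is in a subgroup of finite index; take the product of two exponents).  `X = ρ (B ^ n)` commutes with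
`ρ A = A` and `Y = ρ (C ^ n)` commutes with `ρ D = D`; `X Y = ρ (B ^ n C ^ n) = ρ ((B C) ^ n) = (B C) ^ n`
(`B` and `C` commute).
Exponent sums: for a vertex `w` let `e w : RAAG Γ →* Multiplicative ℤ` be the homomorphism with
`rof w ↦ 1` and `rof z ↦ 0` for `z ≠ w` (`rlift`).  On the three generators of `H`, `e b` and `e c` agree
(`a ≠ b`, `a ≠ c`, `d ≠ b`, `d ≠ c`; `b ≠ c`), so they agree on `H`.
If `X` commutes with `A` then `e c X = 0`: let `N` be the Heisenberg group of upper unitriangular integral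
`3 × 3` matrices (or `ℤ³` with `(x, y, z) (x', y', z') = (x + x', y + y', z + z' + x y')`), and
`φ : RAAG Γ → N`, `a ↦ (1, 0, 0)`, `c ↦ (0, 1, 0)`, all other vertices to `1`; it is well defined since `a`
and `c` are not adjacent.  The second coordinate of `φ X` is `e c X`, and `φ X` commutes with `(1, 0, 0)`, which
forces the second coordinate to be `0`.  Similarly `e b Y = 0`, using `d` and `b`.
Now `e b X = e c X = 0` as `X ∈ H`, and `e b X + e b Y = e b ((B C) ^ n) = n`, a contradiction.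
-/

namespace Pool.Agent.LR

open Pool.Agent.Lib.MP_836f52_al_H7

universe u

namespace RaagNot

/-- the integral Heisenberg group -/
@[ext]
structure Hs where
  x : ℤ
  y : ℤ
  z : ℤ

instance : Mul Hs := ⟨fun p q => ⟨p.x + q.x, p.y + q.y, p.z + q.z + p.x * q.y⟩⟩
instance : One Hs := ⟨⟨0, 0, 0⟩⟩
instance : Inv Hs := ⟨fun p => ⟨-p.x, -p.y, -p.z + p.x * p.y⟩⟩

lemma mul_x (p q : Hs) : (p * q).x = p.x + q.x := rfl
lemma mul_y (p q : Hs) : (p * q).y = p.y + q.y := rfl
lemma mul_z (p q : Hs) : (p * q).z = p.z + q.z + p.x * q.y := rfl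
lemma one_x : (1 : Hs).x = 0 := rfl
lemma one_y : (1 : Hs).y = 0 := rfl
lemma one_z : (1 : Hs).z = 0 := rfl
lemma inv_x (p : Hs) : (p⁻¹).x = -p.x := rfl
lemma inv_y (p : Hs) : (p⁻¹).y = -p.y := rfl
lemma inv_z (p : Hs) : (p⁻¹).z = -p.z + p.x * p.y := rfl

instance : Group Hs := Group.ofLeftAxioms
  (fun p q r => by
    ext
    · simp only [mul_x]; ring
    · simp only [mul_y]; ring
    · simp only [mul_z, mul_x, mul_y]; ring)
  (fun p => by
    ext
    · simp only [mul_x, one_x]; ring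
    · simp only [mul_y, one_y]; ring
    · simp only [mul_z, one_x, one_z]; ring)
  (fun p => by
    ext
    · simp only [mul_x, inv_x, one_x]; ring
    · simp only [mul_y, inv_y, one_y]; ring
    · simp only [mul_z, inv_x, inv_z, one_z]; ring)

/-- the second coordinate -/
def yp : Hs →* Multiplicative ℤ where
  toFun p := Multiplicative.ofAdd p.y
  map_one' := rfl
  map_mul' _ _ := rfl

open Classical in
/-- exponent sums -/
noncomputable def ex {V : Type u} (Γ : SimpleGraph V) (w : V) : RAAG Γ →* Multiplicative ℤ :=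
  rlift Γ (fun z => if z = w then Multiplicative.ofAdd 1 else 1) fun _ _ _ => mul_comm _ _

lemma ex_self {V : Type u} (Γ : SimpleGraph V) (w : V) :
    ex Γ w (rof Γ w) = Multiplicative.ofAdd 1 := by
  rw [ex, rlift_rof, if_pos rfl]

lemma ex_ne {V : Type u} (Γ : SimpleGraph V) {w z : V} (h : z ≠ w) :
    ex Γ w (rof Γ z) = 1 := by
  rw [ex, rlift_rof, if_neg h]

open Classical in
/-- the homomorphism to the Heisenberg group -/
noncomputable def ph {V : Type u} (Γ : SimpleGraph V) (p q : V) (hpq : ¬ Γ.Adj p q) :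
    RAAG Γ →* Hs :=
  rlift Γ (fun z => if z = p then ⟨1, 0, 0⟩ else if z = q then ⟨0, 1, 0⟩ else 1) (by
    intro u v huv
    by_cases h1 : u = p
    · by_cases h2 : v = p
      · rw [if_pos h1, if_pos h2]
      · by_cases h3 : v = q
        · exact absurd (h1 ▸ h3 ▸ huv) hpq
        · rw [if_neg h2, if_neg h3, mul_one, one_mul]
    · by_cases h2 : u = q
      · by_cases h3 : v = p
        · exact absurd (h2 ▸ h3 ▸ huv).symm hpq
        · by_cases h4 : v = q
          · rw [h2, h4]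
          · rw [if_neg h3, if_neg h4, mul_one, one_mul]
      · rw [if_neg h1, if_neg h2, mul_one, one_mul])

lemma ph_p {V : Type u} (Γ : SimpleGraph V) (p q : V) (hpq : ¬ Γ.Adj p q) :
    ph Γ p q hpq (rof Γ p) = ⟨1, 0, 0⟩ := by
  rw [ph, rlift_rof, if_pos rfl]

lemma yp_ph {V : Type u} (Γ : SimpleGraph V) (p q : V) (hpq : ¬ Γ.Adj p q) (hne : p ≠ q) :
    yp.comp (ph Γ p q hpq) = ex Γ q := by
  apply rhom_ext
  intro z
  rw [MonoidHom.comp_apply, ph, rlift_rof]
  by_cases h1 : z = p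
  · rw [if_pos h1, ex_ne Γ (by rw [h1]; exact hne)]
    rfl
  · rw [if_neg h1]
    by_cases h2 : z = q
    · rw [if_pos h2, h2, ex_self]
      rfl
    · rw [if_neg h2, ex_ne Γ h2, map_one]

lemma ex_of_comm {V : Type u} (Γ : SimpleGraph V) (p q : V) (hpq : ¬ Γ.Adj p q) (hne : p ≠ q)
    (X : RAAG Γ) (hX : X * rof Γ p = rof Γ p * X) : ex Γ q X = 1 := by
  have h1 := congrArg (ph Γ p q hpq) hX
  rw [map_mul, map_mul, ph_p] at h1
  have h2 := congrArg Hs.z h1
  rw [mul_z, mul_z] at h2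
  have h3 : (ph Γ p q hpq X).y = 0 := by
    simp only [mul_zero, add_zero, one_mul, zero_add] at h2
    omega
  rw [← yp_ph Γ p q hpq hne]
  change Multiplicative.ofAdd (ph Γ p q hpq X).y = 1
  rw [h3]
  rfl

end RaagNot

open RaagNot in
theorem raag_not {V : Type u} (Γ : SimpleGraph V) {a b c d : V} (hab : Γ.Adj a b)
    (hbc : Γ.Adj b c) (hcd : Γ.Adj c d) (hac : ¬ Γ.Adj a c) (hbd : ¬ Γ.Adj b d) (hac' : a ≠ c)
    (hbd' : b ≠ d) : ¬ HasLR (RAAG Γ) := by
  classical
  intro hLR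
  set H : Subgroup (RAAG Γ) :=
    Subgroup.closure ({rof Γ a, rof Γ b * rof Γ c, rof Γ d} : Set (RAAG Γ)) with hH
  have hHfg : H.FG := ⟨{rof Γ a, rof Γ b * rof Γ c, rof Γ d}, by simp [hH]⟩
  have hAH : rof Γ a ∈ H := Subgroup.subset_closure (by simp)
  have hBCH : rof Γ b * rof Γ c ∈ H := Subgroup.subset_closure (by simp)
  have hDH : rof Γ d ∈ H := Subgroup.subset_closure (by simp)
  obtain ⟨K, hK, hHK, ρ, hρ⟩ := hLR H hHfg
  set n := K.index.factorial with hn
  have hn0 : 0 < n := Nat.factorial_pos _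
  have hpow : ∀ g : RAAG Γ, g ^ n ∈ K := by
    intro g
    exact Subgroup.pow_mem_of_index_ne_zero_of_dvd hK.index_ne_zero g
      fun m h1 h2 => Nat.dvd_factorial h1 h2
  set X : H := ρ ⟨rof Γ b ^ n, hpow _⟩ with hX
  set Y : H := ρ ⟨rof Γ c ^ n, hpow _⟩ with hY
  have hA : ρ ⟨rof Γ a, hHK hAH⟩ = ⟨rof Γ a, hAH⟩ := hρ ⟨rof Γ a, hHK hAH⟩ hAH
  have hD : ρ ⟨rof Γ d, hHK hDH⟩ = ⟨rof Γ d, hDH⟩ := hρ ⟨rof Γ d, hHK hDH⟩ hDH
  have hXA : (X : RAAG Γ) * rof Γ a = rof Γ a * X := by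
    have h1 : (⟨rof Γ b ^ n, hpow _⟩ : K) * ⟨rof Γ a, hHK hAH⟩
        = ⟨rof Γ a, hHK hAH⟩ * ⟨rof Γ b ^ n, hpow _⟩ := by
      apply Subtype.ext
      change rof Γ b ^ n * rof Γ a = rof Γ a * rof Γ b ^ n
      have h2 : Commute (rof Γ a) (rof Γ b) := rof_comm Γ hab
      exact (h2.pow_right n).eq.symm
    have h2 := congrArg ρ h1
    rw [map_mul, map_mul, hA] at h2
    exact congrArg (Subtype.val : H → RAAG Γ) h2
  have hYD : (Y : RAAG Γ) * rof Γ d = rof Γ d * Y := by
    have h1 : (⟨rof Γ c ^ n, hpow _⟩ : K) * ⟨rof Γ d, hHK hDH⟩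
        = ⟨rof Γ d, hHK hDH⟩ * ⟨rof Γ c ^ n, hpow _⟩ := by
      apply Subtype.ext
      change rof Γ c ^ n * rof Γ d = rof Γ d * rof Γ c ^ n
      have h2 : Commute (rof Γ d) (rof Γ c) := rof_comm Γ hcd.symm
      exact (h2.pow_right n).eq.symm
    have h2 := congrArg ρ h1
    rw [map_mul, map_mul, hD] at h2
    exact congrArg (Subtype.val : H → RAAG Γ) h2
  have hXY : (X : RAAG Γ) * Y = (rof Γ b * rof Γ c) ^ n := by
    have h1 : (⟨rof Γ b ^ n, hpow _⟩ : K) * ⟨rof Γ c ^ n, hpow _⟩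
        = ⟨(rof Γ b * rof Γ c) ^ n, hpow _⟩ := by
      apply Subtype.ext
      change rof Γ b ^ n * rof Γ c ^ n = (rof Γ b * rof Γ c) ^ n
      have h2 : Commute (rof Γ b) (rof Γ c) := rof_comm Γ hbc
      exact (h2.mul_pow n).symm
    have h2 := congrArg ρ h1
    rw [map_mul, hρ ⟨(rof Γ b * rof Γ c) ^ n, hpow _⟩ (H.pow_mem hBCH n)] at h2
    exact congrArg (Subtype.val : H → RAAG Γ) h2
  -- exponent sums
  have hagree : ∀ g ∈ H, ex Γ b g = ex Γ c g := by
    have h1 : H ≤ (ex Γ b).eqLocus (ex Γ c) := by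
      rw [hH, Subgroup.closure_le]
      intro g hg
      simp only [Set.mem_insert_iff, Set.mem_singleton_iff] at hg
      rcases hg with rfl | rfl | rfl
      · change ex Γ b (rof Γ a) = ex Γ c (rof Γ a)
        rw [ex_ne Γ hab.ne, ex_ne Γ hac']
      · change ex Γ b (rof Γ b * rof Γ c) = ex Γ c (rof Γ b * rof Γ c)
        rw [map_mul, map_mul, ex_self, ex_self, ex_ne Γ hbc.ne, ex_ne Γ hbc.ne.symm, one_mul,
          mul_one]
      · change ex Γ b (rof Γ d) = ex Γ c (rof Γ d)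
        rw [ex_ne Γ hbd'.symm, ex_ne Γ hcd.ne.symm]
    exact fun g hg => h1 hg
  have e1 : ex Γ c X = 1 := ex_of_comm Γ a c hac hac' X hXA
  have e2 : ex Γ b Y = 1 := ex_of_comm Γ d b (fun h => hbd h.symm) hbd'.symm Y hYD
  have e3 : ex Γ b X = 1 := (hagree X X.2).trans e1
  have e4 := congrArg (ex Γ b) hXY
  rw [map_mul, e2, e3, mul_one, map_pow, map_mul, ex_self, ex_ne Γ hbc.ne.symm, mul_one] at e4
  have e5 := congrArg Multiplicative.toAdd e4
  rw [toAdd_one, toAdd_pow, toAdd_ofAdd] at e5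
  simp at e5
  omega

end Pool.Agent.LR
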