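import Pool.Agent.Lib.MP_836f52_al_LR.RaagMaps
import Pool.Agent.Lib.MP_836f52_al_LR.RaagNot
import Pool.Agent.Lib.MP_836f52_al_LR.GraphDom
import Pool.Agent.Lib.MP_836f52_al_LR.CoprodTree
import Pool.Agent.Lib.MP_836f52_al_LR.GoodTree
import Pool.Agent.Lib.MP_836f52_al_LR.GoodProd

set_option autoImplicit false

/-!
Row R4: right-angled Artin groups with (LR) are good.

* `good_coprodI`: `good_tree` applied to the tree of `exists_coprod_tree`; the stabilisers are trivial
  (`good_of_finite`) or embed in some `A i` (`Good.of_injective`).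
* `raag_good`: strong induction on `Nat.card V`.  Suppose that there are no `a ~ b ~ c ~ d` with
  `a ≁ c`, `b ≁ d`, `a ≠ c`, `b ≠ d`; this passes to induced subgraphs.  If `V` is empty then `RAAG Γ` is trivial
  (`good_of_finite`).  If `Γ` is connected let `v` be dominating (`exists_dominating`); `RAAG Γ` embeds in
  `RAAG (Γ.induce {w | w ≠ v}) × ℤ` (`raag_dom`), which is good by induction and `good_prod_int`.
  Otherwise let `p : V → Γ.ConnectedComponent`; every fibre is a proper subset of `V` (there are at least
  two components), so `raag_sum` embeds `RAAG Γ` in a free product of good groups.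
* `raag_good_of_lr`: by `raag_not` a graph with `HasLR (RAAG Γ)` has no such four vertices.
-/

namespace Pool.Agent.LR

open Pool.Agent.Lib.MP_836f52_al_H7

universe u

theorem good_coprodI {ι : Type u} (A : ι → Type u) [∀ i, Group (A i)] (h : ∀ i, Good (A i)) :
    Good (Monoid.CoprodI A) := by
  obtain ⟨V, T, hact, hT, hst⟩ := exists_coprod_tree A
  refine good_tree hT (fun x => ?_)
  rcases hst x with h1 | ⟨i, f, hf⟩
  · have : Subsingleton (MulAction.stabilizer (Monoid.CoprodI A) x) := by
      refine ⟨fun a b => Subtype.ext ?_⟩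
      rw [h1 a.1 a.2, h1 b.1 b.2]
    exact good_of_finite
  · exact (h i).of_injective f hf

private theorem r4_aux (n : ℕ) : ∀ {V : Type u} [Finite V] (Γ : SimpleGraph V), Nat.card V = n →
    (∀ a b c d : V, Γ.Adj a b → Γ.Adj b c → Γ.Adj c d → ¬ Γ.Adj a c → ¬ Γ.Adj b d →
      a ≠ c → b ≠ d → False) → Good (RAAG Γ) := by
  induction n using Nat.strong_induction_on with
  | _ n ih =>
    intro V _ Γ hn h
    rcases isEmpty_or_nonempty V with hV | hV
    · have : Subsingleton (RAAG Γ) := by
        have h0 : (MonoidHom.id (RAAG Γ)) = 1 := rhom_ext Γ (fun a => (hV.false a).elim)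
        refine ⟨fun a b => ?_⟩
        have ha : a = 1 := DFunLike.congr_fun h0 a
        have hb : b = 1 := DFunLike.congr_fun h0 b
        rw [ha, hb]
      exact good_of_finite
    · have hind : ∀ s : Set V, s ≠ Set.univ → Good (RAAG (Γ.induce s)) := by
        intro s hs
        have hlt : Nat.card s < n := by
          have h1 : s.ncard < (Set.univ : Set V).ncard :=
            Set.ncard_lt_ncard (Set.ssubset_univ_iff.2 hs) Set.finite_univ
          rw [Set.ncard_univ, hn] at h1
          exact h1
        refine ih _ hlt (Γ.induce s) rfl ?_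
        intro a b c d hab hbc hcd hac hbd hac' hbd'
        exact h a b c d hab hbc hcd hac hbd (fun e => hac' (Subtype.ext e))
          (fun e => hbd' (Subtype.ext e))
      by_cases hc : Γ.Connected
      · obtain ⟨v, hv⟩ := exists_dominating Γ hc h
        obtain ⟨f, hf⟩ := raag_dom Γ v hv
        have hne : {w : V | w ≠ v} ≠ Set.univ := by
          intro e
          have hmem : v ∈ {w : V | w ≠ v} := by rw [e]; trivial
          exact hmem rfl
        exact (good_prod_int (hind _ hne)).of_injective f hf
      · obtain ⟨f, hf⟩ := raag_sum Γ (fun a => Γ.connectedComponentMk a)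
          (fun a b hab => SimpleGraph.ConnectedComponent.sound hab.reachable)
        refine (good_coprodI _ (fun i => hind _ ?_)).of_injective f hf
        intro e
        apply hc
        have := hV
        refine ⟨fun a b => ?_⟩
        have ha : a ∈ {a | Γ.connectedComponentMk a = i} := by rw [e]; trivial
        have hb : b ∈ {a | Γ.connectedComponentMk a = i} := by rw [e]; trivial
        exact SimpleGraph.ConnectedComponent.exact (ha.trans hb.symm)

theorem raag_good {V : Type u} [Finite V] (Γ : SimpleGraph V)
    (h : ∀ a b c d : V, Γ.Adj a b → Γ.Adj b c → Γ.Adj c d → ¬ Γ.Adj a c → ¬ Γ.Adj b d →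
      a ≠ c → b ≠ d → False) : Good (RAAG Γ) :=
  r4_aux _ Γ rfl h

theorem raag_good_of_lr {V : Type u} [Finite V] (Γ : SimpleGraph V) (h : HasLR (RAAG Γ)) :
    Good (RAAG Γ) :=
  raag_good Γ (fun _ _ _ _ hab hbc hcd hac hbd hac' hbd' =>
    raag_not Γ hab hbc hcd hac hbd hac' hbd' h)

end Pool.Agent.LR
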