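import Pool.Agent.Lib.MP_836f52_al_LR.RaagDefs

set_option autoImplicit false

/-!
Row R1: decompositions of right-angled Artin groups.

* `raag_dom`: `v` is adjacent to all other vertices.  The homomorphism
  `f : RAAG Γ → RAAG (Γ.induce {v}ᶜ) × ℤ` sends `a ≠ v` to `(a, 0)` and `v` to `(1, 1)`; the
  homomorphism back sends `(g, n)` to `(the map induced by the inclusion) g * v ^ n`
  (`MonoidHom.noncommCoprod` or by hand; `v` commutes with the image).  The composition
  `RAAG Γ → RAAG Γ` is the identity on the generators (`rhom_ext`), so `f` is injective.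
* `raag_sum`: `f` sends `a` to `of (i := p a) ⟨a, rfl⟩`; if `a` and `b` are adjacent then `p a = p b` and the
  images commute in the factor.  The homomorphism back is `Monoid.CoprodI.lift` of the maps induced by
  the inclusions; the composition on `RAAG Γ` is the identity.
-/

namespace Pool.Agent.LR

universe u

theorem raag_dom {V : Type u} (Γ : SimpleGraph V) (v : V) (hv : ∀ w, w ≠ v → Γ.Adj v w) :
    ∃ f : RAAG Γ →* RAAG (Γ.induce {w | w ≠ v}) × Multiplicative ℤ, Function.Injective f := by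
  classical
  obtain ⟨φ, hφ⟩ : ∃ φ : V → RAAG (Γ.induce {w | w ≠ v}) × Multiplicative ℤ,
      φ v = (1, Multiplicative.ofAdd 1) ∧
      ∀ a (h : a ≠ v), φ a = (rof (Γ.induce {w | w ≠ v}) ⟨a, h⟩, 1) := by
    refine ⟨fun a => if h : a = v then (1, Multiplicative.ofAdd 1) else
      (rof (Γ.induce {w | w ≠ v}) ⟨a, h⟩, 1), by simp, fun a h => by simp [h]⟩
  obtain ⟨hφv, hφa⟩ := hφ
  have hcomm : ∀ a b, Γ.Adj a b → φ a * φ b = φ b * φ a := by
    intro a b hab
    by_cases ha : a = v
    · have hb : b ≠ v := fun hb => Γ.loopless.irrefl v (by rw [ha, hb] at hab; exact hab)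
      rw [ha, hφv, hφa b hb]
      simp
    · by_cases hb : b = v
      · rw [hb, hφv, hφa a ha]
        simp
      · rw [hφa a ha, hφa b hb, Prod.mk_mul_mk, Prod.mk_mul_mk, mul_one]
        rw [rof_comm (Γ.induce {w | w ≠ v}) (a := ⟨a, ha⟩) (b := ⟨b, hb⟩) hab]
  have hinc : ∀ a b : {w | w ≠ v}, (Γ.induce {w | w ≠ v}).Adj a b →
      rof Γ (a : V) * rof Γ (b : V) = rof Γ (b : V) * rof Γ (a : V) :=
    fun a b hab => rof_comm Γ hab
  let ι : RAAG (Γ.induce {w | w ≠ v}) →* RAAG Γ :=
    rlift (Γ.induce {w | w ≠ v}) (fun a => rof Γ (a : V)) hinc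
  have hconj : (MulAut.conj (rof Γ v)).toMonoidHom.comp ι = ι := by
    apply rhom_ext
    intro a
    change rof Γ v * ι (rof _ a) * (rof Γ v)⁻¹ = ι (rof _ a)
    rw [show ι (rof _ a) = rof Γ (a : V) from rlift_rof _ _ _ _]
    rw [rof_comm Γ (hv a a.2), mul_inv_cancel_right]
  have hcv : ∀ m, Commute (ι m) (rof Γ v) := by
    intro m
    have h1 : rof Γ v * ι m * (rof Γ v)⁻¹ = ι m := DFunLike.congr_fun hconj m
    exact (mul_inv_eq_iff_eq_mul.1 h1).symm
  let g : RAAG (Γ.induce {w | w ≠ v}) × Multiplicative ℤ →* RAAG Γ :=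
    MonoidHom.noncommCoprod ι (zpowersHom (RAAG Γ) (rof Γ v)) (fun m n => by
      rw [zpowersHom_apply]
      exact (hcv m).zpow_right _)
  refine ⟨rlift Γ φ hcomm, ?_⟩
  have hid : g.comp (rlift Γ φ hcomm) = MonoidHom.id (RAAG Γ) := by
    apply rhom_ext
    intro a
    rw [MonoidHom.comp_apply, rlift_rof, MonoidHom.id_apply]
    by_cases ha : a = v
    · rw [ha, hφv]
      change ι 1 * (zpowersHom (RAAG Γ) (rof Γ v)) (Multiplicative.ofAdd 1) = rof Γ v
      rw [map_one, one_mul, zpowersHom_apply, toAdd_ofAdd, zpow_one]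
    · rw [hφa a ha]
      change ι (rof _ ⟨a, ha⟩) * (zpowersHom (RAAG Γ) (rof Γ v)) 1 = rof Γ a
      rw [map_one, mul_one]
      exact rlift_rof _ _ _ _
  intro x y hxy
  have h1 := DFunLike.congr_fun hid x
  have h2 := DFunLike.congr_fun hid y
  rw [MonoidHom.comp_apply, MonoidHom.id_apply] at h1 h2
  rw [← h1, ← h2, hxy]

theorem raag_sum {V ι : Type u} (Γ : SimpleGraph V) (p : V → ι)
    (hp : ∀ a b, Γ.Adj a b → p a = p b) :
    ∃ f : RAAG Γ →* Monoid.CoprodI (fun i : ι => RAAG (Γ.induce {a | p a = i})),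
      Function.Injective f := by
  classical
  have hof : ∀ (a : V) (i : ι) (h : p a = i),
      (Monoid.CoprodI.of (M := fun i : ι => RAAG (Γ.induce {a | p a = i})) (i := p a)
        (rof (Γ.induce {b | p b = p a}) ⟨a, rfl⟩)) =
      Monoid.CoprodI.of (M := fun i : ι => RAAG (Γ.induce {a | p a = i})) (i := i)
        (rof (Γ.induce {b | p b = i}) ⟨a, h⟩) := by
    intro a i h
    subst h
    rfl
  let φ : V → Monoid.CoprodI (fun i : ι => RAAG (Γ.induce {a | p a = i})) := fun a =>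
    Monoid.CoprodI.of (M := fun i : ι => RAAG (Γ.induce {a | p a = i})) (i := p a)
      (rof (Γ.induce {b | p b = p a}) ⟨a, rfl⟩)
  have hcomm : ∀ a b, Γ.Adj a b → φ a * φ b = φ b * φ a := by
    intro a b hab
    have ha : φ a = _ := hof a (p b) (hp a b hab)
    have hb : φ b = _ := hof b (p b) rfl
    rw [ha, hb, ← map_mul, ← map_mul]
    rw [rof_comm (Γ.induce {c | p c = p b}) (a := ⟨a, hp a b hab⟩) (b := ⟨b, rfl⟩) hab]
  let g : Monoid.CoprodI (fun i : ι => RAAG (Γ.induce {a | p a = i})) →* RAAG Γ :=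
    Monoid.CoprodI.lift (fun i => rlift (Γ.induce {a | p a = i}) (fun a => rof Γ (a : V))
      (fun a b hab => rof_comm Γ hab))
  refine ⟨rlift Γ φ hcomm, ?_⟩
  have hid : g.comp (rlift Γ φ hcomm) = MonoidHom.id (RAAG Γ) := by
    apply rhom_ext
    intro a
    rw [MonoidHom.comp_apply, rlift_rof, MonoidHom.id_apply]
    change g (Monoid.CoprodI.of _) = _
    rw [Monoid.CoprodI.lift_of]
    exact rlift_rof _ _ _ _
  intro x y hxy
  have h1 := DFunLike.congr_fun hid x
  have h2 := DFunLike.congr_fun hid y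
  rw [MonoidHom.comp_apply, MonoidHom.id_apply] at h1 h2
  rw [← h1, ← h2, hxy]

end Pool.Agent.LR
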