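import Pool.Agent.Lib.MP_836f52_al_LR.FamDefs

set_option autoImplicit false

/-!
Row F4: the condition `sep` for two homomorphisms from an arbitrary group.

If `α d = 1` then `β d ∈ K` fixes `y` and `z₂`, so `β d = 1` by `K_edge`.  So `β` factors through
`α`: with `D₀ = α.range` there is `β₀ : D₀ →* G` with `β₀ (α d) = β d`
(`MonoidHom.liftOfSurjective`, `MonoidHom.liftOfRightInverse` or by hand).  Apply `hS.sep` to it.
-/

namespace Pool.Agent.LR

open Pool.Agent.Lib.MP_836f52_al_H7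

universe u v

namespace Data

variable {G V : Type u} [Group G] [MulAction G V] (S : Data G V)

theorem Ok.sep' {S : Data G V} (hS : S.Ok) {y z₁ z₂ : V} (hy : y ∈ S.W) (h1 : S.T.Adj y z₁)
    (h2 : S.T.Adj y z₂) {D : Type v} [Group D] (α β : D →* G)
    (hα : ∀ d, α d ∈ S.H ∧ α d • y = y ∧ α d • z₁ = z₁)
    (hβ : ∀ d, β d • y = y ∧ β d • z₂ = z₂ ∧ β d * (α d)⁻¹ ∈ S.K) :
    ∃ h ∈ S.H, h • y = y ∧ ∀ d, β d = h * α d * h⁻¹ := by
  have hker : ∀ d, α d = 1 → β d = 1 := by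
    intro d hd
    obtain ⟨b1, b2, b3⟩ := hβ d
    rw [hd, inv_one, mul_one] at b3
    exact hS.K_edge y z₂ h2 _ b3 b1 b2
  have heq : ∀ d d', α d = α d' → β d = β d' := by
    intro d d' hd
    have h3 : α (d * d'⁻¹) = 1 := by rw [map_mul, map_inv, hd, mul_inv_cancel]
    have h4 := hker _ h3
    rw [map_mul, map_inv] at h4
    exact mul_inv_eq_one.mp h4
  have hs : ∀ x : α.range, ∃ d, α d = x := fun x => x.2
  choose s hs using hs
  let β₀ : α.range →* G := MonoidHom.mk' (fun x => β (s x)) (by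
    intro x x'
    rw [← map_mul]
    apply heq
    rw [hs, map_mul, hs, hs]
    rfl)
  have hβ₀ : ∀ d, β₀ ⟨α d, d, rfl⟩ = β d := fun d => heq _ _ (hs _)
  obtain ⟨h, hH, hy', hd⟩ := hS.sep y hy z₁ z₂ h1 h2 α.range β₀ (by
    rintro ⟨_, d, rfl⟩
    exact hα d) (by
    rintro ⟨_, d, rfl⟩
    rw [hβ₀ d]
    exact hβ d)
  refine ⟨h, hH, hy', fun d => ?_⟩
  rw [← hβ₀ d]
  exact hd _

end Data

end Pool.Agent.LR
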