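import Pool.Agent.Lib.MP_836f52_al_LR.Axis
import Pool.Agent.Lib.MP_836f52_al_H7.VF.Base
import Pool.Agent.Lib.MP_836f52_al_H7.VF.CutTree
import Pool.Agent.Lib.MP_836f52_al_H7.VF.Family

set_option autoImplicit false

/-!
Row S1: from a tree of a normal subgroup of finite index to a tree of the group.

Adapt the proof of `base_tree` in `Pool.Agent.Lib.MP_836f52_al_H7.VF.Base` (copy it; it is the
case of a free transitive action).  Changes:

* `v : S₀` is any vertex; instead of `crossing_ub` use `crossing_ub'` of `Axis.lean`;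
  `Sg` is a finite generating set of `G`.
* `A p q := ∃ n ∈ N, Function.Injective (fun k : ℕ => n ^ k) ∧ ∃ b, p = pt n b ∧ q = pt n⁻¹ b ∧
  ∃ C, (bd Γ C).Finite ∧ Sep p q C ∧ sz Γ C ≤ K` (`n ^ i` injective iff `(n⁻¹) ^ i` injective iff
  `(g n g⁻¹) ^ i` injective).
* Conclusion: let `n ∈ N` fix the vertex `x` of the new tree and suppose that it has no fixed vertex
  in `S₀`.  By `axis_escape` there is an edge `x₀ y₀` of `T₀` such that for every vertex `u` of `S₀`
  (in particular for `u = m • v`) one has `n ^ k • u ∈ halfspace`, `(n⁻¹) ^ k • u ∉ halfspace` for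
  large `k`.  Hence `n ^ k ≠ 1` for `k > 0` (a large multiple of `k` would give a contradiction),
  so the powers of `n` are distinct, and the cut `Ce (x₀, y₀)` separates `pt n b` and `pt n⁻¹ b`
  for `b = 1` (`ν (n ^ k * 1) = n ^ k * ν 1`).  The end of the proof (`main`) is the same (it uses
  only that the powers of `n` are distinct and that `n • x = x`).
* `TreeAct.fin`: if `b` fixes the adjacent vertices `x` and `y` then `b • C = C` for the cut `C ∈ E`
  given by `D.edge`.  `bd Γ C` is finite (`hE3`) and not empty (`C` and `Cᶜ` are not empty, `Γ` is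
  connected); choose `(u, w) ∈ bd Γ C`; `b ↦ b • u` is injective on the stabiliser of `C` with values
  in the finite set of the first coordinates of `bd Γ C`.
-/

namespace Pool.Agent.LR

open Pool.Agent.Lib.MP_836f52_al_H7

universe u v w

section S1Aux

open scoped Pointwise
open Pool.Agent.Lib.MP_836f52_al_H7.VF

private lemma s1_fin {G : Type u} [Group G] {Sg : Set G} (hS : Subgroup.closure Sg = ⊤)
    {C : Set G} (hC : C.Nonempty) (hC' : Cᶜ.Nonempty) (hb : (bd (cayB Sg) C).Finite) :
    {g : G | g • C = C}.Finite := by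
  obtain ⟨a, ha⟩ := hC
  obtain ⟨c, hc⟩ := hC'
  obtain ⟨p⟩ := cayB_preconnected Sg hS a c
  obtain ⟨d, -, hd2, hd3⟩ := p.exists_boundary_dart C ha hc
  have h1 : ((fun g : G => g * d.fst) ⁻¹' (Prod.fst '' bd (cayB Sg) C)).Finite :=
    (hb.image _).preimage (mul_left_injective d.fst).injOn
  apply h1.subset
  intro g hg
  have hg' : g • C = C := hg
  refine ⟨(g • d.fst, g • d.snd), ⟨cayB_smul Sg g _ _ d.adj, ?_, ?_⟩, rfl⟩
  · change g • d.fst ∈ C
    rw [← hg']
    exact Set.smul_mem_smul_set hd2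
  · change g • d.snd ∉ C
    rw [← hg']
    intro h
    rw [Set.smul_mem_smul_set_iff] at h
    exact hd3 h

private lemma s1_inj_inv {G : Type u} [Group G] {n : G}
    (h : Function.Injective (fun k : ℕ => n ^ k)) :
    Function.Injective (fun k : ℕ => n⁻¹ ^ k) := by
  intro i j hij
  apply h
  simp only [inv_pow] at hij
  exact inv_injective hij

private lemma s1_inj_conj {G : Type u} [Group G] {n : G} (g : G)
    (h : Function.Injective (fun k : ℕ => n ^ k)) :
    Function.Injective (fun k : ℕ => (g * n * g⁻¹) ^ k) := by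
  intro i j hij
  apply h
  simp only [conj_pow] at hij
  exact mul_left_cancel (mul_right_cancel hij)

private theorem s1_main {G : Type u} [Group G] {N : Subgroup G} [hNn : N.Normal]
    [hNf : N.FiniteIndex] {Sg : Set G} (hSf : Sg.Finite) (hS : Subgroup.closure Sg = ⊤)
    {S₀ : Type w} {T₀ : SimpleGraph S₀} [MulAction N S₀] (h₀ : TreeAct N T₀) :
    ∃ (S : Type u) (T : SimpleGraph S) (_ : MulAction G S), TreeAct G T ∧
      ∀ (n : N) (x : S), (n : G) • x = x → ∃ z : S₀, n • z = z := by
  classical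
  obtain ⟨v⟩ := h₀.tree.connected.nonempty
  -- coset representatives
  let t : G → G := fun b => (Quotient.out (b : G ⧸ N) : G)
  have ht : ∀ b, (t b)⁻¹ * b ∈ N := by
    intro b
    rw [← QuotientGroup.eq]
    exact Quotient.out_eq _
  have ht' : ∀ b, b * (t b)⁻¹ ∈ N := by
    intro b
    have := hNn.conj_mem _ (ht b) (t b)
    have e : t b * ((t b)⁻¹ * b) * (t b)⁻¹ = b * (t b)⁻¹ := by group
    rwa [e] at this
  have htn : ∀ n ∈ N, ∀ b, t (n * b) = t b := by
    intro n hn b
    have : ((n * b : G) : G ⧸ N) = (b : G ⧸ N) := by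
      rw [QuotientGroup.eq]
      have := hNn.conj_mem _ (N.inv_mem hn) b⁻¹
      have e : b⁻¹ * n⁻¹ * b⁻¹⁻¹ = (n * b)⁻¹ * b := by group
      rwa [e] at this
    simp only [t]
    rw [this]
  let ν : G → N := fun b => ⟨b * (t b)⁻¹, ht' b⟩
  have hν : ∀ b, (ν b : G) * t b = b := by
    intro b
    simp [ν]
  have hνn : ∀ (n : N) (b : G), ν (n * b) = n * ν b := by
    intro n b
    apply Subtype.ext
    simp only [ν, Subgroup.coe_mul]
    rw [htn n n.2 b, mul_assoc]
  have hνs : ∀ b s : G, ν (b * s) = ν b * ν (t b * s) := by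
    intro b s
    rw [← hνn, ← mul_assoc, hν]
  have htfin : (Set.range t).Finite := by
    apply (Set.finite_range (fun q : G ⧸ N => (Quotient.out q : G))).subset
    rintro _ ⟨b, rfl⟩
    exact ⟨(b : G ⧸ N), rfl⟩
  set Γ := cayB Sg with hΓdef
  have hΓ := cayB_preconnected Sg hS
  have hact := cayB_smul Sg
  -- the cuts from the tree
  let Ce : OE T₀ → Set G := fun e => {b | ν b • v ∈ halfspace T₀ e.1.1 e.1.2}
  have hUB : UB (fun e => bd Γ (Ce e)) := by
    apply bd_cayB_ub hSf
    intro s hs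
    have h1 : UB (fun e : OE T₀ => ⋃ c ∈ Set.range t, (fun n : N => (n : G) * c) ''
        {n : N | ¬ (n • v ∈ halfspace T₀ e.1.1 e.1.2 ↔
          n • (ν (c * s) • v) ∈ halfspace T₀ e.1.1 e.1.2)}) :=
      UB.biUnion htfin (A := fun c (e : OE T₀) => (fun n : N => (n : G) * c) ''
        {n : N | ¬ (n • v ∈ halfspace T₀ e.1.1 e.1.2 ↔
          n • (ν (c * s) • v) ∈ halfspace T₀ e.1.1 e.1.2)})
        (fun c _ => (crossing_ub' h₀.tree h₀.adj h₀.fin v (ν (c * s) • v)).image
          (fun _ n => (n : G) * c))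
    apply UB.mono h1
    intro e b hb
    simp only [Set.mem_iUnion]
    refine ⟨t b, ⟨b, rfl⟩, ν b, ?_, hν b⟩
    intro h
    apply hb
    change ν b • v ∈ halfspace T₀ e.1.1 e.1.2 ↔ ν (b * s) • v ∈ halfspace T₀ e.1.1 e.1.2
    rw [hνs, mul_smul]
    exact h
  obtain ⟨K, hK⟩ := hUB
  have hCfin : ∀ e, (bd Γ (Ce e)).Finite := fun e => Set.finite_of_encard_le_coe (hK e)
  have hCsz : ∀ e, sz Γ (Ce e) ≤ K := by
    intro e
    have := hK e
    rw [← (hCfin e).cast_ncard_eq] at this
    exact_mod_cast this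
  let A : (Set G → Prop) → (Set G → Prop) → Prop := fun p q =>
    ∃ n : G, Function.Injective (fun k : ℕ => n ^ k) ∧ ∃ b, p = pt n b ∧ q = pt n⁻¹ b ∧
      ∃ C, (bd Γ C).Finite ∧ Sep p q C ∧ sz Γ C ≤ K
  obtain ⟨E, hE1, hE2, hE3, hE4, hE5, hE6⟩ := exists_family (B := G) hΓ hact K A
    (by
      rintro p q ⟨n, hn1, b, rfl, rfl, -⟩
      exact ⟨pt_isPt hS n b hn1, pt_isPt hS n⁻¹ b (s1_inj_inv hn1)⟩)
    (by
      rintro p q ⟨n, hn1, b, rfl, rfl, h⟩
      exact h)
    (by
      rintro g p q ⟨n, hn1, b, rfl, rfl, C, hC1, hC2, hC3⟩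
      refine ⟨g * n * g⁻¹, s1_inj_conj g hn1, g * b, ptSmul_pt g n b, ?_,
        g • C, bd_smul_finite hact g hC1, (sep_smul g _ _ C).2 hC2, ?_⟩
      · rw [ptSmul_pt]
        congr 1
        group
      · rw [sz_smul hact]
        exact hC3)
  have hEfin : ∀ u v, {C | C ∈ E ∧ u ∈ C ∧ v ∉ C}.Finite := by
    intro u v
    apply (tight_sep_finite hΓ K u v).subset
    rintro C ⟨h1, h2, h3⟩
    exact ⟨hE3 C h1, h2, h3⟩
  obtain ⟨D⟩ := exists_cutTree (B := G) hE1 hE2 hE4 hEfin hE5
  let _ := D.action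
  refine ⟨D.S, D.T, D.action, ⟨D.isTree, D.adj_smul, D.no_inv, ?_⟩, ?_⟩
  · intro x y hxy
    obtain ⟨C, hC, hfix⟩ := D.edge x y hxy
    apply (s1_fin hS (hE4 C hC) (hE4 _ (hE1 C hC)) (hE3 C hC).2.2.1).subset
    rintro g ⟨h1, h2⟩
    exact hfix g h1 h2
  intro n' x hnx
  by_contra hno
  have hno' : ∀ z : S₀, n' • z ≠ z := fun z hz => hno ⟨z, hz⟩
  -- a cut separating the ends of `n`
  obtain ⟨x₀, y₀, hxy, hax⟩ := axis_escape h₀.tree h₀.adj h₀.noinv n' hno'
  have hinj' : Function.Injective (fun k : ℕ => n' ^ k) := by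
    have aux : ∀ i j : ℕ, i < j → n' ^ i ≠ n' ^ j := by
      intro i j hij h
      have h1 : n' ^ (j - i) = 1 := by
        have : n' ^ j = n' ^ i * n' ^ (j - i) := by
          rw [← pow_add]
          congr 1
          omega
        rw [this] at h
        exact (left_eq_mul.1 h)
      obtain ⟨k0, hk0⟩ := hax v
      have h2 := hk0 ((j - i) * k0) (Nat.le_mul_of_pos_left k0 (by omega))
      rw [inv_pow, pow_mul, h1, one_pow, inv_one] at h2
      exact h2.2 h2.1
    intro i j hij
    rcases lt_trichotomy i j with h | h | h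
    · exact absurd hij (aux i j h)
    · exact h
    · exact absurd hij.symm (aux j i h)
  obtain ⟨n, hn⟩ := n'
  simp only at hnx
  have hpw : Function.Injective (fun k : ℕ => n ^ k) := by
    intro i j hij
    apply hinj'
    apply Subtype.ext
    simpa using hij
  have hνk : ∀ (m : N) (k : ℕ), ν ((m : G) ^ k * 1) = m ^ k * ν 1 := by
    intro m k
    have := hνn (m ^ k) 1
    rw [← this]
    simp
  let e₀ : OE T₀ := ⟨(x₀, y₀), hxy⟩
  obtain ⟨k0, hk0⟩ := hax (ν 1 • v)
  have hp : pt n 1 (Ce e₀) := by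
    refine ⟨k0, ?_⟩
    intro k hk
    change ν (n ^ k * 1) • v ∈ halfspace T₀ x₀ y₀
    have := hνk ⟨n, hn⟩ k
    simp only at this
    rw [this, mul_smul]
    exact (hk0 k hk).1
  have hq : ¬ pt n⁻¹ 1 (Ce e₀) := by
    rintro ⟨k1, hk1⟩
    have h1 := hk1 (max k0 k1) (le_max_right _ _)
    change ν (n⁻¹ ^ (max k0 k1) * 1) • v ∈ halfspace T₀ x₀ y₀ at h1
    have := hνk ⟨n, hn⟩⁻¹ (max k0 k1)
    simp only [Subgroup.coe_inv] at this
    rw [this, mul_smul] at h1
    exact (hk0 (max k0 k1) (le_max_left _ _)).2 h1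
  obtain ⟨C, hC, hsep⟩ := hE6 (pt n 1) (pt n⁻¹ 1)
    ⟨n, hpw, 1, rfl, rfl, Ce e₀, hCfin e₀, fun h => hq (h.1 hp), hCsz e₀⟩
  -- the contradiction
  have main : ∀ C ∈ E, pt n 1 C → ¬ pt n⁻¹ 1 C → False := by
    intro C hC h1 h2
    have hptn : pt n⁻¹ 1 Cᶜ := ((pt_isPt hS n⁻¹ 1 (s1_inj_inv hpw)).compl C
      (hE3 C hC).2.2.1).2 h2
    obtain ⟨k1, hk1⟩ := h1
    obtain ⟨k2, hk2⟩ := hptn
    -- no positive power fixes `C`
    have hnofix : ∀ j : ℕ, 0 < j → n ^ j • C ≠ C := by
      intro j hj h
      have hall : ∀ i : ℕ, n ^ (j * i) • C = C := by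
        intro i
        induction i with
        | zero => simp
        | succ i ih =>
          rw [Nat.mul_succ, pow_add, mul_smul, h, ih]
      have h3 : n ^ (j * (k1 + k2)) * 1 ∈ C := hk1 _ (by nlinarith)
      have h4 : n⁻¹ ^ (j * (k1 + k2)) * 1 ∉ C := hk2 _ (by nlinarith)
      apply h4
      have h6 := hall (k1 + k2 + (k1 + k2))
      rw [← h6, Set.mem_smul_set_iff_inv_smul_mem] at h3
      have e : (n ^ (j * (k1 + k2 + (k1 + k2))))⁻¹ • (n ^ (j * (k1 + k2)) * 1) =
          n⁻¹ ^ (j * (k1 + k2)) * 1 := by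
        rw [smul_eq_mul, Nat.mul_add, pow_add, inv_pow]
        group
      rwa [e] at h3
    have hinj : ∀ i j : ℕ, n ^ i • C = n ^ j • C → i = j := by
      have aux : ∀ i j : ℕ, i < j → n ^ i • C ≠ n ^ j • C := by
        intro i j hij h
        apply hnofix (j - i) (by omega)
        have : n ^ j = n ^ i * n ^ (j - i) := by
          rw [← pow_add]
          congr 1
          omega
        rw [this, mul_smul] at h
        exact (MulAction.injective (n ^ i) h).symm
      intro i j h
      rcases lt_trichotomy i j with h' | h' | h'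
      · exact absurd h (aux i j h')
      · exact h'
      · exact absurd h.symm (aux j i h')
    have hfixk : ∀ k : ℕ, n ^ k • x = x := by
      intro k
      induction k with
      | zero => simp
      | succ k ih => rw [pow_succ, mul_smul, hnx, ih]
    have hfixk' : ∀ k : ℕ, (n ^ k)⁻¹ • x = x := by
      intro k
      rw [inv_smul_eq_iff, hfixk]
    by_cases hside : C ∈ D.side x
    · have hinf : (Set.range (fun k : ℕ => n ^ (k + k2) • C)).Infinite := by
        apply Set.infinite_range_of_injective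
        intro i j h
        have := hinj _ _ h
        omega
      apply hinf
      apply (D.side_fin x 1).1.subset
      rintro _ ⟨k, rfl⟩
      refine ⟨hE5 _ _ hC, ?_, ?_⟩
      · have := (D.side_smul x C (n ^ (k + k2)) hC).2 hside
        rwa [hfixk] at this
      · intro h
        rw [Set.mem_smul_set_iff_inv_smul_mem] at h
        apply hk2 (k + k2) (by omega)
        rw [smul_eq_mul, ← inv_pow] at h
        exact h
    · have hinf : (Set.range (fun k : ℕ => (n ^ (k + k1))⁻¹ • C)).Infinite := by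
        apply Set.infinite_range_of_injective
        intro i j h
        simp only at h
        rw [inv_smul_eq_iff, ← mul_smul] at h
        by_contra hne
        rcases Nat.lt_or_ge i j with hij | hij
        · have e : n ^ (i + k1) * (n ^ (j + k1))⁻¹ = (n ^ (j - i))⁻¹ := by
            have : n ^ (j + k1) = n ^ (j - i) * n ^ (i + k1) := by
              rw [← pow_add]
              congr 1
              omega
            rw [this, mul_inv_rev]
            group
          rw [e, eq_inv_smul_iff] at h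
          exact hnofix (j - i) (by omega) h
        · have e : n ^ (i + k1) * (n ^ (j + k1))⁻¹ = n ^ (i - j) := by
            have : n ^ (i + k1) = n ^ (i - j) * n ^ (j + k1) := by
              rw [← pow_add]
              congr 1
              omega
            rw [this]
            group
          rw [e] at h
          exact hnofix (i - j) (by omega) h.symm
      apply hinf
      apply (D.side_fin x 1).2.subset
      rintro _ ⟨k, rfl⟩
      refine ⟨hE5 _ _ hC, ?_, ?_⟩
      · intro h
        apply hside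
        rw [← D.side_smul x C (n ^ (k + k1))⁻¹ hC, hfixk']
        exact h
      · rw [Set.mem_smul_set_iff_inv_smul_mem, inv_inv, smul_eq_mul]
        exact hk1 _ (by omega)
  have hI1 := pt_isPt hS n 1 hpw
  have hI2 := pt_isPt hS n⁻¹ 1 (s1_inj_inv hpw)
  have hCf := (hE3 C hC).2.2.1
  unfold VF.Sep at hsep
  by_cases h1 : pt n 1 C
  · exact main C hC h1 (fun h => hsep ⟨fun _ => h, fun _ => h1⟩)
  · have h2 : pt n⁻¹ 1 C := by
      by_contra h2
      exact hsep ⟨fun h => absurd h h1, fun h => absurd h h2⟩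
    apply main Cᶜ (hE1 C hC)
    · exact (hI1.compl C hCf).2 h1
    · intro h
      exact (hI2.compl C hCf).1 h h2

end S1Aux

theorem split_tree {G : Type u} [Group G] (hG : Group.FG G) (N : Subgroup G) (hn : N.Normal)
    (hf : N.FiniteIndex) {S₀ : Type w} {T₀ : SimpleGraph S₀} [MulAction N S₀]
    (h₀ : TreeAct N T₀) :
    ∃ (S : Type u) (T : SimpleGraph S) (_ : MulAction G S), TreeAct G T ∧
      ∀ (n : N) (x : S), (n : G) • x = x → ∃ z : S₀, n • z = z := by
  obtain ⟨Sg, hS, hSf⟩ := Group.fg_iff.1 hG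
  exact s1_main hSf hS h₀

end Pool.Agent.LR
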