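import Pool.Agent.Lib.MP_836f52_al_LR.MarksDefs
import Pool.Agent.Lib.MP_836f52_al_H7.Tree

set_option autoImplicit false

/-!
Row FL1: an equivariant step relation from local bijections.

For every oriented edge `e = (x, x')` (adjacent vertices) choose `φ e` as in `hφ`.  Call two
oriented edges `e`, `f` equivalent if `g • e = f` or `g • e = f.swap` for some `g : Γ`; this is an
equivalence relation; let `rep` choose a representative of every class.  Put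
`S y y' := ∃ (a b : V), (a, b) is the chosen representative of its class ∧ ∃ (g : Γ) (z : Y), π z = a ∧
 ((y = g • z ∧ y' = g • φ (a, b) z) ∨ (y' = g • z ∧ y = g • φ (a, b) z))`.
It is symmetric, invariant, and `S y y' → Adj (π y) (π y')` (`φ (a, b)` maps the fibre over `a` to the
fibre over `b`).  Existence: let `π y = x`, `x'` adjacent; let `(a, b)` be the representative of
`(x, x')`.  If `g • (a, b) = (x, x')` take `z = g⁻¹ • y`, `y' = g • φ z`; if `g • (a, b) = (x', x)` take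
`z` with `φ z = g⁻¹ • y` and `y' = g • z`.  Uniqueness: two elements `g`, `g'` with
`g • (a, b) = g' • (a, b) = (x, x')` differ by an element of the stabiliser of the edge `(a, b)`, which
commutes with `φ`; it is impossible that `g • (a, b) = (x, x')` and `g' • (a, b) = (x', x)`, since
`g'⁻¹ g` would be an inversion of the edge `(a, b)`.  Finally `r y y' → S y y'`: let
`(π y, π y') = g • (a, b)`; then `r (g⁻¹ • y) (g⁻¹ • y')` over `a`, `b`, so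
`φ (g⁻¹ • y) = g⁻¹ • y'`; in the other case use the symmetry of `r`.
-/

namespace Pool.Agent.LR

open Pool.Agent.Lib.MP_836f52_al_H7

universe u v w

/-- equivalence of the oriented edges up to the group and reversal -/
private def fl1Setoid {Γ : Type u} [Group Γ] {V : Type v} [MulAction Γ V] (T : SimpleGraph V) :
    Setoid {e : V × V // T.Adj e.1 e.2} where
  r e f := ∃ g : Γ, (g • e.1.1 = f.1.1 ∧ g • e.1.2 = f.1.2) ∨
    (g • e.1.1 = f.1.2 ∧ g • e.1.2 = f.1.1)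
  iseqv := by
    refine ⟨fun e => ⟨1, Or.inl ⟨one_smul _ _, one_smul _ _⟩⟩, ?_, ?_⟩
    · rintro e f ⟨g, ⟨h1, h2⟩ | ⟨h1, h2⟩⟩
      · exact ⟨g⁻¹, Or.inl ⟨by rw [← h1, inv_smul_smul], by rw [← h2, inv_smul_smul]⟩⟩
      · exact ⟨g⁻¹, Or.inr ⟨by rw [← h2, inv_smul_smul], by rw [← h1, inv_smul_smul]⟩⟩
    · rintro e f k ⟨g, ⟨h1, h2⟩ | ⟨h1, h2⟩⟩ ⟨g', ⟨h3, h4⟩ | ⟨h3, h4⟩⟩
      · exact ⟨g' * g, Or.inl ⟨by rw [mul_smul, h1, h3], by rw [mul_smul, h2, h4]⟩⟩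
      · exact ⟨g' * g, Or.inr ⟨by rw [mul_smul, h1, h3], by rw [mul_smul, h2, h4]⟩⟩
      · exact ⟨g' * g, Or.inr ⟨by rw [mul_smul, h1, h4], by rw [mul_smul, h2, h3]⟩⟩
      · exact ⟨g' * g, Or.inl ⟨by rw [mul_smul, h1, h4], by rw [mul_smul, h2, h3]⟩⟩

theorem exists_step {Γ : Type u} [Group Γ] {V : Type v} [MulAction Γ V] {T : SimpleGraph V}
    (hT : TAct Γ T) {Y : Type w} [MulAction Γ Y] (π : Y → V)
    (hπ : ∀ (g : Γ) (y : Y), π (g • y) = g • π y) (r : Y → Y → Prop)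
    (hr_symm : ∀ y y', r y y' → r y' y) (hr_adj : ∀ y y', r y y' → T.Adj (π y) (π y'))
    (hr_smul : ∀ (g : Γ) (y y' : Y), r y y' → r (g • y) (g • y'))
    (hφ : ∀ x x', T.Adj x x' → ∃ φ : Y → Y, Set.BijOn φ {y | π y = x} {y | π y = x'} ∧
      (∀ g : Γ, g • x = x → g • x' = x' → ∀ y, π y = x → φ (g • y) = g • φ y) ∧
      ∀ y y', π y = x → π y' = x' → r y y' → φ y = y') :
    ∃ S : Y → Y → Prop, (∀ y y', S y y' → S y' y) ∧ (∀ y y', S y y' → T.Adj (π y) (π y')) ∧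
      (∀ (g : Γ) (y y' : Y), S y y' → S (g • y) (g • y')) ∧
      (∀ y x', T.Adj (π y) x' → ∃! y', π y' = x' ∧ S y y') ∧ ∀ y y', r y y' → S y y' := by
  classical
  choose φ hφ1 hφ2 hφ3 using hφ
  let Q := fl1Setoid (Γ := Γ) T
  let rep : {e : V × V // T.Adj e.1 e.2} → {e : V × V // T.Adj e.1 e.2} := fun e =>
    (Quotient.mk Q e).out
  have hrep : ∀ e, ∃ g : Γ, (g • (rep e).1.1 = e.1.1 ∧ g • (rep e).1.2 = e.1.2) ∨
      (g • (rep e).1.1 = e.1.2 ∧ g • (rep e).1.2 = e.1.1) := fun e => Quotient.mk_out (s := Q) e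
  have hreprep : ∀ e, rep (rep e) = rep e := by
    intro e
    simp only [rep, Quotient.out_eq]
  have hrep_eq : ∀ e f : {e : V × V // T.Adj e.1 e.2}, (∃ g : Γ, (g • e.1.1 = f.1.1 ∧
      g • e.1.2 = f.1.2) ∨ (g • e.1.1 = f.1.2 ∧ g • e.1.2 = f.1.1)) → rep e = rep f := by
    intro e f h
    simp only [rep]
    rw [Quotient.sound (s := Q) h]
  let S : Y → Y → Prop := fun y y' => ∃ e : {e : V × V // T.Adj e.1 e.2}, rep e = e ∧
    ∃ (g : Γ) (z : Y), π z = e.1.1 ∧ ((y = g • z ∧ y' = g • φ e.1.1 e.1.2 e.2 z) ∨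
      (y' = g • z ∧ y = g • φ e.1.1 e.1.2 e.2 z))
  have hφπ : ∀ (e : {e : V × V // T.Adj e.1 e.2}) (z : Y), π z = e.1.1 →
      π (φ e.1.1 e.1.2 e.2 z) = e.1.2 := fun e z hz => (hφ1 e.1.1 e.1.2 e.2).mapsTo hz
  refine ⟨S, ?_, ?_, ?_, ?_, ?_⟩
  · rintro y y' ⟨e, he, g, z, hz, h⟩
    exact ⟨e, he, g, z, hz, h.symm⟩
  · rintro y y' ⟨e, he, g, z, hz, ⟨rfl, rfl⟩ | ⟨rfl, rfl⟩⟩
    · rw [hπ, hπ, hz, hφπ e z hz]
      exact hT.adj g _ _ e.2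
    · rw [hπ, hπ, hz, hφπ e z hz]
      exact (hT.adj g _ _ e.2).symm
  · rintro g' y y' ⟨e, he, g, z, hz, ⟨rfl, rfl⟩ | ⟨rfl, rfl⟩⟩
    · exact ⟨e, he, g' * g, z, hz, Or.inl ⟨by rw [mul_smul], by rw [mul_smul]⟩⟩
    · exact ⟨e, he, g' * g, z, hz, Or.inr ⟨by rw [mul_smul], by rw [mul_smul]⟩⟩
  · intro y x' hadj
    let e₀ : {e : V × V // T.Adj e.1 e.2} := ⟨(π y, x'), hadj⟩
    -- every witness uses the representative of `e₀`
    have huse : ∀ (e : {e : V × V // T.Adj e.1 e.2}) (y' : Y), π y' = x' → rep e = e →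
        ∀ (g : Γ) (z : Y), π z = e.1.1 → ((y = g • z ∧ y' = g • φ e.1.1 e.1.2 e.2 z) ∨
          (y' = g • z ∧ y = g • φ e.1.1 e.1.2 e.2 z)) → e = rep e₀ ∧
        ((y = g • z ∧ y' = g • φ e.1.1 e.1.2 e.2 z ∧ g • e.1.1 = π y ∧ g • e.1.2 = x') ∨
          (y' = g • z ∧ y = g • φ e.1.1 e.1.2 e.2 z ∧ g • e.1.1 = x' ∧ g • e.1.2 = π y)) := by
      rintro e y' hy' he g z hz (⟨h1, h2⟩ | ⟨h1, h2⟩)
      · have e1 : g • e.1.1 = π y := by rw [h1, hπ, hz]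
        have e2 : g • e.1.2 = x' := by rw [← hy', h2, hπ, hφπ e z hz]
        exact ⟨he.symm.trans (hrep_eq e e₀ ⟨g, Or.inl ⟨e1, e2⟩⟩), Or.inl ⟨h1, h2, e1, e2⟩⟩
      · have e1 : g • e.1.1 = x' := by rw [← hy', h1, hπ, hz]
        have e2 : g • e.1.2 = π y := by rw [h2, hπ, hφπ e z hz]
        exact ⟨he.symm.trans (hrep_eq e e₀ ⟨g, Or.inr ⟨e1, e2⟩⟩), Or.inr ⟨h1, h2, e1, e2⟩⟩
    -- uniqueness
    have huniq : ∀ y₁ y₂ : Y, π y₁ = x' → S y y₁ → π y₂ = x' → S y y₂ → y₁ = y₂ := by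
      rintro y₁ y₂ hy₁ ⟨e₁, he₁, g₁, z₁, hz₁, h₁⟩ hy₂ ⟨e₂, he₂, g₂, z₂, hz₂, h₂⟩
      obtain ⟨f₁, k₁⟩ := huse e₁ y₁ hy₁ he₁ g₁ z₁ hz₁ h₁
      obtain ⟨f₂, k₂⟩ := huse e₂ y₂ hy₂ he₂ g₂ z₂ hz₂ h₂
      have hee : e₁ = e₂ := f₁.trans f₂.symm
      subst hee
      rcases k₁ with ⟨a1, a2, a3, a4⟩ | ⟨a1, a2, a3, a4⟩ <;>
        rcases k₂ with ⟨b1, b2, b3, b4⟩ | ⟨b1, b2, b3, b4⟩
      · have s1 : (g₁⁻¹ * g₂) • e₁.1.1 = e₁.1.1 := by
          rw [mul_smul, b3, ← a3, inv_smul_smul]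
        have s2 : (g₁⁻¹ * g₂) • e₁.1.2 = e₁.1.2 := by
          rw [mul_smul, b4, ← a4, inv_smul_smul]
        have s3 : z₁ = (g₁⁻¹ * g₂) • z₂ := by
          rw [mul_smul, ← b1, a1, inv_smul_smul]
        rw [a2, b2, s3, hφ2 e₁.1.1 e₁.1.2 e₁.2 _ s1 s2 z₂ hz₂, ← mul_smul, mul_inv_cancel_left]
      · exfalso
        refine hT.noinv (g₂⁻¹ * g₁) _ _ e₁.2 ?_ ?_
        · rw [mul_smul, a3, ← b4, inv_smul_smul]
        · rw [mul_smul, a4, ← b3, inv_smul_smul]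
      · exfalso
        refine hT.noinv (g₁⁻¹ * g₂) _ _ e₁.2 ?_ ?_
        · rw [mul_smul, b3, ← a4, inv_smul_smul]
        · rw [mul_smul, b4, ← a3, inv_smul_smul]
      · have s1 : (g₁⁻¹ * g₂) • e₁.1.1 = e₁.1.1 := by
          rw [mul_smul, b3, ← a3, inv_smul_smul]
        have s2 : (g₁⁻¹ * g₂) • e₁.1.2 = e₁.1.2 := by
          rw [mul_smul, b4, ← a4, inv_smul_smul]
        have s4 : φ e₁.1.1 e₁.1.2 e₁.2 z₁ = φ e₁.1.1 e₁.1.2 e₁.2 ((g₁⁻¹ * g₂) • z₂) := by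
          rw [hφ2 e₁.1.1 e₁.1.2 e₁.2 _ s1 s2 z₂ hz₂, mul_smul, ← b2, a2, inv_smul_smul]
        have s5 : π ((g₁⁻¹ * g₂) • z₂) = e₁.1.1 := by rw [hπ, hz₂, s1]
        have s3 : z₁ = (g₁⁻¹ * g₂) • z₂ := (hφ1 e₁.1.1 e₁.1.2 e₁.2).injOn hz₁ s5 s4
        rw [a1, b1, s3, ← mul_smul, mul_inv_cancel_left]
    obtain ⟨g, ⟨h1, h2⟩ | ⟨h1, h2⟩⟩ := hrep e₀
    · have hz : π (g⁻¹ • y) = (rep e₀).1.1 := by
        rw [hπ, inv_smul_eq_iff]
        exact h1.symm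
      have hπ' : π (g • φ (rep e₀).1.1 (rep e₀).1.2 (rep e₀).2 (g⁻¹ • y)) = x' := by
        rw [hπ, hφπ _ _ hz]
        exact h2
      have hS : S y (g • φ (rep e₀).1.1 (rep e₀).1.2 (rep e₀).2 (g⁻¹ • y)) :=
        ⟨rep e₀, hreprep e₀, g, g⁻¹ • y, hz, Or.inl ⟨(smul_inv_smul g y).symm, rfl⟩⟩
      exact ⟨_, ⟨hπ', hS⟩, fun y₂ hy₂ => huniq y₂ _ hy₂.1 hy₂.2 hπ' hS⟩
    · have hb : π (g⁻¹ • y) = (rep e₀).1.2 := by
        rw [hπ, inv_smul_eq_iff]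
        exact h2.symm
      obtain ⟨z, hz, hzφ⟩ := (hφ1 (rep e₀).1.1 (rep e₀).1.2 (rep e₀).2).surjOn hb
      have hz' : π z = (rep e₀).1.1 := hz
      have hπ' : π (g • z) = x' := by
        rw [hπ, hz']
        exact h1
      have hS : S y (g • z) :=
        ⟨rep e₀, hreprep e₀, g, z, hz', Or.inr ⟨rfl, by rw [hzφ, smul_inv_smul]⟩⟩
      exact ⟨_, ⟨hπ', hS⟩, fun y₂ hy₂ => huniq y₂ _ hy₂.1 hy₂.2 hπ' hS⟩
  · intro y y' hr
    let e₀ : {e : V × V // T.Adj e.1 e.2} := ⟨(π y, π y'), hr_adj y y' hr⟩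
    obtain ⟨g, ⟨h1, h2⟩ | ⟨h1, h2⟩⟩ := hrep e₀
    · have hz : π (g⁻¹ • y) = (rep e₀).1.1 := by
        rw [hπ, inv_smul_eq_iff]
        exact h1.symm
      have hz' : π (g⁻¹ • y') = (rep e₀).1.2 := by
        rw [hπ, inv_smul_eq_iff]
        exact h2.symm
      have h3 := hφ3 _ _ (rep e₀).2 _ _ hz hz' (hr_smul g⁻¹ y y' hr)
      refine ⟨rep e₀, hreprep e₀, g, g⁻¹ • y, hz, Or.inl ⟨(smul_inv_smul g y).symm, ?_⟩⟩
      rw [h3, smul_inv_smul]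
    · have hz : π (g⁻¹ • y') = (rep e₀).1.1 := by
        rw [hπ, inv_smul_eq_iff]
        exact h1.symm
      have hz' : π (g⁻¹ • y) = (rep e₀).1.2 := by
        rw [hπ, inv_smul_eq_iff]
        exact h2.symm
      have h3 := hφ3 _ _ (rep e₀).2 _ _ hz hz' (hr_smul g⁻¹ y' y (hr_symm _ _ hr))
      refine ⟨rep e₀, hreprep e₀, g, g⁻¹ • y', hz, Or.inr ⟨(smul_inv_smul g y').symm, ?_⟩⟩
      rw [h3, smul_inv_smul]

end Pool.Agent.LR
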