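import Pool.Agent.Lib.MP_836f52_al_LR.StabFG
import Pool.Agent.Lib.MP_836f52_al_LR.VR

set_option autoImplicit false

/-!
Row A1: the choice of the subgroups `N y`.

Write `G_y = stabilizer G y` and `H_y = H ⊓ G_y`, finitely generated by `stab_fg`.  Let `y ∈ W`.

Step 1 (one vertex `y ∈ W`).  By `hlr y` and `isVR_iff` (for the subgroup `H_y` of `G_y`, pushed
to `G`) there is `N₀ ≤ G_y` normalised by `H_y`, `N₀ ⊓ H = ⊥`, `N₀ ⊔ H_y` of finite index in `G_y`.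
The edges of `W` at `y` are a finite union of orbits of `H_y` (from `hedge`: if `g • b.1 = y` and
`g' • b.1 = y` with `g, g' ∈ H` then `g • b.2` and `g' • b.2` differ by `g' g⁻¹ ∈ H_y`), with
representatives `z 1, …, z k`.  Let `F` be the finite set of the `f ∈ G_y` with
`f • z i = z j` for some `i, j` (finite as the stabilisers of edges are finite).  For `f ∈ F` that can
be written `f = n_f * h_f` with `n_f ∈ N₀`, `h_f ∈ H_y` (uniquely), choose, if `n_f ≠ 1`, a normal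
subgroup of finite index of `G_y` not containing `n_f` (`G_y` is residually finite by
`resFin_of_hasLR`); let `M` be the intersection of these, and `N = N₀ ⊓ M`.  It is normalised by
`H_y`, and `N ⊔ H_y` has finite index in `N₀ ⊔ H_y` (every element of the latter is `n * h`, and `N` has
finite index in `N₀`).  If `n ∈ N` and `n • (h • z i) = h' • z j` with `h, h' ∈ H_y` then
`f = h'⁻¹ n h = (h'⁻¹ n h') (h'⁻¹ h) ∈ F`, so `n_f = h'⁻¹ n h' ∈ N ≤ M`, hence `n_f = 1` and `n = 1`.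

Step 2 (equivariance).  Choose a representative in every `H`-orbit of `W` (`b : V → V`,
`b y ∈ W` in the same `H`-orbit as `y ∈ W`, depending only on the orbit; and `t y ∈ H`,
`t y • b y = y`); let `N y = t y (N (b y)) (t y)⁻¹` with `N (b y)` from Step 1.  For `h ∈ H`,
`t (h • y)⁻¹ h t y ∈ H_{b y}` normalises `N (b y)`, so `h (N y) h⁻¹ = N (h • y)`.  The other
properties are carried over by conjugation with `t y ∈ H` (`W` and `H` are invariant).
-/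

namespace Pool.Agent.LR

open Pool.Agent.Lib.MP_836f52_al_H7

universe u v

private theorem A1_mem_sup {S : Type u} [Group S] {K N : Subgroup S}
    (hn : ∀ k ∈ K, ∀ n ∈ N, k * n * k⁻¹ ∈ N) {x : S} (hx : x ∈ N ⊔ K) :
    ∃ n ∈ N, ∃ k ∈ K, x = n * k := by
  let P : Subgroup S :=
    { carrier := {x | ∃ n ∈ N, ∃ k ∈ K, x = n * k}
      one_mem' := ⟨1, N.one_mem, 1, K.one_mem, by simp⟩
      mul_mem' := by
        rintro _ _ ⟨n, hn1, k, hk, rfl⟩ ⟨n', hn', k', hk', rfl⟩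
        exact ⟨n * (k * n' * k⁻¹), N.mul_mem hn1 (hn k hk n' hn'), k * k', K.mul_mem hk hk',
          by group⟩
      inv_mem' := by
        rintro _ ⟨n, hn1, k, hk, rfl⟩
        exact ⟨k⁻¹ * n⁻¹ * k⁻¹⁻¹, hn k⁻¹ (K.inv_mem hk) n⁻¹ (N.inv_mem hn1), k⁻¹, K.inv_mem hk,
          by group⟩ }
  have hP : N ⊔ K ≤ P := sup_le (fun n hn1 => ⟨n, hn1, 1, K.one_mem, by simp⟩)
    fun k hk => ⟨1, N.one_mem, k, hk, by simp⟩
  exact hP hx

private theorem A1_fi {S : Type u} [Group S] {K N₀ N : Subgroup S}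
    (hn : ∀ k ∈ K, ∀ n ∈ N₀, k * n * k⁻¹ ∈ N₀)
    (hNN : (N.subgroupOf N₀).FiniteIndex) (hfi : (N₀ ⊔ K).FiniteIndex) :
    (N ⊔ K).FiniteIndex := by
  have h1 : Finite (S ⧸ (N₀ ⊔ K)) := Subgroup.finite_quotient_of_finiteIndex
  have h2 : Finite (N₀ ⧸ (N.subgroupOf N₀)) := Subgroup.finite_quotient_of_finiteIndex
  let φ : (S ⧸ (N₀ ⊔ K)) × (N₀ ⧸ (N.subgroupOf N₀)) → S ⧸ (N ⊔ K) :=
    fun x => ((x.1.out * (x.2.out : S) : S) : S ⧸ (N ⊔ K))
  have hφ : Function.Surjective φ := by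
    intro x
    induction x using QuotientGroup.induction_on with
    | H g =>
      have h3 : ((g : S ⧸ (N₀ ⊔ K)).out)⁻¹ * g ∈ N₀ ⊔ K := by
        rw [← QuotientGroup.eq, QuotientGroup.out_eq']
      obtain ⟨n, hn1, k, hk, h4⟩ := A1_mem_sup hn h3
      have h5 : (((⟨n, hn1⟩ : N₀) : N₀ ⧸ (N.subgroupOf N₀)).out)⁻¹ * (⟨n, hn1⟩ : N₀) ∈
          N.subgroupOf N₀ := by
        rw [← QuotientGroup.eq, QuotientGroup.out_eq']
      refine ⟨((g : S ⧸ (N₀ ⊔ K)), ((⟨n, hn1⟩ : N₀) : N₀ ⧸ (N.subgroupOf N₀))), ?_⟩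
      change ((_ : S) : S ⧸ (N ⊔ K)) = (g : S ⧸ (N ⊔ K))
      rw [QuotientGroup.eq]
      rw [Subgroup.mem_subgroupOf, Subgroup.coe_mul, Subgroup.coe_inv] at h5
      have h7 : ∀ u c : S, u⁻¹ * g = n * k → (u * c)⁻¹ * g = (c⁻¹ * n) * k := by
        intro u c hu
        rw [mul_inv_rev, mul_assoc, hu, mul_assoc]
      rw [h7 _ _ h4]
      exact Subgroup.mul_mem_sup h5 hk
  have := Finite.of_surjective φ hφ
  exact Subgroup.finiteIndex_of_finite_quotient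

private theorem A1_shrink {S : Type u} [Group S] (hres : ResFin S) (K N₀ : Subgroup S)
    (hn : ∀ k ∈ K, ∀ n ∈ N₀, k * n * k⁻¹ ∈ N₀) (hK : N₀ ⊓ K = ⊥) (hfi : (N₀ ⊔ K).FiniteIndex)
    (F : Set S) (hF : F.Finite) :
    ∃ N : Subgroup S, (∀ k ∈ K, ∀ n ∈ N, k * n * k⁻¹ ∈ N) ∧ N ≤ N₀ ∧ (N ⊔ K).FiniteIndex ∧
      ∀ n ∈ N, n ≠ 1 → ∀ k ∈ K, n * k ∉ F := by
  classical
  let A : Set S := {n | n ∈ N₀ ∧ n ≠ 1 ∧ ∃ k ∈ K, n * k ∈ F}
  have hA : A.Finite := by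
    have h1 : A ⊆ ⋃ f ∈ F, {n | n ∈ N₀ ∧ ∃ k ∈ K, n * k = f} := by
      rintro n ⟨h1, _, k, hk, h2⟩
      exact Set.mem_biUnion h2 ⟨h1, k, hk, rfl⟩
    refine (hF.biUnion fun f _ => ?_).subset h1
    refine Set.Subsingleton.finite ?_
    rintro n ⟨hn1, k, hk, rfl⟩ n' ⟨hn', k', hk', h2⟩
    have h3 : n'⁻¹ * n ∈ N₀ ⊓ K := by
      refine ⟨N₀.mul_mem (N₀.inv_mem hn') hn1, ?_⟩
      have : n'⁻¹ * n = k' * k⁻¹ := by
        rw [inv_mul_eq_iff_eq_mul, ← mul_assoc, h2, mul_inv_cancel_right]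
      rw [this]
      exact K.mul_mem hk' (K.inv_mem hk)
    rw [hK, Subgroup.mem_bot, inv_mul_eq_one] at h3
    exact h3.symm
  have hM : ∀ n : A, ∃ M : Subgroup S, M.Normal ∧ M.FiniteIndex ∧ n.1 ∉ M :=
    fun n => hres n.1 n.2.2.1
  choose M hM1 hM2 hM3 using hM
  have : Finite A := hA
  have hMfi : (⨅ n, M n).FiniteIndex := Subgroup.finiteIndex_iInf hM2
  refine ⟨N₀ ⊓ ⨅ n, M n, fun k hk n hn1 => ⟨hn k hk n hn1.1, ?_⟩, inf_le_left,
    A1_fi hn ?_ hfi, fun n hn1 hn2 k hk h => ?_⟩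
  · exact Subgroup.mem_iInf.2 fun i => (hM1 i).conj_mem n (Subgroup.mem_iInf.1 hn1.2 i) k
  · rw [Subgroup.inf_subgroupOf_left]
    infer_instance
  · exact hM3 ⟨n, hn1.1, hn2, k, hk, h⟩ (Subgroup.mem_iInf.1 hn1.2 _)

private theorem A1_one {G : Type u} [Group G] {V : Type v} [MulAction G V] {T : SimpleGraph V}
    (h : TreeAct G T) (y : V) (hlr : HasLR (MulAction.stabilizer G y)) (H : Subgroup G)
    (hH : H.FG) (W : Set V)
    (hedge : ∃ B : Set (V × V), B.Finite ∧ ∀ x ∈ W, ∀ y ∈ W, T.Adj x y →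
      ∃ g ∈ H, ∃ b ∈ B, g • b.1 = x ∧ g • b.2 = y) (hy : y ∈ W) :
    ∃ N : Subgroup G, N ≤ MulAction.stabilizer G y ∧
      (∀ g ∈ H, g • y = y → ∀ n ∈ N, g * n * g⁻¹ ∈ N) ∧
      N ⊓ H = ⊥ ∧
      ((N ⊔ (H ⊓ MulAction.stabilizer G y)).subgroupOf (MulAction.stabilizer G y)).FiniteIndex ∧
      ∀ n ∈ N, n ≠ 1 → ∀ z ∈ W, ∀ z' ∈ W, T.Adj y z → T.Adj y z' → n • z ≠ z' := by
  classical
  set S := MulAction.stabilizer G y with hS
  let K : Subgroup S := H.subgroupOf S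
  have hKmap : K.map S.subtype = H ⊓ S := Subgroup.subgroupOf_map_subtype H S
  have hKfg : K.FG := by
    have h1 : (K.map S.subtype).FG := by rw [hKmap]; exact stab_fg h H hH y
    rw [← Group.fg_iff_subgroup_fg] at h1 ⊢
    exact Group.fg_of_surjective
      (f := (K.equivMapOfInjective S.subtype S.subtype_injective).symm.toMonoidHom)
      (K.equivMapOfInjective S.subtype S.subtype_injective).symm.surjective
  obtain ⟨N₀, hn, hK, hfi⟩ := hasLR_iff.1 hlr K hKfg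
  obtain ⟨B, hB, hB1⟩ := hedge
  -- representatives of the edges
  let Q : V × V → V → Prop := fun b z => z ∈ W ∧ T.Adj y z ∧ ∃ g ∈ H, g • b.1 = y ∧ g • b.2 = z
  let f : V × V → V := fun b => if hb : ∃ z, Q b z then hb.choose else y
  have hf : ∀ b z, Q b z → Q b (f b) := fun b z hz => by
    have hb : ∃ z, Q b z := ⟨z, hz⟩
    have : f b = hb.choose := dif_pos hb
    rw [this]
    exact hb.choose_spec
  have hrep : ∀ z ∈ W, T.Adj y z → ∃ k ∈ K, ∃ z₀ ∈ f '' B, T.Adj y z₀ ∧ (k : S).1 • z₀ = z := by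
    intro z hz hyz
    obtain ⟨g, hg, b, hb, h1, h2⟩ := hB1 y hy z hz hyz
    obtain ⟨_, h4, g₀, hg₀, h5, h6⟩ := hf b z ⟨hz, hyz, g, hg, h1, h2⟩
    have h7 : (g * g₀⁻¹) • y = y := by
      rw [mul_smul, ← h5, inv_smul_smul, h5, h1]
    refine ⟨⟨g * g₀⁻¹, h7⟩, ?_, f b, ⟨b, hb, rfl⟩, h4, ?_⟩
    · exact H.mul_mem hg (H.inv_mem hg₀)
    · change (g * g₀⁻¹) • f b = z
      rw [mul_smul, ← h6, inv_smul_smul, h2]
  let F : Set S := {s | ∃ z ∈ f '' B, ∃ z' ∈ f '' B, T.Adj y z ∧ s.1 • z = z'}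
  have hZ : (f '' B).Finite := hB.image f
  have hF : F.Finite := by
    have h1 : F ⊆ ⋃ z ∈ f '' B, ⋃ z' ∈ f '' B, {s : S | T.Adj y z ∧ s.1 • z = z'} := by
      rintro s ⟨z, hz, z', hz', h2⟩
      exact Set.mem_biUnion hz (Set.mem_biUnion hz' h2)
    refine (hZ.biUnion fun z _ => hZ.biUnion fun z' _ => ?_).subset h1
    by_cases hne : ∃ s₀ : S, T.Adj y z ∧ s₀.1 • z = z'
    · obtain ⟨s₀, hadj, hs₀⟩ := hne
      have h2 : {s : S | T.Adj y z ∧ s.1 • z = z'} ⊆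
          (fun s : S => s₀.1⁻¹ * s.1) ⁻¹' {g : G | g • y = y ∧ g • z = z} := by
        rintro s ⟨_, hs⟩
        refine ⟨?_, ?_⟩
        · have e1 : s.1 • y = y := s.2
          have e2 : s₀.1 • y = y := s₀.2
          rw [mul_smul, e1, inv_smul_eq_iff, e2]
        · rw [mul_smul, hs, inv_smul_eq_iff, hs₀]
      refine ((h.fin y z hadj).preimage ?_).subset h2
      intro s _ s' _ hss
      exact Subtype.ext (mul_left_cancel hss)
    · push Not at hne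
      convert Set.finite_empty
      ext s
      simp only [Set.mem_setOf_eq, Set.mem_empty_iff_false, iff_false, not_and]
      exact fun hadj => hne s hadj
  obtain ⟨N, hN1, hN2, hN3, hN4⟩ := A1_shrink (resFin_of_hasLR hlr) K N₀ hn hK hfi F hF
  refine ⟨N.map S.subtype, Subgroup.map_subtype_le N, ?_, ?_, ?_, ?_⟩
  · rintro g hg hgy _ ⟨n, hn1, rfl⟩
    exact ⟨⟨g, hgy⟩ * n * ⟨g, hgy⟩⁻¹, hN1 ⟨g, hgy⟩ hg n hn1, rfl⟩
  · rw [eq_bot_iff]
    rintro _ ⟨⟨n, hn1, rfl⟩, hn2⟩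
    have : n ∈ N₀ ⊓ K := ⟨hN2 hn1, hn2⟩
    rw [hK, Subgroup.mem_bot] at this
    rw [this]
    exact Subgroup.one_mem _
  · rw [← hKmap, ← Subgroup.map_sup]
    rw [Subgroup.subgroupOf, Subgroup.comap_map_eq_self_of_injective S.subtype_injective]
    exact hN3
  · rintro _ ⟨n, hn1, rfl⟩ hne z hz z' hz' hadj hadj' heq
    obtain ⟨k, hk, z₁, hz₁, ha₁, h1⟩ := hrep z hz hadj
    obtain ⟨k', hk', z₂, hz₂, _, h2⟩ := hrep z' hz' hadj'
    change n.1 • z = z' at heq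
    have hn0 : n ≠ 1 := by
      rintro rfl
      exact hne rfl
    have h3 : k'⁻¹ * n * k'⁻¹⁻¹ ∈ N := hN1 k'⁻¹ (K.inv_mem hk') n hn1
    refine hN4 _ h3 ?_ (k'⁻¹ * k) (K.mul_mem (K.inv_mem hk') hk) ⟨z₁, hz₁, z₂, hz₂, ha₁, ?_⟩
    · intro h4
      apply hn0
      have : n = k' * (k'⁻¹ * n * k'⁻¹⁻¹) * k'⁻¹ := by group
      rw [this, h4]
      group
    · have h5 : k'⁻¹ * n * k'⁻¹⁻¹ * (k'⁻¹ * k) = k'⁻¹ * n * k := by group
      rw [h5]
      change (k'⁻¹.1 * n.1 * k.1) • z₁ = z₂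
      rw [mul_smul, mul_smul, h1, heq, ← h2]
      change k'.1⁻¹ • k'.1 • z₂ = z₂
      rw [inv_smul_smul]

theorem stepOneA {G : Type u} [Group G] {V : Type v} [MulAction G V] {T : SimpleGraph V}
    (h : TreeAct G T) (hlr : ∀ x : V, HasLR (MulAction.stabilizer G x)) (H : Subgroup G)
    (hH : H.FG) (W : Set V) (hHW : ∀ g ∈ H, ∀ x ∈ W, g • x ∈ W)
    (hedge : ∃ B : Set (V × V), B.Finite ∧ ∀ x ∈ W, ∀ y ∈ W, T.Adj x y →
      ∃ g ∈ H, ∃ b ∈ B, g • b.1 = x ∧ g • b.2 = y) :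
    ∃ N : V → Subgroup G, (∀ y ∈ W, N y ≤ MulAction.stabilizer G y) ∧
      (∀ g ∈ H, ∀ y ∈ W, ∀ n ∈ N y, g * n * g⁻¹ ∈ N (g • y)) ∧
      (∀ y ∈ W, N y ⊓ H = ⊥) ∧
      (∀ y ∈ W, ((N y ⊔ (H ⊓ MulAction.stabilizer G y)).subgroupOf
        (MulAction.stabilizer G y)).FiniteIndex) ∧
      ∀ y ∈ W, ∀ n ∈ N y, n ≠ 1 → ∀ z ∈ W, ∀ z' ∈ W, T.Adj y z → T.Adj y z' → n • z ≠ z' := by
  classical
  have hN : ∀ y : V, ∃ N : Subgroup G, y ∈ W → N ≤ MulAction.stabilizer G y ∧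
      (∀ g ∈ H, g • y = y → ∀ n ∈ N, g * n * g⁻¹ ∈ N) ∧
      N ⊓ H = ⊥ ∧
      ((N ⊔ (H ⊓ MulAction.stabilizer G y)).subgroupOf (MulAction.stabilizer G y)).FiniteIndex ∧
      ∀ n ∈ N, n ≠ 1 → ∀ z ∈ W, ∀ z' ∈ W, T.Adj y z → T.Adj y z' → n • z ≠ z' := by
    intro y
    by_cases hy : y ∈ W
    · obtain ⟨N, hN⟩ := A1_one h y (hlr y) H hH W hedge hy
      exact ⟨N, fun _ => hN⟩
    · exact ⟨⊥, fun hy' => absurd hy' hy⟩
  choose N₁ hN₁ using hN
  -- representatives of the orbits of `H`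
  have hrel : ∀ y : V, ∃ t ∈ H, t • (Quotient.out (Quotient.mk (MulAction.orbitRel H V) y)) = y := by
    intro y
    have h1 : (MulAction.orbitRel H V).r
        (Quotient.out (Quotient.mk (MulAction.orbitRel H V) y)) y := Quotient.mk_out y
    have h2 : y ∈ MulAction.orbit H
        (Quotient.out (Quotient.mk (MulAction.orbitRel H V) y)) := by
      rw [MulAction.mem_orbit_symm]
      exact h1
    obtain ⟨g, hg⟩ := h2
    exact ⟨g.1, g.2, hg⟩
  choose t ht1 ht2 using hrel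
  set b : V → V := fun y => Quotient.out (Quotient.mk (MulAction.orbitRel H V) y) with hb
  have ht2' : ∀ y, t y • b y = y := ht2
  have hbt : ∀ y, (t y)⁻¹ • y = b y := fun y => by
    rw [inv_smul_eq_iff]
    exact (ht2 y).symm
  have hbg : ∀ g ∈ H, ∀ y, b (g • y) = b y := by
    intro g hg y
    change Quotient.out _ = Quotient.out _
    congr 1
    exact Quotient.sound ⟨⟨g, hg⟩, rfl⟩
  have hbW : ∀ y ∈ W, b y ∈ W := fun y hy => by
    rw [← hbt]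
    exact hHW _ (H.inv_mem (ht1 y)) y hy
  let N : V → Subgroup G := fun y => (N₁ (b y)).map (MulAut.conj (t y)).toMonoidHom
  have hmem : ∀ y n, n ∈ N y ↔ (t y)⁻¹ * n * t y ∈ N₁ (b y) := by
    intro y n
    constructor
    · rintro ⟨m, hm, rfl⟩
      have : (t y)⁻¹ * (t y * m * (t y)⁻¹) * t y = m := by group
      change (t y)⁻¹ * (t y * m * (t y)⁻¹) * t y ∈ _
      rw [this]
      exact hm
    · intro hm
      refine ⟨_, hm, ?_⟩
      change t y * ((t y)⁻¹ * n * t y) * (t y)⁻¹ = n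
      group
  refine ⟨N, fun y hy n hn => ?_, fun g hg y hy n hn => ?_, fun y hy => ?_, fun y hy => ?_,
    fun y hy n hn hne z hz z' hz' hadj hadj' heq => ?_⟩
  · rw [hmem] at hn
    have h1 := (hN₁ (b y) (hbW y hy)).1 hn
    rw [MulAction.mem_stabilizer_iff, mul_smul, mul_smul, ht2', inv_smul_eq_iff, ht2'] at h1
    exact h1
  · rw [hmem] at hn ⊢
    rw [hbg g hg y]
    have h1 := (hN₁ (b y) (hbW y hy)).2.1 ((t (g • y))⁻¹ * g * t y)
      (H.mul_mem (H.mul_mem (H.inv_mem (ht1 _)) hg) (ht1 y))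
      (by rw [mul_smul, mul_smul, ht2', hbt, hbg g hg y]) _ hn
    have h2 : (t (g • y))⁻¹ * g * t y * ((t y)⁻¹ * n * t y) * ((t (g • y))⁻¹ * g * t y)⁻¹ =
        (t (g • y))⁻¹ * (g * n * g⁻¹) * t (g • y) := by group
    rwa [h2] at h1
  · rw [eq_bot_iff]
    rintro n ⟨hn, hnH⟩
    have hn' := (hmem y n).1 hn
    have h1 : (t y)⁻¹ * n * t y ∈ N₁ (b y) ⊓ H :=
      ⟨hn', H.mul_mem (H.mul_mem (H.inv_mem (ht1 y)) hnH) (ht1 y)⟩
    rw [(hN₁ (b y) (hbW y hy)).2.2.1, Subgroup.mem_bot] at h1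
    rw [Subgroup.mem_bot]
    have h2 : n = t y * ((t y)⁻¹ * n * t y) * (t y)⁻¹ := by group
    rw [h2, h1]
    group
  · have h1 := (hN₁ (b y) (hbW y hy)).2.2.2.1
    rw [Subgroup.finiteIndex_iff] at h1 ⊢
    change Subgroup.relIndex _ _ ≠ 0 at h1
    change Subgroup.relIndex _ _ ≠ 0
    have hinj : Function.Injective (MulAut.conj (t y)).toMonoidHom := (MulAut.conj (t y)).injective
    rw [← Subgroup.relIndex_map_map_of_injective _ _ hinj, Subgroup.map_sup] at h1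
    have h2 : (MulAction.stabilizer G (b y)).map (MulAut.conj (t y)).toMonoidHom =
        MulAction.stabilizer G y := by
      ext g
      constructor
      · rintro ⟨m, hm, rfl⟩
        change (t y * m * (t y)⁻¹) • y = y
        have hm' : m • b y = b y := hm
        rw [mul_smul, mul_smul, hbt, hm', ht2']
      · intro hg
        refine ⟨(t y)⁻¹ * g * t y, ?_, ?_⟩
        · change ((t y)⁻¹ * g * t y) • b y = b y
          have hg' : g • y = y := hg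
          rw [mul_smul, mul_smul, ht2', hg', hbt]
        · change t y * ((t y)⁻¹ * g * t y) * (t y)⁻¹ = g
          group
    have h3 : (H ⊓ MulAction.stabilizer G (b y)).map (MulAut.conj (t y)).toMonoidHom =
        H ⊓ MulAction.stabilizer G y := by
      rw [Subgroup.map_inf _ _ _ hinj, h2]
      congr 1
      ext g
      constructor
      · rintro ⟨m, hm, rfl⟩
        exact H.mul_mem (H.mul_mem (ht1 y) hm) (H.inv_mem (ht1 y))
      · intro hg
        refine ⟨(t y)⁻¹ * g * t y, H.mul_mem (H.mul_mem (H.inv_mem (ht1 y)) hg) (ht1 y), ?_⟩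
        change t y * ((t y)⁻¹ * g * t y) * (t y)⁻¹ = g
        group
    rw [h2, h3] at h1
    exact h1
  · rw [hmem] at hn
    have hW : ∀ x ∈ W, (t y)⁻¹ • x ∈ W := fun x hx => hHW _ (H.inv_mem (ht1 y)) x hx
    refine (hN₁ (b y) (hbW y hy)).2.2.2.2 _ hn ?_ _ (hW z hz) _ (hW z' hz') ?_ ?_ ?_
    · intro h1
      apply hne
      have h2 : n = t y * ((t y)⁻¹ * n * t y) * (t y)⁻¹ := by group
      rw [h2, h1]
      group
    · rw [← hbt]
      exact h.adj _ _ _ hadj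
    · rw [← hbt]
      exact h.adj _ _ _ hadj'
    · rw [mul_smul, mul_smul, smul_inv_smul, heq]

end Pool.Agent.LR
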