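import Pool.Agent.Lib.MP_836f52_al_LR.Defs
import Pool.Agent.Lib.MP_836f52_al_H7.Tree

set_option autoImplicit false

/-!
Row A2: ping-pong.

`P` is the subgroup generated by the `N y`, `y ∈ W`.  It is normalised by `H` (`hN2`).
For `y ∈ W` let `Out y = {v | ∀ w ∈ W, dist w v = dist w y + dist y v}` (the vertices whose
projection to `W` is `y`).  `Out y ∩ W = {y}`.

(a) If `n ∈ N y`, `n ≠ 1`, `y ∈ W`, `y' ∈ W`, `y' ≠ y` and `v ∈ Out y'` then `n • v ∈ Out y` and
`n • v ≠ y`, so `n • v ∉ W`.  Proof: let `z` be the neighbour of `y` towards `y'` (`first_step`);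
`z ∈ W` by convexity, and `z` is on the geodesic from `y` to `v`: `dist y v = 1 + dist z v`.  So
`n • z` is a neighbour of `y = n • y` on the geodesic from `y` to `n • v`, and `n • z ∉ W` by `hN5`
(if `n • z = z' ∈ W`).  Let `w ∈ W`.  If the geodesics from `y` to `w` and from `y` to `n • v` had a common
edge at `y`, the neighbour `n • z` would be in `W` by convexity; so `y` is on the geodesic from `w` to
`n • v` (use the median of `w`, `y`, `n • v`, `tree_median_exists`).
In particular, for `n ∈ N y`, `n ≠ 1` and `w ∈ W`, `w ≠ y`: `n • w ∈ Out y`, `n • w ∉ W`.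

(b) Say that `g` is reduced with head `y` if `y ∈ W` and `g = n * g'` with `n ∈ N y`, `n ≠ 1` and `g' = 1`
or `g'` reduced with head `y' ≠ y` (an inductive predicate `Red : V → G → Prop`, or with an additional
length parameter).  Every element of `P` is `1` or reduced (`Subgroup.closure_induction_left` or
`closure_induction''`: closed under left multiplication by the elements of the `N y`).

(c) If `g` is reduced with head `y` and `W` has at least two elements, there is `w ∈ W` with
`g • w ∈ Out y`, `g • w ≠ y`: induction; for `g = n ∈ N y` take any `w ≠ y`, for `g = n g'` with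
`g' • w ∈ Out y'`, `y' ≠ y`, use (a).  So `g • w ∉ W`, `g ∉ H`, and `P ⊓ H = ⊥`.  If `W = {y}` then
`P = N y` and `P ⊓ H = ⊥` by `hN3`.

`W' = {v | ∃ g ∈ P, ∃ w ∈ W, g • w = v}`.  It is invariant under `P` and `H`, hence under `P ⊔ H`,
and covered by the `P ⊔ H`-orbits of `B`.

(d) Convexity: it suffices to consider the geodesics from `w ∈ W` to `g • w'`, `g ∈ P`, `w' ∈ W`
(translate).  By induction on the reduced form: for `g = 1` it is the convexity of `W`.  Let
`g = n * g'` be reduced with head `y`.  One has `g • w' ∈ Out y` for every `w' ∈ W` (if `g' = 1` by (a)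
for `w' ≠ y` and trivially for `w' = y`; if `g'` is reduced with head `y' ≠ y`, `g' • w' ∈ Out y'` by
induction and (a)).  So the geodesic from `w` to `g • w'` is the union of the geodesic from `w` to `y`, in
`W`, and of the geodesic from `y` to `g • w' = n • (g' • w')`, the image by `n` of the geodesic from `y` to
`g' • w'`, which is in `W'` by induction (`tree_interval_unique`, or `tree_split` for the decomposition).

(e) For `x = g • w`, `g ∈ P`, `w ∈ W`, the group `(P ⊔ H) ⊓ stabilizer x` contains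
`g (N w ⊔ (H ⊓ stabilizer w)) g⁻¹`, of finite index in `g (stabilizer w) g⁻¹ = stabilizer x`.
-/

namespace Pool.Agent.LR

open Pool.Agent.Lib.MP_836f52_al_H7

universe u v

/-- the vertices whose projection to `W` is `y` -/
private def A2Out {V : Type v} (T : SimpleGraph V) (W : Set V) (y v : V) : Prop :=
  ∀ w ∈ W, T.dist w v = T.dist w y + T.dist y v

/-- reduced products with head `y` -/
private inductive A2Red {G : Type u} [Group G] {V : Type v} (W : Set V) (N : V → Subgroup G) :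
    V → G → Prop
  | one (y : V) (n : G) (hy : y ∈ W) (hn : n ∈ N y) (h1 : n ≠ 1) : A2Red W N y n
  | cons (y : V) (n : G) (y' : V) (g : G) (hy : y ∈ W) (hn : n ∈ N y) (h1 : n ≠ 1)
      (hne : y' ≠ y) (hg : A2Red W N y' g) : A2Red W N y (n * g)

private lemma A2Red.mem {G : Type u} [Group G] {V : Type v} {W : Set V} {N : V → Subgroup G}
    {y : V} {g : G} (h : A2Red W N y g) : y ∈ W := by
  cases h with
  | one _ _ hy hn h1 => exact hy
  | cons _ n y' g' hy hn h1 hne hg => exact hy

private lemma A2_mul {G : Type u} [Group G] {V : Type v} {W : Set V} {N : V → Subgroup G}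
    {y : V} (hy : y ∈ W) {n : G} (hn : n ∈ N y) {g : G} (hg : g = 1 ∨ ∃ y', A2Red W N y' g) :
    n * g = 1 ∨ ∃ y', A2Red W N y' (n * g) := by
  by_cases h1 : n = 1
  · rw [h1, one_mul]; exact hg
  rcases hg with rfl | ⟨y', hg⟩
  · rw [mul_one]
    exact Or.inr ⟨y, A2Red.one y n hy hn h1⟩
  · by_cases hyy : y' = y
    · subst hyy
      cases hg with
      | one _ _ hy' hn' h1' =>
        by_cases h2 : n * g = 1
        · exact Or.inl h2
        · exact Or.inr ⟨y', A2Red.one y' _ hy ((N y').mul_mem hn hn') h2⟩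
      | cons _ n' y'' g' hy' hn' h1' hne hg' =>
        rw [← mul_assoc]
        by_cases h2 : n * n' = 1
        · rw [h2, one_mul]
          exact Or.inr ⟨y'', hg'⟩
        · exact Or.inr ⟨y', A2Red.cons y' _ y'' g' hy ((N y').mul_mem hn hn') h2 hne hg'⟩
    · exact Or.inr ⟨y, A2Red.cons y n y' g hy hn h1 hyy hg⟩

private lemma A2_step {G : Type u} [Group G] {V : Type v} [MulAction G V] {T : SimpleGraph V}
    (h : TreeAct G T) (W : Set V) (hconv : IsConvex T W)
    (N : V → Subgroup G) (hN1 : ∀ y ∈ W, N y ≤ MulAction.stabilizer G y)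
    (hN5 : ∀ y ∈ W, ∀ n ∈ N y, n ≠ 1 → ∀ z ∈ W, ∀ z' ∈ W, T.Adj y z → T.Adj y z' →
      n • z ≠ z') {y y' v : V} (hy : y ∈ W) (hy' : y' ∈ W) (hne : y' ≠ y) {n : G} (hn : n ∈ N y)
    (h1 : n ≠ 1) (hv : A2Out T W y' v) : A2Out T W y (n • v) ∧ n • v ≠ y := by
  have hT := h.tree
  have hc := hT.1
  have hds : ∀ (g : G) (x y : V), T.dist (g • x) (g • y) = T.dist x y := fun g x y =>
    dist_smul hc h.adj g x y
  obtain ⟨z, hyz, hz⟩ := first_step hc (Ne.symm hne)
  have hdyz : T.dist y z = 1 := SimpleGraph.dist_eq_one_iff_adj.2 hyz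
  have hzW : z ∈ W := hconv y hy y' hy' z (by omega)
  have e1 := hv y hy
  have e2 := hv z hzW
  have hny : n • y = y := hN1 y hy hn
  have e3 : T.dist y (n • v) = T.dist y v := by
    conv_lhs => rw [← hny]
    exact hds n y v
  have e4 : T.dist (n • z) (n • v) = T.dist z v := hds n z v
  have hadj : T.Adj y (n • z) := by
    have := h.adj n y z hyz
    rwa [hny] at this
  refine ⟨?_, ?_⟩
  · intro w hw
    obtain ⟨m, m1, m2, m3⟩ := tree_median_exists hT w _ y (n • v) rfl
    by_cases hm : y = m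
    · subst hm
      omega
    · exfalso
      obtain ⟨z2, hyz2, hz2⟩ := first_step hc hm
      have hdyz2 : T.dist y z2 = 1 := SimpleGraph.dist_eq_one_iff_adj.2 hyz2
      have t1 := hc.dist_triangle (u := z2) (v := m) (w := n • v)
      have t2 := hc.dist_triangle (u := y) (v := z2) (w := n • v)
      have c1 := T.dist_comm (u := n • v) (v := y)
      have c2 := T.dist_comm (u := n • v) (v := z2)
      have c3 := T.dist_comm (u := n • v) (v := n • z)
      have e5 : n • z = z2 := tree_parent hT (o := n • v) hadj.symm hyz2.symm (by omega) (by omega)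
      have c4 := T.dist_comm (u := y) (v := m)
      have c5 := T.dist_comm (u := z2) (v := m)
      have c6 := T.dist_comm (u := w) (v := m)
      have c7 := T.dist_comm (u := w) (v := y)
      have c8 := T.dist_comm (u := w) (v := z2)
      have t3 := hc.dist_triangle (u := w) (v := m) (w := z2)
      have t4 := hc.dist_triangle (u := w) (v := z2) (w := y)
      have c9 := T.dist_comm (u := z2) (v := y)
      have hz2W : z2 ∈ W := hconv y hy w hw z2 (by omega)
      exact hN5 y hy n hn h1 z hzW z2 hz2W hyz hyz2 e5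
  · intro hcon
    rw [hcon] at e3
    simp only [SimpleGraph.dist_self] at e3
    omega

theorem stepOneB {G : Type u} [Group G] {V : Type v} [MulAction G V] {T : SimpleGraph V}
    (h : TreeAct G T) (H : Subgroup G) (W : Set V) (hne : W.Nonempty) (hconv : IsConvex T W)
    (hHW : ∀ g ∈ H, ∀ x ∈ W, g • x ∈ W)
    (hvert : ∃ B : Set V, B.Finite ∧ ∀ x ∈ W, ∃ g ∈ H, ∃ b ∈ B, g • b = x)
    (N : V → Subgroup G) (hN1 : ∀ y ∈ W, N y ≤ MulAction.stabilizer G y)
    (hN2 : ∀ g ∈ H, ∀ y ∈ W, ∀ n ∈ N y, g * n * g⁻¹ ∈ N (g • y))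
    (hN3 : ∀ y ∈ W, N y ⊓ H = ⊥)
    (hN4 : ∀ y ∈ W, ((N y ⊔ (H ⊓ MulAction.stabilizer G y)).subgroupOf
      (MulAction.stabilizer G y)).FiniteIndex)
    (hN5 : ∀ y ∈ W, ∀ n ∈ N y, n ≠ 1 → ∀ z ∈ W, ∀ z' ∈ W, T.Adj y z → T.Adj y z' →
      n • z ≠ z') :
    ∃ P : Subgroup G, (∀ g ∈ H, ∀ n ∈ P, g * n * g⁻¹ ∈ P) ∧ P ⊓ H = ⊥ ∧
      ∃ W' : Set V, W'.Nonempty ∧ IsConvex T W' ∧ (∀ g ∈ P ⊔ H, ∀ x ∈ W', g • x ∈ W') ∧
        (∃ B : Set V, B.Finite ∧ ∀ x ∈ W', ∃ g ∈ P ⊔ H, ∃ b ∈ B, g • b = x) ∧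
        ∀ x ∈ W', (((P ⊔ H) ⊓ MulAction.stabilizer G x).subgroupOf
          (MulAction.stabilizer G x)).FiniteIndex := by
  classical
  have hT := h.tree
  have hc := hT.1
  have hds : ∀ (g : G) (x y : V), T.dist (g • x) (g • y) = T.dist x y := fun g x y =>
    dist_smul hc h.adj g x y
  have step := fun {y y' v : V} (hy : y ∈ W) (hy' : y' ∈ W) (hne : y' ≠ y) {n : G} (hn : n ∈ N y)
    (h1 : n ≠ 1) (hv : A2Out T W y' v) => A2_step h W hconv N hN1 hN5 hy hy' hne hn h1 hv
  have outself : ∀ w, A2Out T W w w := fun w x hx => by simp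
  set P : Subgroup G := Subgroup.closure {n | ∃ y ∈ W, n ∈ N y} with hP
  have hNP : ∀ y ∈ W, N y ≤ P := fun y hy n hn => Subgroup.subset_closure ⟨y, hy, hn⟩
  -- elements of `P`
  have hPred : ∀ g ∈ P, g = 1 ∨ ∃ y, A2Red W N y g := by
    intro g hg
    rw [hP] at hg
    induction hg using Subgroup.closure_induction_left with
    | one => exact Or.inl rfl
    | mul_left x hx y _ ih =>
      obtain ⟨z, hz, hxz⟩ := hx
      exact A2_mul hz hxz ih
    | inv_mul_cancel x hx y _ ih =>
      obtain ⟨z, hz, hxz⟩ := hx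
      exact A2_mul hz ((N z).inv_mem hxz) ih
  have hredP : ∀ y g, A2Red W N y g → g ∈ P := by
    intro y g hg
    induction hg with
    | one y n hy hn h1 => exact hNP y hy hn
    | cons y n y' g hy hn h1 hne hg ih => exact P.mul_mem (hNP y hy hn) ih
  -- the projection of `g • w'`
  have hout : ∀ y g, A2Red W N y g → ∀ w' ∈ W, A2Out T W y (g • w') := by
    intro y g hg
    induction hg with
    | one y n hy hn h1 =>
      intro w' hw'
      by_cases hwy : w' = y
      · have hny : n • y = y := hN1 y hy hn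
        rw [hwy, hny]
        exact outself y
      · exact (step hy hw' hwy hn h1 (outself w')).1
    | cons y n y' g hy hn h1 hne hg ih =>
      intro w' hw'
      rw [mul_smul]
      exact (step hy hg.mem hne hn h1 (ih w' hw')).1
  -- some `w` is moved out of `W`
  have hmove : ∀ y g, A2Red W N y g → (∃ w ∈ W, w ≠ y) → (∃ a ∈ W, ∃ b ∈ W, a ≠ b) →
      ∃ w ∈ W, A2Out T W y (g • w) ∧ g • w ≠ y := by
    intro y g hg
    induction hg with
    | one y n hy hn h1 =>
      rintro ⟨w, hw, hwy⟩ -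
      exact ⟨w, hw, step hy hw hwy hn h1 (outself w)⟩
    | cons y n y' g hy hn h1 hne hg ih =>
      rintro - hab
      obtain ⟨w, hw, h2, h3⟩ := ih ⟨y, hy, Ne.symm hne⟩ hab
      refine ⟨w, hw, ?_⟩
      rw [mul_smul]
      exact step hy hg.mem hne hn h1 h2
  have houtW : ∀ y v, A2Out T W y v → v ≠ y → v ∉ W := by
    intro y v hv hne hvW
    have h1 := hv v hvW
    rw [SimpleGraph.dist_self] at h1
    have h2 : T.dist v y = 0 := by omega
    exact hne (hc.dist_eq_zero_iff.1 h2)
  have hPH : P ⊓ H = ⊥ := by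
    rw [eq_bot_iff]
    rintro g ⟨hgP, hgH⟩
    rw [Subgroup.mem_bot]
    rcases hPred g hgP with h1 | ⟨y, hg⟩
    · exact h1
    · exfalso
      have hyW := hg.mem
      by_cases hex : ∃ w ∈ W, w ≠ y
      · obtain ⟨w0, hw0, hne0⟩ := hex
        obtain ⟨w, hw, h2, h3⟩ := hmove y g hg ⟨w0, hw0, hne0⟩ ⟨w0, hw0, y, hyW, hne0⟩
        exact houtW y _ h2 h3 (hHW g hgH w hw)
      · push Not at hex
        cases hg with
        | one _ _ hy hn h1 =>
          have h4 : g ∈ N y ⊓ H := ⟨hn, hgH⟩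
          rw [hN3 y hy, Subgroup.mem_bot] at h4
          exact h1 h4
        | cons _ n y' g' hy hn h1 hne hg' => exact hne (hex y' hg'.mem)
  have hPnorm : ∀ g ∈ H, ∀ n ∈ P, g * n * g⁻¹ ∈ P := by
    intro g hg n hn
    rw [hP] at hn
    induction hn using Subgroup.closure_induction with
    | mem x hx =>
      obtain ⟨y, hy, hxy⟩ := hx
      exact hNP (g • y) (hHW g hg y hy) (hN2 g hg y hy x hxy)
    | one => simp
    | mul x y _ _ hx hy =>
      have : g * (x * y) * g⁻¹ = (g * x * g⁻¹) * (g * y * g⁻¹) := by group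
      rw [this]
      exact P.mul_mem hx hy
    | inv x _ hx =>
      have : g * x⁻¹ * g⁻¹ = (g * x * g⁻¹)⁻¹ := by group
      rw [this]
      exact P.inv_mem hx
  set W' : Set V := {v | ∃ g ∈ P, ∃ w ∈ W, g • w = v} with hW'
  have hPW' : ∀ g ∈ P, ∀ x ∈ W', g • x ∈ W' := by
    rintro g hg _ ⟨g', hg', w, hw, rfl⟩
    exact ⟨g * g', P.mul_mem hg hg', w, hw, mul_smul _ _ _⟩
  have hHW' : ∀ g ∈ H, ∀ x ∈ W', g • x ∈ W' := by
    rintro g hg _ ⟨g', hg', w, hw, rfl⟩
    refine ⟨g * g' * g⁻¹, hPnorm g hg g' hg', g • w, hHW g hg w hw, ?_⟩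
    rw [← mul_smul, ← mul_smul]
    congr 1
    group
  have hWW' : ∀ w ∈ W, w ∈ W' := fun w hw => ⟨1, P.one_mem, w, hw, one_smul _ _⟩
  have hPHW' : ∀ g ∈ P ⊔ H, ∀ x ∈ W', g • x ∈ W' := by
    let S : Subgroup G :=
      { carrier := {g | ∀ x, g • x ∈ W' ↔ x ∈ W'}
        one_mem' := fun x => by rw [one_smul]
        mul_mem' := fun {a b} ha hb x => by rw [mul_smul, ha, hb]
        inv_mem' := fun {a} ha x => by rw [← ha (a⁻¹ • x), smul_inv_smul] }
    have hS : P ⊔ H ≤ S := by
      refine sup_le ?_ ?_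
      · intro g hg x
        refine ⟨fun hx => ?_, hPW' g hg x⟩
        have := hPW' g⁻¹ (P.inv_mem hg) _ hx
        rwa [inv_smul_smul] at this
      · intro g hg x
        refine ⟨fun hx => ?_, hHW' g hg x⟩
        have := hHW' g⁻¹ (H.inv_mem hg) _ hx
        rwa [inv_smul_smul] at this
    exact fun g hg x hx => (hS hg x).mpr hx
  -- convexity
  have hconv1 : ∀ y g, A2Red W N y g → ∀ w ∈ W, ∀ w' ∈ W, ∀ z,
      T.dist w z + T.dist z (g • w') = T.dist w (g • w') → z ∈ W' := by
    intro y g hg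
    induction hg with
    | one y n hy hn h1 =>
      intro w hw w' hw' z hz
      have h2 := hout y n (A2Red.one y n hy hn h1) w' hw' w hw
      have hny : n • y = y := hN1 y hy hn
      rcases tree_split hT y hz with h3 | h3
      · exact hWW' z (hconv w hw y hy z h3)
      · have h4 : T.dist y (n⁻¹ • z) + T.dist (n⁻¹ • z) w' = T.dist y w' := by
          rw [← hds n y (n⁻¹ • z), ← hds n (n⁻¹ • z) w', ← hds n y w', smul_inv_smul, hny]
          exact h3
        have h5 := hconv y hy w' hw' _ h4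
        have h6 := hPW' n (hNP y hy hn) _ (hWW' _ h5)
        rwa [smul_inv_smul] at h6
    | cons y n y' g hy hn h1 hne hg ih =>
      intro w hw w' hw' z hz
      have hny : n • y = y := hN1 y hy hn
      rcases tree_split hT y hz with h3 | h3
      · exact hWW' z (hconv w hw y hy z h3)
      · have h4 : T.dist y (n⁻¹ • z) + T.dist (n⁻¹ • z) (g • w') = T.dist y (g • w') := by
          rw [← hds n y (n⁻¹ • z), ← hds n (n⁻¹ • z) (g • w'), ← hds n y (g • w'), smul_inv_smul,
            hny, ← mul_smul]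
          exact h3
        have h5 := ih y hy w' hw' _ h4
        have h6 := hPW' n (hNP y hy hn) _ h5
        rwa [smul_inv_smul] at h6
  have hconv2 : ∀ g ∈ P, ∀ w ∈ W, ∀ w' ∈ W, ∀ z,
      T.dist w z + T.dist z (g • w') = T.dist w (g • w') → z ∈ W' := by
    intro g hg w hw w' hw' z hz
    rcases hPred g hg with rfl | ⟨y, hy⟩
    · rw [one_smul] at hz
      exact hWW' z (hconv w hw w' hw' z hz)
    · exact hconv1 y g hy w hw w' hw' z hz
  refine ⟨P, hPnorm, hPH, W', ?_, ?_, hPHW', ?_, ?_⟩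
  · obtain ⟨w, hw⟩ := hne
    exact ⟨w, hWW' w hw⟩
  · rintro _ ⟨g, hg, w, hw, rfl⟩ _ ⟨g', hg', w', hw', rfl⟩ z hz
    have h1 : T.dist w (g⁻¹ • z) + T.dist (g⁻¹ • z) ((g⁻¹ * g') • w') =
        T.dist w ((g⁻¹ * g') • w') := by
      rw [← hds g w (g⁻¹ • z), ← hds g (g⁻¹ • z) _, ← hds g w ((g⁻¹ * g') • w'), smul_inv_smul,
        ← mul_smul, mul_inv_cancel_left]
      exact hz
    have h2 := hconv2 (g⁻¹ * g') (P.mul_mem (P.inv_mem hg) hg') w hw w' hw' _ h1
    have h3 := hPW' g hg _ h2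
    rwa [smul_inv_smul] at h3
  · obtain ⟨B, hB, hBW⟩ := hvert
    refine ⟨B, hB, ?_⟩
    rintro _ ⟨g, hg, w, hw, rfl⟩
    obtain ⟨g', hg', b, hb, rfl⟩ := hBW w hw
    exact ⟨g * g', Subgroup.mul_mem_sup hg hg', b, hb, mul_smul _ _ _⟩
  · rintro _ ⟨g, hg, w, hw, rfl⟩
    have h1 : ((P ⊔ H) ⊓ MulAction.stabilizer G w).relIndex (MulAction.stabilizer G w) ≠ 0 := by
      have h2 := hN4 w hw
      have h3 : (((P ⊔ H) ⊓ MulAction.stabilizer G w).subgroupOf
          (MulAction.stabilizer G w)).FiniteIndex := by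
        refine Subgroup.finiteIndex_of_le (H := (N w ⊔ (H ⊓ MulAction.stabilizer G w)).subgroupOf
          (MulAction.stabilizer G w)) ?_
        refine Subgroup.comap_mono (sup_le ?_ ?_)
        · exact le_inf ((hNP w hw).trans le_sup_left) (hN1 w hw)
        · exact inf_le_inf_right _ le_sup_right
      exact h3.index_ne_zero
    constructor
    show ((P ⊔ H) ⊓ MulAction.stabilizer G (g • w)).relIndex (MulAction.stabilizer G (g • w)) ≠ 0
    have hgK : g ∈ P ⊔ H := Subgroup.mem_sup_left hg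
    have h4 : MulAction.stabilizer G (g • w) =
        (MulAction.stabilizer G w).map (MulAut.conj g).toMonoidHom :=
      MulAction.stabilizer_smul_eq_stabilizer_map_conj g w
    have h5 : (P ⊔ H) ⊓ MulAction.stabilizer G (g • w) =
        ((P ⊔ H) ⊓ MulAction.stabilizer G w).map (MulAut.conj g).toMonoidHom := by
      rw [h4]
      ext x
      simp only [Subgroup.mem_inf, Subgroup.mem_map]
      constructor
      · rintro ⟨hx, s, hs, rfl⟩
        refine ⟨s, ⟨?_, hs⟩, rfl⟩
        have h6 : g⁻¹ * (g * s * g⁻¹) * g ∈ P ⊔ H :=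
          (P ⊔ H).mul_mem ((P ⊔ H).mul_mem ((P ⊔ H).inv_mem hgK) hx) hgK
        have h7 : g⁻¹ * (g * s * g⁻¹) * g = s := by group
        rwa [h7] at h6
      · rintro ⟨s, ⟨hsK, hs⟩, rfl⟩
        exact ⟨(P ⊔ H).mul_mem ((P ⊔ H).mul_mem hgK hsK) ((P ⊔ H).inv_mem hgK), s, hs, rfl⟩
    rw [h5, h4, Subgroup.relIndex_map_map_of_injective _ _ (MulAut.conj g).injective]
    exact h1

end Pool.Agent.LR
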