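import Pool.Agent.Lib.MP_836f52_al_LR.FamC
import Pool.Agent.Lib.MP_836f52_al_LR.FamR
import Pool.Agent.Lib.MP_836f52_al_LR.FamE
import Pool.Agent.Lib.MP_836f52_al_LR.FamMarks
import Pool.Agent.Lib.MP_836f52_al_LR.Corr
import Pool.Agent.Lib.MP_836f52_al_LR.Tup
import Pool.Agent.Lib.MP_836f52_al_LR.Poly
import Pool.Agent.Lib.MP_836f52_al_LR.Biset

set_option autoImplicit false

/-!
Row F6: Step 2, the retraction.

`Γ = G × H` acts on `V` through the first factor (`letI := prodAct G S.H V`; `γ • x` is `γ.1 • x` by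
`rfl`).  Let `N` be the bound of `exists_bound_E`, and `m`, `a`, `b` from `poly_one N`.
`exists_tup` (with `H = S.H'`, `E = EFam`) applied to
 * `X = CFam` and the exponents `0 : Fin m → ℕ` gives `T₁`, with an equivariant section
   `ι : CFam → T₁`, `q (ι c) = c` (for the index `0 : Fin m`, as `m > 0`);
 * `X = RFam` and the exponents `a` gives `T₂`;
 * `X = RFam` and the exponents `b` gives `W`.
`Z = T₁ ⊕ T₂` (with the action of Mathlib on sums).  `H'` acts freely on `Z` and `W` (apply the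
equivariant maps `q` and `free_C`, `free_R`).  The fibres are `FinMod`.  For `Δ` fixing adjacent `x`, `x'`
with `Δ ⊓ H' = ⊥` let `s = (E_x^Δ).ncard`, `1 ≤ s ≤ N` and `c = marks C_x Δ`; `marks R_x Δ = s c`
(`marks_R`).  So `marks Z_x Δ = c m + (s c) ∑ s ^ a i = (s c) ∑ s ^ b j = marks W_x Δ` (`poly_one`;
`marks_union`, `marks_bijOn` for the two summands); the same holds for `x'`, hence `hmarks`.
`hKW`: `trivial_R`, `trivial_E` and the triviality clause of `exists_tup`.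
The relation: `r z z' := ∃ c c', rC c c' ∧ z = Sum.inl (ι c) ∧ z' = Sum.inl (ι c')`.
It is symmetric, invariant, functional over every vertex (`c` is determined by `z`; `c' = (x', g)` by `g`
and `x'`).  Apply `corr` with `H = S.H'`, `K = S.K'` (`index_edge`, `cover_K'`, `tAct`).
Choose `x₀ ∈ W`; `s x = p (Sum.inl (ι (x, 1)))` for `x ∈ W`.  If `x`, `x'` in `W` are adjacent then
`s x = s x'`; by convexity and induction on the distance `s` is constant on `W`.  For `h ∈ H`: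
`(h, h) • s x₀ = s (h • x₀) = s x₀`, because `(h, h) • (x₀, 1) = (h • x₀, h h⁻¹)`.
Conclude by `vr_of_biset`.
-/

namespace Pool.Agent.LR

open Pool.Agent.Lib.MP_836f52_al_H7

universe u

namespace Data

variable {G V : Type u} [Group G] [MulAction G V] (S : Data G V)

private lemma s2_const {X : Type u} (hT : S.T.IsTree) (hW : IsConvex S.T S.W)
    (s : (x : V) → x ∈ S.W → X)
    (hs : ∀ (x y : V) (hx : x ∈ S.W) (hy : y ∈ S.W), S.T.Adj x y → s x hx = s y hy) :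
    ∀ (n : ℕ) (x y : V) (hx : x ∈ S.W) (hy : y ∈ S.W), S.T.dist x y = n → s x hx = s y hy := by
  intro n
  induction n with
  | zero =>
    intro x y hx hy h
    have := hT.1.dist_eq_zero_iff.1 h
    subst this
    rfl
  | succ n ih =>
    intro x y hx hy h
    have hne : x ≠ y := by
      intro h1
      rw [h1] at h
      simp at h
    obtain ⟨z, hz, e⟩ := first_step hT.1 hne
    have hd : S.T.dist x z = 1 := SimpleGraph.dist_eq_one_iff_adj.2 hz
    have hzW : z ∈ S.W := hW x hx y hy z (by omega)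
    exact (hs x z hx hzW hz).trans (ih z y hzW hy (by omega))

/-- fibres of a sum of two families -/
private lemma s2_sum {Γ : Type u} [Group Γ] {V' T₁ T₂ : Type u} [MulAction Γ V'] [MulAction Γ T₁]
    [MulAction Γ T₂] (H : Subgroup Γ) (hH : ∀ h ∈ H, ∀ x : V', h • x = x)
    (π₁ : T₁ → V') (π₂ : T₂ → V')
    (h₁ : ∀ (g : Γ) (t : T₁), π₁ (g • t) = g • π₁ t) (h₂ : ∀ (g : Γ) (t : T₂), π₂ (g • t) = g • π₂ t)
    (x : V') (f₁ : FinMod H {t | π₁ t = x}) (f₂ : FinMod H {t | π₂ t = x}) :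
    FinMod H {z : T₁ ⊕ T₂ | Sum.elim π₁ π₂ z = x} ∧
    ∀ Δ : Subgroup Γ, (∀ d ∈ Δ, d • x = x) →
      marks H {z : T₁ ⊕ T₂ | Sum.elim π₁ π₂ z = x} Δ =
        marks H {t | π₁ t = x} Δ + marks H {t | π₂ t = x} Δ := by
  have hset : {z : T₁ ⊕ T₂ | Sum.elim π₁ π₂ z = x} =
      (Sum.inl '' {t | π₁ t = x}) ∪ (Sum.inr '' {t | π₂ t = x}) := by
    ext z
    rcases z with t | t <;> simp
  have g₁ : FinMod H ((Sum.inl : T₁ → T₁ ⊕ T₂) '' {t | π₁ t = x}) :=
    FinMod.image Sum.inl (fun h _ y => rfl) f₁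
  have g₂ : FinMod H ((Sum.inr : T₂ → T₁ ⊕ T₂) '' {t | π₂ t = x}) :=
    FinMod.image Sum.inr (fun h _ y => rfl) f₂
  rw [hset]
  refine ⟨g₁.union g₂, fun Δ hΔ => ?_⟩
  have hHΛ : H ≤ MulAction.stabilizer Γ x := fun h hh => hH h hh x
  have hΔΛ : Δ ≤ MulAction.stabilizer Γ x := fun d hd => hΔ d hd
  rw [marks_union g₁ g₂ ?_ ?_ Δ]
  · rw [marks_bijOn (Λ := MulAction.stabilizer Γ x) hHΛ hΔΛ (A := {t | π₁ t = x}) ?_ Sum.inl
        (Sum.inl_injective.injOn.bijOn_image) (fun g _ y _ => rfl),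
      marks_bijOn (Λ := MulAction.stabilizer Γ x) hHΛ hΔΛ (A := {t | π₂ t = x}) ?_ Sum.inr
        (Sum.inr_injective.injOn.bijOn_image) (fun g _ y _ => rfl)]
    · intro g hg y hy
      have hg' : g • x = x := hg
      have hy' : π₂ y = x := hy
      change π₂ (g • y) = x
      rw [h₂, hy', hg']
    · intro g hg y hy
      have hg' : g • x = x := hg
      have hy' : π₁ y = x := hy
      change π₁ (g • y) = x
      rw [h₁, hy', hg']
  · rintro h hh _ ⟨t, ht, rfl⟩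
    have ht' : π₁ t = x := ht
    refine ⟨h • t, ?_, rfl⟩
    change π₁ (h • t) = x
    rw [h₁, ht', hH h hh]
  · rw [Set.disjoint_left]
    rintro _ ⟨t, _, rfl⟩ ⟨t', _, h⟩
    simp at h

theorem step2 (hS : S.Ok) : IsVirtualRetract S.H := by
  classical
  letI : MulAction (G × S.H) V := prodAct G S.H V
  have hact : ∀ (g : G × S.H) (x : V), g • x = g.1 • x := fun g x => rfl
  have hHV : ∀ h ∈ S.H', ∀ x : V, h • x = x := by
    intro h hh x
    rw [hact, (S.mem_H' h).1 hh, one_smul]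
  obtain ⟨N, hN⟩ := S.exists_bound_E hS
  obtain ⟨m, k, l, a, b, hm, hpoly⟩ := poly_one N
  have hπC : ∀ (g : G × S.H) (c : S.CFam), S.πC (g • c) = g • S.πC c := fun g c => rfl
  have hπR : ∀ (g : G × S.H) (c : S.RFam), S.πR (g • c) = g • S.πR c := fun g c => rfl
  have hπE : ∀ (g : G × S.H) (c : S.EFam), S.πE (g • c) = g • S.πE c := fun g c => rfl
  obtain ⟨T₁, _, π₁, q₁, eπ₁, eq₁, c₁, f₁, -, m₁, s₁⟩ := exists_tup S.πC hπC S.πE hπE S.H'
    S.H'_E (fun x => (hN x).1) (S.finMod_C hS) (fun _ : Fin m => 0)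
  obtain ⟨T₂, _, π₂, q₂, eπ₂, eq₂, c₂, f₂, -, m₂, -⟩ := exists_tup S.πR hπR S.πE hπE S.H'
    S.H'_E (fun x => (hN x).1) (S.finMod_R hS) a
  obtain ⟨W, _, πW, qW, eπW, eqW, cW, fW, tW, mW, -⟩ := exists_tup S.πR hπR S.πE hπE S.H'
    S.H'_E (fun x => (hN x).1) (S.finMod_R hS) b
  obtain ⟨ι, hι1, hι2⟩ := s₁ ⟨0, hm⟩ rfl
  have hπι : ∀ c, π₁ (ι c) = S.πC c := fun c => by rw [← c₁, hι2]
  have hιinj : Function.Injective ι := fun c d h => by rw [← hι2 c, h, hι2]
  have key : ∀ x x', S.T.Adj x x' → ∀ Δ : Subgroup (G × S.H),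
      (∀ d ∈ Δ, d • x = x ∧ d • x' = x') → Δ ⊓ S.H' = ⊥ →
      marks S.H' {z : T₁ ⊕ T₂ | Sum.elim π₁ π₂ z = x} Δ = marks S.H' {w | πW w = x} Δ := by
    intro x x' hx Δ hΔ hΔH
    rw [(s2_sum S.H' hHV π₁ π₂ eπ₁ eπ₂ x (f₁ x) (f₂ x)).2 Δ (fun d hd => (hΔ d hd).1),
      m₁ x Δ (fun d hd => (hΔ d hd).1), m₂ x Δ (fun d hd => (hΔ d hd).1),
      mW x Δ (fun d hd => (hΔ d hd).1)]
    obtain ⟨h1, h2⟩ := S.marks_R hS hx Δ hΔ hΔH
    rw [h1]
    set s := {e | S.πE e = x ∧ ∀ d ∈ Δ, d • e = e}.ncard with hs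
    have hsub : {e | S.πE e = x ∧ ∀ d ∈ Δ, d • e = e} ⊆ {e | S.πE e = x} := fun e he => he.1
    have hs1 : 1 ≤ s := (Set.ncard_pos ((hN x).1.subset hsub)).2 h2
    have hsN : s ≤ N := (Set.ncard_le_ncard hsub (hN x).1).trans (hN x).2
    have h3 := hpoly s hs1 hsN
    simp only [pow_zero, Finset.sum_const, Finset.card_univ, Fintype.card_fin, smul_eq_mul,
      mul_one]
    calc marks S.H' {c | S.πC c = x} Δ * m + s * marks S.H' {c | S.πC c = x} Δ * ∑ i, s ^ a i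
        = marks S.H' {c | S.πC c = x} Δ * (m + s * ∑ i, s ^ a i) := by ring
      _ = marks S.H' {c | S.πC c = x} Δ * (s * ∑ j, s ^ b j) := by rw [h3]
      _ = _ := by ring
  obtain ⟨Q, C, _, _, p, hp, hpr, fQ, mQ, -, -, -⟩ := corr (Γ := G × S.H) (T := S.T) (S.tAct hS)
    S.H' S.K' S.H'_normal S.K'_normal hHV (S.index_edge hS) (S.cover_K' hS)
    (Z := T₁ ⊕ T₂) (W := W) (Sum.elim π₁ π₂)
    (by
      intro g z
      rcases z with t | t
      · exact eπ₁ g t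
      · exact eπ₂ g t)
    πW eπW
    (by
      intro h hh z _ hz
      rcases z with t | t
      · have h1 : h • t = t := Sum.inl_injective hz
        refine S.free_C h hh (q₁ t) trivial ?_
        rw [← eq₁, h1]
      · have h1 : h • t = t := Sum.inr_injective hz
        refine S.free_R hS h hh (q₂ t) trivial ?_
        rw [← eq₂, h1])
    (by
      intro h hh t _ h1
      refine S.free_R hS h hh (qW t) trivial ?_
      rw [← eqW, h1])
    (fun x => (s2_sum S.H' hHV π₁ π₂ eπ₁ eπ₂ x (f₁ x) (f₂ x)).1) fW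
    (by
      intro k hk w hw
      refine tW k (πW w) ?_ ?_ w rfl
      · intro y hy
        refine S.trivial_R k hk y ?_
        rw [hy]
        exact hw
      · intro e he
        refine S.trivial_E k hk e ?_
        rw [he]
        exact hw)
    (by
      intro x x' hx Δ hΔ hΔH
      rw [key x x' hx Δ hΔ hΔH, key x' x hx.symm Δ (fun d hd => (hΔ d hd).symm) hΔH]
      ring)
    (fun z z' => ∃ c c', S.rC c c' ∧ z = Sum.inl (ι c) ∧ z' = Sum.inl (ι c'))
    (by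
      rintro z z' ⟨c, c', h1, h2, h3⟩
      exact ⟨c', c, ⟨h1.1.symm, h1.2.symm⟩, h3, h2⟩)
    (by
      rintro z z' ⟨c, c', h1, rfl, rfl⟩
      change S.T.Adj (π₁ (ι c)) (π₁ (ι c'))
      rw [hπι, hπι]
      exact h1.1)
    (by
      rintro g z z' ⟨c, c', h1, rfl, rfl⟩
      refine ⟨g • c, g • c', ⟨?_, ?_⟩, ?_, ?_⟩
      · rw [S.smul_C, S.smul_C]
        exact S.adj _ _ _ h1.1
      · rw [S.smul_C, S.smul_C]
        change g.1 * c.1.2 * (g.2 : G)⁻¹ = g.1 * c'.1.2 * (g.2 : G)⁻¹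
        rw [h1.2]
      · rw [hι1]
        rfl
      · rw [hι1]
        rfl)
    (by
      rintro z z₁ z₂ ⟨c, c', h1, rfl, rfl⟩ ⟨d, d', h2, h3, rfl⟩ h4
      have h5 : c = d := hιinj (Sum.inl_injective h3)
      subst h5
      have h6 : S.πC c' = S.πC d' := by
        rw [← hπι, ← hπι]
        exact h4
      have h7 : c' = d' := Subtype.ext (Prod.ext h6 (h1.2.symm.trans h2.2))
      rw [h7])
  obtain ⟨x₀, hx₀⟩ := hS.W_ne
  let pt : (x : V) → x ∈ S.W → S.CFam := fun x hx => ⟨(x, 1), by simpa using hx⟩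
  let s : (x : V) → x ∈ S.W → Q := fun x hx => p (Sum.inl (ι (pt x hx)))
  have hs := s2_const S hS.act.tree hS.W_conv s (by
    intro x y hx hy hxy
    exact hpr _ _ ⟨pt x hx, pt y hy, ⟨hxy, rfl⟩, rfl, rfl⟩)
  refine vr_of_biset S.H fQ mQ (s x₀ hx₀) ?_
  intro h
  have h1 : ((h : G), h) • s x₀ hx₀ = s ((h : G) • x₀) (S.W_smul h h.2 x₀ hx₀) := by
    change ((h : G), h) • p (Sum.inl (ι (pt x₀ hx₀))) =
      p (Sum.inl (ι (pt ((h : G) • x₀) (S.W_smul h h.2 x₀ hx₀))))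
    rw [← hp]
    have h2 : ((h : G), h) • pt x₀ hx₀ = pt ((h : G) • x₀) (S.W_smul h h.2 x₀ hx₀) := by
      apply Subtype.ext
      rw [S.smul_C]
      change ((h : G) • x₀, (h : G) * 1 * (h : G)⁻¹) = ((h : G) • x₀, (1 : G))
      simp
    rw [← h2, hι1]
    rfl
  rw [h1]
  exact hs _ _ _ (S.W_smul h h.2 x₀ hx₀) hx₀ rfl

end Data

end Pool.Agent.LR
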