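import Pool.Agent.Lib.MP_836f52_al_LR.StepTwo
import Pool.Agent.Lib.MP_836f52_al_LR.DepthLR
import Pool.Agent.Lib.MP_836f52_al_LR.StepOneA
import Pool.Agent.Lib.MP_836f52_al_LR.StepOneB
import Pool.Agent.Lib.MP_836f52_al_LR.GoodBasic

set_option autoImplicit false

/-!
Row D3: (LR) for groups acting on trees with finite edge stabilisers.

Let `H ≤ G` be finitely generated.  The stabilisers have (LR) and `HasF` (`Good.lr_f`) and are
residually finite (`resFin_of_hasLR`).  `core` (for `H`, any vertex) gives `W`; `stepOneA` gives `N`,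
`stepOneB` gives `P` and `W'`.  For `y ∈ W'` the group `(P ⊔ H) ⊓ stabilizer G y` embeds in the good
group `stabilizer G y` with finite index image, so it is finitely generated and good
(`Good.of_injective`), so it has `HasF` by `Good.lr_f`.  `depth_lr` (for `P ⊔ H` and `W'`)
gives `K`.  The `Data` with `T`, `H := P ⊔ H`, `K`, `W := W'` is `Ok`, and `Data.step2` shows that
`P ⊔ H` is a virtual retract.  Conclude by `isVR_iff` and `isVR_of_sup`.
-/

namespace Pool.Agent.LR

open Pool.Agent.Lib.MP_836f52_al_H7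

universe u

theorem tree_lr {G V : Type u} [Group G] [MulAction G V] {T : SimpleGraph V}
    (h : TreeAct G T) (hc : Cocompact G T)
    (hfg : ∀ x : V, Group.FG (MulAction.stabilizer G x))
    (hgood : ∀ x : V, Good (MulAction.stabilizer G x)) : HasLR G := by
  intro H hH
  have hlr : ∀ x : V, HasLR (MulAction.stabilizer G x) := fun x => ((hgood x).lr_f (hfg x)).1
  have hrf : ∀ x : V, ResFin (MulAction.stabilizer G x) := fun x => resFin_of_hasLR (hlr x)
  obtain ⟨x₀⟩ := h.tree.1.nonempty
  obtain ⟨W, hx₀, hconv, hHW, hvert, hedge⟩ := core h H hH x₀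
  obtain ⟨N, hN1, hN2, hN3, hN4, hN5⟩ := stepOneA h hlr H hH W hHW hedge
  obtain ⟨P, hP1, hP2, W', hne', hconv', hinv', hfin', hfi'⟩ :=
    stepOneB h H W ⟨x₀, hx₀⟩ hconv hHW hvert N hN1 hN2 hN3 hN4 hN5
  have hF : ∀ y ∈ W', HasF ↥((P ⊔ H) ⊓ MulAction.stabilizer G y) := by
    intro y hy
    have hle : (P ⊔ H) ⊓ MulAction.stabilizer G y ≤ MulAction.stabilizer G y := inf_le_right
    have hgd : Good ↥((P ⊔ H) ⊓ MulAction.stabilizer G y) :=
      (hgood y).of_injective (Subgroup.inclusion hle) (Subgroup.inclusion_injective hle)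
    have := hfg y
    have := hfi' y hy
    have h1 : Group.FG ↥(((P ⊔ H) ⊓ MulAction.stabilizer G y).subgroupOf
      (MulAction.stabilizer G y)) := Subgroup.fg_of_index_ne_zero _
    have e := Subgroup.subgroupOfEquivOfLe hle
    have h2 : Group.FG ↥((P ⊔ H) ⊓ MulAction.stabilizer G y) :=
      Group.fg_of_surjective (f := e.toMonoidHom) e.surjective
    exact (hgd.lr_f h2).2
  obtain ⟨K, hKn, hKf, hKe, hKs⟩ := depth_lr h hc hrf (P ⊔ H) W' hinv' hfin' hfi' hF
  let S : Data G V :=
    { T := T
      H := P ⊔ H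
      K := K
      W := W'
      K_normal := hKn
      adj := h.adj
      W_smul := hinv' }
  have hS : S.Ok :=
    { act := h
      coc := hc
      W_ne := hne'
      W_conv := hconv'
      W_fin := hfin'
      H_fi := hfi'
      K_fi := hKf
      K_edge := hKe
      sep := hKs }
  have h3 : IsVirtualRetract (P ⊔ H) := S.step2 hS
  rw [isVR_iff] at h3 ⊢
  exact isVR_of_sup H P hP1 hP2 h3

end Pool.Agent.LR
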